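import Pool.Agent.T6.H47.AP6

/-!
# Dirichlet polynomials supported on arithmetic progressions: final forms
-/

set_option autoImplicit false

namespace Pool.Agent.T6.H47.AP

open Finset Pool.Agent.TH705.DL

/-- the progression may be cut to `[N, 2N]` -/
theorem cut (N a q H : ℕ) (b : ℕ → ℂ) (hs : ∀ n ∈ Icc N (2 * N), b n ≠ 0 → ∃ h < H, n = a + q * h) :
    ∃ a' H' : ℕ, N ≤ a' ∧ (∀ h < H', a' + q * h ≤ 2 * N) ∧ H' ≤ H ∧
      ∀ n ∈ Icc N (2 * N), b n ≠ 0 → ∃ h < H', n = a' + q * h := by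
  classical
  obtain ⟨S, hS⟩ : ∃ S : Finset ℕ, S = (range H).filter (fun h => N ≤ a + q * h ∧ a + q * h ≤ 2 * N) :=
    ⟨_, rfl⟩
  rcases S.eq_empty_or_nonempty with he | hne
  · refine ⟨N, 0, le_rfl, fun h hh => absurd hh (Nat.not_lt_zero _), Nat.zero_le _, ?_⟩
    intro n hn hb
    exfalso
    obtain ⟨h, hh, rfl⟩ := hs n hn hb
    rw [mem_Icc] at hn
    have : h ∈ S := by
      rw [hS, mem_filter, mem_range]
      exact ⟨hh, hn⟩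
    rw [he] at this
    exact notMem_empty _ this
  · obtain ⟨h0, hh0⟩ : ∃ h0, h0 = S.min' hne := ⟨_, rfl⟩
    obtain ⟨h1, hh1⟩ : ∃ h1, h1 = S.max' hne := ⟨_, rfl⟩
    have m0 : h0 ∈ S := by rw [hh0]; exact S.min'_mem hne
    have m1 : h1 ∈ S := by rw [hh1]; exact S.max'_mem hne
    have k0 : h0 ≤ h1 := by rw [hh0]; exact S.min'_le h1 m1
    rw [hS, mem_filter, mem_range] at m0 m1
    refine ⟨a + q * h0, h1 - h0 + 1, m0.2.1, ?_, by omega, ?_⟩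
    · intro h hh
      calc a + q * h0 + q * h = a + q * (h0 + h) := by ring
        _ ≤ a + q * h1 := Nat.add_le_add_left (Nat.mul_le_mul_left q (by omega)) a
        _ ≤ 2 * N := m1.2.2
    · intro n hn hb
      obtain ⟨h, hh, rfl⟩ := hs n hn hb
      rw [mem_Icc] at hn
      have hmem : h ∈ S := by
        rw [hS, mem_filter, mem_range]
        exact ⟨hh, hn⟩
      have l0 : h0 ≤ h := by rw [hh0]; exact S.min'_le h hmem
      have l1 : h ≤ h1 := by rw [hh1]; exact S.le_max' h hmem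
      refine ⟨h - h0, by omega, ?_⟩
      have e : h = h0 + (h - h0) := by omega
      conv_lhs => rw [e]
      ring

theorem one_le_q (N q : ℕ) (θ : ℝ) (h0 : 0 ≤ θ) (hN : 1 ≤ N) (hq : (N : ℝ) ^ θ ≤ q) : 1 ≤ q := by
  have hN1 : (1 : ℝ) ≤ N := by exact_mod_cast hN
  have h1 : (1 : ℝ) ≤ q := (Real.one_le_rpow hN1 h0).trans hq
  exact_mod_cast h1

theorem main' (θ : ℝ) (h0 : 0 ≤ θ) (h1 : θ ≤ 1 / 9) (p A ε B : ℝ) (hp : 2 ≤ p) (hε : 0 < ε) :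
    ∃ K : ℝ, ∀ N T a q H : ℕ, 1 ≤ N → N ≤ T → (T : ℝ) ≤ (N : ℝ) ^ A →
      (N : ℝ) ^ θ ≤ q → (H : ℝ) ≤ B * (N : ℝ) ^ ex θ →
      ∀ b : ℕ → ℂ, (∀ n ∈ Icc N (2 * N), ‖b n‖ ≤ 1) →
        (∀ n ∈ Icc N (2 * N), b n ≠ 0 → ∃ h < H, n = a + q * h) →
        ∑ t ∈ Icc 1 T, ‖DD N b (t : ℝ)‖ ^ p ≤ K * (N : ℝ) ^ ε * ((N : ℝ) ^ p + T * (N : ℝ) ^ (p / 2)) := by
  obtain ⟨K, hK⟩ := main θ h0 h1 p A ε (max B 1) hp hε (le_max_right _ _)
  refine ⟨K, ?_⟩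
  intro N T a q H hN hNT hTA hqθ hHB b hb hs
  obtain ⟨a', H', ha', hH', hHH, hs'⟩ := cut N a q H b hs
  refine hK N T a' q H' hN hNT hTA ha' (one_le_q N q θ h0 hN hqθ) hqθ hH' ?_ b hb hs'
  have h2 : (H' : ℝ) ≤ H := by exact_mod_cast hHH
  have h3 : (0 : ℝ) ≤ (N : ℝ) ^ ex θ := by positivity
  calc (H' : ℝ) ≤ H := h2
    _ ≤ B * (N : ℝ) ^ ex θ := hHB
    _ ≤ max B 1 * (N : ℝ) ^ ex θ := mul_le_mul_of_nonneg_right (le_max_left _ _) h3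

theorem ex_ninth : ex (1 / 9) = 8 / 9 := by
  unfold ex
  have h : Real.sqrt (3 - 2 * (1 / 9)) = 5 / 3 := by
    rw [show (3 - 2 * (1 / 9) : ℝ) = (5 / 3) ^ 2 by norm_num]
    exact Real.sqrt_sq (by norm_num)
  rw [h]
  norm_num

theorem classes (p A ε : ℝ) (hp : 2 ≤ p) (hε : 0 < ε) :
    ∃ K : ℝ, ∀ N T q c : ℕ, 1 ≤ N → N ≤ T → (T : ℝ) ≤ (N : ℝ) ^ A → (N : ℝ) ^ (1 / 9 : ℝ) ≤ q →
      ∀ b : ℕ → ℂ, (∀ n ∈ Icc N (2 * N), ‖b n‖ ≤ 1) →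
        (∀ n ∈ Icc N (2 * N), b n ≠ 0 → n ≡ c [MOD q]) →
        ∑ t ∈ Icc 1 T, ‖DD N b (t : ℝ)‖ ^ p ≤ K * (N : ℝ) ^ ε * ((N : ℝ) ^ p + T * (N : ℝ) ^ (p / 2)) := by
  obtain ⟨K, hK⟩ := main' (1 / 9) (by norm_num) le_rfl p A ε 3 hp hε
  refine ⟨K, ?_⟩
  intro N T q c hN hNT hTA hq b hb hs
  have hN0 : (0 : ℝ) < N := by exact_mod_cast hN
  have hN1 : (1 : ℝ) ≤ N := by exact_mod_cast hN
  have hq1 := one_le_q N q (1 / 9) (by norm_num) hN hq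
  have hq0 : (0 : ℝ) < q := by exact_mod_cast hq1
  refine hK N T (c % q) q (2 * N / q + 1) hN hNT hTA hq ?_ b hb ?_
  · rw [ex_ninth]
    have h1 : ((2 * N / q : ℕ) : ℝ) ≤ 2 * N / q := by
      have := @Nat.cast_div_le ℝ _ _ _ (2 * N) q
      push_cast at this
      exact this
    have hNn : 0 < (N : ℝ) ^ (1 / 9 : ℝ) := by positivity
    have h2 : 2 * (N : ℝ) / q ≤ 2 * (N : ℝ) ^ (8 / 9 : ℝ) := by
      rw [div_le_iff₀ hq0]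
      have e : (N : ℝ) = (N : ℝ) ^ (8 / 9 : ℝ) * (N : ℝ) ^ (1 / 9 : ℝ) := by
        rw [← Real.rpow_add hN0]
        norm_num
      have h3 : (N : ℝ) ^ (8 / 9 : ℝ) * (N : ℝ) ^ (1 / 9 : ℝ) ≤ (N : ℝ) ^ (8 / 9 : ℝ) * q :=
        mul_le_mul_of_nonneg_left hq (by positivity)
      rw [← e] at h3
      linarith
    have h3 : 1 ≤ (N : ℝ) ^ (8 / 9 : ℝ) := Real.one_le_rpow hN1 (by norm_num)
    push_cast
    linarith
  · intro n hn hbn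
    have h1 := hs n hn hbn
    rw [mem_Icc] at hn
    refine ⟨n / q, ?_, ?_⟩
    · have := Nat.div_le_div_right (c := q) hn.2
      omega
    · have h2 : n % q = c % q := h1
      rw [← h2]
      exact (Nat.mod_add_div n q).symm

end Pool.Agent.T6.H47.AP
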