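import Mathlib

/-!
# Near coincidences of products in an arithmetic progression

`P = {a, a + q, …, a + (H-1) q}`, `N ≤ a`, `q H ≤ 2 N`. The number of the quadruples of elements of `P`
with `|n₁ n₂ - n₃ n₄| ≤ Δ` is at most `36 D (H² + H Δ / q² + H³ Δ / (q N))`, where `D` bounds the
number of divisors.
-/

set_option autoImplicit false

namespace Pool.Agent.T6.H47.AP

open Finset

/-- nonzero integers of modulus at most `x` -/
theorem card_abs_le (S : Finset ℤ) (x : ℝ) (hx : 0 ≤ x) (h : ∀ w ∈ S, w ≠ 0 ∧ |(w : ℝ)| ≤ x) :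
    (S.card : ℝ) ≤ 2 * x := by
  have hsub : S ⊆ (Icc (-⌊x⌋) ⌊x⌋).erase 0 := by
    intro w hw
    obtain ⟨h0, h1⟩ := h w hw
    rw [abs_le] at h1
    rw [mem_erase, mem_Icc]
    refine ⟨h0, ?_, ?_⟩
    · have : -w ≤ ⌊x⌋ := Int.le_floor.2 (by push_cast; linarith)
      linarith
    · exact Int.le_floor.2 h1.2
  have hf : 0 ≤ ⌊x⌋ := Int.floor_nonneg.2 hx
  have h2 := card_le_card hsub
  rw [card_erase_of_mem (by rw [mem_Icc]; constructor <;> linarith), Int.card_Icc] at h2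
  have h3 : ((⌊x⌋ + 1 - -⌊x⌋).toNat : ℤ) = 2 * ⌊x⌋ + 1 := by
    rw [Int.toNat_of_nonneg (by linarith)]
    ring
  have h4 : ((⌊x⌋ + 1 - -⌊x⌋).toNat - 1 : ℕ) = (2 * ⌊x⌋).toNat := by omega
  rw [h4] at h2
  have h5 : (S.card : ℤ) ≤ 2 * ⌊x⌋ := by
    have : (S.card : ℤ) ≤ ((2 * ⌊x⌋).toNat : ℤ) := by exact_mod_cast h2
    rwa [Int.toNat_of_nonneg (by linarith)] at this
  have h6 : (S.card : ℝ) ≤ 2 * (⌊x⌋ : ℝ) := by exact_mod_cast h5
  have h7 := Int.floor_le x
  linarith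

/-- integers `y` with `|c + q y| ≤ R` -/
theorem card_arith (S : Finset ℤ) (c q R : ℝ) (hq : 0 < q) (hR : 0 ≤ R)
    (h : ∀ y ∈ S, |c + q * (y : ℝ)| ≤ R) : (S.card : ℝ) ≤ 2 * R / q + 1 := by
  set u : ℝ := (-R - c) / q with hu
  set v : ℝ := (R - c) / q with hv
  have hsub : S ⊆ Icc ⌈u⌉ ⌊v⌋ := by
    intro y hy
    have h1 := h y hy
    rw [abs_le] at h1
    rw [mem_Icc]
    refine ⟨Int.ceil_le.2 ?_, Int.le_floor.2 ?_⟩
    · rw [hu, div_le_iff₀ hq]; nlinarith
    · rw [hv, le_div_iff₀ hq]; nlinarith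
  have huv : u ≤ v := by
    rw [hu, hv]
    apply div_le_div_of_nonneg_right _ hq.le
    linarith
  have h2 := card_le_card hsub
  rw [Int.card_Icc] at h2
  have h3 : (S.card : ℝ) ≤ ((⌊v⌋ + 1 - ⌈u⌉).toNat : ℝ) := by exact_mod_cast h2
  refine h3.trans ?_
  have h4 : ((⌊v⌋ + 1 - ⌈u⌉).toNat : ℝ) = ((max (⌊v⌋ + 1 - ⌈u⌉) 0 : ℤ) : ℝ) := by
    rw [← Int.toNat_eq_max]
    push_cast
    rfl
  rw [h4]
  push_cast
  have h5 : v - u = 2 * R / q := by
    rw [hu, hv]
    field_simp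
    ring
  have h6 := Int.floor_le v
  have h7 := Int.le_ceil u
  apply max_le
  · linarith
  · have : 0 ≤ 2 * R / q := by positivity
    linarith

/-- integer factorizations of a nonzero integer -/
theorem card_factor (S : Finset (ℤ × ℤ)) (y : ℤ) (hy : y ≠ 0) (h : ∀ x ∈ S, x.1 * x.2 = y) :
    S.card ≤ 2 * y.natAbs.divisors.card := by
  have h1 : S.card ≤ (y.natAbs.divisors ×ˢ (univ : Finset Bool)).card := by
    apply card_le_card_of_injOn (fun x => (x.1.natAbs, decide (0 ≤ x.1)))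
    · intro x hx
      have hx' := h x hx
      rw [mem_coe, mem_product, Nat.mem_divisors]
      refine ⟨⟨?_, by omega⟩, mem_univ _⟩
      show x.1.natAbs ∣ y.natAbs
      rw [← hx', Int.natAbs_mul]
      exact dvd_mul_right _ _
    · intro x hx x' hx' hxx
      have e := h x hx
      have e' := h x' hx'
      have h2 : x.1.natAbs = x'.1.natAbs ∧ decide (0 ≤ x.1) = decide (0 ≤ x'.1) := by
        simpa using hxx
      have h3 : x.1 = x'.1 := by
        have h4 : (0 ≤ x.1 ↔ 0 ≤ x'.1) := by simpa using h2.2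
        omega
      have hx0 : x.1 ≠ 0 := by
        intro h0
        rw [h0, zero_mul] at e
        exact hy e.symm
      refine Prod.ext h3 ?_
      have h5 : x.1 * x.2 = x.1 * x'.2 := by rw [e, h3, e']
      exact mul_left_cancel₀ hx0 h5
  rw [card_product, card_univ, Fintype.card_bool] at h1
  omega

end Pool.Agent.T6.H47.AP
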