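import Pool.Agent.T6.H47.AP1

/-!
# Near coincidences of products in an arithmetic progression: the count
-/

set_option autoImplicit false

namespace Pool.Agent.T6.H47.AP

open Finset

theorem card_le_fib {α β : Type*} [DecidableEq β] (S : Finset α) (f : α → β) (W : Finset β)
    (hf : ∀ x ∈ S, f x ∈ W) (B : ℝ) (hB : ∀ w ∈ W, ((S.filter (fun x => f x = w)).card : ℝ) ≤ B) :
    (S.card : ℝ) ≤ W.card * B := by
  rw [card_eq_sum_card_fiberwise (f := f) (t := W) (fun x hx => hf x hx)]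
  push_cast
  calc ∑ w ∈ W, ((S.filter (fun x => f x = w)).card : ℝ) ≤ ∑ w ∈ W, B := sum_le_sum hB
    _ = W.card * B := by rw [sum_const, nsmul_eq_mul]

/-- the pairs `(w, y)` -/
noncomputable def PS (n q H : ℕ) (Δ : ℝ) : Finset (ℤ × ℤ) :=
  ((Icc (-(2 * (H : ℤ))) (2 * (H : ℤ))) ×ˢ ((Icc (-((H : ℤ) ^ 2)) ((H : ℤ) ^ 2)).erase 0)).filter
    (fun x => |(x.1 : ℝ) * n + q * (x.2 : ℝ)| ≤ Δ / q)

open Classical in
theorem pairs (N n q H : ℕ) (hN : 1 ≤ N) (hn : N ≤ n) (hq : 1 ≤ q) (Δ : ℝ) (hΔ : 0 ≤ Δ) :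
    ((PS n q H Δ).card : ℝ) ≤
      2 * Δ / (q : ℝ) ^ 2 + 16 * (H : ℝ) ^ 2 * Δ / (q * N) + 4 * q * (H : ℝ) ^ 2 / N := by
  have hN0 : (0 : ℝ) < N := by exact_mod_cast hN
  have hq0 : (0 : ℝ) < q := by exact_mod_cast hq
  have hNn : (N : ℝ) ≤ n := by exact_mod_cast hn
  have hn0 : (0 : ℝ) < n := lt_of_lt_of_le hN0 hNn
  have hR : 0 ≤ Δ / q := by positivity
  set S := PS n q H Δ with hS
  have hmem : ∀ x ∈ S, x.2 ≠ 0 ∧ |(x.2 : ℝ)| ≤ (H : ℝ) ^ 2 ∧ |(x.1 : ℝ) * n + q * (x.2 : ℝ)| ≤ Δ / q := by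
    intro x hx
    rw [hS, PS, mem_filter, mem_product, mem_erase, mem_Icc, mem_Icc] at hx
    refine ⟨hx.1.2.1, ?_, hx.2⟩
    rw [abs_le]
    obtain ⟨h1, h2⟩ := hx.1.2.2
    constructor
    · have : (-((H : ℤ) ^ 2) : ℝ) ≤ (x.2 : ℝ) := by exact_mod_cast h1
      push_cast at this
      linarith
    · exact_mod_cast h2
  set S0 := S.filter (fun x => x.1 = 0) with hS0
  set SA := S.filter (fun x => x.1 ≠ 0 ∧ |(x.1 : ℝ)| ≤ 2 * q * (H : ℝ) ^ 2 / N) with hSA
  set SB := S.filter (fun x => x.1 ≠ 0 ∧ ¬ |(x.1 : ℝ)| ≤ 2 * q * (H : ℝ) ^ 2 / N) with hSB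
  have hcov : S ⊆ S0 ∪ (SA ∪ SB) := by
    intro x hx
    rw [mem_union, mem_union, hS0, hSA, hSB, mem_filter, mem_filter, mem_filter]
    tauto
  have hcard : (S.card : ℝ) ≤ S0.card + (SA.card + SB.card) := by
    have h1 := card_le_card hcov
    have h2 := card_union_le S0 (SA ∪ SB)
    have h3 := card_union_le SA SB
    exact_mod_cast (h1.trans (h2.trans (Nat.add_le_add_left h3 _)))
  have h0 : (S0.card : ℝ) ≤ 2 * (Δ / (q : ℝ) ^ 2) := by
    have hinj : Set.InjOn (fun x : ℤ × ℤ => x.2) (S0 : Set (ℤ × ℤ)) := by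
      intro x hx x' hx' h
      rw [mem_coe, hS0, mem_filter] at hx hx'
      exact Prod.ext (by rw [hx.2, hx'.2]) h
    rw [← card_image_of_injOn hinj]
    apply card_abs_le _ _ (by positivity)
    intro y hy
    rw [mem_image] at hy
    obtain ⟨x, hx, rfl⟩ := hy
    rw [hS0, mem_filter] at hx
    obtain ⟨h1, _, h3⟩ := hmem x hx.1
    refine ⟨h1, ?_⟩
    rw [hx.2] at h3
    simp only [Int.cast_zero, zero_mul, zero_add, abs_mul, abs_of_pos hq0] at h3
    rw [le_div_iff₀ (by positivity)]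
    rw [le_div_iff₀ hq0] at h3
    nlinarith
  have hA : (SA.card : ℝ) ≤ (4 * q * (H : ℝ) ^ 2 / N) * (2 * (Δ / q) / q + 1) := by
    have hW : ((SA.image (fun x => x.1)).card : ℝ) ≤ 2 * (2 * q * (H : ℝ) ^ 2 / N) := by
      apply card_abs_le _ _ (by positivity)
      intro w hw
      rw [mem_image] at hw
      obtain ⟨x, hx, rfl⟩ := hw
      rw [hSA, mem_filter] at hx
      exact hx.2
    have h1 := card_le_fib SA (fun x => x.1) (SA.image (fun x => x.1))
      (fun x hx => mem_image_of_mem _ hx) (2 * (Δ / q) / q + 1) (by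
        intro w _
        have hinj : Set.InjOn (fun x : ℤ × ℤ => x.2) (SA.filter (fun x => x.1 = w) : Set (ℤ × ℤ)) := by
          intro x hx x' hx' h
          rw [mem_coe, mem_filter] at hx hx'
          exact Prod.ext (by rw [hx.2, hx'.2]) h
        rw [← card_image_of_injOn hinj]
        apply card_arith _ ((w : ℝ) * n) q (Δ / q) hq0 hR
        intro y hy
        rw [mem_image] at hy
        obtain ⟨x, hx, rfl⟩ := hy
        rw [mem_filter, hSA, mem_filter] at hx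
        have := (hmem x hx.1.1).2.2
        rw [hx.2] at this
        exact this)
    refine h1.trans ?_
    have h2 : 2 * (2 * q * (H : ℝ) ^ 2 / N) = 4 * q * (H : ℝ) ^ 2 / N := by ring
    rw [h2] at hW
    exact mul_le_mul_of_nonneg_right hW (by positivity)
  have hB : (SB.card : ℝ) ≤ (4 * Δ / (q * N)) * (2 * (H : ℝ) ^ 2) := by
    have hW : ((SB.image (fun x => x.1)).card : ℝ) ≤ 2 * (2 * Δ / (q * N)) := by
      apply card_abs_le _ _ (by positivity)
      intro w hw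
      rw [mem_image] at hw
      obtain ⟨x, hx, rfl⟩ := hw
      rw [hSB, mem_filter] at hx
      refine ⟨hx.2.1, ?_⟩
      obtain ⟨_, h2, h3⟩ := hmem x hx.1
      have h4 := hx.2.2
      push Not at h4
      rw [div_lt_iff₀ hN0] at h4
      -- `|w| n ≤ |w n + q y| + q |y|`
      have h5 : |(x.1 : ℝ)| * n ≤ |(x.1 : ℝ) * n + q * (x.2 : ℝ)| + q * |(x.2 : ℝ)| := by
        have e : (x.1 : ℝ) * n = ((x.1 : ℝ) * n + q * (x.2 : ℝ)) - q * (x.2 : ℝ) := by ring
        calc |(x.1 : ℝ)| * n = |(x.1 : ℝ) * n| := by rw [abs_mul, abs_of_pos hn0]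
          _ = |((x.1 : ℝ) * n + q * (x.2 : ℝ)) - q * (x.2 : ℝ)| := by rw [← e]
          _ ≤ |(x.1 : ℝ) * n + q * (x.2 : ℝ)| + |q * (x.2 : ℝ)| := abs_sub _ _
          _ = _ := by rw [abs_mul (q : ℝ), abs_of_pos hq0]
      have h6 : (q : ℝ) * |(x.2 : ℝ)| ≤ q * (H : ℝ) ^ 2 := mul_le_mul_of_nonneg_left h2 hq0.le
      have h7 : |(x.1 : ℝ)| * N ≤ |(x.1 : ℝ)| * n := mul_le_mul_of_nonneg_left hNn (abs_nonneg _)
      have h8 : |(x.1 : ℝ)| * N ≤ 2 * (Δ / q) := by nlinarith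
      rw [le_div_iff₀ (by positivity)]
      have h9 : 2 * (Δ / q) * q = 2 * Δ := by field_simp
      nlinarith
    have h1 := card_le_fib SB (fun x => x.1) (SB.image (fun x => x.1))
      (fun x hx => mem_image_of_mem _ hx) (2 * (H : ℝ) ^ 2) (by
        intro w _
        have hinj : Set.InjOn (fun x : ℤ × ℤ => x.2) (SB.filter (fun x => x.1 = w) : Set (ℤ × ℤ)) := by
          intro x hx x' hx' h
          rw [mem_coe, mem_filter] at hx hx'
          exact Prod.ext (by rw [hx.2, hx'.2]) h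
        rw [← card_image_of_injOn hinj]
        apply card_abs_le _ _ (by positivity)
        intro y hy
        rw [mem_image] at hy
        obtain ⟨x, hx, rfl⟩ := hy
        rw [mem_filter, hSB, mem_filter] at hx
        exact ⟨(hmem x hx.1.1).1, (hmem x hx.1.1).2.1⟩)
    refine h1.trans ?_
    have h2 : 2 * (2 * Δ / (q * N)) = 4 * Δ / (q * N) := by ring
    rw [h2] at hW
    exact mul_le_mul_of_nonneg_right hW (by positivity)
  refine hcard.trans ?_
  have e : 2 * (Δ / (q : ℝ) ^ 2) + ((4 * q * (H : ℝ) ^ 2 / N) * (2 * (Δ / q) / q + 1) +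
      (4 * Δ / (q * N)) * (2 * (H : ℝ) ^ 2)) =
      2 * Δ / (q : ℝ) ^ 2 + 16 * (H : ℝ) ^ 2 * Δ / (q * N) + 4 * q * (H : ℝ) ^ 2 / N := by
    field_simp
    ring
  rw [← e]
  linarith

/-- the quadruples -/
noncomputable def QS (a q H : ℕ) (Δ : ℝ) : Finset ((ℕ × ℕ) × (ℕ × ℕ)) :=
  ((range H ×ˢ range H) ×ˢ (range H ×ˢ range H)).filter
    (fun x => |((a : ℝ) + q * x.1.1) * (a + q * x.1.2) - (a + q * x.2.1) * (a + q * x.2.2)| ≤ Δ)

open Classical in
theorem quads (N a q H : ℕ) (hN : 1 ≤ N) (ha : N ≤ a) (hq : 1 ≤ q) (hH : q * H ≤ 2 * N)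
    (D : ℝ) (hD : ∀ m ∈ Icc 1 (H ^ 2), (m.divisors.card : ℝ) ≤ D) (hD1 : 1 ≤ D)
    (Δ : ℝ) (hΔ : 0 ≤ Δ) :
    ((QS a q H Δ).card : ℝ) ≤
      36 * D * ((H : ℝ) ^ 2 + (H * Δ / (q : ℝ) ^ 2 + (H : ℝ) ^ 3 * Δ / (q * N))) := by
  have hN0 : (0 : ℝ) < N := by exact_mod_cast hN
  have hq0 : (0 : ℝ) < q := by exact_mod_cast hq
  have hNa : (N : ℝ) ≤ a := by exact_mod_cast ha
  have ha0 : (0 : ℝ) < a := lt_of_lt_of_le hN0 hNa
  set S := QS a q H Δ with hS
  have hmem : ∀ x ∈ S, (x.1.1 < H ∧ x.1.2 < H) ∧ (x.2.1 < H ∧ x.2.2 < H) ∧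
      |((a : ℝ) + q * x.1.1) * (a + q * x.1.2) - (a + q * x.2.1) * (a + q * x.2.2)| ≤ Δ := by
    intro x hx
    rw [hS, QS, mem_filter, mem_product, mem_product, mem_product, mem_range, mem_range, mem_range,
      mem_range] at hx
    exact ⟨hx.1.1, hx.1.2, hx.2⟩
  set S1 := S.filter (fun x => x.1.1 = x.2.1) with hS1
  set S2 := S.filter (fun x => x.1.2 = x.2.1) with hS2
  set S3 := S.filter (fun x => x.1.1 ≠ x.2.1 ∧ x.1.2 ≠ x.2.1) with hS3
  have hcov : S ⊆ S1 ∪ (S2 ∪ S3) := by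
    intro x hx
    rw [mem_union, mem_union, hS1, hS2, hS3, mem_filter, mem_filter, mem_filter]
    tauto
  have hcard : (S.card : ℝ) ≤ S1.card + (S2.card + S3.card) := by
    have h1 := card_le_card hcov
    have h2 := card_union_le S1 (S2 ∪ S3)
    have h3 := card_union_le S2 S3
    exact_mod_cast (h1.trans (h2.trans (Nat.add_le_add_left h3 _)))
  have hHH : ((range H ×ˢ range H).card : ℝ) = (H : ℝ) ^ 2 := by
    rw [card_product, card_range]
    push_cast
    ring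
  -- common bound for the last factor
  have key : ∀ (n : ℝ) (x y : ℝ), (a : ℝ) ≤ n → |n * (q * (x - y))| ≤ Δ → |(-x) + 1 * y| ≤ Δ / (q * N) := by
    intro n x y hn h
    have hn0 : 0 < n := lt_of_lt_of_le ha0 hn
    rw [abs_mul, abs_mul, abs_of_pos hn0, abs_of_pos hq0] at h
    have e : |(-x) + 1 * y| = |x - y| := by
      rw [← abs_neg]
      congr 1
      ring
    rw [e, le_div_iff₀ (by positivity)]
    have h1 : (N : ℝ) * (q * |x - y|) ≤ n * (q * |x - y|) :=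
      mul_le_mul_of_nonneg_right (hNa.trans hn) (by positivity)
    nlinarith
  have h1 : (S1.card : ℝ) ≤ (H : ℝ) ^ 2 * (2 * (Δ / (q * N)) / 1 + 1) := by
    have h := card_le_fib S1 (fun x => (x.2.1, x.1.2)) (range H ×ˢ range H) (by
      intro x hx
      rw [hS1, mem_filter] at hx
      have := hmem x hx.1
      rw [mem_product, mem_range, mem_range]
      exact ⟨this.2.1.1, this.1.2⟩) (2 * (Δ / (q * N)) / 1 + 1) (by
      intro w _
      have hinj : Set.InjOn (fun x : (ℕ × ℕ) × (ℕ × ℕ) => (x.2.2 : ℤ))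
          (S1.filter (fun x => (x.2.1, x.1.2) = w) : Set ((ℕ × ℕ) × (ℕ × ℕ))) := by
        intro x hx x' hx' h
        rw [mem_coe, mem_filter, hS1, mem_filter] at hx hx'
        have e1 := hx.2.trans hx'.2.symm
        rw [Prod.mk.injEq] at e1
        have h' : ((x.2.2 : ℕ) : ℤ) = ((x'.2.2 : ℕ) : ℤ) := h
        have e2 : x.2.2 = x'.2.2 := by exact_mod_cast h'
        have e3 := hx.1.2
        have e4 := hx'.1.2
        refine Prod.ext (Prod.ext ?_ e1.2) (Prod.ext e1.1 e2)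
        rw [e3, e4, e1.1]
      rw [← card_image_of_injOn hinj]
      apply card_arith _ (-(w.2 : ℝ)) 1 (Δ / (q * N)) one_pos (by positivity)
      intro y hy
      rw [mem_image] at hy
      obtain ⟨x, hx, rfl⟩ := hy
      rw [mem_filter, hS1, mem_filter] at hx
      have h3 := (hmem x hx.1.1).2.2
      have e3 := hx.1.2
      have hw : w.2 = x.1.2 := by rw [← hx.2]
      rw [hw]
      push_cast
      apply key (a + q * x.2.1)
      · have : (0 : ℝ) ≤ q * x.2.1 := by positivity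
        linarith
      · rw [e3] at h3
        convert h3 using 2
        ring)
    rw [hHH] at h
    exact h
  have h2 : (S2.card : ℝ) ≤ (H : ℝ) ^ 2 * (2 * (Δ / (q * N)) / 1 + 1) := by
    have h := card_le_fib S2 (fun x => (x.2.1, x.1.1)) (range H ×ˢ range H) (by
      intro x hx
      rw [hS2, mem_filter] at hx
      have := hmem x hx.1
      rw [mem_product, mem_range, mem_range]
      exact ⟨this.2.1.1, this.1.1⟩) (2 * (Δ / (q * N)) / 1 + 1) (by
      intro w _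
      have hinj : Set.InjOn (fun x : (ℕ × ℕ) × (ℕ × ℕ) => (x.2.2 : ℤ))
          (S2.filter (fun x => (x.2.1, x.1.1) = w) : Set ((ℕ × ℕ) × (ℕ × ℕ))) := by
        intro x hx x' hx' h
        rw [mem_coe, mem_filter, hS2, mem_filter] at hx hx'
        have e1 := hx.2.trans hx'.2.symm
        rw [Prod.mk.injEq] at e1
        have h' : ((x.2.2 : ℕ) : ℤ) = ((x'.2.2 : ℕ) : ℤ) := h
        have e2 : x.2.2 = x'.2.2 := by exact_mod_cast h'
        have e3 := hx.1.2
        have e4 := hx'.1.2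
        refine Prod.ext (Prod.ext e1.2 ?_) (Prod.ext e1.1 e2)
        rw [e3, e4, e1.1]
      rw [← card_image_of_injOn hinj]
      apply card_arith _ (-(w.2 : ℝ)) 1 (Δ / (q * N)) one_pos (by positivity)
      intro y hy
      rw [mem_image] at hy
      obtain ⟨x, hx, rfl⟩ := hy
      rw [mem_filter, hS2, mem_filter] at hx
      have h3 := (hmem x hx.1.1).2.2
      have e3 := hx.1.2
      have hw : w.2 = x.1.1 := by rw [← hx.2]
      rw [hw]
      push_cast
      apply key (a + q * x.2.1)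
      · have : (0 : ℝ) ≤ q * x.2.1 := by positivity
        linarith
      · rw [e3] at h3
        convert h3 using 2
        ring)
    rw [hHH] at h
    exact h
  -- the main part
  have h3 : (S3.card : ℝ) ≤ (H * (2 * Δ / (q : ℝ) ^ 2 + 16 * (H : ℝ) ^ 2 * Δ / (q * N) +
      4 * q * (H : ℝ) ^ 2 / N)) * (2 * D) := by
    set g : (ℕ × ℕ) × (ℕ × ℕ) → ℕ × (ℤ × ℤ) := fun x => (x.2.1,
      ((x.1.1 : ℤ) + x.1.2 - x.2.1 - x.2.2, ((x.1.1 : ℤ) - x.2.1) * ((x.1.2 : ℤ) - x.2.1))) with hg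
    set W : Finset (ℕ × (ℤ × ℤ)) := S3.image g with hW
    have hWc : (W.card : ℝ) ≤ H * (2 * Δ / (q : ℝ) ^ 2 + 16 * (H : ℝ) ^ 2 * Δ / (q * N) +
        4 * q * (H : ℝ) ^ 2 / N) := by
      have h := card_le_fib W (fun z => z.1) (range H) (by
        intro z hz
        rw [hW, mem_image] at hz
        obtain ⟨x, hx, rfl⟩ := hz
        rw [hS3, mem_filter] at hx
        rw [mem_range]
        exact (hmem x hx.1).2.1.1) _ (by
        intro h3 _
        have hinj : Set.InjOn (fun z : ℕ × (ℤ × ℤ) => z.2)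
            (W.filter (fun z => z.1 = h3) : Set (ℕ × (ℤ × ℤ))) := by
          intro z hz z' hz' h
          rw [mem_coe, mem_filter] at hz hz'
          exact Prod.ext (by rw [hz.2, hz'.2]) h
        rw [← card_image_of_injOn hinj]
        have hsub : (W.filter (fun z => z.1 = h3)).image (fun z => z.2) ⊆ PS (a + q * h3) q H Δ := by
          intro p hp
          rw [mem_image] at hp
          obtain ⟨z, hz, rfl⟩ := hp
          rw [mem_filter, hW, mem_image] at hz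
          obtain ⟨⟨x, hx, rfl⟩, hx3⟩ := hz
          rw [hS3, mem_filter] at hx
          obtain ⟨⟨b1, b2⟩, ⟨b3, b4⟩, b5⟩ := hmem x hx.1
          have hx3' : x.2.1 = h3 := hx3
          have c1 : -(H : ℤ) < (x.1.1 : ℤ) - x.2.1 ∧ (x.1.1 : ℤ) - x.2.1 < H := by omega
          have c2 : -(H : ℤ) < (x.1.2 : ℤ) - x.2.1 ∧ (x.1.2 : ℤ) - x.2.1 < H := by omega
          have c3 : (x.1.1 : ℤ) - x.2.1 ≠ 0 := by have := hx.2.1; omega
          have c4 : (x.1.2 : ℤ) - x.2.1 ≠ 0 := by have := hx.2.2; omega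
          have c5 : |((x.1.1 : ℤ) - x.2.1) * ((x.1.2 : ℤ) - x.2.1)| ≤ (H : ℤ) ^ 2 := by
            rw [abs_mul, pow_two]
            exact mul_le_mul (abs_le.2 ⟨by linarith [c1.1], by linarith [c1.2]⟩)
              (abs_le.2 ⟨by linarith [c2.1], by linarith [c2.2]⟩) (abs_nonneg _) (by positivity)
          show (_, _) ∈ PS (a + q * h3) q H Δ
          rw [PS, mem_filter, mem_product, mem_erase, mem_Icc, mem_Icc]
          refine ⟨⟨⟨?_, ?_⟩, mul_ne_zero c3 c4, (abs_le.1 c5).1, (abs_le.1 c5).2⟩, ?_⟩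
          · show -(2 * (H : ℤ)) ≤ (x.1.1 : ℤ) + x.1.2 - x.2.1 - x.2.2
            omega
          · show (x.1.1 : ℤ) + x.1.2 - x.2.1 - x.2.2 ≤ 2 * (H : ℤ)
            omega
          · rw [le_div_iff₀ hq0]
            refine le_trans (le_of_eq ?_) b5
            rw [← hx3']
            have e : ((a : ℝ) + q * x.1.1) * (a + q * x.1.2) - (a + q * x.2.1) * (a + q * x.2.2) =
              ((((x.1.1 : ℤ) + x.1.2 - x.2.1 - x.2.2 : ℤ) : ℝ) * ((a + q * x.2.1 : ℕ) : ℝ) +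
                q * ((((x.1.1 : ℤ) - x.2.1) * ((x.1.2 : ℤ) - x.2.1) : ℤ) : ℝ)) * q := by
              push_cast
              ring
            rw [e, abs_mul _ (q : ℝ), abs_of_pos hq0]
        have h4 : (((W.filter (fun z => z.1 = h3)).image (fun z => z.2)).card : ℝ) ≤
            ((PS (a + q * h3) q H Δ).card : ℝ) := by exact_mod_cast card_le_card hsub
        exact h4.trans (pairs N (a + q * h3) q H hN (by omega) hq Δ hΔ))
      rw [card_range] at h
      exact h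
    have h := card_le_fib S3 g W (fun x hx => mem_image_of_mem _ hx) (2 * D) (by
      intro z hz
      rw [hW, mem_image] at hz
      obtain ⟨x0, hx0, rfl⟩ := hz
      rw [hS3, mem_filter] at hx0
      obtain ⟨⟨b1, b2⟩, ⟨b3, b4⟩, _⟩ := hmem x0 hx0.1
      set y : ℤ := ((x0.1.1 : ℤ) - x0.2.1) * ((x0.1.2 : ℤ) - x0.2.1) with hy
      have c1 : -(H : ℤ) < (x0.1.1 : ℤ) - x0.2.1 ∧ (x0.1.1 : ℤ) - x0.2.1 < H := by omega
      have c2 : -(H : ℤ) < (x0.1.2 : ℤ) - x0.2.1 ∧ (x0.1.2 : ℤ) - x0.2.1 < H := by omega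
      have c3 : (x0.1.1 : ℤ) - x0.2.1 ≠ 0 := by have := hx0.2.1; omega
      have c4 : (x0.1.2 : ℤ) - x0.2.1 ≠ 0 := by have := hx0.2.2; omega
      have c5 : |y| ≤ (H : ℤ) ^ 2 := by
        rw [hy, abs_mul, pow_two]
        exact mul_le_mul (abs_le.2 ⟨by linarith [c1.1], by linarith [c1.2]⟩)
          (abs_le.2 ⟨by linarith [c2.1], by linarith [c2.2]⟩) (abs_nonneg _) (by positivity)
      have hy0 : y ≠ 0 := mul_ne_zero c3 c4
      have hinj : Set.InjOn (fun x : (ℕ × ℕ) × (ℕ × ℕ) => ((x.1.1 : ℤ) - x.2.1, (x.1.2 : ℤ) - x.2.1))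
          (S3.filter (fun x => g x = g x0) : Set ((ℕ × ℕ) × (ℕ × ℕ))) := by
        intro x hx x' hx' h
        rw [mem_coe, mem_filter] at hx hx'
        have e1 := hx.2.trans hx'.2.symm
        simp only [hg, Prod.mk.injEq] at e1 h
        have e2 := e1.1
        have e3 := e1.2.1
        have e4 := h.1
        have e5 := h.2
        refine Prod.ext (Prod.ext ?_ ?_) (Prod.ext e2 ?_) <;> omega
      rw [← card_image_of_injOn hinj]
      have h5 := card_factor ((S3.filter (fun x => g x = g x0)).image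
        (fun x : (ℕ × ℕ) × (ℕ × ℕ) => ((x.1.1 : ℤ) - x.2.1, (x.1.2 : ℤ) - x.2.1))) y hy0 (by
          intro p hp
          rw [mem_image] at hp
          obtain ⟨x, hx, rfl⟩ := hp
          rw [mem_filter] at hx
          have e1 := hx.2
          simp only [hg, Prod.mk.injEq] at e1
          exact e1.2.2)
      have h6 : (y.natAbs.divisors.card : ℝ) ≤ D := by
        apply hD
        rw [mem_Icc]
        constructor
        · omega
        · have : (y.natAbs : ℤ) ≤ ((H ^ 2 : ℕ) : ℤ) := by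
            rw [Int.natCast_natAbs]
            push_cast
            exact c5
          exact_mod_cast this
      calc _ ≤ ((2 * y.natAbs.divisors.card : ℕ) : ℝ) := by exact_mod_cast h5
        _ = 2 * (y.natAbs.divisors.card : ℝ) := by push_cast; ring
        _ ≤ 2 * D := by linarith)
    exact h.trans (mul_le_mul_of_nonneg_right hWc (by linarith))
  refine hcard.trans ?_
  -- final arithmetic
  obtain ⟨A, hA⟩ : ∃ A : ℝ, A = (H : ℝ) * Δ / (q : ℝ) ^ 2 := ⟨_, rfl⟩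
  obtain ⟨B, hB⟩ : ∃ B : ℝ, B = (H : ℝ) ^ 3 * Δ / (q * N) := ⟨_, rfl⟩
  have hA0 : 0 ≤ A := by rw [hA]; positivity
  have hB0 : 0 ≤ B := by rw [hB]; positivity
  have hH0 : (0 : ℝ) ≤ H := Nat.cast_nonneg _
  have hqH : (q : ℝ) * H ≤ 2 * N := by exact_mod_cast hH
  have e1 : (H : ℝ) ^ 2 * (2 * (Δ / (q * N)) / 1 + 1) ≤ 2 * B + (H : ℝ) ^ 2 := by
    have h4 : (H : ℝ) ^ 2 * (2 * (Δ / (q * N)) / 1 + 1) = 2 * ((H : ℝ) ^ 2 * Δ / (q * N)) + (H : ℝ) ^ 2 := by
      ring
    have h5 : (H : ℝ) ^ 2 * Δ / (q * N) ≤ B := by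
      rw [hB]
      apply div_le_div_of_nonneg_right _ (by positivity)
      apply mul_le_mul_of_nonneg_right _ hΔ
      rcases Nat.eq_zero_or_pos H with h0 | h0
      · rw [h0]; norm_num
      · have : (1 : ℝ) ≤ H := by exact_mod_cast h0
        nlinarith [pow_nonneg hH0 2]
    rw [h4]
    linarith
  have e2 : (H * (2 * Δ / (q : ℝ) ^ 2 + 16 * (H : ℝ) ^ 2 * Δ / (q * N) + 4 * q * (H : ℝ) ^ 2 / N)) *
      (2 * D) ≤ D * (4 * A + 32 * B + 16 * (H : ℝ) ^ 2) := by
    have h4 : (H * (2 * Δ / (q : ℝ) ^ 2 + 16 * (H : ℝ) ^ 2 * Δ / (q * N) + 4 * q * (H : ℝ) ^ 2 / N)) *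
        (2 * D) = D * (4 * A + 32 * B + 8 * (((q : ℝ) * H) * (H : ℝ) ^ 2 / N)) := by
      rw [hA, hB]
      ring
    have h5 : ((q : ℝ) * H) * (H : ℝ) ^ 2 / N ≤ 2 * (H : ℝ) ^ 2 := by
      rw [div_le_iff₀ hN0]
      nlinarith [pow_nonneg hH0 2]
    rw [h4]
    apply mul_le_mul_of_nonneg_left _ (by linarith)
    linarith
  have e3 : (S1.card : ℝ) + (S2.card + S3.card) ≤
      (2 * B + (H : ℝ) ^ 2) + ((2 * B + (H : ℝ) ^ 2) + D * (4 * A + 32 * B + 16 * (H : ℝ) ^ 2)) := by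
    linarith
  refine e3.trans ?_
  rw [← hA, ← hB]
  have hHsq : 0 ≤ (H : ℝ) ^ 2 := by positivity
  nlinarith [mul_nonneg (by linarith : (0:ℝ) ≤ D - 1) hB0, mul_nonneg (by linarith : (0:ℝ) ≤ D - 1) hHsq,
    mul_nonneg (by linarith : (0:ℝ) ≤ D) hA0]

end Pool.Agent.T6.H47.AP
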