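import Pool.Agent.TH705.DL.Core
import Pool.Agent.T6.H47.AP2

/-!
# The fourth moment of a Dirichlet polynomial supported on an arithmetic progression
-/

set_option autoImplicit false

namespace Pool.Agent.T6.H47.AP

open Finset Pool.Agent.TH705.DL

/-- the kernel -/
noncomputable def SK (M : ℕ) (θ : ℝ) : ℂ := ∑ u ∈ range M, Complex.exp (((u * θ : ℝ) : ℂ) * Complex.I)

theorem SK_le (M : ℕ) (θ : ℝ) : ‖SK M θ‖ ≤ M := by
  unfold SK
  refine (norm_sum_le _ _).trans ?_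
  simp only [Complex.norm_exp_ofReal_mul_I]
  simp

theorem SK_le2 (M : ℕ) (θ : ℝ) (h0 : θ ≠ 0) (h1 : |θ| ≤ Real.pi) : ‖SK M θ‖ ≤ Real.pi / |θ| := by
  have hθ : 0 < |θ| := abs_pos.2 h0
  set z : ℂ := Complex.exp ((θ : ℂ) * Complex.I) with hz
  have hS : SK M θ = ∑ u ∈ range M, z ^ u := by
    unfold SK
    apply sum_congr rfl
    intro u _
    rw [hz, ← Complex.exp_nat_mul]
    congr 1
    push_cast
    ring
  have hgeo : SK M θ * (z - 1) = z ^ M - 1 := by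
    rw [hS]
    exact geom_sum_mul z M
  have hz1 : ‖z‖ = 1 := by rw [hz, Complex.norm_exp_ofReal_mul_I]
  have hup : ‖z ^ M - 1‖ ≤ 2 := by
    calc ‖z ^ M - 1‖ ≤ ‖z ^ M‖ + ‖(1 : ℂ)‖ := norm_sub_le _ _
      _ = 2 := by rw [norm_pow, hz1]; norm_num
  have hlow : 2 / Real.pi * |θ| ≤ ‖z - 1‖ := by
    have e : ‖z - 1‖ = 2 * |Real.sin (θ / 2)| := by
      rw [hz, mul_comm (θ : ℂ) Complex.I, Complex.norm_exp_I_mul_ofReal_sub_one, norm_mul]
      norm_num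
    rw [e]
    have h2 : 2 / Real.pi * (|θ| / 2) ≤ Real.sin (|θ| / 2) :=
      Real.mul_le_sin (by positivity) (by linarith)
    have h3 : |Real.sin (θ / 2)| = Real.sin (|θ| / 2) := by
      have h4 : 0 ≤ Real.sin (|θ| / 2) :=
        Real.sin_nonneg_of_nonneg_of_le_pi (by positivity) (by linarith)
      rcases abs_cases θ with h | h
      · rw [h.1] at h4 ⊢
        exact abs_of_nonneg h4
      · rw [h.1] at h4 ⊢
        rw [neg_div, Real.sin_neg] at h4 ⊢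
        exact abs_of_nonpos (by linarith)
    rw [h3]
    linarith
  have hpi : 0 < Real.pi := Real.pi_pos
  have h3 : ‖SK M θ‖ * ‖z - 1‖ ≤ 2 := by rw [← norm_mul, hgeo]; exact hup
  rw [le_div_iff₀ hθ]
  have h4 : ‖SK M θ‖ * (2 / Real.pi * |θ|) ≤ 2 :=
    le_trans (mul_le_mul_of_nonneg_left hlow (norm_nonneg _)) h3
  have h5 : ‖SK M θ‖ * (2 / Real.pi * |θ|) = (2 / Real.pi) * (‖SK M θ‖ * |θ|) := by ring
  rw [h5, div_mul_eq_mul_div, div_le_iff₀ hpi] at h4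
  linarith

/-- lower bound of the double sum -/
theorem double_sum (T : ℕ) (G : ℝ → ℝ) (hG : ∀ t, 0 ≤ G t) :
    (T : ℝ) * ∑ t ∈ Icc 1 T, G (t : ℝ) ≤
      ∑ u ∈ range (2 * T), ∑ v ∈ range (2 * T), G ((u : ℝ) - (v : ℝ)) := by
  rw [← sum_product']
  have hinj : Set.InjOn (fun p : ℕ × ℕ => (p.2 + p.1, p.2)) ((Icc 1 T ×ˢ range T : Finset (ℕ × ℕ)) : Set (ℕ × ℕ)) := by
    intro p _ p' _ h
    simp only [Prod.mk.injEq] at h
    exact Prod.ext (by omega) h.2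
  have hsub : (Icc 1 T ×ˢ range T).image (fun p : ℕ × ℕ => (p.2 + p.1, p.2)) ⊆
      range (2 * T) ×ˢ range (2 * T) := by
    intro p hp
    rw [mem_image] at hp
    obtain ⟨p', hp', rfl⟩ := hp
    rw [mem_product, mem_Icc, mem_range] at hp'
    rw [mem_product, mem_range, mem_range]
    constructor
    · show p'.2 + p'.1 < 2 * T
      omega
    · show p'.2 < 2 * T
      omega
  have h1 := sum_le_sum_of_subset_of_nonneg (f := fun p : ℕ × ℕ => G ((p.1 : ℝ) - (p.2 : ℝ))) hsub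
    (fun _ _ _ => hG _)
  rw [sum_image hinj, sum_product] at h1
  refine le_trans (le_of_eq ?_) h1
  rw [mul_sum]
  apply sum_congr rfl
  intro t _
  simp only [Nat.cast_add, add_sub_cancel_left, sum_const, card_range, nsmul_eq_mul]

/-- the polynomial -/
noncomputable def F (a q H : ℕ) (β : ℕ → ℂ) (t : ℝ) : ℂ := ∑ h ∈ range H, β h * ph t (a + q * h)

/-- the frequencies -/
noncomputable def fr (a q : ℕ) (x : (ℕ × ℕ) × (ℕ × ℕ)) : ℝ :=
  Real.log ((a + q * x.1.1 : ℕ) : ℝ) + Real.log ((a + q * x.1.2 : ℕ) : ℝ) -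
    Real.log ((a + q * x.2.1 : ℕ) : ℝ) - Real.log ((a + q * x.2.2 : ℕ) : ℝ)

/-- all quadruples -/
def XX (H : ℕ) : Finset ((ℕ × ℕ) × (ℕ × ℕ)) := (range H ×ˢ range H) ×ˢ (range H ×ˢ range H)

theorem F_four (a q H : ℕ) (β : ℕ → ℂ) (t : ℝ) :
    ((‖F a q H β t‖ ^ 4 : ℝ) : ℂ) = ∑ x ∈ XX H,
      (β x.1.1 * β x.1.2 * (starRingEnd ℂ) (β x.2.1) * (starRingEnd ℂ) (β x.2.2)) *
        Complex.exp (((t * fr a q x : ℝ) : ℂ) * Complex.I) := by
  have h1 : ((‖F a q H β t‖ ^ 4 : ℝ) : ℂ) =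
      (F a q H β t * F a q H β t) * ((starRingEnd ℂ) (F a q H β t) * (starRingEnd ℂ) (F a q H β t)) := by
    have h2 : ((‖F a q H β t‖ ^ 2 : ℝ) : ℂ) = F a q H β t * (starRingEnd ℂ) (F a q H β t) := by
      rw [Complex.mul_conj, Complex.normSq_eq_norm_sq]
    have h3 : ((‖F a q H β t‖ ^ 4 : ℝ) : ℂ) = ((‖F a q H β t‖ ^ 2 : ℝ) : ℂ) ^ 2 := by
      push_cast
      ring
    rw [h3, h2]
    ring
  rw [h1]
  unfold F XX
  rw [map_sum, sum_mul_sum, sum_mul_sum, ← sum_product', ← sum_product', sum_mul_sum, ← sum_product']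
  apply sum_congr rfl
  intro x _
  rw [map_mul, map_mul, ph_conj, ph_conj, ph_eq, ph_eq, ph_eq, ph_eq]
  have h4 : Complex.exp (((t * fr a q x : ℝ) : ℂ) * Complex.I) =
      Complex.exp (((t * Real.log ((a + q * x.1.1 : ℕ) : ℝ) : ℝ) : ℂ) * Complex.I) *
      Complex.exp (((t * Real.log ((a + q * x.1.2 : ℕ) : ℝ) : ℝ) : ℂ) * Complex.I) *
      (Complex.exp (((-t * Real.log ((a + q * x.2.1 : ℕ) : ℝ) : ℝ) : ℂ) * Complex.I) *
      Complex.exp (((-t * Real.log ((a + q * x.2.2 : ℕ) : ℝ) : ℝ) : ℂ) * Complex.I)) := by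
    rw [← Complex.exp_add, ← Complex.exp_add, ← Complex.exp_add]
    congr 1
    unfold fr
    push_cast
    ring
  rw [h4]
  ring

theorem double_eq (a q H : ℕ) (β : ℕ → ℂ) (hβ : ∀ h, ‖β h‖ ≤ 1) (M : ℕ) :
    ∑ u ∈ range M, ∑ v ∈ range M, ‖F a q H β ((u : ℝ) - (v : ℝ))‖ ^ 4 ≤
      ∑ x ∈ XX H, ‖SK M (fr a q x)‖ ^ 2 := by
  set c : (ℕ × ℕ) × (ℕ × ℕ) → ℂ := fun x =>
    β x.1.1 * β x.1.2 * (starRingEnd ℂ) (β x.2.1) * (starRingEnd ℂ) (β x.2.2) with hc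
  have h1 : ((∑ u ∈ range M, ∑ v ∈ range M, ‖F a q H β ((u : ℝ) - (v : ℝ))‖ ^ 4 : ℝ) : ℂ) =
      ∑ x ∈ XX H, c x * (SK M (fr a q x) * (starRingEnd ℂ) (SK M (fr a q x))) := by
    have h2 : ∀ x : (ℕ × ℕ) × (ℕ × ℕ), SK M (fr a q x) * (starRingEnd ℂ) (SK M (fr a q x)) =
        ∑ u ∈ range M, ∑ v ∈ range M,
          Complex.exp (((((u : ℝ) - (v : ℝ)) * fr a q x : ℝ) : ℂ) * Complex.I) := by
      intro x
      unfold SK
      rw [map_sum, sum_mul_sum]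
      apply sum_congr rfl
      intro u _
      apply sum_congr rfl
      intro v _
      rw [← Complex.exp_conj, ← Complex.exp_add, map_mul, Complex.conj_I, Complex.conj_ofReal]
      congr 1
      push_cast
      ring
    simp only [h2]
    rw [Complex.ofReal_sum]
    simp only [Complex.ofReal_sum, F_four, mul_sum]
    rw [sum_congr rfl (fun u _ => sum_comm), sum_comm]
  have h3 : 0 ≤ ∑ u ∈ range M, ∑ v ∈ range M, ‖F a q H β ((u : ℝ) - (v : ℝ))‖ ^ 4 :=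
    sum_nonneg fun _ _ => sum_nonneg fun _ _ => by positivity
  have h4 := congrArg norm h1
  rw [Complex.norm_real, Real.norm_eq_abs, abs_of_nonneg h3] at h4
  rw [h4]
  refine (norm_sum_le _ _).trans (sum_le_sum ?_)
  intro x _
  rw [norm_mul (c x), norm_mul (SK M (fr a q x)), RCLike.norm_conj, ← pow_two]
  have h5 : ‖c x‖ ≤ 1 := by
    rw [hc]
    simp only [norm_mul, RCLike.norm_conj]
    have e1 := mul_le_mul (hβ x.1.1) (hβ x.1.2) (norm_nonneg _) zero_le_one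
    have e2 := mul_le_mul e1 (hβ x.2.1) (norm_nonneg _) (by norm_num)
    have e3 := mul_le_mul e2 (hβ x.2.2) (norm_nonneg _) (by norm_num)
    linarith
  calc ‖c x‖ * ‖SK M (fr a q x)‖ ^ 2 ≤ 1 * ‖SK M (fr a q x)‖ ^ 2 :=
        mul_le_mul_of_nonneg_right h5 (by positivity)
    _ = _ := one_mul _

/-- the defect of a quadruple -/
noncomputable def df (a q : ℕ) (x : (ℕ × ℕ) × (ℕ × ℕ)) : ℝ :=
  |((a : ℝ) + q * x.1.1) * (a + q * x.1.2) - (a + q * x.2.1) * (a + q * x.2.2)|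

/-- elementary bound of the logarithm -/
theorem log_lower (X Y U : ℝ) (hX : 0 < X) (hY : 0 < Y) (hXU : X ≤ U) (hYU : Y ≤ U) :
    |X - Y| / U ≤ |Real.log X - Real.log Y| := by
  have hU : 0 < U := lt_of_lt_of_le hX hXU
  wlog h : Y ≤ X generalizing X Y
  · have := this Y X hY hX hYU hXU (le_of_not_ge h)
    rwa [abs_sub_comm Y X, abs_sub_comm (Real.log Y)] at this
  have h1 : 0 ≤ X - Y := by linarith
  have h2 : (X - Y) / U ≤ Real.log X - Real.log Y := by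
    rw [← Real.log_div hX.ne' hY.ne']
    have h3 := Real.one_sub_inv_le_log_of_pos (show 0 < X / Y by positivity)
    refine le_trans ?_ h3
    rw [inv_div]
    have h4 : 1 - Y / X = (X - Y) / X := by field_simp
    rw [h4]
    exact div_le_div_of_nonneg_left h1 hX hXU
  rw [abs_of_nonneg h1]
  exact h2.trans (le_abs_self _)

theorem SK_dyadic (N a q H T : ℕ) (hN : 1 ≤ N) (hT : 1 ≤ T) (ha : N ≤ a) (hq : 1 ≤ q)
    (hH : ∀ h < H, a + q * h ≤ 2 * N) (x : (ℕ × ℕ) × (ℕ × ℕ)) (hx : x ∈ XX H) :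
    ‖SK (2 * T) (fr a q x)‖ ^ 2 ≤ ∑ j ∈ range (T + 1),
      (4 * ((2 * T : ℕ) : ℝ) ^ 2 * (1 / 4) ^ j) *
        (if df a q x ≤ 2 ^ j * (4 * Real.pi * (N : ℝ) ^ 2 / ((2 * T : ℕ) : ℝ)) then 1 else 0) := by
  obtain ⟨M, hM⟩ : ∃ M : ℝ, M = ((2 * T : ℕ) : ℝ) := ⟨_, rfl⟩
  obtain ⟨K, hK⟩ : ∃ K : ℝ, K = 4 * Real.pi * (N : ℝ) ^ 2 := ⟨_, rfl⟩
  rw [← hM, ← hK]
  have hpi : 0 < Real.pi := Real.pi_pos
  have hN0 : (0 : ℝ) < N := by exact_mod_cast hN
  have hT0 : (1 : ℝ) ≤ T := by exact_mod_cast hT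
  have hM0 : 0 < M := by rw [hM]; push_cast; linarith
  have hK0 : 0 < K := by rw [hK]; positivity
  have hx' : (x.1.1 < H ∧ x.1.2 < H) ∧ (x.2.1 < H ∧ x.2.2 < H) := by
    unfold XX at hx
    simpa only [mem_product, mem_range] using hx
  have hnn : ∀ h < H, (N : ℝ) ≤ a + q * h ∧ (a : ℝ) + q * h ≤ 2 * N := by
    intro h hh
    constructor
    · have : N ≤ a + q * h := by omega
      exact_mod_cast this
    · exact_mod_cast hH h hh
  obtain ⟨X, hX⟩ : ∃ X : ℝ, X = ((a : ℝ) + q * x.1.1) * (a + q * x.1.2) := ⟨_, rfl⟩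
  obtain ⟨Y, hY⟩ : ∃ Y : ℝ, Y = ((a : ℝ) + q * x.2.1) * (a + q * x.2.2) := ⟨_, rfl⟩
  have hX1 : (N : ℝ) ^ 2 ≤ X ∧ X ≤ 4 * (N : ℝ) ^ 2 := by
    obtain ⟨h1, h2⟩ := hnn _ hx'.1.1
    obtain ⟨h3, h4⟩ := hnn _ hx'.1.2
    rw [hX]
    constructor <;> nlinarith
  have hY1 : (N : ℝ) ^ 2 ≤ Y ∧ Y ≤ 4 * (N : ℝ) ^ 2 := by
    obtain ⟨h1, h2⟩ := hnn _ hx'.2.1
    obtain ⟨h3, h4⟩ := hnn _ hx'.2.2
    rw [hY]
    constructor <;> nlinarith
  have hX0 : 0 < X := lt_of_lt_of_le (by positivity) hX1.1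
  have hY0 : 0 < Y := lt_of_lt_of_le (by positivity) hY1.1
  have hfr : fr a q x = Real.log X - Real.log Y := by
    unfold fr
    obtain ⟨h1, _⟩ := hnn _ hx'.1.1
    obtain ⟨h3, _⟩ := hnn _ hx'.1.2
    obtain ⟨h5, _⟩ := hnn _ hx'.2.1
    obtain ⟨h7, _⟩ := hnn _ hx'.2.2
    rw [hX, hY, Real.log_mul (by linarith) (by linarith), Real.log_mul (by linarith) (by linarith)]
    push_cast
    ring
  have hdf : df a q x = |X - Y| := by rw [hX, hY]; rfl
  have hθpi : |fr a q x| ≤ Real.pi := by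
    have h1 : Real.log (4 * (N : ℝ) ^ 2) - Real.log ((N : ℝ) ^ 2) = Real.log 4 := by
      rw [← Real.log_div (by positivity) (by positivity)]
      congr 1
      field_simp
    have h2 : Real.log 4 ≤ 3 := by
      have := Real.log_le_sub_one_of_pos (show (0 : ℝ) < 4 by norm_num)
      linarith
    have h3 := Real.log_le_log hX0 hX1.2
    have h4 := Real.log_le_log hY0 hY1.2
    have h5 := Real.log_le_log (by positivity) hX1.1
    have h6 := Real.log_le_log (by positivity) hY1.1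
    rw [hfr, abs_le]
    have := Real.pi_gt_three
    constructor <;> linarith
  have hterm : ∀ j ∈ range (T + 1), 0 ≤ (4 * M ^ 2 * (1 / 4) ^ j) *
      (if df a q x ≤ 2 ^ j * (K / M) then (1 : ℝ) else 0) := by
    intro j _
    apply mul_nonneg (by positivity)
    split_ifs <;> norm_num
  -- the case of a small defect
  by_cases h0 : df a q x ≤ K / M
  · have h1 := single_le_sum hterm (mem_range.2 (Nat.succ_pos T))
    refine le_trans ?_ h1
    rw [if_pos (by simpa using h0)]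
    have h2 := SK_le (2 * T) (fr a q x)
    rw [← hM] at h2
    have h3 := pow_le_pow_left₀ (norm_nonneg _) h2 2
    simp only [pow_zero, mul_one]
    nlinarith [sq_nonneg M]
  · push Not at h0
    have hex : ∃ j : ℕ, df a q x ≤ 2 ^ j * (K / M) := by
      refine ⟨T, ?_⟩
      rw [hdf]
      have h1 : |X - Y| ≤ 4 * (N : ℝ) ^ 2 := by
        rw [abs_le]
        constructor <;> nlinarith
      refine h1.trans ?_
      rw [← mul_div_assoc, le_div_iff₀ hM0, hK, hM]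
      push_cast
      have h2 : (T : ℝ) ≤ 2 ^ T := by
        exact_mod_cast (Nat.lt_two_pow_self (n := T)).le
      have h3 : 3 * (T : ℝ) ≤ Real.pi * 2 ^ T := by
        have := Real.pi_gt_three
        nlinarith
      have h4 : 0 < (N : ℝ) ^ 2 := by positivity
      nlinarith
    classical
    set j := Nat.find hex with hj
    have hj1 : df a q x ≤ 2 ^ j * (K / M) := Nat.find_spec hex
    have hjT : j ≤ T := by
      apply Nat.find_min' hex
      rw [hdf]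
      have h1 : |X - Y| ≤ 4 * (N : ℝ) ^ 2 := by
        rw [abs_le]
        constructor <;> nlinarith
      refine h1.trans ?_
      rw [← mul_div_assoc, le_div_iff₀ hM0, hK, hM]
      push_cast
      have h2 : (T : ℝ) ≤ 2 ^ T := by
        exact_mod_cast (Nat.lt_two_pow_self (n := T)).le
      have h3 : 3 * (T : ℝ) ≤ Real.pi * 2 ^ T := by
        have := Real.pi_gt_three
        nlinarith
      have h4 : 0 < (N : ℝ) ^ 2 := by positivity
      nlinarith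
    have hj0 : j ≠ 0 := by
      intro h
      rw [h, pow_zero, one_mul] at hj1
      linarith
    obtain ⟨i, hi⟩ := Nat.exists_eq_succ_of_ne_zero hj0
    have hi1 : 2 ^ i * (K / M) < df a q x := by
      have := Nat.find_min hex (m := i) (by omega)
      push Not at this
      exact this
    have h1 := single_le_sum hterm (mem_range.2 (Nat.lt_succ_of_le hjT))
    refine le_trans ?_ h1
    rw [if_pos hj1, mul_one]
    -- the kernel
    have hKM : 0 < K / M := by positivity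
    have hdf0 : 0 < df a q x := lt_trans hKM h0
    have h2 : df a q x / (4 * (N : ℝ) ^ 2) ≤ |fr a q x| := by
      rw [hdf, hfr]
      exact log_lower X Y _ hX0 hY0 hX1.2 hY1.2
    have hθ0 : 0 < |fr a q x| := lt_of_lt_of_le (by positivity) h2
    have h3 := SK_le2 (2 * T) (fr a q x) (abs_pos.1 hθ0) hθpi
    have h4 : Real.pi / |fr a q x| ≤ K / df a q x := by
      rw [div_le_div_iff₀ hθ0 hdf0]
      rw [div_le_iff₀ (by positivity)] at h2
      rw [hK]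
      nlinarith
    have h5 : K / df a q x ≤ M / 2 ^ i := by
      rw [div_le_div_iff₀ hdf0 (by positivity)]
      have : 2 ^ i * (K / M) * M ≤ df a q x * M := mul_le_mul_of_nonneg_right hi1.le hM0.le
      have e : 2 ^ i * (K / M) * M = K * 2 ^ i := by field_simp
      rw [e] at this
      linarith
    have h6 : ‖SK (2 * T) (fr a q x)‖ ^ 2 ≤ (M / 2 ^ i) ^ 2 :=
      pow_le_pow_left₀ (norm_nonneg _) (h3.trans (h4.trans h5)) 2
    refine h6.trans (le_of_eq ?_)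
    have e4 : (1 / 4 : ℝ) ^ i = 1 / (2 ^ i) ^ 2 := by
      rw [one_div_pow, ← pow_mul, mul_comm i 2, pow_mul]
      norm_num
    rw [hi, Nat.succ_eq_add_one, pow_succ (1 / 4 : ℝ) i, e4, div_pow]
    ring

open Classical in
/-- **the fourth moment** -/
theorem fourth (N a q H T : ℕ) (hN : 1 ≤ N) (hT : 1 ≤ T) (ha : N ≤ a) (hq : 1 ≤ q)
    (hH : ∀ h < H, a + q * h ≤ 2 * N) (hqH : q * H ≤ 2 * N) (β : ℕ → ℂ) (hβ : ∀ h, ‖β h‖ ≤ 1)
    (D : ℝ) (hD : ∀ m ∈ Icc 1 (H ^ 2), (m.divisors.card : ℝ) ≤ D) (hD1 : 1 ≤ D) :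
    ∑ t ∈ Icc 1 T, ‖F a q H β (t : ℝ)‖ ^ 4 ≤ 8000 * D *
      (T * (H : ℝ) ^ 2 + (N : ℝ) ^ 2 * (H / (q : ℝ) ^ 2 + (H : ℝ) ^ 3 / (q * N))) := by
  have h1 := double_sum T (fun t => ‖F a q H β t‖ ^ 4) (fun t => by positivity)
  have h2 := double_eq a q H β hβ (2 * T)
  have hN0 : (0 : ℝ) < N := by exact_mod_cast hN
  have hq0 : (0 : ℝ) < q := by exact_mod_cast hq
  have hT0 : (0 : ℝ) < T := by exact_mod_cast hT
  obtain ⟨M, hM⟩ : ∃ M : ℝ, M = ((2 * T : ℕ) : ℝ) := ⟨_, rfl⟩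
  obtain ⟨B, hB⟩ : ∃ B : ℝ, B = H / (q : ℝ) ^ 2 + (H : ℝ) ^ 3 / (q * N) := ⟨_, rfl⟩
  have hM0 : 0 < M := by rw [hM]; push_cast; linarith
  have hB0 : 0 ≤ B := by rw [hB]; positivity
  have h3 : ∑ x ∈ XX H, ‖SK (2 * T) (fr a q x)‖ ^ 2 ≤ ∑ j ∈ range (T + 1),
      (4 * M ^ 2 * (1 / 4) ^ j) *
        (36 * D * ((H : ℝ) ^ 2 + 2 ^ j * (4 * Real.pi * (N : ℝ) ^ 2 / M) * B)) := by
    refine (sum_le_sum (fun x hx => SK_dyadic N a q H T hN hT ha hq hH x hx)).trans ?_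
    rw [sum_comm]
    apply sum_le_sum
    intro j _
    rw [← mul_sum, ← hM]
    apply mul_le_mul_of_nonneg_left _ (by positivity)
    have h4 := quads N a q H hN ha hq hqH D hD hD1 (2 ^ j * (4 * Real.pi * (N : ℝ) ^ 2 / M))
      (by positivity)
    rw [← sum_filter, sum_const, nsmul_eq_mul, mul_one]
    have h5 : (XX H).filter (fun x => df a q x ≤ 2 ^ j * (4 * Real.pi * (N : ℝ) ^ 2 / M)) =
        QS a q H (2 ^ j * (4 * Real.pi * (N : ℝ) ^ 2 / M)) := by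
      unfold XX QS df
      rfl
    rw [h5]
    refine h4.trans (le_of_eq ?_)
    rw [hB]
    ring
  have h4 : ∑ j ∈ range (T + 1), (4 * M ^ 2 * (1 / 4) ^ j) *
        (36 * D * ((H : ℝ) ^ 2 + 2 ^ j * (4 * Real.pi * (N : ℝ) ^ 2 / M) * B)) =
      144 * D * (M ^ 2 * (H : ℝ) ^ 2 * ∑ j ∈ range (T + 1), (1 / 4 : ℝ) ^ j +
        4 * Real.pi * (N : ℝ) ^ 2 * M * B * ∑ j ∈ range (T + 1), (1 / 2 : ℝ) ^ j) := by
    rw [mul_sum, mul_sum, ← sum_add_distrib, mul_sum]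
    apply sum_congr rfl
    intro j _
    have e : (1 / 4 : ℝ) ^ j * 2 ^ j = (1 / 2) ^ j := by
      rw [← mul_pow]
      norm_num
    rw [← e]
    field_simp
    ring
  have h5 : ∑ j ∈ range (T + 1), (1 / 4 : ℝ) ^ j ≤ 2 := by
    refine le_trans (sum_le_sum (fun j _ => ?_)) (sum_geometric_two_le (T + 1))
    exact pow_le_pow_left₀ (by norm_num) (by norm_num) j
  have h6 : ∑ j ∈ range (T + 1), (1 / 2 : ℝ) ^ j ≤ 2 := sum_geometric_two_le (T + 1)
  have hpi : Real.pi ≤ 3.15 := by linarith [Real.pi_lt_d2]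
  have hpi0 := Real.pi_pos
  have h7 : (T : ℝ) * ∑ t ∈ Icc 1 T, ‖F a q H β (t : ℝ)‖ ^ 4 ≤
      144 * D * (M ^ 2 * (H : ℝ) ^ 2 * 2 + 4 * Real.pi * (N : ℝ) ^ 2 * M * B * 2) := by
    refine h1.trans (h2.trans (h3.trans ?_))
    rw [h4]
    apply mul_le_mul_of_nonneg_left _ (by linarith)
    exact add_le_add (mul_le_mul_of_nonneg_left h5 (by positivity))
      (mul_le_mul_of_nonneg_left h6 (by positivity))
  have h8 : 144 * D * (M ^ 2 * (H : ℝ) ^ 2 * 2 + 4 * Real.pi * (N : ℝ) ^ 2 * M * B * 2) ≤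
      T * (8000 * D * (T * (H : ℝ) ^ 2 + (N : ℝ) ^ 2 * B)) := by
    have e : M = 2 * T := by rw [hM]; push_cast; ring
    rw [e]
    have e1 : 144 * D * ((2 * (T : ℝ)) ^ 2 * (H : ℝ) ^ 2 * 2 + 4 * Real.pi * (N : ℝ) ^ 2 * (2 * T) * B * 2) =
      T * (D * (1152 * (T * (H : ℝ) ^ 2) + 2304 * Real.pi * ((N : ℝ) ^ 2 * B))) := by ring
    rw [e1]
    apply mul_le_mul_of_nonneg_left _ hT0.le
    have e2 : 8000 * D * (T * (H : ℝ) ^ 2 + (N : ℝ) ^ 2 * B) =
      D * (8000 * (T * (H : ℝ) ^ 2) + 8000 * ((N : ℝ) ^ 2 * B)) := by ring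
    rw [e2]
    apply mul_le_mul_of_nonneg_left _ (by linarith)
    have h9 : 0 ≤ (N : ℝ) ^ 2 * B := by positivity
    have h10 : 0 ≤ (T : ℝ) * (H : ℝ) ^ 2 := by positivity
    nlinarith
  have h9 := h7.trans h8
  rw [← hB]
  exact le_of_mul_le_mul_left h9 hT0

end Pool.Agent.T6.H47.AP
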