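import Pool.Agent.Y959.Smp.Mo
import Pool.Agent.T6.H47.AP3

/-!
# From the moments to the inequality of Montgomery
-/

set_option autoImplicit false

namespace Pool.Agent.T6.H47.AP

open Finset Pool.Agent.TH705.DL

/-- the exponent -/
noncomputable def ex (θ : ℝ) : ℝ := (θ + Real.sqrt (3 - 2 * θ)) / 2

theorem ex_facts (θ : ℝ) (h0 : 0 ≤ θ) (h1 : θ ≤ 1 / 9) :
    0 < ex θ ∧ ex θ ≤ 8 / 9 ∧ (2 * ex θ - θ) ^ 2 = 3 - 2 * θ := by
  unfold ex
  have h2 : 0 ≤ 3 - 2 * θ := by linarith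
  have h3 := Real.sq_sqrt h2
  have h4 : 0 < Real.sqrt (3 - 2 * θ) := Real.sqrt_pos.2 (by linarith)
  refine ⟨by positivity, ?_, ?_⟩
  · have h5 : Real.sqrt (3 - 2 * θ) ≤ 16 / 9 - θ := by
      apply Real.sqrt_le_iff.2
      constructor
      · linarith
      · nlinarith
    linarith
  · have e : 2 * ((θ + Real.sqrt (3 - 2 * θ)) / 2) - θ = Real.sqrt (3 - 2 * θ) := by ring
    rw [e, h3]

/-- the exponents, `T ≥ N²` -/
theorem expo2 (h j x : ℝ) (hh : h ≤ 8 / 9) (hj : 2 ≤ j) (hx0 : 0 ≤ x) (hx1 : x ≤ 1) :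
    (1 - x) * (j + x + h * j) + x * ((j + 1) * (1 + h)) ≤ 2 * (j + x) := by
  have h1 : (1 - x) * (j + x + h * j) + x * ((j + 1) * (1 + h)) =
      (1 + h) * (j + x) + x * (1 - x) := by ring
  rw [h1]
  have h2 : (1 / 9) * (2 + x) ≤ (1 - h) * (j + x) :=
    mul_le_mul (by linarith) (by linarith) (by linarith) (by linarith)
  nlinarith [sq_nonneg (x - 4 / 9)]

/-- the exponents, `T ≤ N²` -/
theorem expo1 (θ h x : ℝ) (h0 : 0 ≤ θ) (hh0 : 0 < h) (hh : h ≤ 8 / 9)
    (hθ : (2 * h - θ) ^ 2 = 3 - 2 * θ) (hx0 : 0 ≤ x) (hx1 : x ≤ 1) :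
    (1 - x) * (1 + x + h) + x * (1 + x + 2 * h) ≤ 2 * (1 + x) ∧
    (1 - x) * (1 + x + h) + x * (3 * h + 1 - θ) ≤ 2 * (1 + x) ∧
    (1 - x) * (1 + x + h) + x * (h + 2 - 2 * θ) ≤ 2 * (1 + x) := by
  refine ⟨?_, ?_, ?_⟩
  · nlinarith
  · nlinarith [sq_nonneg (2 * x + (1 + θ - 2 * h))]
  · nlinarith [mul_nonneg hx0 h0]

/-- interpolation, pointwise -/
theorem interp (y μ x : ℝ) (j : ℕ) (hy : 0 ≤ y) (hμ : 0 < μ) (hx0 : 0 ≤ x) (hx1 : x ≤ 1)
    (hj : 1 ≤ j) :
    y ^ (2 * ((j : ℝ) + x)) ≤ μ ^ x * y ^ (2 * j) + μ ^ (x - 1) * y ^ (2 * (j + 1)) := by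
  have hj0 : (1 : ℝ) ≤ j := by exact_mod_cast hj
  rcases eq_or_lt_of_le hy with h0 | hy0
  · rw [← h0, Real.zero_rpow (by positivity)]
    positivity
  rcases le_total (y ^ 2) μ with h | h
  · have h1 : y ^ (2 * ((j : ℝ) + x)) = (y ^ 2) ^ x * y ^ (2 * j) := by
      rw [← Real.rpow_natCast y 2, ← Real.rpow_mul hy, ← Real.rpow_natCast y (2 * j),
        ← Real.rpow_add hy0]
      congr 1
      push_cast
      ring
    rw [h1]
    have h2 : (y ^ 2) ^ x ≤ μ ^ x := Real.rpow_le_rpow (by positivity) h hx0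
    have h3 : 0 ≤ μ ^ (x - 1) * y ^ (2 * (j + 1)) := by positivity
    have h4 := mul_le_mul_of_nonneg_right h2 (show 0 ≤ y ^ (2 * j) by positivity)
    linarith
  · have h1 : y ^ (2 * ((j : ℝ) + x)) = (y ^ 2) ^ (x - 1) * y ^ (2 * (j + 1)) := by
      rw [← Real.rpow_natCast y 2, ← Real.rpow_mul hy, ← Real.rpow_natCast y (2 * (j + 1)),
        ← Real.rpow_add hy0]
      congr 1
      push_cast
      ring
    rw [h1]
    have h2 : (y ^ 2) ^ (x - 1) ≤ μ ^ (x - 1) :=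
      Real.rpow_le_rpow_of_nonpos hμ h (by linarith)
    have h3 : 0 ≤ μ ^ x * y ^ (2 * j) := by positivity
    have h4 := mul_le_mul_of_nonneg_right h2 (show 0 ≤ y ^ (2 * (j + 1)) by positivity)
    linarith

/-- the moment of the critical order -/
theorem crit (S : Finset ℕ) (f : ℕ → ℝ) (hf : ∀ t, 0 ≤ f t) (N : ℝ) (hN : 1 ≤ N) (j : ℕ) (hj : 1 ≤ j)
    (x : ℝ) (hx0 : 0 ≤ x) (hx1 : x ≤ 1) (α β X : ℝ) (hX : 0 ≤ X)
    (h1 : ∑ t ∈ S, f t ^ (2 * j) ≤ X * N ^ α) (h2 : ∑ t ∈ S, f t ^ (2 * (j + 1)) ≤ X * N ^ β)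
    (hαβ : (1 - x) * α + x * β ≤ 2 * (j + x)) :
    ∑ t ∈ S, f t ^ (2 * ((j : ℝ) + x)) ≤ 2 * X * N ^ (2 * ((j : ℝ) + x)) := by
  have hN0 : 0 < N := by linarith
  have hμ : 0 < N ^ (β - α) := Real.rpow_pos_of_pos hN0 _
  calc ∑ t ∈ S, f t ^ (2 * ((j : ℝ) + x))
      ≤ ∑ t ∈ S, ((N ^ (β - α)) ^ x * f t ^ (2 * j) + (N ^ (β - α)) ^ (x - 1) * f t ^ (2 * (j + 1))) :=
        sum_le_sum fun t _ => interp (f t) _ x j (hf t) hμ hx0 hx1 hj
    _ = (N ^ (β - α)) ^ x * ∑ t ∈ S, f t ^ (2 * j) +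
          (N ^ (β - α)) ^ (x - 1) * ∑ t ∈ S, f t ^ (2 * (j + 1)) := by
        rw [sum_add_distrib, mul_sum, mul_sum]
    _ ≤ (N ^ (β - α)) ^ x * (X * N ^ α) + (N ^ (β - α)) ^ (x - 1) * (X * N ^ β) := by
        gcongr
    _ = 2 * X * N ^ ((1 - x) * α + x * β) := by
        have e1 : (N ^ (β - α)) ^ x * (X * N ^ α) = X * N ^ ((1 - x) * α + x * β) := by
          rw [← Real.rpow_mul hN0.le, mul_left_comm, ← Real.rpow_add hN0]
          congr 2
          ring
        have e2 : (N ^ (β - α)) ^ (x - 1) * (X * N ^ β) = X * N ^ ((1 - x) * α + x * β) := by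
          rw [← Real.rpow_mul hN0.le, mul_left_comm, ← Real.rpow_add hN0]
          congr 2
          ring
        rw [e1, e2]
        ring
    _ ≤ _ := by
        apply mul_le_mul_of_nonneg_left _ (by linarith)
        exact Real.rpow_le_rpow_of_exponent_le hN hαβ

/-- from the critical order to all orders -/
theorem all_orders (T : ℕ) (f : ℕ → ℝ) (hf : ∀ t, 0 ≤ f t) (N : ℝ) (hN : 1 ≤ N) (hfN : ∀ t, f t ≤ 2 * N)
    (hT : 1 ≤ T) (κ : ℝ) (hκ : 1 ≤ κ) (hTκ : (T : ℝ) = N ^ κ) (X : ℝ)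
    (h1 : ∑ t ∈ Icc 1 T, f t ^ (2 * κ) ≤ X * N ^ (2 * κ)) (p : ℝ) (hp : 2 ≤ p) :
    ∑ t ∈ Icc 1 T, f t ^ p ≤ 2 ^ p * (X + 1) * (N ^ p + T * N ^ (p / 2)) := by
  have hN0 : 0 < N := by linarith
  have hT0 : (0 : ℝ) < T := by exact_mod_cast hT
  have hp0 : 0 < p := by linarith
  have hpt : ∀ t, f t ^ p ≤ 2 ^ p * ((N ^ p + T * N ^ (p / 2)) * (f t ^ (2 * κ) / N ^ (2 * κ) + 1 / T)) := by
    intro t
    obtain ⟨y, hy⟩ : ∃ y : ℝ, y = f t / 2 := ⟨_, rfl⟩
    have hfy : f t = 2 * y := by rw [hy]; ring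
    have hy0 : 0 ≤ y := by rw [hy]; exact div_nonneg (hf t) two_pos.le
    have hyN : y ≤ N := by rw [hy]; linarith [hfN t]
    rw [hfy, Real.mul_rpow two_pos.le hy0]
    apply mul_le_mul_of_nonneg_left _ (by positivity)
    have hA : 0 ≤ N ^ p := by positivity
    have hB : 0 ≤ T * N ^ (p / 2) := by positivity
    have h2κ : y ^ (2 * κ) ≤ (2 * y) ^ (2 * κ) :=
      Real.rpow_le_rpow hy0 (by linarith) (by linarith)
    have hC : y ^ (2 * κ) / N ^ (2 * κ) ≤ (2 * y) ^ (2 * κ) / N ^ (2 * κ) :=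
      div_le_div_of_nonneg_right h2κ (by positivity)
    have hD : 0 ≤ (2 * y) ^ (2 * κ) / N ^ (2 * κ) := by positivity
    have hE : 0 ≤ 1 / (T : ℝ) := by positivity
    rcases le_total (2 * κ) p with hpk | hpk
    · have h3 : y ^ p ≤ N ^ p * (y ^ (2 * κ) / N ^ (2 * κ)) := by
        rcases eq_or_lt_of_le hy0 with h0 | hy1
        · rw [← h0, Real.zero_rpow hp0.ne']
          positivity
        have h4 : y ^ p = y ^ (2 * κ) * y ^ (p - 2 * κ) := by
          rw [← Real.rpow_add hy1]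
          congr 1
          ring
        have h5 : N ^ p = N ^ (2 * κ) * N ^ (p - 2 * κ) := by
          rw [← Real.rpow_add hN0]
          congr 1
          ring
        rw [h4, h5]
        have h6 : y ^ (p - 2 * κ) ≤ N ^ (p - 2 * κ) := Real.rpow_le_rpow hy0 hyN (by linarith)
        have e : N ^ (2 * κ) * N ^ (p - 2 * κ) * (y ^ (2 * κ) / N ^ (2 * κ)) =
          y ^ (2 * κ) * N ^ (p - 2 * κ) := by
          field_simp
        rw [e]
        exact mul_le_mul_of_nonneg_left h6 (by positivity)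
      calc y ^ p ≤ N ^ p * (y ^ (2 * κ) / N ^ (2 * κ)) := h3
        _ ≤ N ^ p * ((2 * y) ^ (2 * κ) / N ^ (2 * κ) + 1 / T) :=
            mul_le_mul_of_nonneg_left (by linarith) hA
        _ ≤ _ := mul_le_mul_of_nonneg_right (by linarith) (by linarith)
    · rcases le_total (y ^ 2) N with h | h
      · have h3 : y ^ p ≤ (T * N ^ (p / 2)) * (1 / T) := by
          have e : (T * N ^ (p / 2)) * (1 / (T : ℝ)) = N ^ (p / 2) := by field_simp
          rw [e]
          have h4 : y ^ p = (y ^ 2) ^ (p / 2) := by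
            rw [← Real.rpow_natCast y 2, ← Real.rpow_mul hy0]
            congr 1
            push_cast
            ring
          rw [h4]
          exact Real.rpow_le_rpow (by positivity) h (by linarith)
        calc y ^ p ≤ (T * N ^ (p / 2)) * (1 / T) := h3
          _ ≤ (T * N ^ (p / 2)) * ((2 * y) ^ (2 * κ) / N ^ (2 * κ) + 1 / T) :=
              mul_le_mul_of_nonneg_left (by linarith) hB
          _ ≤ _ := mul_le_mul_of_nonneg_right (by linarith) (by linarith)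
      · have hy1 : 0 < y := by
          rcases eq_or_lt_of_le hy0 with h0 | h0
          · rw [← h0] at h
            norm_num at h
            linarith
          · exact h0
        have h3 : y ^ p ≤ (T * N ^ (p / 2)) * (y ^ (2 * κ) / N ^ (2 * κ)) := by
          have h4 : y ^ p = (y ^ 2) ^ (p / 2) := by
            rw [← Real.rpow_natCast y 2, ← Real.rpow_mul hy0]
            congr 1
            push_cast
            ring
          have h5 : y ^ (2 * κ) = (y ^ 2) ^ κ := by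
            rw [← Real.rpow_natCast y 2, ← Real.rpow_mul hy0]
            push_cast
            rfl
          have hY : 0 < y ^ 2 := by positivity
          have e : (T * N ^ (p / 2)) * ((y ^ 2) ^ κ / N ^ (2 * κ)) = (y ^ 2) ^ κ * N ^ (p / 2 - κ) := by
            rw [hTκ, mul_div_assoc', div_eq_iff (by positivity)]
            have e1 : N ^ κ * N ^ (p / 2) * (y ^ 2) ^ κ = (y ^ 2) ^ κ * (N ^ κ * N ^ (p / 2)) := by ring
            have e2 : (y ^ 2) ^ κ * N ^ (p / 2 - κ) * N ^ (2 * κ) =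
              (y ^ 2) ^ κ * (N ^ (p / 2 - κ) * N ^ (2 * κ)) := by ring
            rw [e1, e2, ← Real.rpow_add hN0, ← Real.rpow_add hN0]
            congr 2
            ring
          rw [h4, h5, e]
          have h6 : (y ^ 2) ^ (p / 2) = (y ^ 2) ^ κ * (y ^ 2) ^ (p / 2 - κ) := by
            rw [← Real.rpow_add hY]
            congr 1
            ring
          rw [h6]
          apply mul_le_mul_of_nonneg_left _ (by positivity)
          exact Real.rpow_le_rpow_of_nonpos hN0 h (by linarith)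
        calc y ^ p ≤ (T * N ^ (p / 2)) * (y ^ (2 * κ) / N ^ (2 * κ)) := h3
          _ ≤ (T * N ^ (p / 2)) * ((2 * y) ^ (2 * κ) / N ^ (2 * κ) + 1 / T) :=
              mul_le_mul_of_nonneg_left (by linarith) hB
          _ ≤ _ := mul_le_mul_of_nonneg_right (by linarith) (by linarith)
  calc ∑ t ∈ Icc 1 T, f t ^ p
      ≤ ∑ t ∈ Icc 1 T, 2 ^ p * ((N ^ p + T * N ^ (p / 2)) * (f t ^ (2 * κ) / N ^ (2 * κ) + 1 / T)) :=
        sum_le_sum fun t _ => hpt t
    _ = 2 ^ p * ((N ^ p + T * N ^ (p / 2)) * ((∑ t ∈ Icc 1 T, f t ^ (2 * κ)) / N ^ (2 * κ) + 1)) := by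
        rw [← mul_sum, ← mul_sum, sum_add_distrib, sum_const, Nat.card_Icc, sum_div]
        congr 3
        rw [nsmul_eq_mul]
        have : T + 1 - 1 = T := by omega
        rw [this]
        field_simp
    _ ≤ 2 ^ p * ((N ^ p + T * N ^ (p / 2)) * (X + 1)) := by
        have h7 : (∑ t ∈ Icc 1 T, f t ^ (2 * κ)) / N ^ (2 * κ) ≤ X := by
          rw [div_le_iff₀ (by positivity)]
          exact h1
        have h8 : 0 ≤ N ^ p + T * N ^ (p / 2) := by positivity
        gcongr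
    _ = _ := by ring

end Pool.Agent.T6.H47.AP
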