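import Pool.Agent.T6.H47.AP4
import Pool.Agent.Helper112.Arith

/-!
# Dirichlet polynomials supported on arithmetic progressions: the inequality
-/

set_option autoImplicit false

namespace Pool.Agent.T6.H47.AP

open Finset Pool.Agent.TH705.DL

/-- the polynomial -/
noncomputable def DD (N : ℕ) (b : ℕ → ℂ) (t : ℝ) : ℂ := ∑ n ∈ Icc N (2 * N), b n * ph t n

theorem norm_ph (t : ℝ) (n : ℕ) : ‖ph t n‖ = 1 := by
  rw [ph_eq, Complex.norm_exp_ofReal_mul_I]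

theorem DD_le_card (N : ℕ) (b : ℕ → ℂ) (hb : ∀ n ∈ Icc N (2 * N), ‖b n‖ ≤ 1) (t : ℝ) :
    ‖DD N b t‖ ≤ (((Icc N (2 * N)).filter (fun n => b n ≠ 0)).card : ℝ) := by
  classical
  unfold DD
  have h1 : ∑ n ∈ Icc N (2 * N), b n * ph t n =
      ∑ n ∈ (Icc N (2 * N)).filter (fun n => b n ≠ 0), b n * ph t n := by
    symm
    apply sum_subset (filter_subset _ _)
    intro n hn hn'
    have : b n = 0 := by
      by_contra h
      exact hn' (mem_filter.2 ⟨hn, h⟩)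
    rw [this, zero_mul]
  rw [h1]
  refine (norm_sum_le _ _).trans ?_
  have h2 : ∀ n ∈ (Icc N (2 * N)).filter (fun n => b n ≠ 0), ‖b n * ph t n‖ ≤ 1 := by
    intro n hn
    rw [norm_mul, norm_ph, mul_one]
    exact hb n (mem_filter.1 hn).1
  refine (sum_le_card_nsmul _ _ _ h2).trans ?_
  rw [nsmul_eq_mul, mul_one]

theorem DD_le (N : ℕ) (hN : 1 ≤ N) (b : ℕ → ℂ) (hb : ∀ n ∈ Icc N (2 * N), ‖b n‖ ≤ 1) (t : ℝ) :
    ‖DD N b t‖ ≤ 2 * N := by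
  refine (DD_le_card N b hb t).trans ?_
  have h1 := card_filter_le (Icc N (2 * N)) (fun n => b n ≠ 0)
  rw [Nat.card_Icc] at h1
  have h2 : ((Icc N (2 * N)).filter (fun n => b n ≠ 0)).card ≤ 2 * N := by omega
  exact_mod_cast h2

theorem DD_eq_F (N a q H : ℕ) (ha : N ≤ a) (hq : 1 ≤ q) (hH : ∀ h < H, a + q * h ≤ 2 * N) (b : ℕ → ℂ)
    (hs : ∀ n ∈ Icc N (2 * N), b n ≠ 0 → ∃ h < H, n = a + q * h) (t : ℝ) :
    DD N b t = F a q H (fun h => if h < H then b (a + q * h) else 0) t := by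
  classical
  unfold DD F
  have hinj : Set.InjOn (fun h => a + q * h) ((range H : Finset ℕ) : Set ℕ) := by
    intro h _ h' _ e
    have e' : q * h = q * h' := by
      have : a + q * h = a + q * h' := e
      omega
    exact Nat.eq_of_mul_eq_mul_left (by omega) e'
  have h1 : ∑ n ∈ (range H).image (fun h => a + q * h), b n * ph t n =
      ∑ h ∈ range H, b (a + q * h) * ph t (a + q * h) := sum_image hinj
  have h2 : ∑ n ∈ (range H).image (fun h => a + q * h), b n * ph t n =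
      ∑ n ∈ Icc N (2 * N), b n * ph t n := by
    apply sum_subset
    · intro n hn
      rw [mem_image] at hn
      obtain ⟨h, hh, rfl⟩ := hn
      rw [mem_range] at hh
      rw [mem_Icc]
      exact ⟨le_trans ha (Nat.le_add_right _ _), hH h hh⟩
    · intro n hn hn'
      have : b n = 0 := by
        by_contra h
        obtain ⟨k, hk, rfl⟩ := hs n hn h
        exact hn' (mem_image.2 ⟨k, mem_range.2 hk, rfl⟩)
      rw [this, zero_mul]
  rw [← h2, h1]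
  apply sum_congr rfl
  intro h hh
  rw [mem_range] at hh
  simp only [if_pos hh]

theorem supp_card (N a q H : ℕ) (b : ℕ → ℂ)
    (hs : ∀ n ∈ Icc N (2 * N), b n ≠ 0 → ∃ h < H, n = a + q * h) :
    ((Icc N (2 * N)).filter (fun n => b n ≠ 0)).card ≤ H := by
  classical
  calc ((Icc N (2 * N)).filter (fun n => b n ≠ 0)).card
      ≤ ((range H).image (fun h => a + q * h)).card := by
        apply card_le_card
        intro n hn
        rw [mem_filter] at hn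
        obtain ⟨k, hk, rfl⟩ := hs n hn.1 hn.2
        exact mem_image.2 ⟨k, mem_range.2 hk, rfl⟩
    _ ≤ (range H).card := card_image_le
    _ = H := card_range H

theorem sum_Icc_fin (T : ℕ) (f : ℝ → ℝ) :
    ∑ t ∈ Icc 1 T, f (t : ℝ) = ∑ u : Fin T, f (1 + ((u : ℕ) : ℝ)) := by
  rw [Fin.sum_univ_eq_sum_range (fun u => f (1 + (u : ℝ))) T]
  symm
  apply sum_nbij (fun u => u + 1)
  · intro u hu
    rw [mem_range] at hu
    rw [mem_Icc]
    omega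
  · intro u _ v _ h
    have : u + 1 = v + 1 := h
    omega
  · intro t ht
    rw [mem_coe, mem_Icc] at ht
    rw [Set.mem_image]
    exact ⟨t - 1, by rw [mem_coe, mem_range]; omega, by show t - 1 + 1 = t; omega⟩
  · intro u _
    congr 1
    push_cast
    ring

/-- the even moments -/
theorem mom (k : ℕ) (δ : ℝ) (hδ : 0 < δ) :
    ∃ K : ℝ, 0 < K ∧ ∀ N T H : ℕ, 1 ≤ N → 1 ≤ T → ∀ b : ℕ → ℂ,
      (∀ n ∈ Icc N (2 * N), ‖b n‖ ≤ 1) → ((Icc N (2 * N)).filter (fun n => b n ≠ 0)).card ≤ H →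
      ∑ t ∈ Icc 1 T, ‖DD N b (t : ℝ)‖ ^ (2 * k) ≤
        K * (N : ℝ) ^ δ * (T + (N : ℝ) ^ k) * (H : ℝ) ^ k := by
  classical
  obtain ⟨K1, hK1, h⟩ := Pool.Agent.Y959.Smp.consts δ hδ k
  refine ⟨K1 * 2 ^ δ * 2 ^ k, by positivity, ?_⟩
  intro N T H hN hT b hb hcard
  obtain ⟨D, hD, hDL⟩ := h (2 * N) (by omega)
  set a : ℕ → ℂ := fun n => if N ≤ n then b n else 0 with ha
  have h1 := Pool.Agent.Y959.Smp.momentL (2 * N) (by omega) a k D hD T hT 1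
  have hN0 : (0 : ℝ) < N := by exact_mod_cast hN
  have hDP : ∀ t : ℝ, DP (2 * N) a t = DD N b t := by
    intro t
    unfold DP DD
    symm
    have h2 : ∑ n ∈ Icc N (2 * N), b n * ph t n = ∑ n ∈ Icc N (2 * N), a n * ph t n := by
      apply sum_congr rfl
      intro n hn
      rw [ha]
      simp only
      rw [if_pos (mem_Icc.1 hn).1]
    rw [h2]
    apply sum_subset (Icc_subset_Icc_left hN)
    intro n _ hn'
    have : a n = 0 := by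
      rw [ha]
      simp only
      rw [if_neg]
      intro h3
      apply hn'
      rw [mem_Icc] at *
      omega
    rw [this, zero_mul]
  have h2 : ∑ n ∈ Icc 1 (2 * N), ‖a n‖ ^ 2 ≤ H := by
    have h3 : ∑ n ∈ (Icc N (2 * N)).filter (fun n => b n ≠ 0), ‖a n‖ ^ 2 =
        ∑ n ∈ Icc 1 (2 * N), ‖a n‖ ^ 2 := by
      apply sum_subset ((filter_subset _ _).trans (Icc_subset_Icc_left hN))
      intro n hn hn'
      have : a n = 0 := by
        rw [ha]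
        simp only
        split_ifs with h4
        · by_contra h5
          apply hn'
          rw [mem_filter, mem_Icc]
          rw [mem_Icc] at hn
          exact ⟨⟨h4, hn.2⟩, h5⟩
        · rfl
      rw [this]
      simp
    rw [← h3]
    have h4 : ∀ n ∈ (Icc N (2 * N)).filter (fun n => b n ≠ 0), ‖a n‖ ^ 2 ≤ (1 : ℝ) := by
      intro n hn
      rw [mem_filter] at hn
      have h5 : a n = b n := by
        rw [ha]
        simp only
        rw [if_pos (mem_Icc.1 hn.1).1]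
      rw [h5]
      exact pow_le_one₀ (norm_nonneg _) (hb n hn.1)
    refine (sum_le_card_nsmul _ _ _ h4).trans ?_
    rw [nsmul_eq_mul, mul_one]
    exact_mod_cast hcard
  have h3 := hDL T (Nat.cast_nonneg T)
  have h5 : ∑ t ∈ Icc 1 T, ‖DD N b (t : ℝ)‖ ^ (2 * k) =
      ∑ u : Fin T, ‖DP (2 * N) a (1 + ((u : ℕ) : ℝ))‖ ^ (2 * k) := by
    rw [sum_Icc_fin T (fun t => ‖DD N b t‖ ^ (2 * k))]
    apply sum_congr rfl
    intro u _
    rw [hDP]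
  rw [h5]
  refine h1.trans ?_
  have h6 : (0 : ℝ) ≤ ∑ n ∈ Icc 1 (2 * N), ‖a n‖ ^ 2 := sum_nonneg fun _ _ => by positivity
  have h7 : (∑ n ∈ Icc 1 (2 * N), ‖a n‖ ^ 2) ^ k ≤ (H : ℝ) ^ k := pow_le_pow_left₀ h6 h2 k
  have h8 : 0 ≤ K1 * ((2 * N : ℕ) : ℝ) ^ δ * (T + ((2 * N : ℕ) : ℝ) ^ k) := by positivity
  calc (2 + Real.log (((2 * N : ℕ) : ℝ) ^ k) ^ 2) *
        (T + 4 * ((2 * N : ℕ) : ℝ) ^ k * (1 + Real.log (((2 * N : ℕ) : ℝ) ^ k))) *
        (D ^ k * (∑ n ∈ Icc 1 (2 * N), ‖a n‖ ^ 2) ^ k)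
      = ((2 + Real.log (((2 * N : ℕ) : ℝ) ^ k) ^ 2) *
        (T + 4 * ((2 * N : ℕ) : ℝ) ^ k * (1 + Real.log (((2 * N : ℕ) : ℝ) ^ k))) *
        D ^ k) * (∑ n ∈ Icc 1 (2 * N), ‖a n‖ ^ 2) ^ k := by ring
    _ ≤ (K1 * ((2 * N : ℕ) : ℝ) ^ δ * (T + ((2 * N : ℕ) : ℝ) ^ k)) * (H : ℝ) ^ k :=
        mul_le_mul h3 h7 (by positivity) h8
    _ ≤ K1 * 2 ^ δ * 2 ^ k * (N : ℝ) ^ δ * (T + (N : ℝ) ^ k) * (H : ℝ) ^ k := by
        apply mul_le_mul_of_nonneg_right _ (by positivity)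
        have e1 : ((2 * N : ℕ) : ℝ) ^ δ = 2 ^ δ * (N : ℝ) ^ δ := by
          push_cast
          exact Real.mul_rpow (by norm_num) hN0.le
        have e2 : ((2 * N : ℕ) : ℝ) ^ k = 2 ^ k * (N : ℝ) ^ k := by
          push_cast
          rw [mul_pow]
        rw [e1, e2]
        have h9 : (T : ℝ) + 2 ^ k * (N : ℝ) ^ k ≤ 2 ^ k * (T + (N : ℝ) ^ k) := by
          have : (1 : ℝ) ≤ 2 ^ k := one_le_pow₀ (by norm_num)
          nlinarith [(Nat.cast_nonneg T : (0 : ℝ) ≤ T)]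
        calc K1 * (2 ^ δ * (N : ℝ) ^ δ) * (T + 2 ^ k * (N : ℝ) ^ k)
            ≤ K1 * (2 ^ δ * (N : ℝ) ^ δ) * (2 ^ k * (T + (N : ℝ) ^ k)) :=
              mul_le_mul_of_nonneg_left h9 (by positivity)
          _ = _ := by ring

/-- the fourth moment, with exponents -/
theorem four (ε : ℝ) (hε : 0 < ε) :
    ∃ C : ℝ, 1 ≤ C ∧ ∀ (θ h x B : ℝ), 0 ≤ θ → 0 < h → h ≤ 1 → 1 ≤ B →
      ∀ N a q H T : ℕ, 1 ≤ N → 1 ≤ T → N ≤ a → 1 ≤ q → (N : ℝ) ^ θ ≤ q →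
      (∀ k < H, a + q * k ≤ 2 * N) → q * H ≤ 2 * N → (H : ℝ) ≤ B * (N : ℝ) ^ h →
      (T : ℝ) ≤ (N : ℝ) ^ (1 + x) → ∀ β : ℕ → ℂ, (∀ k, ‖β k‖ ≤ 1) →
      ∑ t ∈ Icc 1 T, ‖F a q H β (t : ℝ)‖ ^ 4 ≤ C * B ^ ε * B ^ 3 * (N : ℝ) ^ ε *
        ((N : ℝ) ^ (1 + x + 2 * h) + (N : ℝ) ^ (h + 2 - 2 * θ) + (N : ℝ) ^ (3 * h + 1 - θ)) := by
  obtain ⟨C0, hC0, hdiv⟩ := Pool.Agent.Helper112.divisor_bound (ε / 2) (by positivity)
  refine ⟨8000 * (C0 + 1), by linarith, ?_⟩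
  intro θ h x B hθ hh0 hh1 hB N a q H T hN hT ha hq hqθ hH hqH hHB hTx β hβ
  have hN0 : (0 : ℝ) < N := by exact_mod_cast hN
  have hN1 : (1 : ℝ) ≤ N := by exact_mod_cast hN
  have hq0 : (0 : ℝ) < q := by exact_mod_cast hq
  have hH0 : (0 : ℝ) ≤ H := Nat.cast_nonneg H
  have hB0 : 0 < B := by linarith
  obtain ⟨D, hD⟩ : ∃ D : ℝ, D = (C0 + 1) * (B ^ ε * (N : ℝ) ^ ε) := ⟨_, rfl⟩
  have hBε : 1 ≤ B ^ ε := Real.one_le_rpow hB hε.le
  have hNε : 1 ≤ (N : ℝ) ^ ε := Real.one_le_rpow hN1 hε.le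
  have hBN : 1 ≤ B ^ ε * (N : ℝ) ^ ε := one_le_mul_of_one_le_of_one_le hBε hNε
  have hHN : (H : ℝ) ≤ B * N := by
    refine hHB.trans ?_
    apply mul_le_mul_of_nonneg_left _ hB0.le
    calc (N : ℝ) ^ h ≤ (N : ℝ) ^ (1 : ℝ) := Real.rpow_le_rpow_of_exponent_le hN1 hh1
      _ = N := Real.rpow_one _
  have hD1 : 1 ≤ D := by
    rw [hD]
    nlinarith
  have hDm : ∀ m ∈ Icc 1 (H ^ 2), (m.divisors.card : ℝ) ≤ D := by
    intro m hm
    rw [mem_Icc] at hm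
    have h1 := hdiv m hm.1
    have h2 : (m : ℝ) ≤ (B * N) ^ 2 := by
      have h3 : (m : ℝ) ≤ (H : ℝ) ^ 2 := by exact_mod_cast hm.2
      exact h3.trans (pow_le_pow_left₀ hH0 hHN 2)
    have h3 : (m : ℝ) ^ (ε / 2) ≤ B ^ ε * (N : ℝ) ^ ε := by
      calc (m : ℝ) ^ (ε / 2) ≤ ((B * N) ^ 2) ^ (ε / 2) :=
            Real.rpow_le_rpow (Nat.cast_nonneg m) h2 (by positivity)
        _ = (B * N) ^ ε := by
            rw [← Real.rpow_natCast, ← Real.rpow_mul (by positivity)]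
            congr 1
            push_cast
            ring
        _ = B ^ ε * (N : ℝ) ^ ε := Real.mul_rpow hB0.le hN0.le
    calc (m.divisors.card : ℝ) ≤ C0 * (m : ℝ) ^ (ε / 2) := h1
      _ ≤ C0 * (B ^ ε * (N : ℝ) ^ ε) := mul_le_mul_of_nonneg_left h3 hC0.le
      _ ≤ D := by
          rw [hD]
          nlinarith
  have h1 := fourth N a q H T hN hT ha hq hH hqH β hβ D hDm hD1
  refine h1.trans ?_
  have hNh : 0 < (N : ℝ) ^ h := Real.rpow_pos_of_pos hN0 _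
  have hNθ : 0 < (N : ℝ) ^ θ := Real.rpow_pos_of_pos hN0 _
  have b1 : (T : ℝ) * (H : ℝ) ^ 2 ≤ B ^ 3 * (N : ℝ) ^ (1 + x + 2 * h) := by
    have e1 : (N : ℝ) ^ (1 + x + 2 * h) = (N : ℝ) ^ (1 + x) * ((N : ℝ) ^ h) ^ 2 := by
      rw [Real.rpow_add hN0, ← Real.rpow_natCast ((N : ℝ) ^ h), ← Real.rpow_mul hN0.le]
      congr 2
      push_cast
      ring
    calc (T : ℝ) * (H : ℝ) ^ 2 ≤ (N : ℝ) ^ (1 + x) * (B * (N : ℝ) ^ h) ^ 2 :=
          mul_le_mul hTx (pow_le_pow_left₀ hH0 hHB 2) (by positivity) (by positivity)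
      _ = B ^ 2 * (N : ℝ) ^ (1 + x + 2 * h) := by rw [e1]; ring
      _ ≤ B ^ 3 * (N : ℝ) ^ (1 + x + 2 * h) := by
          apply mul_le_mul_of_nonneg_right _ (by positivity)
          exact pow_le_pow_right₀ hB (by norm_num)
  have b2 : (N : ℝ) ^ 2 * (H / (q : ℝ) ^ 2) ≤ B ^ 3 * (N : ℝ) ^ (h + 2 - 2 * θ) := by
    have e1 : (N : ℝ) ^ (h + 2 - 2 * θ) = (N : ℝ) ^ 2 * ((N : ℝ) ^ h / ((N : ℝ) ^ θ) ^ 2) := by
      rw [Real.rpow_sub hN0, Real.rpow_add hN0]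
      have e2 : (N : ℝ) ^ (2 : ℝ) = (N : ℝ) ^ 2 := by
        rw [← Real.rpow_natCast]
        norm_num
      have e3 : (N : ℝ) ^ (2 * θ) = ((N : ℝ) ^ θ) ^ 2 := by
        rw [← Real.rpow_natCast, ← Real.rpow_mul hN0.le]
        congr 1
        push_cast
        ring
      rw [e2, e3]
      ring
    have e3 : (H : ℝ) / (q : ℝ) ^ 2 ≤ (B * (N : ℝ) ^ h) / ((N : ℝ) ^ θ) ^ 2 := by
      apply div_le_div₀ (by positivity) hHB (by positivity)
      exact pow_le_pow_left₀ hNθ.le hqθ 2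
    calc (N : ℝ) ^ 2 * (H / (q : ℝ) ^ 2) ≤ (N : ℝ) ^ 2 * ((B * (N : ℝ) ^ h) / ((N : ℝ) ^ θ) ^ 2) :=
          mul_le_mul_of_nonneg_left e3 (by positivity)
      _ = B * (N : ℝ) ^ (h + 2 - 2 * θ) := by rw [e1]; ring
      _ ≤ _ := by
          apply mul_le_mul_of_nonneg_right _ (by positivity)
          calc B = B ^ 1 := (pow_one B).symm
            _ ≤ B ^ 3 := pow_le_pow_right₀ hB (by norm_num)
  have b3 : (N : ℝ) ^ 2 * ((H : ℝ) ^ 3 / (q * N)) ≤ B ^ 3 * (N : ℝ) ^ (3 * h + 1 - θ) := by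
    have e1 : (N : ℝ) ^ (3 * h + 1 - θ) = N * (((N : ℝ) ^ h) ^ 3 / (N : ℝ) ^ θ) := by
      rw [Real.rpow_sub hN0, Real.rpow_add hN0, Real.rpow_one]
      have e3 : (N : ℝ) ^ (3 * h) = ((N : ℝ) ^ h) ^ 3 := by
        rw [← Real.rpow_natCast, ← Real.rpow_mul hN0.le]
        congr 1
        push_cast
        ring
      rw [e3]
      ring
    have e2 : (N : ℝ) ^ 2 * ((H : ℝ) ^ 3 / (q * N)) = N * ((H : ℝ) ^ 3 / q) := by
      field_simp
    have e3 : (H : ℝ) ^ 3 / q ≤ (B * (N : ℝ) ^ h) ^ 3 / (N : ℝ) ^ θ :=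
      div_le_div₀ (by positivity) (pow_le_pow_left₀ hH0 hHB 3) hNθ hqθ
    rw [e2]
    calc (N : ℝ) * ((H : ℝ) ^ 3 / q) ≤ N * ((B * (N : ℝ) ^ h) ^ 3 / (N : ℝ) ^ θ) :=
          mul_le_mul_of_nonneg_left e3 hN0.le
      _ = B ^ 3 * (N : ℝ) ^ (3 * h + 1 - θ) := by rw [e1]; ring
  have hD0 : 0 ≤ 8000 * D := by linarith
  calc 8000 * D * (T * (H : ℝ) ^ 2 + (N : ℝ) ^ 2 * (H / (q : ℝ) ^ 2 + (H : ℝ) ^ 3 / (q * N)))
      = 8000 * D * (T * (H : ℝ) ^ 2 + (N : ℝ) ^ 2 * (H / (q : ℝ) ^ 2) +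
          (N : ℝ) ^ 2 * ((H : ℝ) ^ 3 / (q * N))) := by ring
    _ ≤ 8000 * D * (B ^ 3 * (N : ℝ) ^ (1 + x + 2 * h) + B ^ 3 * (N : ℝ) ^ (h + 2 - 2 * θ) +
          B ^ 3 * (N : ℝ) ^ (3 * h + 1 - θ)) := by
        apply mul_le_mul_of_nonneg_left _ hD0
        linarith
    _ = _ := by
        rw [hD]
        ring

end Pool.Agent.T6.H47.AP
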