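import Pool.Agent.T6.H47.AP5

/-!
# Dirichlet polynomials supported on arithmetic progressions: the main theorem
-/

set_option autoImplicit false

namespace Pool.Agent.T6.H47.AP

open Finset Pool.Agent.TH705.DL

theorem qH_le (N a q H : ℕ) (ha : N ≤ a) (hH : ∀ h < H, a + q * h ≤ 2 * N) (h2 : 2 ≤ H) :
    q * H ≤ 2 * N := by
  have h1 := hH (H - 1) (by omega)
  obtain ⟨m, rfl⟩ : ∃ m, H = m + 2 := ⟨H - 2, by omega⟩
  have h3 : m + 2 - 1 = m + 1 := by omega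
  rw [h3] at h1
  have h4 : q * (m + 1) ≤ N := by omega
  calc q * (m + 2) ≤ q * (2 * (m + 1)) := Nat.mul_le_mul_left _ (by omega)
    _ = 2 * (q * (m + 1)) := by ring
    _ ≤ 2 * N := by omega

/-- **main theorem** -/
theorem main (θ : ℝ) (h0 : 0 ≤ θ) (h1 : θ ≤ 1 / 9) (p A ε B : ℝ) (hp : 2 ≤ p) (hε : 0 < ε)
    (hB : 1 ≤ B) :
    ∃ K : ℝ, ∀ N T a q H : ℕ, 1 ≤ N → N ≤ T → (T : ℝ) ≤ (N : ℝ) ^ A → N ≤ a → 1 ≤ q →
      (N : ℝ) ^ θ ≤ q → (∀ h < H, a + q * h ≤ 2 * N) → (H : ℝ) ≤ B * (N : ℝ) ^ ex θ →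
      ∀ b : ℕ → ℂ, (∀ n ∈ Icc N (2 * N), ‖b n‖ ≤ 1) →
        (∀ n ∈ Icc N (2 * N), b n ≠ 0 → ∃ h < H, n = a + q * h) →
        ∑ t ∈ Icc 1 T, ‖DD N b (t : ℝ)‖ ^ p ≤ K * (N : ℝ) ^ ε * ((N : ℝ) ^ p + T * (N : ℝ) ^ (p / 2)) := by
  obtain ⟨hex0, hex1, hex2⟩ := ex_facts θ h0 h1
  choose Kf hKf hmom using fun k : ℕ => mom k ε hε
  obtain ⟨C, hC1, hfour⟩ := four ε hε
  have hB0 : 0 < B := by linarith
  obtain ⟨M, hM⟩ : ∃ M : ℝ, M = ∑ k ∈ range (⌊A⌋₊ + 3), Kf k := ⟨_, rfl⟩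
  have hM0 : 0 ≤ M := by rw [hM]; exact sum_nonneg fun k _ => (hKf k).le
  have hMk : ∀ k, k ≤ ⌊A⌋₊ + 2 → Kf k ≤ M := by
    intro k hk
    rw [hM]
    exact single_le_sum (f := Kf) (fun i _ => (hKf i).le) (mem_range.2 (by omega))
  obtain ⟨X0, hX0⟩ : ∃ X0 : ℝ, X0 = 2 * M * B ^ (⌊A⌋₊ + 2) + 3 * (C * B ^ ε * B ^ 3) := ⟨_, rfl⟩
  have hX00 : 0 ≤ X0 := by rw [hX0]; positivity
  refine ⟨2 ^ p * (2 * X0 + 1), ?_⟩
  intro N T a q H hN hNT hTA ha hq hqθ hH hHB b hb hs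
  have hN0 : (0 : ℝ) < N := by exact_mod_cast hN
  have hN1 : (1 : ℝ) ≤ N := by exact_mod_cast hN
  have hT : 1 ≤ T := le_trans hN hNT
  have hT0 : (0 : ℝ) < T := by exact_mod_cast hT
  have hNε : 1 ≤ (N : ℝ) ^ ε := Real.one_le_rpow hN1 hε.le
  have hp0 : 0 < p := by linarith
  have h2p : (1 : ℝ) ≤ 2 ^ p := Real.one_le_rpow (by norm_num) hp0.le
  have hR0 : 0 ≤ (N : ℝ) ^ p + T * (N : ℝ) ^ (p / 2) := by positivity
  have hfin : 2 ^ p * ((N : ℝ) ^ p + T * (N : ℝ) ^ (p / 2)) ≤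
      2 ^ p * (2 * X0 + 1) * (N : ℝ) ^ ε * ((N : ℝ) ^ p + T * (N : ℝ) ^ (p / 2)) := by
    apply mul_le_mul_of_nonneg_right _ hR0
    have h5 : 1 ≤ (2 * X0 + 1) * (N : ℝ) ^ ε := one_le_mul_of_one_le_of_one_le (by linarith) hNε
    calc (2 : ℝ) ^ p = 2 ^ p * 1 := (mul_one _).symm
      _ ≤ 2 ^ p * ((2 * X0 + 1) * (N : ℝ) ^ ε) := mul_le_mul_of_nonneg_left h5 (by positivity)
      _ = _ := by ring
  -- few terms
  rcases Nat.lt_or_ge H 2 with hH2 | hH2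
  · have h5 : ∀ t : ℝ, ‖DD N b t‖ ≤ 1 := by
      intro t
      refine (DD_le_card N b hb t).trans ?_
      have h6 := supp_card N a q H b hs
      have h7 : ((Icc N (2 * N)).filter (fun n => b n ≠ 0)).card ≤ 1 := by omega
      exact_mod_cast h7
    refine le_trans ?_ hfin
    calc ∑ t ∈ Icc 1 T, ‖DD N b (t : ℝ)‖ ^ p ≤ ∑ t ∈ Icc 1 T, (1 : ℝ) :=
          sum_le_sum fun t _ => Real.rpow_le_one (norm_nonneg _) (h5 t) hp0.le
      _ = T := by simp
      _ ≤ T * (N : ℝ) ^ (p / 2) := by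
          have : 1 ≤ (N : ℝ) ^ (p / 2) := Real.one_le_rpow hN1 (by positivity)
          nlinarith
      _ ≤ (N : ℝ) ^ p + T * (N : ℝ) ^ (p / 2) := by
          have : 0 ≤ (N : ℝ) ^ p := by positivity
          linarith
      _ ≤ _ := by nlinarith
  have hqH := qH_le N a q H ha hH hH2
  -- N = 1
  rcases Nat.lt_or_ge N 2 with hN2 | hN2
  · have hN1' : N = 1 := by omega
    subst hN1'
    have hTe : T = 1 := by
      have : (T : ℝ) ≤ 1 := by simpa using hTA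
      have h6 : T ≤ 1 := by exact_mod_cast this
      omega
    subst hTe
    refine le_trans ?_ hfin
    rw [Icc_self, sum_singleton]
    have h5 := DD_le 1 le_rfl b hb ((1 : ℕ) : ℝ)
    calc ‖DD 1 b ((1 : ℕ) : ℝ)‖ ^ p ≤ (2 * ((1 : ℕ) : ℝ)) ^ p :=
          Real.rpow_le_rpow (norm_nonneg _) h5 hp0.le
      _ = 2 ^ p * 1 := by norm_num
      _ ≤ _ := by
          apply mul_le_mul_of_nonneg_left _ (by positivity)
          rw [Nat.cast_one, Real.one_rpow, Real.one_rpow]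
          norm_num
  have hN2r : (1 : ℝ) < N := by exact_mod_cast (by omega : 1 < N)
  have hlogN : 0 < Real.log N := Real.log_pos hN2r
  obtain ⟨κ, hκ⟩ : ∃ κ : ℝ, κ = Real.log T / Real.log N := ⟨_, rfl⟩
  have hTκ : (T : ℝ) = (N : ℝ) ^ κ := by
    rw [hκ, Real.rpow_def_of_pos hN0, mul_div_cancel₀ _ hlogN.ne', Real.exp_log hT0]
  have hκ1 : 1 ≤ κ := by
    rw [hκ, le_div_iff₀ hlogN, one_mul]
    exact Real.log_le_log hN0 (by exact_mod_cast hNT)
  have hκA : κ ≤ A := by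
    have h5 := hTA
    rw [hTκ] at h5
    exact (Real.rpow_le_rpow_left_iff hN2r).1 h5
  obtain ⟨j, hj⟩ : ∃ j : ℕ, j = ⌊κ⌋₊ := ⟨_, rfl⟩
  have hj1 : 1 ≤ j := by rw [hj]; exact Nat.one_le_floor_iff _ |>.2 hκ1
  have hjκ : (j : ℝ) ≤ κ := by rw [hj]; exact Nat.floor_le (by linarith)
  have hκj : κ < j + 1 := by rw [hj]; exact Nat.lt_floor_add_one κ
  have hjA : j ≤ ⌊A⌋₊ := by rw [hj]; exact Nat.floor_mono hκA
  obtain ⟨x, hx⟩ : ∃ x : ℝ, x = κ - j := ⟨_, rfl⟩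
  have hx0 : 0 ≤ x := by linarith
  have hx1 : x ≤ 1 := by linarith
  have hκx : κ = j + x := by linarith
  have hcard := supp_card N a q H b hs
  obtain ⟨X, hX⟩ : ∃ X : ℝ, X = X0 * (N : ℝ) ^ ε := ⟨_, rfl⟩
  have hXX : 0 ≤ X := by rw [hX]; positivity
  have hH0 : (0 : ℝ) ≤ H := Nat.cast_nonneg H
  -- the lower moment
  have hlow : ∑ t ∈ Icc 1 T, ‖DD N b (t : ℝ)‖ ^ (2 * j) ≤ X * (N : ℝ) ^ (j + x + ex θ * j) := by
    have h5 := hmom j N T H hN hT b hb hcard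
    refine h5.trans ?_
    have h6 : (N : ℝ) ^ j ≤ T := by
      rw [hTκ, ← Real.rpow_natCast]
      exact Real.rpow_le_rpow_of_exponent_le hN1 hjκ
    have h7 : (H : ℝ) ^ j ≤ B ^ (⌊A⌋₊ + 2) * (N : ℝ) ^ (ex θ * j) := by
      calc (H : ℝ) ^ j ≤ (B * (N : ℝ) ^ ex θ) ^ j := pow_le_pow_left₀ hH0 hHB j
        _ = B ^ j * (N : ℝ) ^ (ex θ * j) := by
            rw [mul_pow, ← Real.rpow_natCast ((N : ℝ) ^ ex θ) j, ← Real.rpow_mul hN0.le]
        _ ≤ _ := by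
            apply mul_le_mul_of_nonneg_right _ (by positivity)
            exact pow_le_pow_right₀ hB (by omega)
    have h8 : Kf j ≤ M := hMk j (by omega)
    calc Kf j * (N : ℝ) ^ ε * (T + (N : ℝ) ^ j) * (H : ℝ) ^ j
        ≤ M * (N : ℝ) ^ ε * (2 * T) * (B ^ (⌊A⌋₊ + 2) * (N : ℝ) ^ (ex θ * j)) := by
          have h9 : (T : ℝ) + (N : ℝ) ^ j ≤ 2 * T := by linarith
          have hKj := (hKf j).le
          gcongr
      _ = (2 * M * B ^ (⌊A⌋₊ + 2)) * (N : ℝ) ^ ε * (N : ℝ) ^ (j + x + ex θ * j) := by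
          rw [Real.rpow_add hN0 (j + x), ← hκx, ← hTκ]
          ring
      _ ≤ X * (N : ℝ) ^ (j + x + ex θ * j) := by
          rw [hX, hX0]
          apply mul_le_mul_of_nonneg_right _ (by positivity)
          apply mul_le_mul_of_nonneg_right _ (by positivity)
          have : 0 ≤ 3 * (C * B ^ ε * B ^ 3) := by positivity
          linarith
  -- the critical moment
  have hcrit : ∑ t ∈ Icc 1 T, ‖DD N b (t : ℝ)‖ ^ (2 * κ) ≤ 2 * X * (N : ℝ) ^ (2 * κ) := by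
    rw [hκx]
    rcases Nat.lt_or_ge j 2 with hj2 | hj2
    · have hj1' : j = 1 := by omega
      subst hj1'
      have hTx : (T : ℝ) ≤ (N : ℝ) ^ (1 + x) := by
        rw [hTκ, hκx]
        apply le_of_eq
        norm_num
      have h5 := hfour θ (ex θ) x B h0 hex0 (by linarith) hB N a q H T hN hT ha hq hqθ hH hqH hHB hTx
        (fun k => if k < H then b (a + q * k) else 0) (by
          intro k
          split_ifs with hk
          · exact hb _ (mem_Icc.2 ⟨le_trans ha (Nat.le_add_right _ _), hH k hk⟩)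
          · simp)
      have h6 : ∑ t ∈ Icc 1 T, ‖DD N b (t : ℝ)‖ ^ (2 * (1 + 1)) =
          ∑ t ∈ Icc 1 T, ‖F a q H (fun k => if k < H then b (a + q * k) else 0) (t : ℝ)‖ ^ 4 := by
        apply sum_congr rfl
        intro t _
        rw [DD_eq_F N a q H ha hq hH b hs]
      obtain ⟨e1, e2, e3⟩ := expo1 θ (ex θ) x h0 hex0 hex1 hex2 hx0 hx1
      obtain ⟨E, hE1, hE2, hE3, hE4⟩ : ∃ E : ℝ, 1 + x + 2 * ex θ ≤ E ∧ ex θ + 2 - 2 * θ ≤ E ∧
          3 * ex θ + 1 - θ ≤ E ∧ (1 - x) * (1 + x + ex θ) + x * E ≤ 2 * (1 + x) := by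
        rcases le_total (1 + x + 2 * ex θ) (ex θ + 2 - 2 * θ) with c1 | c1
        · rcases le_total (ex θ + 2 - 2 * θ) (3 * ex θ + 1 - θ) with c2 | c2
          · exact ⟨_, c1.trans c2, c2, le_rfl, e2⟩
          · exact ⟨_, c1, le_rfl, c2, e3⟩
        · rcases le_total (1 + x + 2 * ex θ) (3 * ex θ + 1 - θ) with c2 | c2
          · exact ⟨_, c2, c1.trans c2, le_rfl, e2⟩
          · exact ⟨_, le_rfl, c1, c2, e1⟩
      refine crit (Icc 1 T) (fun t => ‖DD N b (t : ℝ)‖) (fun t => norm_nonneg _) N hN1 1 le_rfl x hx0 hx1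
        (((1 : ℕ) : ℝ) + x + ex θ * ((1 : ℕ) : ℝ)) E X hXX hlow ?_ ?_
      · rw [h6]
        refine h5.trans ?_
        have m1 : (N : ℝ) ^ (1 + x + 2 * ex θ) ≤ (N : ℝ) ^ E := Real.rpow_le_rpow_of_exponent_le hN1 hE1
        have m2 : (N : ℝ) ^ (ex θ + 2 - 2 * θ) ≤ (N : ℝ) ^ E := Real.rpow_le_rpow_of_exponent_le hN1 hE2
        have m3 : (N : ℝ) ^ (3 * ex θ + 1 - θ) ≤ (N : ℝ) ^ E := Real.rpow_le_rpow_of_exponent_le hN1 hE3
        calc C * B ^ ε * B ^ 3 * (N : ℝ) ^ ε *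
              ((N : ℝ) ^ (1 + x + 2 * ex θ) + (N : ℝ) ^ (ex θ + 2 - 2 * θ) + (N : ℝ) ^ (3 * ex θ + 1 - θ))
            ≤ C * B ^ ε * B ^ 3 * (N : ℝ) ^ ε * (3 * (N : ℝ) ^ E) := by
              apply mul_le_mul_of_nonneg_left _ (by positivity)
              linarith
          _ = (3 * (C * B ^ ε * B ^ 3)) * (N : ℝ) ^ ε * (N : ℝ) ^ E := by ring
          _ ≤ X * (N : ℝ) ^ E := by
              rw [hX, hX0]
              apply mul_le_mul_of_nonneg_right _ (by positivity)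
              apply mul_le_mul_of_nonneg_right _ (by positivity)
              have : 0 ≤ 2 * M * B ^ (⌊A⌋₊ + 2) := by positivity
              linarith
      · push_cast
        have e4 : (1 - x) * (1 + x + ex θ * 1) + x * E = (1 - x) * (1 + x + ex θ) + x * E := by ring
        rw [e4]
        exact hE4
    · refine crit (Icc 1 T) (fun t => ‖DD N b (t : ℝ)‖) (fun t => norm_nonneg _) N hN1 j hj1 x hx0 hx1
        ((j : ℝ) + x + ex θ * (j : ℝ)) (((j : ℝ) + 1) * (1 + ex θ)) X hXX hlow ?_ ?_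
      · have h5 := hmom (j + 1) N T H hN hT b hb hcard
        refine h5.trans ?_
        have h6 : (T : ℝ) ≤ (N : ℝ) ^ (j + 1) := by
          rw [hTκ, ← Real.rpow_natCast]
          apply Real.rpow_le_rpow_of_exponent_le hN1
          push_cast
          linarith
        have h7 : (H : ℝ) ^ (j + 1) ≤ B ^ (⌊A⌋₊ + 2) * (N : ℝ) ^ (ex θ * (j + 1)) := by
          calc (H : ℝ) ^ (j + 1) ≤ (B * (N : ℝ) ^ ex θ) ^ (j + 1) := pow_le_pow_left₀ hH0 hHB _
            _ = B ^ (j + 1) * (N : ℝ) ^ (ex θ * (j + 1)) := by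
                rw [mul_pow, ← Real.rpow_natCast ((N : ℝ) ^ ex θ) (j + 1), ← Real.rpow_mul hN0.le]
                push_cast
                rfl
            _ ≤ _ := by
                apply mul_le_mul_of_nonneg_right _ (by positivity)
                exact pow_le_pow_right₀ hB (by omega)
        have h8 : Kf (j + 1) ≤ M := hMk (j + 1) (by omega)
        calc Kf (j + 1) * (N : ℝ) ^ ε * (T + (N : ℝ) ^ (j + 1)) * (H : ℝ) ^ (j + 1)
            ≤ M * (N : ℝ) ^ ε * (2 * (N : ℝ) ^ (j + 1)) *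
                (B ^ (⌊A⌋₊ + 2) * (N : ℝ) ^ (ex θ * (j + 1))) := by
              have h9 : (T : ℝ) + (N : ℝ) ^ (j + 1) ≤ 2 * (N : ℝ) ^ (j + 1) := by linarith
              have hKj := (hKf (j + 1)).le
              gcongr
          _ = (2 * M * B ^ (⌊A⌋₊ + 2)) * (N : ℝ) ^ ε * (N : ℝ) ^ (((j : ℝ) + 1) * (1 + ex θ)) := by
              have e4 : ((j : ℝ) + 1) * (1 + ex θ) = ((j + 1 : ℕ) : ℝ) + ex θ * (j + 1) := by
                push_cast
                ring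
              rw [e4, Real.rpow_add hN0, Real.rpow_natCast]
              ring
          _ ≤ X * (N : ℝ) ^ (((j : ℝ) + 1) * (1 + ex θ)) := by
              rw [hX, hX0]
              apply mul_le_mul_of_nonneg_right _ (by positivity)
              apply mul_le_mul_of_nonneg_right _ (by positivity)
              have : 0 ≤ 3 * (C * B ^ ε * B ^ 3) := by positivity
              linarith
      · exact expo2 (ex θ) j x hex1 (by exact_mod_cast hj2) hx0 hx1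
  have h9 := all_orders T (fun t => ‖DD N b (t : ℝ)‖) (fun t => norm_nonneg _) N hN1
    (fun t => DD_le N hN b hb _) hT κ hκ1 hTκ (2 * X) hcrit p hp
  refine h9.trans ?_
  apply mul_le_mul_of_nonneg_right _ hR0
  have h10 : 2 * X + 1 ≤ (2 * X0 + 1) * (N : ℝ) ^ ε := by
    rw [hX]
    nlinarith
  calc 2 ^ p * (2 * X + 1) ≤ 2 ^ p * ((2 * X0 + 1) * (N : ℝ) ^ ε) :=
        mul_le_mul_of_nonneg_left h10 (by positivity)
    _ = _ := by ring

end Pool.Agent.T6.H47.AP
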