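import Mathlib

set_option autoImplicit false

/-! Counting integers in residue classes, and the second moment of a sum over classes to many moduli. -/

namespace Pool.Agent.T6.H47.BV

open Finset

/-- the indicator function of the class `a` mod `q` -/
noncomputable def ci (q : ℕ) (a : ℤ) (x : ℤ) : ℝ := if (q : ℤ) ∣ x - a then 1 else 0

theorem ci_nonneg (q : ℕ) (a x : ℤ) : 0 ≤ ci q a x := by unfold ci; split_ifs <;> norm_num

theorem ci_le_one (q : ℕ) (a x : ℤ) : ci q a x ≤ 1 := by unfold ci; split_ifs <;> norm_num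

theorem ci_add (q : ℕ) (a x h : ℤ) : ci q a (x + h) = ci q (a - h) x := by
  unfold ci
  rw [show x + h - a = x - (a - h) by ring]

/-- the number of integers in a class -/
theorem ci_count {q : ℕ} (hq : 1 ≤ q) (a : ℤ) (N : ℕ) :
    |∑ n ∈ range N, ci q a n - (N : ℝ) / q| ≤ 1 := by
  have hq0 : (0 : ℤ) < q := by exact_mod_cast hq
  have hqr : (0 : ℝ) < q := by exact_mod_cast hq
  set v : ℕ := (a % q).toNat with hv
  have hv' : ((v : ℕ) : ℤ) = a % q := Int.toNat_of_nonneg (Int.emod_nonneg _ hq0.ne')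
  have h1 : ∑ n ∈ range N, ci q a n = (Nat.count (fun n => n ≡ v [MOD q]) N : ℝ) := by
    rw [Nat.count_eq_card_filter_range, card_filter]
    push_cast
    apply sum_congr rfl
    intro n _
    unfold ci
    have h : ((q : ℤ) ∣ (n : ℤ) - a) ↔ n ≡ v [MOD q] := by
      rw [← Int.natCast_modEq_iff, hv']
      constructor
      · intro h
        have h2 : a ≡ n [ZMOD q] := (Int.modEq_iff_dvd).2 h
        exact (h2.symm).trans (Int.mod_modEq a q).symm
      · intro h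
        have h2 : (n : ℤ) ≡ a [ZMOD q] := h.trans (Int.mod_modEq a q)
        exact (Int.modEq_iff_dvd).1 h2.symm
    by_cases h3 : (q : ℤ) ∣ (n : ℤ) - a
    · rw [if_pos h3, if_pos (h.1 h3)]
    · rw [if_neg h3, if_neg (fun h4 => h3 (h.2 h4))]
  rw [h1, Nat.count_modEq_card _ (by omega)]
  have h2 : ((N / q : ℕ) : ℝ) ≤ (N : ℝ) / q := Nat.cast_div_le
  have h3 : (N : ℝ) / q ≤ ((N / q : ℕ) : ℝ) + 1 := by
    rw [div_le_iff₀ hqr]
    have : N < (N / q + 1) * q := by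
      have := Nat.lt_div_mul_add (a := N) (show 0 < q by omega)
      nlinarith
    have : (N : ℝ) ≤ ((N / q + 1 : ℕ) : ℝ) * q := by exact_mod_cast this.le
    push_cast at this
    exact this
  rw [abs_le]
  split_ifs <;> push_cast <;> constructor <;> linarith

theorem ci_count_le {q : ℕ} (hq : 1 ≤ q) (a : ℤ) (N : ℕ) :
    ∑ n ∈ range N, ci q a n ≤ (N : ℝ) / q + 1 := by
  have := (abs_le.1 (ci_count hq a N)).2
  linarith

theorem ci_count_ge {q : ℕ} (hq : 1 ≤ q) (a : ℤ) (N : ℕ) :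
    (N : ℝ) / q - 1 ≤ ∑ n ∈ range N, ci q a n := by
  have := (abs_le.1 (ci_count hq a N)).1
  linarith

/-- the number of integers in two classes -/
theorem ci_pair {q q' : ℕ} (hq : 1 ≤ q) (hq' : 1 ≤ q') (a a' : ℤ) (N : ℕ) :
    ∑ n ∈ range N, ci q a n * ci q' a' n ≤
      ci (Nat.gcd q q') a a' * ((N : ℝ) / (Nat.lcm q q') + 1) := by
  have hl : 1 ≤ Nat.lcm q q' := Nat.lcm_pos (by omega) (by omega)
  by_cases hex : ∃ n ∈ range N, (q : ℤ) ∣ (n : ℤ) - a ∧ (q' : ℤ) ∣ (n : ℤ) - a'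
  · obtain ⟨n0, hn0, h1, h2⟩ := hex
    have hg : ci (Nat.gcd q q') a a' = 1 := by
      unfold ci
      rw [if_pos]
      have g1 : ((Nat.gcd q q' : ℕ) : ℤ) ∣ (n0 : ℤ) - a :=
        (Int.natCast_dvd_natCast.2 (Nat.gcd_dvd_left q q')).trans h1
      have g2 : ((Nat.gcd q q' : ℕ) : ℤ) ∣ (n0 : ℤ) - a' :=
        (Int.natCast_dvd_natCast.2 (Nat.gcd_dvd_right q q')).trans h2
      have := dvd_sub g1 g2
      rwa [show (n0 : ℤ) - a - (n0 - a') = a' - a by ring] at this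
    rw [hg, one_mul]
    refine le_trans ?_ (ci_count_le hl (n0 : ℤ) N)
    apply sum_le_sum
    intro n _
    unfold ci
    by_cases c1 : (q : ℤ) ∣ (n : ℤ) - a
    · by_cases c2 : (q' : ℤ) ∣ (n : ℤ) - a'
      · have e1 : (q : ℤ) ∣ (n : ℤ) - n0 := by
          have := dvd_sub c1 h1
          rwa [show (n : ℤ) - a - (n0 - a) = n - n0 by ring] at this
        have e2 : (q' : ℤ) ∣ (n : ℤ) - n0 := by
          have := dvd_sub c2 h2
          rwa [show (n : ℤ) - a' - (n0 - a') = n - n0 by ring] at this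
        have e3 : ((Nat.lcm q q' : ℕ) : ℤ) ∣ (n : ℤ) - n0 := by
          rw [← Int.natAbs_dvd_natAbs] at e1 e2 ⊢
          simp only [Int.natAbs_natCast] at e1 e2 ⊢
          exact Nat.lcm_dvd e1 e2
        rw [if_pos c1, if_pos c2, if_pos e3]
        norm_num
      · rw [if_neg c2, mul_zero]
        split_ifs <;> norm_num
    · rw [if_neg c1, zero_mul]
      split_ifs <;> norm_num
  · have h0 : ∑ n ∈ range N, ci q a n * ci q' a' n = 0 := by
      apply sum_eq_zero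
      intro n hn
      unfold ci
      by_cases c1 : (q : ℤ) ∣ (n : ℤ) - a
      · by_cases c2 : (q' : ℤ) ∣ (n : ℤ) - a'
        · exact absurd ⟨n, hn, c1, c2⟩ hex
        · rw [if_neg c2, mul_zero]
      · rw [if_neg c1, zero_mul]
    rw [h0]
    have := ci_nonneg (Nat.gcd q q') a a'
    positivity

/-- pairs of shifts -/
theorem ci_shifts {g : ℕ} (hg : 1 ≤ g) (a a' : ℤ) (H : ℕ) :
    ∑ h ∈ range H, ∑ h' ∈ range H, ci g (a - h) (a' - h') ≤ H * ((H : ℝ) / g + 1) := by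
  have h1 : ∀ h ∈ range H, ∑ h' ∈ range H, ci g (a - h) (a' - h') ≤ (H : ℝ) / g + 1 := by
    intro h _
    refine le_trans (le_of_eq ?_) (ci_count_le hg (a' - a + h) H)
    apply sum_congr rfl
    intro h' _
    unfold ci
    have e : ((g : ℤ) ∣ a' - h' - (a - h)) ↔ ((g : ℤ) ∣ (h' : ℤ) - (a' - a + h)) := by
      rw [← dvd_neg, show -(a' - (h' : ℤ) - (a - h)) = h' - (a' - a + h) by ring]
    simp only [e]
  calc _ ≤ ∑ h ∈ range H, ((H : ℝ) / g + 1) := sum_le_sum h1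
    _ = _ := by rw [sum_const, card_range, nsmul_eq_mul]

variable (P : Finset ℕ) (a : ℕ → ℤ)

/-- the sum over the moduli -/
noncomputable def rr (x : ℤ) : ℝ := ∑ q ∈ P, ci q (a q) x

/-- the sum over the moduli and the shifts -/
noncomputable def RR (H : ℕ) (x : ℤ) : ℝ := ∑ h ∈ range H, rr P a (x + h)

/-- the mean -/
noncomputable def mm : ℝ := ∑ q ∈ P, 1 / (q : ℝ)

/-- the sum of the reciprocals of the least common multiples -/
noncomputable def GG : ℝ := ∑ q ∈ P, ∑ q' ∈ P, 1 / (Nat.lcm q q' : ℝ)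

theorem rr_nonneg (x : ℤ) : 0 ≤ rr P a x := sum_nonneg fun q _ => ci_nonneg q _ x

theorem mm_nonneg : 0 ≤ mm P := sum_nonneg fun q _ => by positivity

theorem GG_nonneg : 0 ≤ GG P := sum_nonneg fun q _ => sum_nonneg fun q' _ => by positivity

theorem RR_first (hP : ∀ q ∈ P, 1 ≤ q) (H N : ℕ) :
    H * (N * mm P - #P) ≤ ∑ n ∈ range N, RR P a H n := by
  unfold RR rr
  rw [sum_comm]
  have h1 : ∀ h ∈ range H, (N * mm P - #P : ℝ) ≤ ∑ n ∈ range N, ∑ q ∈ P, ci q (a q) ((n : ℤ) + h) := by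
    intro h _
    rw [sum_comm]
    have e : (N * mm P - #P : ℝ) = ∑ q ∈ P, ((N : ℝ) / q - 1) := by
      unfold mm
      rw [sum_sub_distrib, sum_const, nsmul_eq_mul, mul_one, mul_sum]
      simp only [mul_one_div]
    rw [e]
    apply sum_le_sum
    intro q hq
    simp only [ci_add]
    exact ci_count_ge (hP q hq) _ N
  calc (H * (N * mm P - #P) : ℝ) = ∑ h ∈ range H, (N * mm P - #P : ℝ) := by
        rw [sum_const, card_range, nsmul_eq_mul]
    _ ≤ _ := sum_le_sum h1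

theorem RR_second (hP : ∀ q ∈ P, 1 ≤ q) {H : ℕ} (hH : 1 ≤ H) (N : ℕ) :
    ∑ n ∈ range N, RR P a H n ^ 2 ≤ (H : ℝ) ^ 2 * (N * mm P ^ 2) + H * N * GG P + 2 * H ^ 2 * #P ^ 2 := by
  have hHr : (1 : ℝ) ≤ H := by exact_mod_cast hH
  have e1 : ∀ n : ℕ, RR P a H n ^ 2 =
      ∑ q ∈ P, ∑ q' ∈ P, ∑ h ∈ range H, ∑ h' ∈ range H, ci q (a q - h) n * ci q' (a q' - h') n := by
    intro n
    have e0 : RR P a H n = ∑ q ∈ P, ∑ h ∈ range H, ci q (a q - h) n := by
      unfold RR rr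
      rw [sum_comm]
      simp only [ci_add]
    rw [e0, pow_two, sum_mul_sum]
    apply sum_congr rfl
    intro q _
    apply sum_congr rfl
    intro q' _
    rw [sum_mul_sum]
  have e2 : ∑ n ∈ range N, RR P a H n ^ 2 =
      ∑ q ∈ P, ∑ q' ∈ P, ∑ h ∈ range H, ∑ h' ∈ range H, ∑ n ∈ range N,
        ci q (a q - h) n * ci q' (a q' - h') n := by
    simp only [e1]
    rw [sum_comm]
    apply sum_congr rfl; intro q _
    rw [sum_comm]
    apply sum_congr rfl; intro q' _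
    rw [sum_comm]
    apply sum_congr rfl; intro h _
    rw [sum_comm]
  rw [e2]
  have h1 : ∀ q ∈ P, ∀ q' ∈ P, ∑ h ∈ range H, ∑ h' ∈ range H, ∑ n ∈ range N,
        ci q (a q - h) n * ci q' (a q' - h') n ≤
        H ^ 2 * N * (1 / q * (1 / q')) + H * N * (1 / (Nat.lcm q q' : ℝ)) + 2 * H ^ 2 := by
    intro q hq q' hq'
    have hq1 := hP q hq
    have hq1' := hP q' hq'
    have hg : 1 ≤ Nat.gcd q q' := Nat.gcd_pos_of_pos_left _ (by omega)
    have hl : 1 ≤ Nat.lcm q q' := Nat.lcm_pos (by omega) (by omega)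
    have hgr : (1 : ℝ) ≤ (Nat.gcd q q' : ℕ) := by exact_mod_cast hg
    have hlr : (1 : ℝ) ≤ (Nat.lcm q q' : ℕ) := by exact_mod_cast hl
    have hqr : (1 : ℝ) ≤ q := by exact_mod_cast hq1
    have hqr' : (1 : ℝ) ≤ q' := by exact_mod_cast hq1'
    have hgl : ((Nat.gcd q q' : ℕ) : ℝ) * (Nat.lcm q q' : ℕ) = q * q' := by
      exact_mod_cast Nat.gcd_mul_lcm q q'
    calc _ ≤ ∑ h ∈ range H, ∑ h' ∈ range H,
          ci (Nat.gcd q q') (a q - h) (a q' - h') * ((N : ℝ) / (Nat.lcm q q') + 1) :=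
          sum_le_sum fun h _ => sum_le_sum fun h' _ => ci_pair hq1 hq1' _ _ N
      _ = (∑ h ∈ range H, ∑ h' ∈ range H, ci (Nat.gcd q q') (a q - h) (a q' - h')) *
          ((N : ℝ) / (Nat.lcm q q') + 1) := by
          rw [sum_mul]
          apply sum_congr rfl; intro h _
          rw [sum_mul]
      _ ≤ (H * ((H : ℝ) / (Nat.gcd q q' : ℕ) + 1)) * ((N : ℝ) / (Nat.lcm q q') + 1) := by
          apply mul_le_mul_of_nonneg_right (ci_shifts hg _ _ H) (by positivity)
      _ = H ^ 2 * (N / ((Nat.gcd q q' : ℕ) * (Nat.lcm q q' : ℕ))) + H * N * (1 / (Nat.lcm q q' : ℝ)) +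
          H ^ 2 / (Nat.gcd q q' : ℕ) + H := by
          field_simp
          ring
      _ ≤ _ := by
          rw [hgl]
          have h2 : (H : ℝ) ^ 2 / (Nat.gcd q q' : ℕ) ≤ H ^ 2 := div_le_self (by positivity) hgr
          have h3 : (H : ℝ) ≤ H ^ 2 := by nlinarith
          have h4 : (H : ℝ) ^ 2 * (N / (q * q')) = H ^ 2 * N * (1 / q * (1 / q')) := by
            field_simp
          rw [h4]
          linarith
  calc _ ≤ ∑ q ∈ P, ∑ q' ∈ P, ((H : ℝ) ^ 2 * N * (1 / q * (1 / q')) + H * N * (1 / (Nat.lcm q q' : ℝ)) + 2 * H ^ 2) :=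
        sum_le_sum fun q hq => sum_le_sum fun q' hq' => h1 q hq q' hq'
    _ = _ := by
        simp only [sum_add_distrib, ← mul_sum, sum_const, nsmul_eq_mul]
        unfold mm GG
        rw [pow_two (∑ q ∈ P, 1 / (q : ℝ)), sum_mul]
        ring

/-- **the second moment** -/
theorem RR_var (hP : ∀ q ∈ P, 1 ≤ q) {H : ℕ} (hH : 1 ≤ H) (N : ℕ) :
    ∑ n ∈ range N, (RR P a H n - H * mm P) ^ 2 ≤
      H * N * GG P + H ^ 2 * (2 * #P ^ 2 + 2 * mm P * #P) := by
  have h1 := RR_first P a hP H N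
  have h2 := RR_second P a hP hH N
  have e : ∑ n ∈ range N, (RR P a H n - H * mm P) ^ 2 =
      ∑ n ∈ range N, RR P a H n ^ 2 - 2 * (H * mm P) * ∑ n ∈ range N, RR P a H n +
        N * (H * mm P) ^ 2 := by
    have e' : (N : ℝ) * (H * mm P) ^ 2 = ∑ n ∈ range N, (H * mm P) ^ 2 := by
      rw [sum_const, card_range, nsmul_eq_mul]
    rw [e', mul_sum, ← sum_sub_distrib, ← sum_add_distrib]
    apply sum_congr rfl
    intro n _
    ring
  rw [e]
  have hm := mm_nonneg P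
  have hHr : (0 : ℝ) ≤ H := Nat.cast_nonneg _
  have h3 : 2 * (H * mm P) * (H * (N * mm P - #P)) ≤ 2 * (H * mm P) * ∑ n ∈ range N, RR P a H n :=
    mul_le_mul_of_nonneg_left h1 (by positivity)
  nlinarith

end Pool.Agent.T6.H47.BV
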