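import Pool.Agent.T6.H47.BV9

set_option autoImplicit false

/-! Sufficiency of sparse information. -/

namespace Pool.Agent.T6.H47.BV

open Finset Filter Topology Pool.Agent.H499R2.CO Pool.Agent.H499R2.ND

theorem rpow_large (C η : ℝ) (hη : 0 < η) : ∃ M : ℕ, ∀ N : ℕ, M ≤ N → C / Real.log N ^ (1 / 30 : ℝ) ≤ η := by
  have h1 : Tendsto (fun N : ℕ => C / Real.log (N : ℝ) ^ (1 / 30 : ℝ)) atTop (𝓝 0) := by
    apply Tendsto.const_div_atTop
    apply (tendsto_rpow_atTop (by norm_num : (0 : ℝ) < 1 / 30)).comp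
    exact Real.tendsto_log_atTop.comp tendsto_natCast_atTop_atTop
  have h2 := h1.eventually (gt_mem_nhds hη)
  obtain ⟨M, hM⟩ := eventually_atTop.1 h2
  exact ⟨M, fun N hN => (hM N hN).le⟩

/-- classes to many moduli in which almost all elements belong to `S` -/
theorem suff {s : ℤ} (hs : s = 1 ∨ s = -1) {S : Set ℤ} (hS : Inv 1 S) {κ : ℝ} (hκ : 0 < κ)
    (h : ∀ ε : ℝ, 0 < ε → ∀ M : ℕ, ∃ N : ℕ, M ≤ N ∧ ∃ Q : ℕ, 1 ≤ Q ∧ (Q : ℝ) ≤ ε * √N ∧ ∃ P : Finset ℕ,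
      P ⊆ Ioc Q (2 * Q) ∧ κ * Q ≤ #P ∧ ∃ a : ℕ → ℤ, ∀ q ∈ P,
        ∑ n ∈ Icc 1 N, (1 - ind S (s * (n : ℕ))) * ci q (a q) n ≤ ε * (N / q)) :
    ∀ x : ℤ, 0 < s * x → x ∈ S := by
  intro x hx
  by_contra hxS
  obtain ⟨C, hC, hdy⟩ := dens_dyadic
  obtain ⟨δ, hδ0, hδ1, hHD, -, hdisc⟩ := hdy s hs S hS
  have hlt : δ < 1 := one_lt hs hS hxS hx hHD
  set η := 1 - δ with hη
  have hη0 : 0 < η := by linarith
  have hη1 : η ≤ 1 := by linarith
  set ε := min (η / 2) (κ * η / (16 * (1 + C))) with hε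
  have hε0 : 0 < ε := lt_min (by positivity) (by positivity)
  have hε1 : ε ≤ η / 2 := min_le_left _ _
  have hε2 : ε * (1 + C) ≤ κ * η / 16 := by
    have h1 : ε ≤ κ * η / (16 * (1 + C)) := min_le_right _ _
    calc ε * (1 + C) ≤ κ * η / (16 * (1 + C)) * (1 + C) := mul_le_mul_of_nonneg_right h1 (by positivity)
      _ = κ * η / 16 := by field_simp
  obtain ⟨M, hM⟩ := rpow_large C (κ * η / 16) (by positivity)
  obtain ⟨N, hN, Q, hQ, hQN, P, hP, hcard, a, ha⟩ := h ε hε0 (max M 2)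
  have hN2 : 2 ≤ N := (le_max_right _ _).trans hN
  have hNM : M ≤ N := (le_max_left _ _).trans hN
  have hNr : (2 : ℝ) ≤ N := by exact_mod_cast hN2
  have hQr : (1 : ℝ) ≤ Q := by exact_mod_cast hQ
  have hmain := hdisc N hN2 Q hQ a (fun _ => N) (fun _ => le_rfl)
  have h1 : ∀ q ∈ P, η * N / (4 * Q) - 1 ≤ |WW (fun n : ℕ => ind S (s * n) - δ) q (a q) N| := by
    intro q hq
    have hqm := hP hq
    rw [mem_Ioc] at hqm
    have hq1 : 1 ≤ q := by omega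
    have hqr : (0 : ℝ) < q := by exact_mod_cast (by omega : 0 < q)
    have hq2 : (q : ℝ) ≤ 2 * Q := by exact_mod_cast hqm.2
    have h2 := ha q hq
    have h3 := (abs_le.1 (ci_Icc hq1 (a q) N)).1
    have e : WW (fun n : ℕ => ind S (s * n) - δ) q (a q) N = η * ∑ n ∈ Icc 1 N, ci q (a q) n -
        ∑ n ∈ Icc 1 N, (1 - ind S (s * (n : ℕ))) * ci q (a q) n := by
      unfold WW
      rw [mul_sum, ← sum_sub_distrib]
      apply sum_congr rfl
      intro n _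
      rw [hη]
      ring
    refine le_trans ?_ (le_abs_self _)
    rw [e]
    have h4 : η * (N / q - 1) ≤ η * ∑ n ∈ Icc 1 N, ci q (a q) n :=
      mul_le_mul_of_nonneg_left (by linarith) hη0.le
    have h5 : ε * ((N : ℝ) / q) ≤ η / 2 * (N / q) := mul_le_mul_of_nonneg_right hε1 (by positivity)
    have h6 : η * N / (4 * Q) ≤ η / 2 * (N / q) := by
      have h7 : (N : ℝ) / (2 * Q) ≤ N / q := div_le_div_of_nonneg_left (by linarith) hqr hq2
      calc η * N / (4 * Q) = η / 2 * (N / (2 * Q)) := by field_simp; norm_num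
        _ ≤ η / 2 * (N / q) := mul_le_mul_of_nonneg_left h7 (by positivity)
    have h8 : η * ((N : ℝ) / q - 1) = η / 2 * (N / q) + η / 2 * (N / q) - η := by ring
    rw [h8] at h4
    linarith
  have h2 : κ * η / 4 * N - Q ≤ ∑ q ∈ Ioc Q (2 * Q), |WW (fun n : ℕ => ind S (s * n) - δ) q (a q) N| := by
    calc κ * η / 4 * N - Q = (κ * Q) * (η * N / (4 * Q)) - Q := by field_simp
      _ ≤ (#P : ℝ) * (η * N / (4 * Q)) - #P := by
          have h3 : (κ * Q) * (η * N / (4 * Q)) ≤ (#P : ℝ) * (η * N / (4 * Q)) :=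
            mul_le_mul_of_nonneg_right hcard (by positivity)
          have h4 : #P ≤ Q := by
            have := card_le_card hP
            rw [Nat.card_Ioc] at this
            omega
          have h5 : (#P : ℝ) ≤ Q := by exact_mod_cast h4
          linarith
      _ = ∑ q ∈ P, (η * N / (4 * Q) - 1) := by rw [sum_const, nsmul_eq_mul]; ring
      _ ≤ ∑ q ∈ P, |WW (fun n : ℕ => ind S (s * n) - δ) q (a q) N| := sum_le_sum h1
      _ ≤ _ := sum_le_sum_of_subset_of_nonneg hP fun _ _ _ => abs_nonneg _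
  have h3 := hM N hNM
  have hss : √(N : ℝ) * √N = N := Real.mul_self_sqrt (by linarith)
  have hsN1 : 1 ≤ √(N : ℝ) := Real.one_le_sqrt.2 (by linarith)
  have h4 : (Q : ℝ) * √N ≤ ε * N := by
    calc (Q : ℝ) * √N ≤ (ε * √N) * √N := mul_le_mul_of_nonneg_right hQN (by linarith)
      _ = ε * N := by rw [mul_assoc, hss]
  have h5 : (Q : ℝ) ≤ Q * √N := le_mul_of_one_le_right (by linarith) hsN1
  have h6 : C * (N / Real.log N ^ (1 / 30 : ℝ)) ≤ κ * η / 16 * N := by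
    calc _ = C / Real.log N ^ (1 / 30 : ℝ) * N := by ring
      _ ≤ _ := mul_le_mul_of_nonneg_right h3 (by linarith)
  have h7 : C * (Q * √N) ≤ C * (ε * N) := mul_le_mul_of_nonneg_left h4 hC.le
  have h8 : ε * (1 + C) * N ≤ κ * η / 16 * N := mul_le_mul_of_nonneg_right hε2 (by linarith)
  have h9 : C * (N / Real.log N ^ (1 / 30 : ℝ) + Q * √N) = C * (N / Real.log N ^ (1 / 30 : ℝ)) + C * (Q * √N) := by ring
  have h10 : ε * (1 + C) * N = ε * N + C * (ε * N) := by ring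
  have h11 : 0 < κ * η / 16 * N := by positivity
  have h12 : κ * η / 4 * N = 4 * (κ * η / 16 * N) := by ring
  rw [h9] at hmain
  rw [h10] at h8
  rw [h12] at h2
  have h13 := h2.trans hmain
  linarith

/-- the complement -/
theorem ind_compl (S : Set ℤ) (x : ℤ) : ind Sᶜ x = 1 - ind S x := by
  unfold ind
  by_cases h : x ∈ S
  · rw [if_pos h, if_neg (fun h' => h' h)]; norm_num
  · rw [if_neg h, if_pos (show x ∈ Sᶜ from h)]; norm_num

theorem log_large (η : ℝ) (hη : 0 < η) (C : ℝ) : ∃ M : ℕ, ∀ N : ℕ, M ≤ N →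
    C * Real.log N ^ (29 / 30 : ℝ) ≤ η * Real.log N := by
  obtain ⟨M, hM⟩ := rpow_large C η hη
  refine ⟨max M 2, fun N hN => ?_⟩
  have hN2 : 2 ≤ N := (le_max_right _ _).trans hN
  have hNr : (2 : ℝ) ≤ N := by exact_mod_cast hN2
  have h1 := hM N ((le_max_left _ _).trans hN)
  have hL0 : 0 < Real.log N := Real.log_pos (by linarith)
  have hx : 0 < Real.log N ^ (1 / 30 : ℝ) := Real.rpow_pos_of_pos hL0 _
  have e : Real.log N = Real.log N ^ (1 / 30 : ℝ) * Real.log N ^ (29 / 30 : ℝ) := by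
    rw [← Real.rpow_add hL0]; norm_num
  have h2 : 0 ≤ Real.log N ^ (29 / 30 : ℝ) := Real.rpow_nonneg hL0.le _
  rw [div_le_iff₀ hx] at h1
  calc C * Real.log N ^ (29 / 30 : ℝ) ≤ (η * Real.log N ^ (1 / 30 : ℝ)) * Real.log N ^ (29 / 30 : ℝ) :=
        mul_le_mul_of_nonneg_right h1 h2
    _ = η * (Real.log N ^ (1 / 30 : ℝ) * Real.log N ^ (29 / 30 : ℝ)) := by ring
    _ = η * Real.log N := by rw [← e]

/-- **the divisor function in shifted invariant sets** -/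
theorem divisor_inv : ∃ C : ℝ, 0 < C ∧ ∀ s : ℤ, (s = 1 ∨ s = -1) → ∀ S : Set ℤ, Inv 1 S → ∀ δ : ℝ, HD s S δ →
    ∀ N : ℕ, 2 ≤ N → ∀ b : ℕ, b ≤ N →
    |∑ n ∈ Icc 1 N, (n.divisors.card : ℝ) * ind S (s * ((n + b : ℕ) : ℤ)) - δ * (N * Real.log N)| ≤
      C * (N * Real.log N ^ (29 / 30 : ℝ)) := by
  obtain ⟨C₁, hC₁, h₁⟩ := divisor_sync
  obtain ⟨C₂, hC₂, h₂⟩ := dens_dyadic
  refine ⟨2 * C₁ + 16 * C₂, by positivity, fun s hs S hS δ hδ N hN b hb => ?_⟩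
  obtain ⟨δ', hδ0, hδ1, hHD, hfirst, -⟩ := h₂ s hs S hS
  have hδδ : δ = δ' := HD_unique hδ hHD
  subst hδδ
  have hNr : (2 : ℝ) ≤ N := by exact_mod_cast hN
  have hL0 : 0 < Real.log N := Real.log_pos (by linarith)
  have hL69 : 0.69 < Real.log N := by
    have := Real.log_le_log (by norm_num) hNr
    have := Real.log_two_gt_d9
    linarith
  have h3 := h₁ s hs (ind S) (ind_abs S) (ind_sync hS) N hN b hb
  set L := Real.log N with hL
  set z := L ^ (29 / 30 : ℝ) with hz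
  have hz0 : 0 < z := Real.rpow_pos_of_pos hL0 _
  have h4 : L ^ (4 / 5 : ℝ) ≤ 2 * z := by
    rcases le_or_gt 1 L with h7 | h7
    · have := Real.rpow_le_rpow_of_exponent_le h7 (show (4 / 5 : ℝ) ≤ 29 / 30 by norm_num)
      linarith
    · have h8 := Real.rpow_le_one hL0.le h7.le (show (0 : ℝ) ≤ 4 / 5 by norm_num)
      have h9 : 0.5 ≤ z := by
        calc (0.5 : ℝ) ≤ L := by linarith
          _ = L ^ (1 : ℝ) := (Real.rpow_one _).symm
          _ ≤ _ := Real.rpow_le_rpow_of_exponent_ge hL0 h7.le (by norm_num)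
      linarith
  -- the number of elements
  have hb2 : ∀ y : ℕ, y ≤ 2 * N → |∑ n ∈ Icc 1 y, ind S (s * (n : ℕ)) - δ * y| ≤ 4 * C₂ * (N / L ^ (1 / 30 : ℝ)) := by
    intro y hy
    have h5 := hfirst (2 * N) (by omega) y hy
    refine h5.trans ?_
    have h6 : L ≤ Real.log ((2 * N : ℕ) : ℝ) := by
      apply Real.log_le_log (by linarith)
      push_cast; linarith
    have hx0 : 0 < L ^ (1 / 30 : ℝ) := Real.rpow_pos_of_pos hL0 _
    have h7 : L ^ (1 / 30 : ℝ) ≤ Real.log ((2 * N : ℕ) : ℝ) ^ (1 / 30 : ℝ) := Real.rpow_le_rpow hL0.le h6 (by norm_num)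
    have h8 : ((2 * N : ℕ) : ℝ) / Real.log ((2 * N : ℕ) : ℝ) ^ (1 / 30 : ℝ) ≤ 2 * (N / L ^ (1 / 30 : ℝ)) := by
      calc _ ≤ ((2 * N : ℕ) : ℝ) / L ^ (1 / 30 : ℝ) := div_le_div_of_nonneg_left (Nat.cast_nonneg _) hx0 h7
        _ = _ := by push_cast; ring
    have h9 := mul_le_mul_of_nonneg_left h8 hC₂.le
    have h10 : 0 ≤ C₂ * (N / L ^ (1 / 30 : ℝ)) := by positivity
    calc _ ≤ C₂ * (2 * (N / L ^ (1 / 30 : ℝ))) := h9
      _ ≤ _ := by
        have e : C₂ * (2 * ((N : ℝ) / L ^ (1 / 30 : ℝ))) = 2 * (C₂ * (N / L ^ (1 / 30 : ℝ))) := by ring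
        have e' : 4 * C₂ * ((N : ℝ) / L ^ (1 / 30 : ℝ)) = 4 * (C₂ * (N / L ^ (1 / 30 : ℝ))) := by ring
        rw [e, e']
        linarith
  have hcount : |∑ n ∈ Icc 1 N, ind S (s * ((n + b : ℕ) : ℤ)) - δ * N| ≤ 8 * C₂ * (N / L ^ (1 / 30 : ℝ)) := by
    have h5 := hb2 (N + b) (by omega)
    have h6 := hb2 b (by omega)
    have e : ∑ n ∈ Icc 1 N, ind S (s * ((n + b : ℕ) : ℤ)) =
        ∑ n ∈ Icc 1 (N + b), ind S (s * (n : ℕ)) - ∑ n ∈ Icc 1 b, ind S (s * (n : ℕ)) := by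
      rw [sum_shift (fun n : ℕ => ind S (s * (n : ℕ))), Icc_eq_range' (fun n : ℕ => ind S (s * (n : ℕ))) (N + b),
        Icc_eq_range' (fun n : ℕ => ind S (s * (n : ℕ))) b, sum_range_succ, sum_range_succ]
      ring
    rw [e]
    have e2 : ∑ n ∈ Icc 1 (N + b), ind S (s * (n : ℕ)) - ∑ n ∈ Icc 1 b, ind S (s * (n : ℕ)) - δ * N =
        (∑ n ∈ Icc 1 (N + b), ind S (s * (n : ℕ)) - δ * ((N + b : ℕ) : ℝ)) -
          (∑ n ∈ Icc 1 b, ind S (s * (n : ℕ)) - δ * b) := by push_cast; ring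
    rw [e2]
    refine (abs_sub _ _).trans ?_
    linarith
  have hz2 : L * (N / L ^ (1 / 30 : ℝ)) = N * z := by
    have e : L = L ^ (1 / 30 : ℝ) * z := by
      rw [hz, ← Real.rpow_add hL0]; norm_num
    have hx0 : 0 < L ^ (1 / 30 : ℝ) := Real.rpow_pos_of_pos hL0 _
    nth_rewrite 1 [e]
    field_simp
  have h5 : |L * ∑ n ∈ Icc 1 N, ind S (s * ((n + b : ℕ) : ℤ)) - δ * (N * L)| ≤ 8 * C₂ * (N * z) := by
    have e : L * ∑ n ∈ Icc 1 N, ind S (s * ((n + b : ℕ) : ℤ)) - δ * (N * L) =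
        L * (∑ n ∈ Icc 1 N, ind S (s * ((n + b : ℕ) : ℤ)) - δ * N) := by ring
    rw [e, abs_mul, abs_of_pos hL0]
    calc _ ≤ L * (8 * C₂ * (N / L ^ (1 / 30 : ℝ))) := mul_le_mul_of_nonneg_left hcount hL0.le
      _ = 8 * C₂ * (L * (N / L ^ (1 / 30 : ℝ))) := by ring
      _ = _ := by rw [hz2]
  have e : ∑ n ∈ Icc 1 N, (n.divisors.card : ℝ) * ind S (s * ((n + b : ℕ) : ℤ)) - δ * (N * L) =
      (∑ n ∈ Icc 1 N, (n.divisors.card : ℝ) * ind S (s * ((n + b : ℕ) : ℤ)) - L * ∑ n ∈ Icc 1 N, ind S (s * ((n + b : ℕ) : ℤ))) +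
      (L * ∑ n ∈ Icc 1 N, ind S (s * ((n + b : ℕ) : ℤ)) - δ * (N * L)) := by ring
  rw [e]
  refine (abs_add_le _ _).trans ?_
  have h6 : C₁ * (N * L ^ (4 / 5 : ℝ)) ≤ 2 * (C₁ * (N * z)) := by
    calc C₁ * (N * L ^ (4 / 5 : ℝ)) ≤ C₁ * (N * (2 * z)) := by gcongr
      _ = _ := by ring
  have h7 : 0 ≤ C₁ * (N * z) := by positivity
  have h8 : 0 ≤ C₂ * (N * z) := by positivity
  have e3 : (2 * C₁ + 16 * C₂) * (N * z) = 2 * (C₁ * (N * z)) + 16 * (C₂ * (N * z)) := by ring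
  have e4 : 8 * C₂ * (N * z) = 8 * (C₂ * (N * z)) := by ring
  rw [e3]
  rw [e4] at h5
  linarith

/-- sufficiency of a small sum of the divisor function over the exceptions -/
theorem suff_divisor {s : ℤ} (hs : s = 1 ∨ s = -1) {S : Set ℤ} (hS : Inv 1 S)
    (h : ∀ ε : ℝ, 0 < ε → ∀ M : ℕ, ∃ N : ℕ, M ≤ N ∧ ∃ b : ℕ, b ≤ N ∧
      ∑ n ∈ Icc 1 N, (n.divisors.card : ℝ) * (1 - ind S (s * ((n + b : ℕ) : ℤ))) ≤ ε * (N * Real.log N)) :
    ∀ x : ℤ, 0 < s * x → x ∈ S := by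
  intro x hx
  by_contra hxS
  obtain ⟨C, hC, hdiv⟩ := divisor_inv
  have hSc : Inv 1 Sᶜ := hS.compl
  obtain ⟨δ, hδ0, hδ1, hHD⟩ := dens_side odd_one isCoprime_one_left hs hSc
  have hpos : 0 < δ := one_pos hs hSc (show x ∈ Sᶜ from hxS) hx hHD
  obtain ⟨M, hM⟩ := log_large (δ / 4) (by positivity) C
  obtain ⟨N, hN, b, hb, hle⟩ := h (δ / 4) (by positivity) (max M 2)
  have hN2 : 2 ≤ N := (le_max_right _ _).trans hN
  have hNM : M ≤ N := (le_max_left _ _).trans hN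
  have hNr : (2 : ℝ) ≤ N := by exact_mod_cast hN2
  have h1 := hdiv s hs Sᶜ hSc δ hHD N hN2 b hb
  simp only [ind_compl] at h1
  have h2 := (abs_le.1 h1).1
  have h3 := hM N hNM
  have hL0 : 0 < Real.log N := Real.log_pos (by linarith)
  have h4 : C * (N * Real.log N ^ (29 / 30 : ℝ)) ≤ δ / 4 * (N * Real.log N) := by
    calc _ = N * (C * Real.log N ^ (29 / 30 : ℝ)) := by ring
      _ ≤ N * (δ / 4 * Real.log N) := mul_le_mul_of_nonneg_left h3 (by linarith)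
      _ = _ := by ring
  have h5 : 0 < δ * (N * Real.log N) := by positivity
  have e : δ / 4 * (N * Real.log N) = δ * (N * Real.log N) / 4 := by ring
  rw [e] at h4 hle
  linarith

end Pool.Agent.T6.H47.BV
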