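import Pool.Agent.T6.H47.BV10

set_option autoImplicit false

/-! Mean squares over all classes for the moduli of a dyadic interval. -/

namespace Pool.Agent.T6.H47.BV

open Finset Filter Topology Pool.Agent.H499R2.CO Pool.Agent.H499R2.ND

theorem ci_Ioc_le {q : ℕ} (hq : 1 ≤ q) (a : ℤ) {x y : ℕ} (hxy : x ≤ y) :
    ∑ n ∈ Ioc x y, ci q a n ≤ ((y - x : ℕ) : ℝ) / q + 1 := by
  have e : ∑ n ∈ Ioc x y, ci q a n = ∑ n ∈ range (y - x), ci q (a - (x + 1 : ℕ)) n := by
    rw [show Ioc x y = Ico (x + 1) (y + 1) by ext j; rw [mem_Ioc, mem_Ico]; omega, sum_Ico_eq_sum_range,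
      show y + 1 - (x + 1) = y - x by omega]
    apply sum_congr rfl
    intro n _
    rw [show ((x + 1 + n : ℕ) : ℤ) = (n : ℤ) + (x + 1 : ℕ) by push_cast; ring, ci_add]
  rw [e]
  have := (abs_le.1 (ci_count hq (a - (x + 1 : ℕ)) (y - x))).2
  linarith

/-- large moduli of a dyadic interval, by switching the divisors -/
theorem large_dyadic {f : ℕ → ℝ} (hf : ∀ n, |f n| ≤ 1) {N Q M : ℕ} (hQ : 1 ≤ Q) {E : ℝ}
    (hE : ∀ (a : ℕ → ℤ) (y : ℕ → ℕ), (∀ q, y q ≤ N) → ∑ m ∈ Ioc M (N / Q), |WW f m (a m) (y m)| ≤ E) :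
    ∑ q ∈ Ioc Q (2 * Q), ∑ a ∈ range q, WW f q a N ^ 2 ≤ Q * N + 2 * (N * (M * (Q + 1) + 2 * E)) := by
  have hE0 : 0 ≤ E := (sum_nonneg fun _ _ => abs_nonneg _).trans (hE (fun _ => 0) (fun _ => 0) (fun _ => Nat.zero_le _))
  -- the diagonal
  have h1 : ∀ q ∈ Ioc Q (2 * Q), ∑ a ∈ range q, WW f q a N ^ 2 =
      ∑ n ∈ Icc 1 N, f n ^ 2 + 2 * ∑ n ∈ Icc 1 N, ∑ n' ∈ Ioc n N, f n * f n' * ci q n n' := by
    intro q hq
    rw [mem_Ioc] at hq
    rw [sq_pairs f (by omega), sym_sum (fun n n' => f n * f n' * ci q n n') (by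
      intro x y
      rw [ci_symm q x y]; ring)]
    congr 1
    apply sum_congr rfl
    intro n _
    have : ci q n n = 1 := by unfold ci; simp
    rw [this]; ring
  rw [sum_congr rfl h1, sum_add_distrib, ← mul_sum]
  have h2 : ∑ q ∈ Ioc Q (2 * Q), ∑ n ∈ Icc 1 N, f n ^ 2 ≤ Q * N := by
    have h3 : ∑ n ∈ Icc 1 N, f n ^ 2 ≤ N := by
      calc _ ≤ ∑ n ∈ Icc 1 N, (1 : ℝ) := by
            apply sum_le_sum
            intro n _
            rw [← sq_abs]
            exact pow_le_one₀ (abs_nonneg _) (hf n)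
        _ = N := by rw [sum_const, Nat.card_Icc, nsmul_eq_mul]; simp
    rw [sum_const, nsmul_eq_mul, Nat.card_Ioc, show 2 * Q - Q = Q by omega]
    exact mul_le_mul_of_nonneg_left h3 (Nat.cast_nonneg _)
  -- the rest
  have hyy : ∀ n m : ℕ, min (min N (n + 2 * Q * m)) (n + Q * m) ≤ min N (n + 2 * Q * m) := fun n m => min_le_left _ _
  have e2 : ∀ n m : ℕ, WW f m n (min N (n + 2 * Q * m)) - WW f m n (min (min N (n + 2 * Q * m)) (n + Q * m)) =
      ∑ n' ∈ Ioc (min (min N (n + 2 * Q * m)) (n + Q * m)) (min N (n + 2 * Q * m)), f n' * ci m n n' := by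
    intro n m
    set y2 := min N (n + 2 * Q * m) with hy2
    set y1 := min y2 (n + Q * m) with hy1
    have hy12 : y1 ≤ y2 := min_le_left _ _
    unfold WW
    have h5 : Icc 1 y2 = Icc 1 y1 ∪ Ioc y1 y2 := by
      ext j
      rw [mem_union, mem_Icc, mem_Icc, mem_Ioc]
      omega
    have h6 : Disjoint (Icc 1 y1) (Ioc y1 y2) := by
      rw [disjoint_left]
      intro j hj hj'
      rw [mem_Icc] at hj
      rw [mem_Ioc] at hj'
      omega
    rw [h5, sum_union h6]
    ring
  have h3 : ∑ q ∈ Ioc Q (2 * Q), ∑ n ∈ Icc 1 N, ∑ n' ∈ Ioc n N, f n * f n' * ci q n n' =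
      ∑ n ∈ Icc 1 N, f n * ∑ m ∈ Icc 1 (N / Q),
        (WW f m n (min N (n + 2 * Q * m)) - WW f m n (min (min N (n + 2 * Q * m)) (n + Q * m))) := by
    rw [sum_comm]
    apply sum_congr rfl
    intro n hn
    rw [mem_Icc] at hn
    rw [sum_comm]
    have e1 : ∀ n' ∈ Ioc n N, ∑ q ∈ Ioc Q (2 * Q), f n * f n' * ci q n n' =
        f n * ∑ m ∈ Icc 1 (N / Q), f n' * (if m ∣ (n' - n) ∧ Q * m < n' - n ∧ n' - n ≤ 2 * Q * m then (1 : ℝ) else 0) := by
      intro n' hn'
      rw [mem_Ioc] at hn'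
      rw [← mul_sum, ← mul_sum, mul_assoc, ← switch hQ (by omega) (by omega)]
      congr 2
      apply sum_congr rfl
      intro q _
      unfold ci
      have : ((q : ℤ) ∣ (n' : ℤ) - n) ↔ q ∣ n' - n := by
        rw [← Int.natCast_dvd_natCast, Nat.cast_sub hn'.1.le]
      simp only [this]
    rw [sum_congr rfl e1, ← mul_sum, sum_comm]
    congr 1
    apply sum_congr rfl
    intro m hm
    rw [mem_Icc] at hm
    rw [e2 n m]
    set y2 := min N (n + 2 * Q * m) with hy2
    set y1 := min y2 (n + Q * m) with hy1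
    have hy12 : y1 ≤ y2 := min_le_left _ _
    have e3 : ∑ n' ∈ Ioc n N, f n' * (if m ∣ (n' - n) ∧ Q * m < n' - n ∧ n' - n ≤ 2 * Q * m then (1 : ℝ) else 0) =
        ∑ n' ∈ (Ioc n N).filter (fun n' => Q * m < n' - n ∧ n' - n ≤ 2 * Q * m), f n' * ci m n n' := by
      rw [sum_filter]
      apply sum_congr rfl
      intro n' hn'
      rw [mem_Ioc] at hn'
      unfold ci
      have h7 : ((m : ℤ) ∣ (n' : ℤ) - n) ↔ m ∣ n' - n := by
        rw [← Int.natCast_dvd_natCast, Nat.cast_sub hn'.1.le]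
      by_cases c1 : m ∣ n' - n
      · by_cases c2 : Q * m < n' - n ∧ n' - n ≤ 2 * Q * m
        · rw [if_pos ⟨c1, c2⟩, if_pos c2, if_pos (h7.2 c1)]
        · rw [if_neg (fun h => c2 h.2), if_neg c2, mul_zero]
      · rw [if_neg (fun h => c1 h.1), if_neg (fun h => c1 (h7.1 h)), mul_zero]
        split_ifs <;> rfl
    rw [e3]
    have e4 : (Ioc n N).filter (fun n' => Q * m < n' - n ∧ n' - n ≤ 2 * Q * m) = Ioc y1 y2 := by
      ext j
      rw [mem_filter, mem_Ioc, mem_Ioc]
      have hRm : 1 ≤ Q * m := Nat.mul_pos (by omega) (by omega)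
      have e5 : 2 * Q * m = 2 * (Q * m) := by ring
      rw [e5] at hy2
      rw [e5]
      omega
    rw [e4]
  have h4 : |∑ q ∈ Ioc Q (2 * Q), ∑ n ∈ Icc 1 N, ∑ n' ∈ Ioc n N, f n * f n' * ci q n n'| ≤
      N * (M * (Q + 1) + 2 * E) := by
    rw [h3]
    have h5 : ∀ n ∈ Icc 1 N, |f n * ∑ m ∈ Icc 1 (N / Q),
        (WW f m n (min N (n + 2 * Q * m)) - WW f m n (min (min N (n + 2 * Q * m)) (n + Q * m)))| ≤
        M * (Q + 1) + 2 * E := by
      intro n _
      rw [abs_mul]
      have hnn : ∀ m : ℕ, 0 ≤ |WW f m n (min N (n + 2 * Q * m)) -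
          WW f m n (min (min N (n + 2 * Q * m)) (n + Q * m))| := fun m => abs_nonneg _
      have h6 : |∑ m ∈ Icc 1 (N / Q),
        (WW f m n (min N (n + 2 * Q * m)) - WW f m n (min (min N (n + 2 * Q * m)) (n + Q * m)))| ≤
          M * (Q + 1) + 2 * E := by
        have a1 := hE (fun _ => n) (fun m => min N (n + 2 * Q * m)) (fun m => min_le_left _ _)
        have a2 := hE (fun _ => n) (fun m => min (min N (n + 2 * Q * m)) (n + Q * m))
          (fun m => (min_le_left _ _).trans (min_le_left _ _))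
        have a3 : ∑ m ∈ Ioc M (N / Q), |WW f m n (min N (n + 2 * Q * m)) -
            WW f m n (min (min N (n + 2 * Q * m)) (n + Q * m))| ≤ 2 * E := by
          calc _ ≤ ∑ m ∈ Ioc M (N / Q),
              (|WW f m n (min N (n + 2 * Q * m))| + |WW f m n (min (min N (n + 2 * Q * m)) (n + Q * m))|) :=
              sum_le_sum fun _ _ => abs_sub _ _
            _ ≤ 2 * E := by rw [sum_add_distrib]; linarith
        have a4 : ∑ m ∈ Icc 1 M, |WW f m n (min N (n + 2 * Q * m)) -
            WW f m n (min (min N (n + 2 * Q * m)) (n + Q * m))| ≤ M * (Q + 1) := by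
          calc _ ≤ ∑ m ∈ Icc 1 M, ((Q : ℝ) + 1) := by
                apply sum_le_sum
                intro m hm
                rw [mem_Icc] at hm
                have hmr : (0 : ℝ) < m := by exact_mod_cast (by omega : 0 < m)
                rw [e2 n m]
                refine (abs_sum_le_sum_abs _ _).trans ?_
                calc _ ≤ ∑ n' ∈ Ioc (min (min N (n + 2 * Q * m)) (n + Q * m)) (min N (n + 2 * Q * m)), ci m n n' := by
                      apply sum_le_sum
                      intro n' _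
                      rw [abs_mul, abs_of_nonneg (ci_nonneg _ _ _)]
                      exact (mul_le_mul_of_nonneg_right (hf n') (ci_nonneg _ _ _)).trans (le_of_eq (one_mul _))
                  _ ≤ _ := ci_Ioc_le hm.1 n (hyy n m)
                  _ ≤ (Q : ℝ) + 1 := by
                      have h8 : min N (n + 2 * Q * m) - min (min N (n + 2 * Q * m)) (n + Q * m) ≤ Q * m := by
                        have e5 : 2 * Q * m = 2 * (Q * m) := by ring
                        rw [e5]
                        omega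
                      have h9 : ((min N (n + 2 * Q * m) - min (min N (n + 2 * Q * m)) (n + Q * m) : ℕ) : ℝ) ≤ Q * m := by
                        exact_mod_cast h8
                      have h10 : ((min N (n + 2 * Q * m) - min (min N (n + 2 * Q * m)) (n + Q * m) : ℕ) : ℝ) / m ≤ Q := by
                        rw [div_le_iff₀ hmr]; exact h9
                      linarith
            _ = M * (Q + 1) := by rw [sum_const, Nat.card_Icc, nsmul_eq_mul]; simp
        calc _ ≤ ∑ m ∈ Icc 1 (N / Q),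
              |WW f m n (min N (n + 2 * Q * m)) - WW f m n (min (min N (n + 2 * Q * m)) (n + Q * m))| :=
              abs_sum_le_sum_abs _ _
          _ ≤ ∑ m ∈ Icc 1 M ∪ Ioc M (N / Q),
              |WW f m n (min N (n + 2 * Q * m)) - WW f m n (min (min N (n + 2 * Q * m)) (n + Q * m))| := by
              apply sum_le_sum_of_subset_of_nonneg
              · intro m hm
                rw [mem_Icc] at hm
                rw [mem_union, mem_Icc, mem_Ioc]
                omega
              · intro m _ _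
                exact hnn m
          _ ≤ _ := by
              rw [sum_union (by
                rw [disjoint_left]
                intro j hj hj'
                rw [mem_Icc] at hj
                rw [mem_Ioc] at hj'
                omega)]
              linarith
      calc _ ≤ 1 * (M * (Q + 1) + 2 * E) := mul_le_mul (hf n) h6 (abs_nonneg _) (by norm_num)
        _ = _ := one_mul _
    calc _ ≤ ∑ n ∈ Icc 1 N, |f n * ∑ m ∈ Icc 1 (N / Q),
        (WW f m n (min N (n + 2 * Q * m)) - WW f m n (min (min N (n + 2 * Q * m)) (n + Q * m)))| := abs_sum_le_sum_abs _ _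
      _ ≤ ∑ n ∈ Icc 1 N, ((M : ℝ) * (Q + 1) + 2 * E) := sum_le_sum h5
      _ = N * (M * (Q + 1) + 2 * E) := by rw [sum_const, Nat.card_Icc, nsmul_eq_mul]; simp
  have h5 := (abs_le.1 h4).2
  linarith

/-- from dyadic intervals to the interval `(M, 2 ^ K M]` -/
theorem blocks {D : ℕ → ℝ} {A B : ℝ} (h0 : ∀ q, 0 ≤ D q)
    (h : ∀ Q : ℕ, 1 ≤ Q → ∑ q ∈ Ioc Q (2 * Q), D q ≤ A + Q * B) {M : ℕ} (hM : 1 ≤ M) (K : ℕ) :
    ∑ q ∈ Ioc M (2 ^ K * M), D q ≤ K * A + (2 ^ K - 1) * M * B := by
  induction K with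
  | zero => simp
  | succ K ih =>
    have h1 := h (2 ^ K * M) (Nat.mul_pos (by positivity) (by omega))
    have hMK : M ≤ 2 ^ K * M := Nat.le_mul_of_pos_left _ (by positivity)
    have e : Ioc M (2 ^ (K + 1) * M) = Ioc M (2 ^ K * M) ∪ Ioc (2 ^ K * M) (2 * (2 ^ K * M)) := by
      have e1 : 2 ^ (K + 1) * M = 2 * (2 ^ K * M) := by rw [pow_succ]; ring
      rw [e1]
      ext j
      rw [mem_union, mem_Ioc, mem_Ioc, mem_Ioc]
      omega
    rw [e, sum_union (by
      rw [disjoint_left]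
      intro j hj hj'
      rw [mem_Ioc] at hj hj'
      omega)]
    push_cast at h1 ⊢
    rw [pow_succ]
    nlinarith

/-- the number of blocks -/
theorem block_params {L : ℝ} (hL : 1 ≤ L) : ∃ K : ℕ, L ^ (1 / 30 : ℝ) ≤ 2 ^ K ∧ (2 : ℝ) ^ K ≤ 4 * L ^ (1 / 30 : ℝ) ∧
    (K : ℝ) ≤ 2000 * L ^ (1 / 930 : ℝ) := by
  have hL0 : 0 < L := by linarith
  set x := L ^ (1 / 30 : ℝ) with hx
  have hx1 : 1 ≤ x := Real.one_le_rpow hL (by norm_num)
  set n := ⌈x⌉₊ with hn
  have hn1 : x ≤ n := Nat.le_ceil _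
  have hn2 : (n : ℝ) ≤ 2 * x := by
    have := (Nat.ceil_lt_add_one (a := x) (by linarith)).le
    linarith
  have hnpos : 1 ≤ n := by
    have : (1 : ℝ) ≤ n := hx1.trans hn1
    exact_mod_cast this
  refine ⟨Nat.clog 2 n, ?_, ?_, ?_⟩
  · have h1 : n ≤ 2 ^ Nat.clog 2 n := Nat.le_pow_clog (by norm_num) n
    have h2 : (n : ℝ) ≤ 2 ^ Nat.clog 2 n := by exact_mod_cast h1
    linarith
  · rcases Nat.eq_or_lt_of_le hnpos with h1 | h1
    · rw [← h1]
      norm_num
      linarith
    · have h2 : 2 ^ (Nat.clog 2 n - 1) < n := Nat.pow_pred_clog_lt_self (by norm_num) h1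
      have h3 : 1 ≤ Nat.clog 2 n := Nat.clog_pos (by norm_num) h1
      have h4 : 2 ^ Nat.clog 2 n = 2 * 2 ^ (Nat.clog 2 n - 1) := by
        rw [← pow_succ']
        congr 1
        omega
      have h5 : 2 ^ Nat.clog 2 n ≤ 2 * n := by omega
      have h6 : (2 : ℝ) ^ Nat.clog 2 n ≤ 2 * n := by exact_mod_cast h5
      linarith
  · rcases Nat.eq_or_lt_of_le hnpos with h1 | h1
    · rw [← h1]
      norm_num
      positivity
    · have h2 : 2 ^ (Nat.clog 2 n - 1) < n := Nat.pow_pred_clog_lt_self (by norm_num) h1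
      have h3 : 1 ≤ Nat.clog 2 n := Nat.clog_pos (by norm_num) h1
      set c := Nat.clog 2 n with hc
      have h4 : ((c - 1 : ℕ) : ℝ) * Real.log 2 ≤ Real.log n := by
        rw [← Real.log_pow]
        apply Real.log_le_log (by positivity)
        exact_mod_cast h2.le
      have h5 : ((c - 1 : ℕ) : ℝ) = c - 1 := by rw [Nat.cast_sub h3]; simp
      rw [h5] at h4
      have h6 : Real.log n ≤ Real.log 2 + Real.log L / 30 := by
        have h7 : Real.log n ≤ Real.log (2 * x) := Real.log_le_log (by exact_mod_cast (by omega : 0 < n)) hn2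
        rw [Real.log_mul (by norm_num) (by linarith), hx, Real.log_rpow hL0] at h7
        linarith
      have h7 : Real.log L ≤ L ^ (1 / 930 : ℝ) / (1 / 930) := Real.log_le_rpow_div hL0.le (by norm_num)
      have h8 : 1 ≤ L ^ (1 / 930 : ℝ) := Real.one_le_rpow hL (by norm_num)
      have h9 : 0.69 < Real.log 2 := by
        have := Real.log_two_gt_d9
        linarith
      have h10 : Real.log 2 < 0.7 := by
        have := Real.log_two_lt_d9
        linarith
      have h11 : 0 ≤ (c : ℝ) - 1 := by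
        have : (1 : ℝ) ≤ c := by exact_mod_cast h3
        linarith
      have h12 : ((c : ℝ) - 1) * 0.69 ≤ 0.7 + 31 * L ^ (1 / 930 : ℝ) := by nlinarith
      linarith

end Pool.Agent.T6.H47.BV
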