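import Pool.Agent.T6.H47.BV11

set_option autoImplicit false

/-! Mean squares over all classes for the moduli of a dyadic interval: the bounds. -/

namespace Pool.Agent.T6.H47.BV

open Finset Filter Topology Pool.Agent.H499R2.CO Pool.Agent.H499R2.ND

/-- the bound for small moduli -/
theorem bdh_small {C : ℝ} (_hC : 0 < C) {f : ℕ → ℝ} (hf : ∀ n, |f n| ≤ 1) {N Q : ℕ} (hN : 2 ≤ N)
    (h : ∀ Q : ℕ, 1 ≤ Q → ∀ (a : ℕ → ℤ) (y : ℕ → ℕ), (∀ q, y q ≤ N) →
      ∑ q ∈ Ioc Q (2 * Q), |WW f q (a q) (y q)| ≤ C * (N / Real.log N ^ (1 / 30 : ℝ) + Q * √N)) (hQ : 1 ≤ Q) :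
    ∑ q ∈ Ioc Q (2 * Q), ∑ a ∈ range q, WW f q a N ^ 2 ≤
      C * (N ^ 2 / Real.log N ^ (1 / 30 : ℝ) + N ^ 2 * (Q / √N)) := by
  have hex : ∀ q : ℕ, ∃ a : ℤ, 1 ≤ q → ∀ b ∈ range q, |WW f q b N| ≤ |WW f q a N| := by
    intro q
    rcases Nat.eq_zero_or_pos q with rfl | hq
    · exact ⟨0, fun h => absurd h (by omega)⟩
    · obtain ⟨a, _, ha⟩ := exists_max_image (range q) (fun b : ℕ => |WW f q b N|) ⟨0, mem_range.2 hq⟩
      exact ⟨a, fun _ => ha⟩
  choose a ha using hex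
  have h1 : ∑ q ∈ Ioc Q (2 * Q), ∑ a ∈ range q, WW f q a N ^ 2 ≤ ∑ q ∈ Ioc Q (2 * Q), |WW f q (a q) N| * N := by
    apply sum_le_sum
    intro q hq
    rw [mem_Ioc] at hq
    exact sq_le_max hf (by omega) N (ha q (by omega))
  refine h1.trans ?_
  rw [← sum_mul]
  have h2 := mul_le_mul_of_nonneg_right (h Q hQ a (fun _ => N) (fun _ => le_rfl)) (Nat.cast_nonneg (α := ℝ) N)
  refine h2.trans (le_of_eq ?_)
  have hNr : (2 : ℝ) ≤ N := by exact_mod_cast hN
  have hsN : 0 < √(N : ℝ) := Real.sqrt_pos.2 (by linarith)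
  have hss : √(N : ℝ) * √N = N := Real.mul_self_sqrt (by linarith)
  have e : (N : ℝ) ^ 2 * (Q / √N) = Q * √N * N := by
    rw [mul_div_assoc', div_eq_iff hsN.ne']
    calc (N : ℝ) ^ 2 * Q = Q * N * N := by ring
      _ = Q * (√N * √N) * N := by rw [hss]
      _ = _ := by ring
  rw [e]
  ring

/-- the bound for large moduli -/
theorem bdh_large {C : ℝ} (hC : 0 < C) {f : ℕ → ℝ} (hf : ∀ n, |f n| ≤ 1) {N Q : ℕ} (hN : 16 ≤ N)
    (h : ∀ Q : ℕ, 1 ≤ Q → ∀ (a : ℕ → ℤ) (y : ℕ → ℕ), (∀ q, y q ≤ N) →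
      ∑ q ∈ Ioc Q (2 * Q), |WW f q (a q) (y q)| ≤ C * (N / Real.log N ^ (1 / 30 : ℝ) + Q * √N)) (hQ : 1 ≤ Q) :
    ∑ q ∈ Ioc Q (2 * Q), ∑ a ∈ range q, WW f q a N ^ 2 ≤
      (5 + 8016 * C) * (N ^ 2 / Real.log N ^ (1 / 31 : ℝ) + N ^ 2 * (√N / Q) + Q * N) := by
  have hNr : (16 : ℝ) ≤ N := by exact_mod_cast hN
  have hQr : (1 : ℝ) ≤ Q := by exact_mod_cast hQ
  have hL0 : 0 < Real.log N := Real.log_pos (by linarith)
  have hL1 : 1 ≤ Real.log N := by
    have := Real.log_le_log (by norm_num) hNr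
    rw [show (16 : ℝ) = 2 ^ 4 by norm_num, Real.log_pow] at this
    have := Real.log_two_gt_d9
    push_cast at *
    linarith
  have hLN : Real.log N ≤ N := by
    have := Real.log_le_sub_one_of_pos (x := N) (by linarith)
    linarith
  set L := Real.log N with hL
  obtain ⟨K, hK1, hK2, hK3⟩ := block_params hL1
  set x := L ^ (1 / 30 : ℝ) with hx
  set w := L ^ (1 / 31 : ℝ) with hw
  have hx1 : 1 ≤ x := Real.one_le_rpow hL1 (by norm_num)
  have hw1 : 1 ≤ w := Real.one_le_rpow hL1 (by norm_num)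
  have hxw : x = w * L ^ (1 / 930 : ℝ) := by rw [hx, hw, ← Real.rpow_add hL0]; norm_num
  have hwx : w ≤ x := Real.rpow_le_rpow_of_exponent_le hL1 (by norm_num)
  have hxwN : x * w ≤ √N := by
    rw [hx, hw, ← Real.rpow_add hL0, Real.sqrt_eq_rpow]
    calc L ^ (1 / 30 + 1 / 31 : ℝ) ≤ L ^ (1 / 2 : ℝ) := Real.rpow_le_rpow_of_exponent_le hL1 (by norm_num)
      _ ≤ _ := Real.rpow_le_rpow hL0.le hLN (by norm_num)
  have hsN1 : 1 ≤ √(N : ℝ) := Real.one_le_sqrt.2 (by linarith)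
  have hss : √(N : ℝ) * √N = N := Real.mul_self_sqrt (by linarith)
  set R := N / Q with hR
  have hRr : (R : ℝ) ≤ N / Q := Nat.cast_div_le
  set M := R / 2 ^ K + 1 with hM
  have hMR : R ≤ 2 ^ K * M := by
    have h1 := Nat.div_add_mod R (2 ^ K)
    have h2 := Nat.mod_lt R (show 2 ^ K > 0 by positivity)
    have h3 : 2 ^ K * M = 2 ^ K * (R / 2 ^ K) + 2 ^ K := by rw [hM]; ring
    rw [h3]
    generalize 2 ^ K * (R / 2 ^ K) = u at *
    omega
  have hM1 : 1 ≤ M := by rw [hM]; exact Nat.le_add_left 1 _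
  have h2K : (0 : ℝ) < 2 ^ K := by positivity
  have hMr : (M : ℝ) ≤ R / 2 ^ K + 1 := by
    rw [hM]
    push_cast
    have : ((R / 2 ^ K : ℕ) : ℝ) ≤ (R : ℝ) / ((2 ^ K : ℕ) : ℝ) := Nat.cast_div_le
    push_cast at this
    linarith
  set A := C * (N / x) with hA
  set B := C * √(N : ℝ) with hB
  have hA0 : 0 ≤ A := by positivity
  have hB0 : 0 ≤ B := by positivity
  have hE : ∀ (a : ℕ → ℤ) (y : ℕ → ℕ), (∀ q, y q ≤ N) → ∑ m ∈ Ioc M R, |WW f m (a m) (y m)| ≤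
      K * A + (R + 2 ^ K) * B := by
    intro a y hy
    have h1 := blocks (D := fun m => |WW f m (a m) (y m)|) (A := A) (B := B) (fun _ => abs_nonneg _) (fun Q hQ => by
      refine (h Q hQ a y hy).trans (le_of_eq ?_)
      rw [hA, hB]
      ring) hM1 K
    have h2 : ∑ m ∈ Ioc M R, |WW f m (a m) (y m)| ≤ ∑ m ∈ Ioc M (2 ^ K * M), |WW f m (a m) (y m)| := by
      apply sum_le_sum_of_subset_of_nonneg
      · exact Ioc_subset_Ioc_right hMR
      · intro _ _ _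
        exact abs_nonneg _
    refine (h2.trans h1).trans ?_
    have h3 : ((2 : ℝ) ^ K - 1) * M ≤ R + 2 ^ K := by
      calc ((2 : ℝ) ^ K - 1) * M ≤ 2 ^ K * M := by
            apply mul_le_mul_of_nonneg_right _ (Nat.cast_nonneg _)
            linarith
        _ ≤ 2 ^ K * (R / 2 ^ K + 1) := mul_le_mul_of_nonneg_left hMr h2K.le
        _ = R + 2 ^ K := by field_simp
    have h4 := mul_le_mul_of_nonneg_right h3 hB0
    linarith
  have hmain := large_dyadic hf hQ hE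
  refine hmain.trans ?_
  -- the terms
  have t1 : (M : ℝ) * (Q + 1) ≤ 2 * (N / w) + 2 * Q := by
    have h1 : (M : ℝ) ≤ N / Q / x + 1 := by
      refine hMr.trans ?_
      have h2 : (R : ℝ) / 2 ^ K ≤ N / Q / x := by
        calc (R : ℝ) / 2 ^ K ≤ (N / Q) / 2 ^ K := div_le_div_of_nonneg_right hRr h2K.le
          _ ≤ _ := div_le_div_of_nonneg_left (by positivity) (by linarith) hK1
      linarith
    calc (M : ℝ) * (Q + 1) ≤ (N / Q / x + 1) * (2 * Q) :=
          mul_le_mul h1 (by linarith) (by linarith) (by positivity)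
      _ = 2 * (N / x) + 2 * Q := by field_simp
      _ ≤ _ := by
          have : (N : ℝ) / x ≤ N / w := div_le_div_of_nonneg_left (by linarith) (by linarith) hwx
          linarith
  have t2 : (K : ℝ) * A ≤ 2000 * (C * (N / w)) := by
    have h930 : 0 < L ^ (1 / 930 : ℝ) := Real.rpow_pos_of_pos hL0 _
    calc (K : ℝ) * A ≤ (2000 * L ^ (1 / 930 : ℝ)) * A := mul_le_mul_of_nonneg_right hK3 hA0
      _ = 2000 * (C * (N / w)) := by
          rw [hA, hxw]
          field_simp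
  have t3 : (R + 2 ^ K : ℝ) * B ≤ C * (N * (√N / Q)) + 4 * (C * (N / w)) := by
    have h1 : (R : ℝ) * B ≤ C * (N * (√N / Q)) := by
      calc (R : ℝ) * B ≤ (N / Q) * B := mul_le_mul_of_nonneg_right hRr hB0
        _ = _ := by rw [hB]; ring
    have h2 : (2 : ℝ) ^ K * B ≤ 4 * (C * (N / w)) := by
      have h3 : x * √(N : ℝ) ≤ N / w := by
        rw [le_div_iff₀ (by linarith)]
        calc x * √(N : ℝ) * w = (x * w) * √N := by ring
          _ ≤ √N * √N := mul_le_mul_of_nonneg_right hxwN (by linarith)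
          _ = N := hss
      calc (2 : ℝ) ^ K * B ≤ (4 * x) * B := mul_le_mul_of_nonneg_right hK2 hB0
        _ = 4 * (C * (x * √N)) := by rw [hB]; ring
        _ ≤ _ := by gcongr
    linarith
  have hw' : (N : ℝ) ^ 2 / w = N * (N / w) := by ring
  have hQ' : (N : ℝ) ^ 2 * (√N / Q) = N * (N * (√N / Q)) := by ring
  rw [hw', hQ']
  have hX0 : 0 ≤ (N : ℝ) / w := by positivity
  have hY0 : 0 ≤ (N : ℝ) * (√N / Q) := by positivity
  generalize (N : ℝ) / w = X at *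
  generalize (N : ℝ) * (√N / Q) = Y at *
  have h9 : (M : ℝ) * (Q + 1) + 2 * (K * A + (R + 2 ^ K) * B) ≤
      (2 * X + 2 * Q) + 2 * (2000 * (C * X) + (C * Y + 4 * (C * X))) := by linarith
  have h10 := mul_le_mul_of_nonneg_left h9 (show (0 : ℝ) ≤ 2 * N by linarith)
  have hCX : 0 ≤ C * (N * X) := by positivity
  have hCY : 0 ≤ C * (N * Y) := by positivity
  have hNX : 0 ≤ N * X := by positivity
  have hNY : 0 ≤ N * Y := by positivity
  have hCQ : 0 ≤ C * (Q * N) := by positivity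
  have e1 : 2 * (N : ℝ) * ((2 * X + 2 * Q) + 2 * (2000 * (C * X) + (C * Y + 4 * (C * X)))) =
      4 * (N * X) + 4 * (Q * N) + 8016 * (C * (N * X)) + 4 * (C * (N * Y)) := by ring
  have e2 : (5 + 8016 * C) * (N * X + N * Y + Q * N) = 5 * (N * X) + 5 * (N * Y) + 5 * (Q * N) +
      8016 * (C * (N * X)) + 8016 * (C * (N * Y)) + 8016 * (C * (Q * N)) := by ring
  rw [e1] at h10
  rw [e2]
  have e3 : (Q : ℝ) * N + 2 * (N * (M * (Q + 1) + 2 * (K * A + (R + 2 ^ K) * B))) =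
      Q * N + 2 * N * (M * (Q + 1) + 2 * (K * A + (R + 2 ^ K) * B)) := by ring
  rw [e3]
  linarith

/-- **mean squares over all classes**, for the moduli of a dyadic interval -/
theorem bdh_dyadic : ∃ C : ℝ, 0 < C ∧ ∀ s : ℤ, (s = 1 ∨ s = -1) → ∀ S : Set ℤ, Inv 1 S → ∀ δ : ℝ, HD s S δ →
    ∀ N : ℕ, 2 ≤ N → ∀ Q : ℕ, 1 ≤ Q → Q ≤ N →
      ∑ q ∈ Ioc Q (2 * Q), ∑ a ∈ range q, WW (fun n : ℕ => ind S (s * n) - δ) q a N ^ 2 ≤
        C * (N ^ 2 / Real.log N ^ (1 / 31 : ℝ) + N ^ 2 * min (Q / √N) (√N / Q) + Q * N) := by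
  obtain ⟨C, hC, h⟩ := dens_dyadic
  refine ⟨5 + 8016 * C, by positivity, fun s hs S hS δ hδ N hN Q hQ hQN => ?_⟩
  obtain ⟨δ', hδ0, hδ1, hHD, -, hdy⟩ := h s hs S hS
  have hδδ : δ = δ' := HD_unique hδ hHD
  subst hδδ
  set f : ℕ → ℝ := fun n : ℕ => ind S (s * n) - δ with hf
  have hfb : ∀ n, |f n| ≤ 1 := by
    intro n
    have h1 := ind_nonneg S (s * n)
    have h2 := ind_le_one S (s * n)
    rw [hf, abs_le]
    constructor <;> simp only <;> linarith
  have hNr : (2 : ℝ) ≤ N := by exact_mod_cast hN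
  have hQr : (1 : ℝ) ≤ Q := by exact_mod_cast hQ
  have hL0 : 0 < Real.log N := Real.log_pos (by linarith)
  have hsN0 : 0 < √(N : ℝ) := Real.sqrt_pos.2 (by linarith)
  rcases Nat.lt_or_ge N 16 with hsmall | hbig
  · have h1 := medium_moduli hfb N Q (2 * Q)
    have h2 := sum_inv_le_one hQ
    have h3 : (N : ℝ) ^ 2 * ∑ q ∈ Ioc Q (2 * Q), 1 / (q : ℝ) ≤ N ^ 2 * 1 := mul_le_mul_of_nonneg_left h2 (sq_nonneg _)
    have h4 : Real.log N ^ (1 / 31 : ℝ) ≤ 3 := by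
      have h5 : Real.log N ≤ 3 := by
        have h6 : Real.log N ≤ Real.log 16 := Real.log_le_log (by linarith) (by exact_mod_cast hsmall.le)
        rw [show (16 : ℝ) = 2 ^ 4 by norm_num, Real.log_pow] at h6
        have := Real.log_two_lt_d9
        push_cast at h6
        linarith
      calc Real.log N ^ (1 / 31 : ℝ) ≤ (3 : ℝ) ^ (1 / 31 : ℝ) := Real.rpow_le_rpow hL0.le h5 (by norm_num)
        _ ≤ (3 : ℝ) ^ (1 : ℝ) := Real.rpow_le_rpow_of_exponent_le (by norm_num) (by norm_num)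
        _ = 3 := Real.rpow_one _
    have h5 : 0 < Real.log N ^ (1 / 31 : ℝ) := Real.rpow_pos_of_pos hL0 _
    have h6 : (N : ℝ) ^ 2 ≤ 3 * (N ^ 2 / Real.log N ^ (1 / 31 : ℝ)) := by
      rw [mul_div_assoc', le_div_iff₀ h5]
      have := mul_le_mul_of_nonneg_left h4 (sq_nonneg (N : ℝ))
      linarith
    have h7 : 0 ≤ (N : ℝ) ^ 2 * min (Q / √N) (√N / Q) := by
      apply mul_nonneg (sq_nonneg _)
      apply le_min <;> positivity
    have h8 : 0 ≤ (N : ℝ) ^ 2 / Real.log N ^ (1 / 31 : ℝ) := by positivity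
    have h9 : 0 ≤ (Q : ℝ) * N := by positivity
    push_cast at h1
    generalize (N : ℝ) ^ 2 / Real.log N ^ (1 / 31 : ℝ) = X at *
    generalize (N : ℝ) ^ 2 * min (Q / √N) (√N / Q) = Y at *
    have h10 : 0 ≤ C * X := by positivity
    have h11 : 0 ≤ C * Y := by positivity
    have h12 : 0 ≤ C * (Q * N) := by positivity
    nlinarith
  have hL1 : 1 ≤ Real.log N := by
    have hNr16 : (16 : ℝ) ≤ N := by exact_mod_cast hbig
    have := Real.log_le_log (by norm_num) hNr16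
    rw [show (16 : ℝ) = 2 ^ 4 by norm_num, Real.log_pow] at this
    have := Real.log_two_gt_d9
    push_cast at *
    linarith
  rcases le_total (Q / √(N : ℝ)) (√N / Q) with hmin | hmin
  · rw [min_eq_left hmin]
    have h1 := bdh_small hC hfb hN (hdy N hN) hQ
    have h2 : (N : ℝ) ^ 2 / Real.log N ^ (1 / 30 : ℝ) ≤ N ^ 2 / Real.log N ^ (1 / 31 : ℝ) :=
      div_le_div_of_nonneg_left (sq_nonneg _) (Real.rpow_pos_of_pos hL0 _)
        (Real.rpow_le_rpow_of_exponent_le hL1 (by norm_num))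
    have h7 : 0 ≤ (N : ℝ) ^ 2 * (Q / √N) := by positivity
    have h8 : 0 ≤ (N : ℝ) ^ 2 / Real.log N ^ (1 / 31 : ℝ) := by positivity
    have h9 : 0 ≤ (Q : ℝ) * N := by positivity
    refine h1.trans ?_
    generalize (N : ℝ) ^ 2 / Real.log N ^ (1 / 31 : ℝ) = X at *
    generalize (N : ℝ) ^ 2 / Real.log N ^ (1 / 30 : ℝ) = X' at *
    generalize (N : ℝ) ^ 2 * (Q / √N) = Y at *
    have h10 : 0 ≤ C * X := by positivity
    have h11 : 0 ≤ C * Y := by positivity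
    have h12 : 0 ≤ C * (Q * N) := by positivity
    have h13 : C * X' ≤ C * X := mul_le_mul_of_nonneg_left h2 hC.le
    nlinarith
  · rw [min_eq_right hmin]
    exact bdh_large hC hfb hbig (hdy N hN) hQ

end Pool.Agent.T6.H47.BV
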