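import Pool.Agent.T6.H47.BV12

set_option autoImplicit false

/-! Sufficiency of a positive proportion of the pairs of a modulus and a class. -/

namespace Pool.Agent.T6.H47.BV

open Finset Filter Topology Pool.Agent.H499R2.CO Pool.Agent.H499R2.ND

theorem rpow_large' (C η p : ℝ) (hη : 0 < η) (hp : 0 < p) : ∃ M : ℕ, ∀ N : ℕ, M ≤ N → C / Real.log N ^ p ≤ η := by
  have h1 : Tendsto (fun N : ℕ => C / Real.log N ^ p) atTop (𝓝 0) := by
    apply Tendsto.div_atTop tendsto_const_nhds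
    exact (tendsto_rpow_atTop hp).comp (Real.tendsto_log_atTop.comp tendsto_natCast_atTop_atTop)
  have h2 := h1.eventually_lt_const hη
  rw [eventually_atTop] at h2
  obtain ⟨M, hM⟩ := h2
  exact ⟨M, fun N hN => (hM N hN).le⟩

/-- sufficiency of a positive proportion of the pairs `(q, a)` -/
theorem suff_pairs {s : ℤ} (hs : s = 1 ∨ s = -1) {S : Set ℤ} (hS : Inv 1 S) {κ : ℝ} (hκ : 0 < κ)
    (h : ∀ ε : ℝ, 0 < ε → ∀ M : ℕ, ∃ N : ℕ, M ≤ N ∧ ∃ Q : ℕ, 1 ≤ Q ∧ (Q : ℝ) ≤ ε * N ∧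
      ((Q : ℝ) ≤ ε * √N ∨ √N ≤ ε * Q) ∧ ∃ P : Finset (ℕ × ℕ), (∀ p ∈ P, Q < p.1 ∧ p.1 ≤ 2 * Q ∧ p.2 < p.1) ∧
      κ * Q ^ 2 ≤ #P ∧ ∀ p ∈ P, ∑ n ∈ Icc 1 N, (1 - ind S (s * (n : ℕ))) * ci p.1 p.2 n ≤ ε * (N / p.1)) :
    ∀ x : ℤ, 0 < s * x → x ∈ S := by
  intro x hx
  by_contra hxS
  obtain ⟨C, hC, hbdh⟩ := bdh_dyadic
  obtain ⟨δ, hδ0, hδ1, hHD⟩ := dens_side odd_one isCoprime_one_left hs hS
  have hlt : δ < 1 := one_lt hs hS hxS hx hHD
  have hpos : 0 < 1 - δ := by linarith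
  set η := 1 - δ with hη
  set ε : ℝ := min (η / 16) (κ * η ^ 2 / (64 * (3 * (1 + C)))) with hε
  have hε0 : 0 < ε := by rw [hε]; apply lt_min <;> positivity
  have hε1 : ε ≤ η / 16 := min_le_left _ _
  have hη1 : η ≤ 1 := by linarith
  have hε2 : ε * (3 * (1 + C)) ≤ κ * η ^ 2 / 64 := by
    have h1 : ε ≤ κ * η ^ 2 / (64 * (3 * (1 + C))) := min_le_right _ _
    calc ε * (3 * (1 + C)) ≤ κ * η ^ 2 / (64 * (3 * (1 + C))) * (3 * (1 + C)) :=
          mul_le_mul_of_nonneg_right h1 (by positivity)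
      _ = κ * η ^ 2 / 64 := by field_simp
  obtain ⟨M, hM⟩ := rpow_large' 1 ε (1 / 31) hε0 (by norm_num)
  obtain ⟨N, hN, Q, hQ, hQN, hQs, P, hP, hcard, ha⟩ := h ε hε0 (max M 2)
  have hN2 : 2 ≤ N := (le_max_right _ _).trans hN
  have hNM : M ≤ N := (le_max_left _ _).trans hN
  have hNr : (2 : ℝ) ≤ N := by exact_mod_cast hN2
  have hQr : (1 : ℝ) ≤ Q := by exact_mod_cast hQ
  have hQN' : Q ≤ N := by
    have : (Q : ℝ) ≤ N := hQN.trans (by nlinarith)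
    exact_mod_cast this
  have hsN : 0 < √(N : ℝ) := Real.sqrt_pos.2 (by linarith)
  have hmain := hbdh s hs S hS δ hHD N hN2 Q hQ hQN'
  -- the lower bound for one pair
  have h1 : ∀ p ∈ P, η * N / (8 * Q) ≤ WW (fun n : ℕ => ind S (s * n) - δ) p.1 p.2 N := by
    intro p hp
    obtain ⟨h1, h2, -⟩ := hP p hp
    have hq1 : 1 ≤ p.1 := by omega
    have hqr : (0 : ℝ) < p.1 := by exact_mod_cast (by omega : 0 < p.1)
    have hq2 : (p.1 : ℝ) ≤ 2 * Q := by exact_mod_cast h2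
    have h3 := ha p hp
    have h4 := (abs_le.1 (ci_Icc hq1 (p.2 : ℤ) N)).1
    have e : WW (fun n : ℕ => ind S (s * n) - δ) p.1 p.2 N = η * ∑ n ∈ Icc 1 N, ci p.1 p.2 n -
        ∑ n ∈ Icc 1 N, (1 - ind S (s * (n : ℕ))) * ci p.1 p.2 n := by
      unfold WW
      rw [mul_sum, ← sum_sub_distrib]
      apply sum_congr rfl
      intro n _
      rw [hη]
      ring
    rw [e]
    have h5 : η * ((N : ℝ) / p.1 - 1) ≤ η * ∑ n ∈ Icc 1 N, ci p.1 p.2 n :=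
      mul_le_mul_of_nonneg_left (by linarith) hpos.le
    have h6 : ε * ((N : ℝ) / p.1) ≤ η / 4 * (N / p.1) :=
      mul_le_mul_of_nonneg_right (by linarith) (by positivity)
    have h7 : (N : ℝ) / (2 * Q) ≤ N / p.1 := div_le_div_of_nonneg_left (by linarith) hqr hq2
    have h8 : η ≤ η / 4 * (N / (2 * Q)) := by
      have h9 : 8 * (Q : ℝ) ≤ N := by nlinarith
      have h10 : 4 ≤ (N : ℝ) / (2 * Q) := by
        rw [le_div_iff₀ (by linarith)]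
        linarith
      nlinarith
    have h9 : η * N / (8 * Q) = η / 4 * (N / (2 * Q)) := by field_simp; norm_num
    rw [h9]
    nlinarith
  have h2 : κ * η ^ 2 / 64 * N ^ 2 ≤ ∑ q ∈ Ioc Q (2 * Q), ∑ a ∈ range q, WW (fun n : ℕ => ind S (s * n) - δ) q a N ^ 2 := by
    have hsig : ∑ q ∈ Ioc Q (2 * Q), ∑ a ∈ range q, WW (fun n : ℕ => ind S (s * n) - δ) q a N ^ 2 =
        ∑ p ∈ (Ioc Q (2 * Q)).sigma (fun q => range q), WW (fun n : ℕ => ind S (s * n) - δ) p.1 p.2 N ^ 2 := by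
      rw [sum_sigma]
    have hinj : ∑ p ∈ P, WW (fun n : ℕ => ind S (s * n) - δ) p.1 p.2 N ^ 2 ≤
        ∑ p ∈ (Ioc Q (2 * Q)).sigma (fun q => range q), WW (fun n : ℕ => ind S (s * n) - δ) p.1 p.2 N ^ 2 := by
      have e1 : ∑ p ∈ P, WW (fun n : ℕ => ind S (s * n) - δ) p.1 p.2 N ^ 2 =
          ∑ p ∈ P.image (fun p => (⟨p.1, p.2⟩ : (_ : ℕ) × ℕ)), WW (fun n : ℕ => ind S (s * n) - δ) p.1 p.2 N ^ 2 := by
        rw [sum_image]
        intro a _ b _ hab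
        simp only [Sigma.mk.injEq, heq_eq_eq] at hab
        exact Prod.ext hab.1 hab.2
      rw [e1]
      apply sum_le_sum_of_subset_of_nonneg
      · intro z hz
        rw [mem_image] at hz
        obtain ⟨p, hp, rfl⟩ := hz
        obtain ⟨h3, h4, h5⟩ := hP p hp
        rw [mem_sigma, mem_Ioc, mem_range]
        exact ⟨⟨h3, h4⟩, h5⟩
      · intro _ _ _
        exact sq_nonneg _
    rw [hsig]
    refine le_trans ?_ hinj
    have h3 : 0 ≤ η * N / (8 * Q) := by positivity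
    calc κ * η ^ 2 / 64 * N ^ 2 = (κ * Q ^ 2) * (η * N / (8 * Q)) ^ 2 := by field_simp; norm_num
      _ ≤ (#P : ℝ) * (η * N / (8 * Q)) ^ 2 := mul_le_mul_of_nonneg_right hcard (sq_nonneg _)
      _ = ∑ p ∈ P, (η * N / (8 * Q)) ^ 2 := by rw [sum_const, nsmul_eq_mul]
      _ ≤ _ := by
          apply sum_le_sum
          intro p hp
          exact pow_le_pow_left₀ h3 (h1 p hp) 2
  have h3 := hM N hNM
  have h4 : (N : ℝ) ^ 2 / Real.log N ^ (1 / 31 : ℝ) ≤ ε * N ^ 2 := by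
    calc _ = (1 / Real.log N ^ (1 / 31 : ℝ)) * N ^ 2 := by ring
      _ ≤ _ := mul_le_mul_of_nonneg_right h3 (sq_nonneg _)
  have h5 : min (Q / √(N : ℝ)) (√N / Q) ≤ ε := by
    rcases hQs with h6 | h6
    · exact (min_le_left _ _).trans (by rw [div_le_iff₀ hsN]; exact h6)
    · exact (min_le_right _ _).trans (by rw [div_le_iff₀ (by linarith)]; exact h6)
  have h6 : (N : ℝ) ^ 2 * min (Q / √(N : ℝ)) (√N / Q) ≤ ε * N ^ 2 := by
    rw [mul_comm ε]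
    exact mul_le_mul_of_nonneg_left h5 (sq_nonneg _)
  have h7 : (Q : ℝ) * N ≤ ε * N ^ 2 := by nlinarith
  have h8 : C * (N ^ 2 / Real.log N ^ (1 / 31 : ℝ) + N ^ 2 * min (Q / √(N : ℝ)) (√N / Q) + Q * N) ≤
      C * (3 * (ε * N ^ 2)) := mul_le_mul_of_nonneg_left (by linarith) hC.le
  have h9 : ε * (3 * (1 + C)) * N ^ 2 ≤ κ * η ^ 2 / 64 * N ^ 2 := mul_le_mul_of_nonneg_right hε2 (sq_nonneg _)
  have h10 : 0 < ε * (N : ℝ) ^ 2 := by positivity
  have e : ε * (3 * (1 + C)) * (N : ℝ) ^ 2 = 3 * (ε * N ^ 2) + C * (3 * (ε * N ^ 2)) := by ring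
  rw [e] at h9
  linarith

end Pool.Agent.T6.H47.BV
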