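import Pool.Agent.T6.H47.BV1

set_option autoImplicit false

/-! The abstract inequality. -/

namespace Pool.Agent.T6.H47.BV

open Finset

theorem gcd_le_sum {q q' R : ℕ} (hq : 1 ≤ q) (hqR : q ≤ R) :
    (Nat.gcd q q' : ℝ) ≤ ∑ d ∈ Icc 1 R, (d : ℝ) * ((if d ∣ q then 1 else 0) * (if d ∣ q' then 1 else 0)) := by
  have hg : 1 ≤ Nat.gcd q q' := Nat.gcd_pos_of_pos_left _ (by omega)
  have hgR : Nat.gcd q q' ≤ R := (Nat.gcd_le_left q' (by omega)).trans hqR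
  have h1 : (Nat.gcd q q' : ℝ) = ((Nat.gcd q q' : ℕ) : ℝ) * ((if Nat.gcd q q' ∣ q then 1 else 0) *
      (if Nat.gcd q q' ∣ q' then 1 else 0)) := by
    rw [if_pos (Nat.gcd_dvd_left q q'), if_pos (Nat.gcd_dvd_right q q')]; ring
  rw [h1]
  apply single_le_sum (f := fun d : ℕ => (d : ℝ) * ((if d ∣ q then 1 else 0) * (if d ∣ q' then 1 else 0)))
  · intro d _
    split_ifs <;> simp
  · rw [mem_Icc]; exact ⟨hg, hgR⟩

theorem card_mult {Q d : ℕ} (hd : 1 ≤ d) {P : Finset ℕ} (hP : P ⊆ Ioc Q (2 * Q)) :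
    (#(P.filter (fun q => d ∣ q)) : ℝ) ≤ 2 * Q / d := by
  have h1 : P.filter (fun q => d ∣ q) ⊆ (Ioc 0 (2 * Q)).filter (fun q => d ∣ q) := by
    intro q hq
    rw [mem_filter] at hq ⊢
    refine ⟨?_, hq.2⟩
    have := hP hq.1
    rw [mem_Ioc] at this ⊢
    omega
  have h2 := card_le_card h1
  rw [Nat.Ioc_filter_dvd_card_eq_div] at h2
  have h3 : ((2 * Q / d : ℕ) : ℝ) ≤ ((2 * Q : ℕ) : ℝ) / d := Nat.cast_div_le
  push_cast at h3
  have h4 : (#(P.filter (fun q => d ∣ q)) : ℝ) ≤ ((2 * Q / d : ℕ) : ℝ) := by exact_mod_cast h2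
  linarith

theorem GG_le {Q : ℕ} (hQ : 1 ≤ Q) {P : Finset ℕ} (hP : P ⊆ Ioc Q (2 * Q)) :
    GG P ≤ 4 * (1 + Real.log (2 * Q)) := by
  have hQr : (1 : ℝ) ≤ Q := by exact_mod_cast hQ
  have hQ2 : (0 : ℝ) < (Q : ℝ) ^ 2 := by positivity
  have h1 : ∀ q ∈ P, ∀ q' ∈ P, 1 / (Nat.lcm q q' : ℝ) ≤ (1 / (Q : ℝ) ^ 2) *
      ∑ d ∈ Icc 1 (2 * Q), (d : ℝ) * ((if d ∣ q then 1 else 0) * (if d ∣ q' then 1 else 0)) := by
    intro q hq q' hq'
    have m1 := hP hq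
    have m2 := hP hq'
    rw [mem_Ioc] at m1 m2
    have hl : 1 ≤ Nat.lcm q q' := Nat.lcm_pos (by omega) (by omega)
    have hlr : (1 : ℝ) ≤ (Nat.lcm q q' : ℕ) := by exact_mod_cast hl
    have hgl : ((Nat.gcd q q' : ℕ) : ℝ) * (Nat.lcm q q' : ℕ) = q * q' := by
      exact_mod_cast Nat.gcd_mul_lcm q q'
    have a1 : (Q : ℝ) ≤ q := by exact_mod_cast m1.1.le
    have a2 : (Q : ℝ) ≤ q' := by exact_mod_cast m2.1.le
    have h2 : 1 / (Nat.lcm q q' : ℝ) ≤ (1 / (Q : ℝ) ^ 2) * (Nat.gcd q q' : ℝ) := by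
      rw [one_div_mul_eq_div, div_le_div_iff₀ (by linarith) hQ2, hgl]
      nlinarith
    refine h2.trans ?_
    apply mul_le_mul_of_nonneg_left (gcd_le_sum (by omega) m1.2) (by positivity)
  have h3 : GG P ≤ (1 / (Q : ℝ) ^ 2) * ∑ d ∈ Icc 1 (2 * Q), (d : ℝ) * (#(P.filter (fun q => d ∣ q)) : ℝ) ^ 2 := by
    unfold GG
    calc _ ≤ ∑ q ∈ P, ∑ q' ∈ P, (1 / (Q : ℝ) ^ 2) *
          ∑ d ∈ Icc 1 (2 * Q), (d : ℝ) * ((if d ∣ q then 1 else 0) * (if d ∣ q' then 1 else 0)) :=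
          sum_le_sum fun q hq => sum_le_sum fun q' hq' => h1 q hq q' hq'
      _ = (1 / (Q : ℝ) ^ 2) * ∑ q ∈ P, ∑ q' ∈ P,
          ∑ d ∈ Icc 1 (2 * Q), (d : ℝ) * ((if d ∣ q then 1 else 0) * (if d ∣ q' then 1 else 0)) := by
          simp only [mul_sum]
      _ = _ := by
          congr 1
          have e1 : ∀ q ∈ P, ∑ q' ∈ P, ∑ d ∈ Icc 1 (2 * Q), (d : ℝ) * ((if d ∣ q then 1 else 0) *
              (if d ∣ q' then 1 else 0)) = ∑ d ∈ Icc 1 (2 * Q), ∑ q' ∈ P, (d : ℝ) * ((if d ∣ q then 1 else 0) *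
              (if d ∣ q' then 1 else 0)) := fun q _ => sum_comm
          rw [sum_congr rfl e1, sum_comm]
          apply sum_congr rfl
          intro d _
          rw [card_filter]
          push_cast
          rw [pow_two, sum_mul_sum, mul_sum]
          apply sum_congr rfl
          intro q _
          rw [mul_sum]
  refine h3.trans ?_
  have h4 : ∀ d ∈ Icc 1 (2 * Q), (d : ℝ) * (#(P.filter (fun q => d ∣ q)) : ℝ) ^ 2 ≤
      4 * (Q : ℝ) ^ 2 * (1 / (d : ℝ)) := by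
    intro d hd
    rw [mem_Icc] at hd
    have hdr : (1 : ℝ) ≤ d := by exact_mod_cast hd.1
    have h5 := card_mult hd.1 hP
    have h6 : (#(P.filter (fun q => d ∣ q)) : ℝ) ^ 2 ≤ (2 * Q / d) ^ 2 := by
      apply pow_le_pow_left₀ (Nat.cast_nonneg _) h5
    calc (d : ℝ) * (#(P.filter (fun q => d ∣ q)) : ℝ) ^ 2 ≤ (d : ℝ) * (2 * Q / d) ^ 2 :=
          mul_le_mul_of_nonneg_left h6 (by linarith)
      _ = _ := by field_simp; ring
  have h7 : ∑ d ∈ Icc 1 (2 * Q), (1 / (d : ℝ)) ≤ 1 + Real.log (2 * Q) := by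
    have := harmonic_le_one_add_log (2 * Q)
    rw [harmonic_eq_sum_Icc] at this
    push_cast at this
    simp only [one_div]
    exact this
  calc _ ≤ (1 / (Q : ℝ) ^ 2) * ∑ d ∈ Icc 1 (2 * Q), 4 * (Q : ℝ) ^ 2 * (1 / (d : ℝ)) :=
        mul_le_mul_of_nonneg_left (sum_le_sum h4) (by positivity)
    _ = 4 * ∑ d ∈ Icc 1 (2 * Q), (1 / (d : ℝ)) := by
        rw [← mul_sum]; field_simp
    _ ≤ _ := mul_le_mul_of_nonneg_left h7 (by norm_num)

/-! ### masses of sets defined modulo powers of two -/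

open Classical in
/-- indicator of a set given by a predicate -/
noncomputable def ib (B : ℤ → Prop) (x : ℤ) : ℝ := if B x then 1 else 0

theorem ib_nonneg (B : ℤ → Prop) (x : ℤ) : 0 ≤ ib B x := by unfold ib; split_ifs <;> norm_num

theorem ib_le_one (B : ℤ → Prop) (x : ℤ) : ib B x ≤ 1 := by unfold ib; split_ifs <;> norm_num

theorem ib_expand {t : ℕ} {B : ℤ → Prop} (hper : ∀ x m : ℤ, B (x + m * 2 ^ t) ↔ B x) (n : ℕ) :
    ib B n = ∑ x ∈ range (2 ^ t), ib B x * ci (2 ^ t) x n := by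
  have hpos : 0 < 2 ^ t := by positivity
  rw [sum_eq_single (n % 2 ^ t)]
  · have h1 : ci (2 ^ t) ((n % 2 ^ t : ℕ) : ℤ) n = 1 := by
      unfold ci
      rw [if_pos]
      push_cast
      exact Int.dvd_self_sub_emod
    have h2 : ib B n = ib B ((n % 2 ^ t : ℕ) : ℤ) := by
      unfold ib
      have h := hper ((n % 2 ^ t : ℕ) : ℤ) ((n / 2 ^ t : ℕ) : ℤ)
      have e : (((n % 2 ^ t : ℕ) : ℤ) + ((n / 2 ^ t : ℕ) : ℤ) * 2 ^ t) = n := by
        have := Nat.mod_add_div n (2 ^ t)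
        have h' : ((n % 2 ^ t + 2 ^ t * (n / 2 ^ t) : ℕ) : ℤ) = n := by exact_mod_cast this
        rw [← h']; push_cast; ring
      rw [e] at h
      by_cases hb : B n
      · rw [if_pos hb, if_pos (h.1 hb)]
      · rw [if_neg hb, if_neg (fun h' => hb (h.2 h'))]
    rw [h1, h2, mul_one]
  · intro x hx hne
    rw [mem_range] at hx
    have : ci (2 ^ t) (x : ℤ) n = 0 := by
      unfold ci
      rw [if_neg]
      intro hd
      apply hne
      push_cast at hd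
      have h1 : (x : ℤ) ≡ n [ZMOD ((2 ^ t : ℕ) : ℤ)] := by
        rw [Int.modEq_iff_dvd]; push_cast; exact hd
      rw [Int.natCast_modEq_iff] at h1
      have h2 : x % 2 ^ t = n % 2 ^ t := h1
      rw [Nat.mod_eq_of_lt hx] at h2
      exact h2
    rw [this, mul_zero]
  · intro h
    exact absurd (mem_range.2 (Nat.mod_lt _ hpos)) h

theorem mass_odd {t q : ℕ} (hq : q % 2 = 1) {B : ℤ → Prop} (hper : ∀ x m : ℤ, B (x + m * 2 ^ t) ↔ B x)
    {ε : ℝ} (hB : ∑ x ∈ range (2 ^ t), ib B x ≤ 2 ^ t * ε) (a : ℤ) (N : ℕ) :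
    ∑ n ∈ range N, ib B n * ci q a n ≤ ε * ((N : ℝ) / q + 2 ^ t) := by
  have hq1 : 1 ≤ q := by omega
  have hqr : (0 : ℝ) < q := by exact_mod_cast (by omega : 0 < q)
  have h2t : 1 ≤ 2 ^ t := Nat.one_le_two_pow
  have hcop : Nat.Coprime (2 ^ t) q := by
    apply Nat.Coprime.pow_left
    rw [Nat.coprime_comm]
    exact (Nat.coprime_two_right.2 (Nat.odd_iff.2 hq))
  have e : ∑ n ∈ range N, ib B n * ci q a n =
      ∑ x ∈ range (2 ^ t), ib B x * ∑ n ∈ range N, ci (2 ^ t) x n * ci q a n := by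
    have e1 : ∀ n ∈ range N, ib B n * ci q a n =
        ∑ x ∈ range (2 ^ t), ib B x * (ci (2 ^ t) x n * ci q a n) := by
      intro n _
      rw [ib_expand hper n, sum_mul]
      apply sum_congr rfl
      intro x _
      ring
    rw [sum_congr rfl e1, sum_comm]
    simp only [mul_sum]
  rw [e]
  have h1 : ∀ x ∈ range (2 ^ t), ib B x * ∑ n ∈ range N, ci (2 ^ t) x n * ci q a n ≤
      ib B x * ((N : ℝ) / (2 ^ t * q) + 1) := by
    intro x _
    apply mul_le_mul_of_nonneg_left _ (ib_nonneg _ _)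
    refine (ci_pair h2t hq1 x a N).trans ?_
    have h2 := ci_le_one (Nat.gcd (2 ^ t) q) (x : ℤ) a
    rw [hcop.lcm_eq_mul]
    push_cast
    have h3 : (0 : ℝ) ≤ (N : ℝ) / (2 ^ t * q) + 1 := by positivity
    calc _ ≤ 1 * ((N : ℝ) / (2 ^ t * q) + 1) := mul_le_mul_of_nonneg_right h2 h3
      _ = _ := one_mul _
  refine (sum_le_sum h1).trans ?_
  rw [← sum_mul]
  have h3 : (0 : ℝ) ≤ (N : ℝ) / (2 ^ t * q) + 1 := by positivity
  calc _ ≤ (2 ^ t * ε) * ((N : ℝ) / (2 ^ t * q) + 1) := mul_le_mul_of_nonneg_right hB h3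
    _ = _ := by field_simp

theorem mass_gen {t J q : ℕ} (hq : 1 ≤ q) (hJ : ¬ 2 ^ J ∣ q) {B : ℤ → Prop}
    (hper : ∀ x m : ℤ, B (x + m * 2 ^ t) ↔ B x) {ε : ℝ} (hε : 0 ≤ ε)
    (hB : ∑ x ∈ range (2 ^ t), ib B x ≤ 2 ^ t * ε) (a : ℤ) (N : ℕ) :
    ∑ n ∈ range N, ib B n * ci q a n ≤ ε * (2 ^ J * (N : ℝ) / q + 2 ^ t) := by
  have hq0 : q ≠ 0 := by omega
  set v := q.factorization 2 with hv
  set q' := q / 2 ^ v with hq'
  have hmul : 2 ^ v * q' = q := Nat.ordProj_mul_ordCompl_eq_self q 2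
  have hq'0 : q' ≠ 0 := by rintro h; rw [h, mul_zero] at hmul; omega
  have hodd : q' % 2 = 1 := by
    have h1 : ¬ 2 ∣ q' := Nat.not_dvd_ordCompl Nat.prime_two hq0
    omega
  have hvJ : v ≤ J := by
    by_contra hcon
    push Not at hcon
    apply hJ
    exact (pow_dvd_pow 2 hcon.le).trans ⟨q', hmul.symm⟩
  have h1 := mass_odd hodd hper hB a N
  have hqr : (0 : ℝ) < q := by exact_mod_cast (by omega : 0 < q)
  have hq'r : (0 : ℝ) < q' := by exact_mod_cast Nat.pos_of_ne_zero hq'0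
  have h2 : ∑ n ∈ range N, ib B n * ci q a n ≤ ∑ n ∈ range N, ib B n * ci q' a n := by
    apply sum_le_sum
    intro n _
    apply mul_le_mul_of_nonneg_left _ (ib_nonneg _ _)
    unfold ci
    by_cases h : (q : ℤ) ∣ (n : ℤ) - a
    · rw [if_pos h, if_pos]
      refine dvd_trans ?_ h
      exact_mod_cast (⟨2 ^ v, by rw [mul_comm]; exact hmul.symm⟩ : q' ∣ q)
    · rw [if_neg h]
      split_ifs <;> norm_num
  refine h2.trans (h1.trans ?_)
  apply mul_le_mul_of_nonneg_left _ hε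
  have h3 : (N : ℝ) / q' ≤ 2 ^ J * N / q := by
    rw [div_le_div_iff₀ hq'r hqr]
    have h4 : (q : ℝ) ≤ 2 ^ J * q' := by
      have h5 : (q : ℝ) = 2 ^ v * q' := by rw [← hmul]; push_cast; ring
      rw [h5]
      apply mul_le_mul_of_nonneg_right _ hq'r.le
      exact pow_le_pow_right₀ (by norm_num) hvJ
    have hN : (0 : ℝ) ≤ N := Nat.cast_nonneg _
    nlinarith
  linarith

end Pool.Agent.T6.H47.BV
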