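import Pool.Agent.T6.H47.BV2

set_option autoImplicit false

/-! The abstract inequality: shifts, families of moduli, and all moduli in a dyadic interval. -/

namespace Pool.Agent.T6.H47.BV

open Finset

theorem sum_ci_shift_le {q : ℕ} (hq : 1 ≤ q) (a : ℤ) (b : ℤ) (h : ℕ) :
    ∑ n ∈ range h, ci q a ((n : ℤ) + b) ≤ (h : ℝ) / q + 1 := by
  simp only [ci_add]
  exact ci_count_le hq _ h

theorem shift_sum (F : ℕ → ℝ) (M h : ℕ) :
    ∑ n ∈ range M, F n - ∑ n ∈ range M, F (n + h) =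
      ∑ n ∈ range h, F n - ∑ n ∈ range h, F (M + n) := by
  have h1 := sum_range_add F M h
  have h2 := sum_range_add F h M
  have e : ∑ n ∈ range M, F (n + h) = ∑ n ∈ range M, F (h + n) :=
    sum_congr rfl fun n _ => by rw [add_comm]
  rw [add_comm h M] at h2
  rw [e]
  linarith

theorem shift_bound {P : Finset ℕ} (hP : ∀ q ∈ P, 1 ≤ q) (a : ℕ → ℤ) {g : ℕ → ℝ} (hg : ∀ n, |g n| ≤ 1)
    (M h : ℕ) :
    |∑ n ∈ range M, g n * rr P a n - ∑ n ∈ range M, g n * rr P a ((n : ℤ) + h)| ≤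
      ∑ q ∈ P, 2 * ((h : ℝ) / q + 1) + ∑ n ∈ range M, |g (n + h) - g n| * rr P a ((n : ℤ) + h) := by
  have key := shift_sum (fun n : ℕ => g n * rr P a n) M h
  have hb : ∀ b : ℕ, |∑ n ∈ range h, g (b + n) * rr P a ((b + n : ℕ) : ℤ)| ≤ ∑ q ∈ P, ((h : ℝ) / q + 1) := by
    intro b
    calc |∑ n ∈ range h, g (b + n) * rr P a ((b + n : ℕ) : ℤ)| ≤
        ∑ n ∈ range h, |g (b + n) * rr P a ((b + n : ℕ) : ℤ)| := abs_sum_le_sum_abs _ _
      _ ≤ ∑ n ∈ range h, rr P a ((n : ℤ) + b) := by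
          apply sum_le_sum
          intro n _
          rw [abs_mul, abs_of_nonneg (rr_nonneg P a _)]
          have e : ((b + n : ℕ) : ℤ) = (n : ℤ) + b := by push_cast; ring
          rw [e]
          calc |g (b + n)| * rr P a ((n : ℤ) + b) ≤ 1 * rr P a ((n : ℤ) + b) :=
                mul_le_mul_of_nonneg_right (hg _) (rr_nonneg P a _)
            _ = _ := one_mul _
      _ = ∑ q ∈ P, ∑ n ∈ range h, ci q (a q) ((n : ℤ) + b) := by unfold rr; rw [sum_comm]
      _ ≤ _ := sum_le_sum fun q hq => sum_ci_shift_le (hP q hq) _ _ h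
  have h0 := hb 0
  have hM := hb M
  simp only [zero_add] at h0
  have e2 : ∑ n ∈ range M, g n * rr P a n - ∑ n ∈ range M, g n * rr P a ((n : ℤ) + h) =
      (∑ n ∈ range h, g n * rr P a n - ∑ n ∈ range h, g (M + n) * rr P a ((M + n : ℕ) : ℤ)) +
      ∑ n ∈ range M, (g (n + h) - g n) * rr P a ((n : ℤ) + h) := by
    have e3 : ∑ n ∈ range M, (g (n + h) - g n) * rr P a ((n : ℤ) + h) =
        ∑ n ∈ range M, g (n + h) * rr P a ((n + h : ℕ) : ℤ) - ∑ n ∈ range M, g n * rr P a ((n : ℤ) + h) := by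
      rw [← sum_sub_distrib]
      apply sum_congr rfl
      intro n _
      push_cast
      ring
    rw [e3, ← key]
    ring
  rw [e2]
  have h3 : |∑ n ∈ range M, (g (n + h) - g n) * rr P a ((n : ℤ) + h)| ≤
      ∑ n ∈ range M, |g (n + h) - g n| * rr P a ((n : ℤ) + h) := by
    refine (abs_sum_le_sum_abs _ _).trans (le_of_eq ?_)
    apply sum_congr rfl
    intro n _
    rw [abs_mul, abs_of_nonneg (rr_nonneg P a _)]
  have h4 : ∑ q ∈ P, 2 * ((h : ℝ) / q + 1) = 2 * ∑ q ∈ P, ((h : ℝ) / q + 1) := by rw [mul_sum]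
  rw [h4]
  have h5 := abs_add_le (∑ n ∈ range h, g n * rr P a n - ∑ n ∈ range h, g (M + n) * rr P a ((M + n : ℕ) : ℤ))
    (∑ n ∈ range M, (g (n + h) - g n) * rr P a ((n : ℤ) + h))
  have h6 := abs_sub (∑ n ∈ range h, g n * rr P a n) (∑ n ∈ range h, g (M + n) * rr P a ((M + n : ℕ) : ℤ))
  linarith

/-- the data: a bounded function which is invariant under the shifts by `h < H` outside sets of
proportion `ε` defined modulo `2 ^ t` -/
structure Data (g : ℕ → ℝ) (H t : ℕ) (ε : ℝ) : Prop where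
  bd : ∀ n, |g n| ≤ 1
  eps : 0 ≤ ε
  shift : ∀ h, h < H → ∃ B : ℤ → Prop, (∀ x m : ℤ, B (x + m * 2 ^ t) ↔ B x) ∧
    ∑ x ∈ range (2 ^ t), ib B x ≤ 2 ^ t * ε ∧ ∀ n : ℕ, ¬ B n → g (n + h) = g n

/-- the cost of a modulus -/
noncomputable def cost (H t J : ℕ) (ε : ℝ) (N q : ℕ) : ℝ :=
  2 * ((H : ℝ) / q + 1) + 2 * (ε * (2 ^ J * (N : ℝ) / q + 2 ^ t) +
    (if 2 ^ J ∣ q then (N : ℝ) / q + 1 else 0)) + 2 * √N

theorem variation {g : ℕ → ℝ} {H t : ℕ} {ε : ℝ} (hD : Data g H t ε) (J : ℕ) {P : Finset ℕ}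
    (hP : ∀ q ∈ P, 1 ≤ q) (a : ℕ → ℤ) {M N : ℕ} (hMN : M ≤ N) {h : ℕ} (hh : h < H) :
    ∑ n ∈ range M, |g (n + h) - g n| * rr P a ((n : ℤ) + h) ≤
      ∑ q ∈ P, 2 * (ε * (2 ^ J * (N : ℝ) / q + 2 ^ t) + (if 2 ^ J ∣ q then (N : ℝ) / q + 1 else 0)) := by
  obtain ⟨B, hper, hB, hgB⟩ := hD.shift h hh
  have h1 : ∀ n ∈ range M, |g (n + h) - g n| * rr P a ((n : ℤ) + h) ≤
      2 * (ib B n * rr P a ((n : ℤ) + h)) := by
    intro n _
    have hr := rr_nonneg P a ((n : ℤ) + h)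
    unfold ib
    by_cases hb : B n
    · rw [if_pos hb, one_mul]
      apply mul_le_mul_of_nonneg_right _ hr
      have h2 := abs_sub (g (n + h)) (g n)
      have h3 := hD.bd (n + h)
      have h4 := hD.bd n
      linarith
    · rw [if_neg hb, hgB n hb, sub_self, abs_zero]
      simp
  refine (sum_le_sum h1).trans ?_
  rw [← mul_sum, ← mul_sum]
  apply mul_le_mul_of_nonneg_left _ (by norm_num)
  have e : ∑ n ∈ range M, ib B n * rr P a ((n : ℤ) + h) =
      ∑ q ∈ P, ∑ n ∈ range M, ib B n * ci q (a q - h) n := by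
    unfold rr
    simp only [mul_sum]
    rw [sum_comm]
    simp only [ci_add]
  rw [e]
  apply sum_le_sum
  intro q hq
  have hq1 := hP q hq
  have hqr : (0 : ℝ) < q := by exact_mod_cast (by omega : 0 < q)
  have hMNr : (M : ℝ) ≤ N := by exact_mod_cast hMN
  have hM0 : (0 : ℝ) ≤ M := Nat.cast_nonneg _
  have h2J : (0 : ℝ) < 2 ^ J := by positivity
  have h2t : (0 : ℝ) < 2 ^ t := by positivity
  split_ifs with hJ
  · have h2 : ∑ n ∈ range M, ib B n * ci q (a q - h) n ≤ ∑ n ∈ range M, ci q (a q - h) n := by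
      apply sum_le_sum
      intro n _
      calc ib B n * ci q (a q - h) n ≤ 1 * ci q (a q - h) n :=
            mul_le_mul_of_nonneg_right (ib_le_one _ _) (ci_nonneg _ _ _)
        _ = _ := one_mul _
    have h3 := ci_count_le hq1 (a q - h) M
    have h4 : (M : ℝ) / q ≤ N / q := by gcongr
    have h5 := hD.eps
    have h6 : 0 ≤ ε * (2 ^ J * (N : ℝ) / q + 2 ^ t) := by positivity
    linarith
  · have h2 := mass_gen hq1 hJ hper hD.eps hB (a q - h) M
    rw [add_zero]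
    refine h2.trans ?_
    apply mul_le_mul_of_nonneg_left _ hD.eps
    have h4 : 2 ^ J * (M : ℝ) / q ≤ 2 ^ J * N / q := by gcongr
    linarith

/-- **the inequality for a family of moduli** -/
theorem family {g : ℕ → ℝ} {H t : ℕ} {ε : ℝ} (hD : Data g H t ε) (hH : 1 ≤ H) (J : ℕ) {P : Finset ℕ}
    (hP : ∀ q ∈ P, 1 ≤ q) (a : ℕ → ℤ) {M N : ℕ} (hMN : M ≤ N) {G : ℝ} (hG : GG P ≤ G) :
    |∑ n ∈ range M, g n * rr P a n - mm P * ∑ n ∈ range M, g n| ≤
      ∑ q ∈ P, cost H t J ε N q + N * √(G / H) := by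
  have hHr : (1 : ℝ) ≤ H := by exact_mod_cast hH
  have hH0 : (0 : ℝ) < H := by linarith
  have hMNr : (M : ℝ) ≤ N := by exact_mod_cast hMN
  have hM0 : (0 : ℝ) ≤ M := Nat.cast_nonneg _
  have hN0 : (0 : ℝ) ≤ N := Nat.cast_nonneg _
  have hG0 : 0 ≤ G := (GG_nonneg P).trans hG
  set X := ∑ n ∈ range M, g n * rr P a n with hX
  set S := ∑ n ∈ range M, g n with hS
  set Y := ∑ n ∈ range M, g n * RR P a H n with hY
  set c1 : ℝ := ∑ q ∈ P, (2 * ((H : ℝ) / q + 1) + 2 * (ε * (2 ^ J * (N : ℝ) / q + 2 ^ t) +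
    (if 2 ^ J ∣ q then (N : ℝ) / q + 1 else 0))) with hc1
  -- the shifts
  have h1 : |H * X - Y| ≤ H * c1 := by
    have e : H * X - Y = ∑ h ∈ range H, (X - ∑ n ∈ range M, g n * rr P a ((n : ℤ) + h)) := by
      rw [sum_sub_distrib, sum_const, card_range, nsmul_eq_mul]
      congr 1
      rw [hY]
      unfold RR
      simp only [mul_sum]
      rw [sum_comm]
    rw [e]
    refine (abs_sum_le_sum_abs _ _).trans ?_
    have h2 : ∀ h ∈ range H, |X - ∑ n ∈ range M, g n * rr P a ((n : ℤ) + h)| ≤ c1 := by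
      intro h hh
      rw [mem_range] at hh
      have h3 := shift_bound hP a hD.bd M h
      have h4 := variation hD J hP a hMN hh
      have h5 : ∑ q ∈ P, 2 * ((h : ℝ) / q + 1) ≤ ∑ q ∈ P, 2 * ((H : ℝ) / q + 1) := by
        apply sum_le_sum
        intro q _
        have : (h : ℝ) ≤ H := by exact_mod_cast hh.le
        gcongr
      rw [hc1, sum_add_distrib]
      linarith
    calc _ ≤ ∑ h ∈ range H, c1 := sum_le_sum h2
      _ = _ := by rw [sum_const, card_range, nsmul_eq_mul]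
  -- the variance
  have h2 : |Y - H * mm P * S| ≤ H * (N * √(G / H) + ∑ q ∈ P, 2 * √N) := by
    have e : Y - H * mm P * S = ∑ n ∈ range M, g n * (RR P a H n - H * mm P) := by
      rw [hY, hS, mul_sum, ← sum_sub_distrib]
      apply sum_congr rfl
      intro n _
      ring
    have h3 : |Y - H * mm P * S| ≤ ∑ n ∈ range M, |RR P a H n - H * mm P| := by
      rw [e]
      refine (abs_sum_le_sum_abs _ _).trans ?_
      apply sum_le_sum
      intro n _
      rw [abs_mul]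
      calc |g n| * |RR P a H n - H * mm P| ≤ 1 * |RR P a H n - H * mm P| :=
            mul_le_mul_of_nonneg_right (hD.bd n) (abs_nonneg _)
        _ = _ := one_mul _
    have h4 : (∑ n ∈ range M, |RR P a H n - H * mm P|) ^ 2 ≤
        M * ∑ n ∈ range M, (RR P a H n - H * mm P) ^ 2 := by
      have := sq_sum_le_card_mul_sum_sq (s := range M) (f := fun n : ℕ => |RR P a H n - H * mm P|)
      rw [card_range] at this
      simp only [sq_abs] at this
      exact this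
    have h5 := RR_var P a hP hH M
    have hW : mm P ≤ #P := by
      unfold mm
      calc ∑ q ∈ P, 1 / (q : ℝ) ≤ ∑ q ∈ P, (1 : ℝ) := by
            apply sum_le_sum
            intro q hq
            have : (1 : ℝ) ≤ q := by exact_mod_cast hP q hq
            rw [div_le_one (by linarith)]
            exact this
        _ = _ := by rw [sum_const, nsmul_eq_mul, mul_one]
    have hm0 := mm_nonneg P
    have hc0 : (0 : ℝ) ≤ #P := Nat.cast_nonneg _
    have h6 : ∑ n ∈ range M, (RR P a H n - H * mm P) ^ 2 ≤ H * N * G + H ^ 2 * (4 * (#P : ℝ) ^ 2) := by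
      refine h5.trans ?_
      have h7 : (H : ℝ) * M * GG P ≤ H * N * G := by
        have hGP := GG_nonneg P
        gcongr
      have h8 : 2 * (#P : ℝ) ^ 2 + 2 * mm P * #P ≤ 4 * (#P : ℝ) ^ 2 := by nlinarith
      have h9 : (H : ℝ) ^ 2 * (2 * (#P : ℝ) ^ 2 + 2 * mm P * #P) ≤ H ^ 2 * (4 * (#P : ℝ) ^ 2) :=
        mul_le_mul_of_nonneg_left h8 (by positivity)
      linarith
    have h7 : (∑ n ∈ range M, |RR P a H n - H * mm P|) ^ 2 ≤ (H * (N * √(G / H) + ∑ q ∈ P, 2 * √N)) ^ 2 := by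
      have hs : √(G / H) ^ 2 = G / H := Real.sq_sqrt (by positivity)
      have hsN : √(N : ℝ) ^ 2 = N := Real.sq_sqrt hN0
      rw [sum_const, nsmul_eq_mul]
      calc _ ≤ (M : ℝ) * ∑ n ∈ range M, (RR P a H n - H * mm P) ^ 2 := h4
        _ ≤ N * (H * N * G + H ^ 2 * (4 * (#P : ℝ) ^ 2)) :=
            mul_le_mul hMNr h6 (sum_nonneg fun n _ => sq_nonneg _) hN0
        _ = H ^ 2 * (N ^ 2 * (G / H) + 4 * (#P : ℝ) ^ 2 * N) := by field_simp
        _ = H ^ 2 * (N ^ 2 * √(G / H) ^ 2 + 4 * (#P : ℝ) ^ 2 * √(N : ℝ) ^ 2) := by rw [hs, hsN]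
        _ ≤ _ := by
            have hp : 0 ≤ (N : ℝ) * √(G / H) * ((#P : ℝ) * (2 * √N)) := by positivity
            have e : (H * (N * √(G / H) + #P * (2 * √N))) ^ 2 =
              (H : ℝ) ^ 2 * (N ^ 2 * √(G / H) ^ 2 + 4 * (#P : ℝ) ^ 2 * √(N : ℝ) ^ 2) +
                2 * H ^ 2 * ((N : ℝ) * √(G / H) * ((#P : ℝ) * (2 * √N))) := by ring
            rw [e]
            have : 0 ≤ 2 * (H : ℝ) ^ 2 * ((N : ℝ) * √(G / H) * ((#P : ℝ) * (2 * √N))) := by positivity
            linarith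
    refine h3.trans ?_
    refine abs_le_of_sq_le_sq' h7 ?_ |>.2
    have : 0 ≤ ∑ q ∈ P, 2 * √(N : ℝ) := sum_nonneg fun _ _ => by positivity
    positivity
  have e3 : H * (X - mm P * S) = (H * X - Y) + (Y - H * mm P * S) := by ring
  have h4 : |(H : ℝ) * (X - mm P * S)| ≤ H * (c1 + (N * √(G / H) + ∑ q ∈ P, 2 * √N)) := by
    rw [e3]
    refine (abs_add_le _ _).trans ?_
    linarith
  rw [abs_mul, abs_of_pos hH0] at h4
  have h5 := le_of_mul_le_mul_left h4 hH0
  refine h5.trans (le_of_eq ?_)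
  unfold cost
  rw [hc1]
  simp only [sum_add_distrib]
  ring

end Pool.Agent.T6.H47.BV
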