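import Pool.Agent.T6.H47.BV3

set_option autoImplicit false

/-! The abstract inequality for all moduli in a dyadic interval and arbitrary cut-offs. -/

namespace Pool.Agent.T6.H47.BV

open Finset

/-- the discrepancy in a class -/
noncomputable def disc (g : ℕ → ℝ) (M : ℕ) (a : ℤ) (q : ℕ) : ℝ :=
  ∑ n ∈ range M, g n * ci q a n - (1 / (q : ℝ)) * ∑ n ∈ range M, g n

theorem disc_cut {g : ℕ → ℝ} (hg : ∀ n, |g n| ≤ 1) {q : ℕ} (hq : 1 ≤ q) (a : ℤ) {z y w : ℕ} (h1 : z ≤ y)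
    (h2 : y ≤ z + w) : |disc g y a q| ≤ |disc g z a q| + (2 * w * (1 / (q : ℝ)) + 1) := by
  obtain ⟨j, rfl⟩ : ∃ j, y = z + j := ⟨y - z, by omega⟩
  have hj : (j : ℝ) ≤ w := by exact_mod_cast (by omega : j ≤ w)
  have hqr : (1 : ℝ) ≤ q := by exact_mod_cast hq
  have e : disc g (z + j) a q = disc g z a q + (∑ n ∈ range j, g (z + n) * ci q a ((z + n : ℕ) : ℤ) -
      (1 / (q : ℝ)) * ∑ n ∈ range j, g (z + n)) := by
    unfold disc
    rw [sum_range_add, sum_range_add]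
    ring
  have h3 : |∑ n ∈ range j, g (z + n) * ci q a ((z + n : ℕ) : ℤ)| ≤ (j : ℝ) / q + 1 := by
    calc _ ≤ ∑ n ∈ range j, |g (z + n) * ci q a ((z + n : ℕ) : ℤ)| := abs_sum_le_sum_abs _ _
      _ ≤ ∑ n ∈ range j, ci q a ((n : ℤ) + z) := by
          apply sum_le_sum
          intro n _
          have e1 : ((z + n : ℕ) : ℤ) = (n : ℤ) + z := by push_cast; ring
          rw [abs_mul, e1, abs_of_nonneg (ci_nonneg _ _ _)]
          calc _ ≤ 1 * ci q a ((n : ℤ) + z) := mul_le_mul_of_nonneg_right (hg _) (ci_nonneg _ _ _)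
            _ = _ := one_mul _
      _ ≤ _ := sum_ci_shift_le hq _ _ _
  have h4 : |∑ n ∈ range j, g (z + n)| ≤ j := by
    calc _ ≤ ∑ n ∈ range j, |g (z + n)| := abs_sum_le_sum_abs _ _
      _ ≤ ∑ n ∈ range j, (1 : ℝ) := sum_le_sum fun n _ => hg _
      _ = _ := by rw [sum_const, card_range, nsmul_eq_mul, mul_one]
  have h5 : |(1 / (q : ℝ)) * ∑ n ∈ range j, g (z + n)| ≤ (1 / (q : ℝ)) * w := by
    rw [abs_mul, abs_of_nonneg (by positivity : (0 : ℝ) ≤ 1 / q)]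
    exact mul_le_mul_of_nonneg_left (h4.trans hj) (by positivity)
  have h6 : (j : ℝ) / q ≤ (1 / (q : ℝ)) * w := by
    rw [one_div_mul_eq_div]
    gcongr
  rw [e]
  have h7 := abs_add_le (disc g z a q) (∑ n ∈ range j, g (z + n) * ci q a ((z + n : ℕ) : ℤ) -
      (1 / (q : ℝ)) * ∑ n ∈ range j, g (z + n))
  have h8 := abs_sub (∑ n ∈ range j, g (z + n) * ci q a ((z + n : ℕ) : ℤ))
      ((1 / (q : ℝ)) * ∑ n ∈ range j, g (z + n))
  linarith

theorem family_disc {g : ℕ → ℝ} {H t : ℕ} {ε : ℝ} (hD : Data g H t ε) (hH : 1 ≤ H) (J : ℕ) {Q : ℕ}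
    (hQ : 1 ≤ Q) {P : Finset ℕ} (hP : P ⊆ Ioc Q (2 * Q)) (a : ℕ → ℤ) {M N : ℕ} (hMN : P.Nonempty → M ≤ N) :
    |∑ q ∈ P, disc g M (a q) q| ≤
      ∑ q ∈ P, cost H t J ε N q + N * √(4 * (1 + Real.log (2 * Q)) / H) := by
  rcases P.eq_empty_or_nonempty with rfl | hne
  · simp only [sum_empty, abs_zero]; positivity
  have hP1 : ∀ q ∈ P, 1 ≤ q := by
    intro q hq
    have := hP hq
    rw [mem_Ioc] at this
    omega
  have h := family hD hH J hP1 a (hMN hne) (GG_le hQ hP)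
  refine le_trans (le_of_eq ?_) h
  congr 1
  unfold disc rr mm
  rw [sum_sub_distrib, ← sum_mul]
  congr 1
  simp only [mul_sum]
  rw [sum_comm]

theorem total {g : ℕ → ℝ} {H t : ℕ} {ε : ℝ} (hD : Data g H t ε) (hH : 1 ≤ H) (J : ℕ) {Q N K w : ℕ}
    (hQ : 1 ≤ Q) (hw : 1 ≤ w) (hK : N < K * w) (a : ℕ → ℤ) (y : ℕ → ℕ) (hy : ∀ q, y q ≤ N) :
    ∑ q ∈ Ioc Q (2 * Q), |disc g (y q) (a q) q| ≤ ∑ q ∈ Ioc Q (2 * Q), (2 * w * (1 / (q : ℝ)) + 1) +
      ∑ q ∈ Ioc Q (2 * Q), cost H t J ε N q + 2 * K * (N * √(4 * (1 + Real.log (2 * Q)) / H)) := by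
  set I := Ioc Q (2 * Q) with hI
  set E := N * √(4 * (1 + Real.log (2 * Q)) / H) with hE
  have hI1 : ∀ q ∈ I, 1 ≤ q := by
    intro q hq
    rw [hI, mem_Ioc] at hq
    omega
  set D : ℕ → ℝ := fun q => disc g (w * (y q / w)) (a q) q with hDd
  have h1 : ∑ q ∈ I, |disc g (y q) (a q) q| ≤ ∑ q ∈ I, |D q| + ∑ q ∈ I, (2 * w * (1 / (q : ℝ)) + 1) := by
    rw [← sum_add_distrib]
    apply sum_le_sum
    intro q hq
    apply disc_cut hD.bd (hI1 q hq)
    · exact Nat.mul_div_le _ _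
    · have := Nat.div_add_mod (y q) w
      have := Nat.mod_lt (y q) (by omega : 0 < w)
      omega
  have h2 : ∑ q ∈ I, |D q| ≤ ∑ q ∈ I, cost H t J ε N q + 2 * K * E := by
    have hmaps : ∀ q ∈ I, y q / w ∈ range K := by
      intro q _
      rw [mem_range]
      rw [Nat.div_lt_iff_lt_mul (by omega)]
      exact lt_of_le_of_lt (hy q) hK
    rw [← sum_fiberwise_of_maps_to hmaps (fun q => |D q|), ← sum_fiberwise_of_maps_to hmaps (fun q => cost H t J ε N q)]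
    have h3 : ∀ k ∈ range K, ∑ q ∈ I with y q / w = k, |D q| ≤ ∑ q ∈ I with y q / w = k, cost H t J ε N q + 2 * E := by
      intro k _
      set Ik := I.filter (fun q => y q / w = k) with hIk
      set P1 := Ik.filter (fun q => 0 ≤ D q) with hP1
      set P2 := Ik.filter (fun q => ¬ 0 ≤ D q) with hP2
      have hsub : Ik ⊆ I := filter_subset _ _
      have hs1 : P1 ⊆ Ik := filter_subset _ _
      have hs2 : P2 ⊆ Ik := filter_subset _ _
      have key : ∀ P : Finset ℕ, P ⊆ Ik → |∑ q ∈ P, D q| ≤ ∑ q ∈ P, cost H t J ε N q + E := by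
        intro P hP
        have hkP : ∀ q ∈ P, y q / w = k := fun q hq => (mem_filter.1 (hP hq)).2
        have e : ∑ q ∈ P, D q = ∑ q ∈ P, disc g (w * k) (a q) q := by
          apply sum_congr rfl
          intro q hq
          rw [hDd]
          simp only
          rw [hkP q hq]
        rw [e]
        apply family_disc hD hH J hQ (hP.trans hsub) a
        rintro ⟨q, hq⟩
        rw [← hkP q hq]
        exact (Nat.mul_div_le _ _).trans (hy q)
      have k1 := key P1 hs1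
      have k2 := key P2 hs2
      have e1 : ∑ q ∈ Ik, |D q| = ∑ q ∈ P1, D q - ∑ q ∈ P2, D q := by
        rw [← sum_filter_add_sum_filter_not Ik (fun q => 0 ≤ D q), sub_eq_add_neg, ← sum_neg_distrib]
        congr 1
        · apply sum_congr rfl
          intro q hq
          exact abs_of_nonneg (mem_filter.1 hq).2
        · apply sum_congr rfl
          intro q hq
          exact abs_of_neg (not_le.1 (mem_filter.1 hq).2)
      have e2 : ∑ q ∈ Ik, cost H t J ε N q = ∑ q ∈ P1, cost H t J ε N q + ∑ q ∈ P2, cost H t J ε N q :=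
        (sum_filter_add_sum_filter_not Ik _ _).symm
      rw [e1, e2]
      have a1 := (abs_le.1 k1).2
      have a2 := (abs_le.1 k2).1
      linarith
    calc _ ≤ ∑ k ∈ range K, (∑ q ∈ I with y q / w = k, cost H t J ε N q + 2 * E) := sum_le_sum h3
      _ = _ := by
          rw [sum_add_distrib, sum_const, card_range, nsmul_eq_mul]
          ring
  linarith

theorem sum_inv_le_one {Q : ℕ} (hQ : 1 ≤ Q) : ∑ q ∈ Ioc Q (2 * Q), 1 / (q : ℝ) ≤ 1 := by
  have hQr : (0 : ℝ) < Q := by exact_mod_cast hQ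
  calc ∑ q ∈ Ioc Q (2 * Q), 1 / (q : ℝ) ≤ ∑ q ∈ Ioc Q (2 * Q), 1 / (Q : ℝ) := by
        apply sum_le_sum
        intro q hq
        rw [mem_Ioc] at hq
        have : (Q : ℝ) ≤ q := by exact_mod_cast hq.1.le
        gcongr
    _ = 1 := by
        rw [sum_const, Nat.card_Ioc, nsmul_eq_mul, show 2 * Q - Q = Q by omega]
        field_simp

theorem sum_cost {H t J : ℕ} {ε : ℝ} (hε : 0 ≤ ε) {N Q : ℕ} (hQ : 1 ≤ Q) :
    ∑ q ∈ Ioc Q (2 * Q), cost H t J ε N q ≤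
      2 * (H + Q) + 2 * (ε * (2 ^ J * N + Q * 2 ^ t) + 2 * (N + Q) / 2 ^ J) + 2 * (Q * √N) := by
  have hQr : (0 : ℝ) < Q := by exact_mod_cast hQ
  have h2J : (0 : ℝ) < 2 ^ J := by positivity
  have hc : (#(Ioc Q (2 * Q)) : ℝ) = Q := by
    rw [Nat.card_Ioc, show 2 * Q - Q = Q by omega]
  have hN0 : (0 : ℝ) ≤ N := Nat.cast_nonneg _
  have h1 := sum_inv_le_one hQ
  unfold cost
  have e : ∀ q ∈ Ioc Q (2 * Q), 2 * ((H : ℝ) / q + 1) + 2 * (ε * (2 ^ J * (N : ℝ) / q + 2 ^ t) +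
      (if 2 ^ J ∣ q then (N : ℝ) / q + 1 else 0)) + 2 * √N =
      (2 * H + 2 * ε * 2 ^ J * N) * (1 / (q : ℝ)) + (2 + 2 * ε * 2 ^ t + 2 * √N) +
      2 * (if 2 ^ J ∣ q then (N : ℝ) / q + 1 else 0) := by
    intro q _
    ring
  rw [sum_congr rfl e, sum_add_distrib, sum_add_distrib, ← mul_sum, ← mul_sum, sum_const, nsmul_eq_mul, hc]
  have h2 : (2 * H + 2 * ε * 2 ^ J * N) * ∑ q ∈ Ioc Q (2 * Q), 1 / (q : ℝ) ≤ (2 * H + 2 * ε * 2 ^ J * N) * 1 :=
    mul_le_mul_of_nonneg_left h1 (by positivity)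
  have h3 : ∑ q ∈ Ioc Q (2 * Q), (if 2 ^ J ∣ q then (N : ℝ) / q + 1 else 0) ≤ 2 * (N + Q) / 2 ^ J := by
    rw [← sum_filter]
    have h4 := card_mult (d := 2 ^ J) (Nat.one_le_two_pow) (Q := Q) (P := Ioc Q (2 * Q)) (subset_refl _)
    push_cast at h4
    calc ∑ q ∈ Ioc Q (2 * Q) with 2 ^ J ∣ q, ((N : ℝ) / q + 1) ≤
          ∑ q ∈ Ioc Q (2 * Q) with 2 ^ J ∣ q, ((N : ℝ) / Q + 1) := by
          apply sum_le_sum
          intro q hq
          rw [mem_filter, mem_Ioc] at hq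
          have : (Q : ℝ) ≤ q := by exact_mod_cast hq.1.1.le
          gcongr
      _ = (#((Ioc Q (2 * Q)).filter (fun q => 2 ^ J ∣ q)) : ℝ) * ((N : ℝ) / Q + 1) := by
          rw [sum_const, nsmul_eq_mul]
      _ ≤ (2 * Q / 2 ^ J) * ((N : ℝ) / Q + 1) := mul_le_mul_of_nonneg_right h4 (by positivity)
      _ = _ := by field_simp
  linarith

end Pool.Agent.T6.H47.BV
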