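import Pool.Agent.T6.H47.BV4
import Pool.Agent.H499R2.CO.R4

set_option autoImplicit false

/-! Synchronous functions: the theorem of Bombieri-Vinogradov type. -/

namespace Pool.Agent.T6.H47.BV

open Finset Pool.Agent.H499R2.CO

/-- the same value at any two integers with trajectories that meet at the same time -/
def Sync (F : ℤ → ℝ) : Prop := ∀ (j : ℕ) (x y : ℤ), (Tz 1)^[j] x = (Tz 1)^[j] y → F x = F y

/-- the proportion of the exceptional classes -/
noncomputable def eps (C : ℝ) (N H : ℕ) : ℝ :=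
  C * √ ((1 + Real.log (1 + H)) * (Real.log (Real.log N) / Real.log N))

theorem data_sync : ∃ C : ℝ, 0 < C ∧ ∀ N : ℕ, 16 ≤ N → ∀ s : ℤ, (s = 1 ∨ s = -1) → ∀ F : ℤ → ℝ,
    (∀ x, |F x| ≤ 1) → Sync F → ∀ H : ℕ,
    Data (fun n : ℕ => F (s * n)) H (Nat.log 2 N / 4) (eps C N H) := by
  classical
  obtain ⟨C, hC, h⟩ := q_N
  refine ⟨C, hC, fun N hN s hs F hF hS H => ?_⟩
  have hsodd : s % 2 = 1 := by rcases hs with rfl | rfl <;> norm_num
  have hss : ∀ x : ℤ, s * (s * x) = x := by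
    intro x; rcases hs with rfl | rfl <;> ring
  have hNr : (0 : ℝ) < N := by exact_mod_cast (by omega : 0 < N)
  set t := Nat.log 2 N / 4 with ht
  refine ⟨fun n => hF _, by unfold eps; positivity, fun j hj => ?_⟩
  refine ⟨fun x => surv s t (0, s * j) x, fun x m => surv_periodic hsodd t _ x m, ?_, ?_⟩
  · have h1 := count_surv hsodd t (0, s * (j : ℤ))
    have e : ∑ x ∈ range (2 ^ t), ib (fun x => surv s t (0, s * j) x) x = 2 ^ t * q step (0, 0) t (0, s * (j : ℤ)) := by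
      rw [← h1]
      apply sum_congr rfl
      intro x _
      unfold ib
      by_cases hb : surv s t (0, s * j) (x : ℤ)
      · rw [if_pos hb]
      · rw [if_neg hb]
    rw [e]
    apply mul_le_mul_of_nonneg_left _ (by positivity)
    have h2 := h N hN 0 (s * j) H (by
      rw [abs_mul]
      have : |s| = 1 := by rcases hs with rfl | rfl <;> norm_num
      rw [this, one_mul, abs_of_nonneg (by positivity)]
      exact_mod_cast hj.le)
    have hq0 := q_nonneg step (0, 0) t (0, s * (j : ℤ))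
    have e2 : (1 + ((0 : ℕ) : ℝ) ^ 2 + Real.log (1 + H)) = 1 + Real.log (1 + H) := by norm_num
    rw [e2] at h2
    have h3 : (N : ℝ) * q step (0, 0) t (0, s * (j : ℤ)) ≤ eps C N H * N := by
      refine le_trans ?_ h2
      apply mul_le_mul_of_nonneg_right _ hq0
      have : (0 : ℝ) < 2 ^ t := by positivity
      linarith
    rw [mul_comm] at h3
    exact le_of_mul_le_mul_right h3 hNr
  · intro n hn
    obtain ⟨k, hk, hh⟩ := coal hsodd t 0 (s * j) n hn
    have h6 := congrArg (fun z => s * z) hh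
    rw [Tz_sign_iter hs, Tz_sign_iter hs] at h6
    have h7 := hS k _ _ h6
    have e : (3 : ℤ) ^ 0 * (n : ℤ) + s * (s * j) = ((n + j : ℕ) : ℤ) := by
      rw [hss]; push_cast; ring
    rw [e] at h7
    exact h7.symm

theorem trivial_bound {g : ℕ → ℝ} (hg : ∀ n, |g n| ≤ 1) {Q N : ℕ} (hQ : 1 ≤ Q) (a : ℕ → ℤ) (y : ℕ → ℕ)
    (hy : ∀ q, y q ≤ N) : ∑ q ∈ Ioc Q (2 * Q), |disc g (y q) (a q) q| ≤ 2 * N + Q := by
  have h1 : ∀ q ∈ Ioc Q (2 * Q), |disc g (y q) (a q) q| ≤ 2 * N * (1 / (q : ℝ)) + 1 := by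
    intro q hq
    rw [mem_Ioc] at hq
    have h2 := disc_cut hg (show 1 ≤ q by omega) (a q) (z := 0) (y := y q) (w := N) (Nat.zero_le _)
      (by rw [zero_add]; exact hy q)
    have h3 : disc g 0 (a q) q = 0 := by unfold disc; simp
    rw [h3, abs_zero, zero_add] at h2
    exact h2
  refine (sum_le_sum h1).trans ?_
  rw [sum_add_distrib, ← mul_sum, sum_const, Nat.card_Ioc, show 2 * Q - Q = Q by omega, nsmul_eq_mul, mul_one]
  have h4 := sum_inv_le_one hQ
  have : (0 : ℝ) ≤ 2 * N := by positivity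
  nlinarith

theorem log_pow_six {N : ℕ} (hN : 1 ≤ N) : Real.log N ^ 6 ≤ 46656 * N := by
  have hNr : (1 : ℝ) ≤ N := by exact_mod_cast hN
  have h1 := Real.log_le_rpow_div (x := N) (by linarith) (ε := 1 / 6) (by norm_num)
  have h2 : Real.log N ≤ 6 * (N : ℝ) ^ (1 / 6 : ℝ) := by
    refine h1.trans (le_of_eq ?_)
    ring
  have h3 : 0 ≤ Real.log N := Real.log_nonneg hNr
  calc Real.log N ^ 6 ≤ (6 * (N : ℝ) ^ (1 / 6 : ℝ)) ^ 6 := pow_le_pow_left₀ h3 h2 6
    _ = 46656 * (((N : ℝ) ^ (1 / 6 : ℝ)) ^ (6 : ℕ)) := by ring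
    _ = 46656 * N := by
        rw [← Real.rpow_natCast, ← Real.rpow_mul (by linarith)]
        norm_num

/-- the parameters -/
theorem params {N : ℕ} (hN : 16 ≤ N) {C : ℝ} (hC : 0 < C) {L : ℝ} (hL : L = Real.log N) {H : ℕ}
    (hH : (H : ℝ) ≤ L ^ 5 + 1) : 1 ≤ L ∧ eps C N H ≤ 24 * C / L ^ (2 / 5 : ℝ) := by
  have hNr : (16 : ℝ) ≤ N := by exact_mod_cast hN
  have l2 := Real.log_two_gt_d9
  have hL2 : 2.7 ≤ L := by
    have := Real.log_le_log (by norm_num) hNr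
    rw [show (16 : ℝ) = 2 ^ 4 by norm_num, Real.log_pow] at this
    push_cast at this
    rw [hL]
    linarith
  have hL1 : 1 ≤ L := by linarith
  have hL0 : 0 < L := by linarith
  refine ⟨hL1, ?_⟩
  have hlL : 0 ≤ Real.log L := Real.log_nonneg hL1
  set x := L ^ (1 / 10 : ℝ) with hx
  have hx1 : 1 ≤ x := Real.one_le_rpow hL1 (by norm_num)
  have h1 : Real.log L ≤ 10 * x := by
    have := Real.log_le_rpow_div (x := L) hL0.le (ε := 1 / 10) (by norm_num)
    refine this.trans (le_of_eq ?_)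
    rw [hx]; ring
  have hL5 : 1 ≤ L ^ 5 := one_le_pow₀ hL1
  have h2 : Real.log (1 + H) ≤ 2 + 5 * Real.log L := by
    have h3 : (1 + (H : ℝ)) ≤ 3 * L ^ 5 := by linarith
    have h4 := Real.log_le_log (by positivity) h3
    rw [Real.log_mul (by norm_num) (by positivity), Real.log_pow] at h4
    have h5 : Real.log 3 ≤ 2 := by
      rw [Real.log_le_iff_le_exp (by norm_num)]
      have := Real.add_one_le_exp (2 : ℝ)
      linarith
    push_cast at h4
    linarith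
  have h3 : 1 + Real.log (1 + (H : ℝ)) ≤ 53 * x := by linarith
  have h4 : (1 + Real.log (1 + (H : ℝ))) * (Real.log L / L) ≤ 24 ^ 2 * (x ^ 2 / L) := by
    rw [mul_div_assoc', mul_div_assoc']
    apply div_le_div_of_nonneg_right _ hL0.le
    have h5 : 0 ≤ Real.log (1 + (H : ℝ)) := Real.log_nonneg (by
      have : (0 : ℝ) ≤ H := Nat.cast_nonneg _
      linarith)
    calc (1 + Real.log (1 + (H : ℝ))) * Real.log L ≤ (53 * x) * (10 * x) :=
          mul_le_mul h3 h1 hlL (by positivity)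
      _ ≤ _ := by nlinarith
  unfold eps
  rw [← hL]
  have h5 : √ ((1 + Real.log (1 + (H : ℝ))) * (Real.log L / L)) ≤ 24 / L ^ (2 / 5 : ℝ) := by
    rw [Real.sqrt_le_left (by positivity)]
    refine h4.trans (le_of_eq ?_)
    rw [div_pow, ← Real.rpow_natCast (L ^ (2 / 5 : ℝ)), ← Real.rpow_mul hL0.le]
    have e1 : x ^ 2 = L ^ (1 / 5 : ℝ) := by
      rw [hx, ← Real.rpow_natCast, ← Real.rpow_mul hL0.le]; norm_num
    have e2 : L = L ^ (1 / 5 : ℝ) * L ^ (2 / 5 * ((2 : ℕ) : ℝ) : ℝ) := by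
      rw [← Real.rpow_add hL0]
      norm_num
    rw [e1]
    nth_rewrite 2 [e2]
    have h6 : 0 < L ^ (1 / 5 : ℝ) := by positivity
    have h7 : 0 < L ^ (2 / 5 * ((2 : ℕ) : ℝ) : ℝ) := by positivity
    field_simp
  calc _ ≤ C * (24 / L ^ (2 / 5 : ℝ)) := mul_le_mul_of_nonneg_left h5 hC.le
    _ = _ := by ring

theorem aux1 {L N : ℝ} (hL : 0 < L) : 2 * (2 * L) * (N * (4 / L ^ 2)) = 16 * (N / L) := by
  field_simp
  ring

theorem aux2 {C₁ x N : ℝ} (hx : 0 < x) : (24 * C₁ / x ^ 2) * (4 * x * N) = 96 * C₁ * (N / x) := by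
  field_simp
  ring

theorem aux3 {L : ℝ} (hL : 0 < L) : (4 : ℝ) ^ 2 / (L ^ 2) ^ 2 * L ^ 5 = 16 * L := by
  field_simp
  norm_num

/-- **Bombieri-Vinogradov for synchronous functions** -/
theorem bv_sync : ∃ C : ℝ, 0 < C ∧ ∀ s : ℤ, (s = 1 ∨ s = -1) → ∀ F : ℤ → ℝ, (∀ x, |F x| ≤ 1) → Sync F →
    ∀ N : ℕ, 2 ≤ N → ∀ Q : ℕ, 1 ≤ Q → ∀ (a : ℕ → ℤ) (y : ℕ → ℕ), (∀ q, y q ≤ N) →
    ∑ q ∈ Ioc Q (2 * Q), |disc (fun n : ℕ => F (s * n)) (y q) (a q) q| ≤
      C * (N / Real.log N ^ (1 / 5 : ℝ) + Q * √N) := by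
  obtain ⟨C₁, hC₁, hdata⟩ := data_sync
  set C : ℝ := 1000000 + 1000 * C₁ with hC
  have hC0 : 0 < C := by positivity
  refine ⟨C, hC0, fun s hs F hF hS N hN Q hQ a y hy => ?_⟩
  have hNr : (2 : ℝ) ≤ N := by exact_mod_cast hN
  have hQr : (1 : ℝ) ≤ Q := by exact_mod_cast hQ
  have hL0 : 0 < Real.log N := Real.log_pos (by linarith)
  set L := Real.log N with hL
  set x := L ^ (1 / 5 : ℝ) with hx
  have hx0 : 0 < x := Real.rpow_pos_of_pos hL0 _
  have hsN1 : 1 ≤ √(N : ℝ) := Real.one_le_sqrt.2 (by linarith)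
  have hsN2 : √(N : ℝ) ^ 2 = N := Real.sq_sqrt (by linarith)
  have htriv := trivial_bound (g := fun n : ℕ => F (s * n)) (fun n => hF _) hQ a y hy
  have hQs : (Q : ℝ) ≤ Q * √N := le_mul_of_one_le_right (by linarith) hsN1
  have hNx : 0 ≤ (N : ℝ) / x := by positivity
  rcases Nat.lt_or_ge N 16 with hsmall | hbig
  · -- small `N`
    have h1 : L ≤ 16 := by
      have h2 := Real.log_le_sub_one_of_pos (x := N) (by linarith)
      have : (N : ℝ) ≤ 16 := by exact_mod_cast hsmall.le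
      linarith
    have h2 : x ≤ 16 := by
      calc x ≤ (16 : ℝ) ^ (1 / 5 : ℝ) := Real.rpow_le_rpow hL0.le h1 (by norm_num)
        _ ≤ (16 : ℝ) ^ (1 : ℝ) := Real.rpow_le_rpow_of_exponent_le (by norm_num) (by norm_num)
        _ = 16 := Real.rpow_one _
    have h3 : (N : ℝ) ≤ 16 * (N / x) := by
      rw [mul_div_assoc', le_div_iff₀ hx0]
      nlinarith
    nlinarith
  -- large `Q`
  by_cases hQN : √(N : ℝ) < Q
  · have h3 : (N : ℝ) ≤ Q * √N := by nlinarith
    nlinarith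
  push Not at hQN
  have hN1 : 1 ≤ N := by omega
  -- the parameters
  set H : ℕ := ⌈L ^ 5⌉₊ with hH
  have hHge : L ^ 5 ≤ H := Nat.le_ceil _
  have hHle : (H : ℝ) ≤ L ^ 5 + 1 := (Nat.ceil_lt_add_one (by positivity)).le
  obtain ⟨hL1, heps⟩ := params hbig hC₁ hL hHle
  have hx1 : 1 ≤ x := Real.one_le_rpow hL1 (by norm_num)
  have hxL : x ≤ L := by
    calc x ≤ L ^ (1 : ℝ) := Real.rpow_le_rpow_of_exponent_le hL1 (by norm_num)
      _ = L := Real.rpow_one L
  have hH1 : 1 ≤ H := by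
    have : (1 : ℝ) ≤ H := (one_le_pow₀ hL1).trans hHge
    exact_mod_cast this
  set t := Nat.log 2 N / 4 with ht
  set K : ℕ := ⌈L⌉₊ with hK
  have hKge : L ≤ K := Nat.le_ceil _
  have hKle : (K : ℝ) ≤ L + 1 := (Nat.ceil_lt_add_one hL0.le).le
  have hK1 : 1 ≤ K := by
    have : (1 : ℝ) ≤ K := hL1.trans hKge
    exact_mod_cast this
  set w : ℕ := N / K + 1 with hw
  have hKw : N < K * w := by
    rw [hw]
    exact Nat.lt_mul_div_succ N (by omega)
  set J : ℕ := Nat.clog 2 ⌈x⌉₊ with hJ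
  have h2Jge : x ≤ 2 ^ J := by
    have h1 : ⌈x⌉₊ ≤ 2 ^ J := Nat.le_pow_clog (by norm_num) _
    have h2 : ((⌈x⌉₊ : ℕ) : ℝ) ≤ 2 ^ J := by exact_mod_cast h1
    exact (Nat.le_ceil x).trans h2
  have h2Jle : (2 : ℝ) ^ J ≤ 4 * x := by
    rcases Nat.eq_zero_or_pos J with h0 | hpos
    · rw [h0]; norm_num; linarith
    · have h1 : 2 ^ (J - 1) < ⌈x⌉₊ := Nat.pow_pred_clog_lt_self (b := 2) (by norm_num) (by
        by_contra hcon
        push Not at hcon
        rw [hJ, Nat.clog_of_right_le_one hcon] at hpos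
        omega)
      have h2 : (2 : ℝ) ^ (J - 1) ≤ ((⌈x⌉₊ : ℕ) : ℝ) := by exact_mod_cast h1.le
      have h3 : ((⌈x⌉₊ : ℕ) : ℝ) ≤ x + 1 := (Nat.ceil_lt_add_one hx0.le).le
      have h4 : (2 : ℝ) ^ J = 2 * 2 ^ (J - 1) := by
        rw [← pow_succ', Nat.sub_add_cancel hpos]
      rw [h4]
      linarith
  have h2Jpos : (0 : ℝ) < 2 ^ J := by positivity
  set ε := eps C₁ N H with hε
  have hε0 : 0 ≤ ε := by rw [hε]; unfold eps; positivity
  have hεx : ε ≤ 24 * C₁ / x ^ 2 := by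
    refine heps.trans (le_of_eq ?_)
    have : x ^ 2 = L ^ (2 / 5 : ℝ) := by
      rw [hx, ← Real.rpow_natCast, ← Real.rpow_mul hL0.le]; norm_num
    rw [this]
  have hx2 : 1 ≤ x ^ 2 := one_le_pow₀ hx1
  have hε1 : ε ≤ 24 * C₁ := hεx.trans (div_le_self (by positivity) hx2)
  have h2t : (2 : ℝ) ^ t ≤ √N := by
    apply Real.le_sqrt_of_sq_le
    have h1 : (2 ^ t) ^ 2 ≤ N := by
      calc (2 ^ t) ^ 2 = 2 ^ (t * 2) := by rw [← pow_mul]
        _ ≤ 2 ^ (Nat.log 2 N) := Nat.pow_le_pow_right (by norm_num) (by omega)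
        _ ≤ N := Nat.pow_log_le_self 2 (by omega)
    exact_mod_cast h1
  have hmain := total (hdata N hbig s hs F hF hS H) hH1 J hQ (by rw [hw]; exact Nat.le_add_left 1 _) hKw a y hy
  have hcost := sum_cost (H := H) (t := t) (J := J) hε0 (N := N) hQ
  -- the grid
  have hgrid : ∑ q ∈ Ioc Q (2 * Q), (2 * (w : ℝ) * (1 / (q : ℝ)) + 1) ≤ 2 * w + Q := by
    rw [sum_add_distrib, ← mul_sum, sum_const, Nat.card_Ioc, show 2 * Q - Q = Q by omega, nsmul_eq_mul, mul_one]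
    have h4 := sum_inv_le_one hQ
    have : (0 : ℝ) ≤ 2 * w := by positivity
    nlinarith
  have hwle : (w : ℝ) ≤ N / x + 1 := by
    rw [hw]
    push_cast
    have h1 : ((N / K : ℕ) : ℝ) ≤ (N : ℝ) / K := Nat.cast_div_le
    have h2 : (N : ℝ) / K ≤ N / x := by
      apply div_le_div_of_nonneg_left (by linarith) hx0 (hxL.trans hKge)
    linarith
  -- powers of `L`
  have hL6 : L ^ 6 ≤ 46656 * N := log_pow_six hN1
  have hHx : (H : ℝ) ≤ 100000 * (N / x) := by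
    rw [mul_div_assoc', le_div_iff₀ hx0]
    have h1 : (H : ℝ) * x ≤ (L ^ 5 + 1) * L := mul_le_mul hHle hxL hx0.le (by positivity)
    have h2 : 1 ≤ L ^ 5 := one_le_pow₀ hL1
    have h3 : (L ^ 5 + 1) * L ≤ 2 * L ^ 6 := by nlinarith
    linarith
  have h1x : (1 : ℝ) ≤ 100000 * (N / x) := by
    have : (1 : ℝ) ≤ H := by exact_mod_cast hH1
    linarith
  -- the two-adic part
  have hεJ : ε * (2 ^ J * N) ≤ 96 * C₁ * (N / x) := by
    calc ε * (2 ^ J * N) ≤ (24 * C₁ / x ^ 2) * (4 * x * N) := by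
          apply mul_le_mul hεx _ (by positivity) (by positivity)
          exact mul_le_mul_of_nonneg_right h2Jle (by linarith)
      _ = _ := aux2 hx0
  have hεQ : ε * (Q * 2 ^ t) ≤ 24 * C₁ * (Q * √N) := by
    apply mul_le_mul hε1 _ (by positivity) (by positivity)
    exact mul_le_mul_of_nonneg_left h2t (by linarith)
  have hJ2 : 2 * ((N : ℝ) + Q) / 2 ^ J ≤ 2 * (N / x) + 2 * (Q * √N) := by
    have h1 : 2 * ((N : ℝ) + Q) / 2 ^ J ≤ 2 * ((N : ℝ) + Q) / x :=
      div_le_div_of_nonneg_left (by positivity) hx0 h2Jge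
    have h2 : (Q : ℝ) / x ≤ Q := div_le_self (by linarith) hx1
    have h3 : 2 * ((N : ℝ) + Q) / x = 2 * (N / x) + 2 * (Q / x) := by ring
    linarith
  -- the variance
  have hlogQ : 1 + Real.log (2 * Q) ≤ 3 * L := by
    have h1 : 2 * (Q : ℝ) ≤ N * √N := by
      have : 2 * (Q : ℝ) ≤ 2 * √N := by linarith
      nlinarith
    have h1' : 2 * (Q : ℝ) ≤ N ^ 2 := by
      have : √(N : ℝ) ≤ N := by nlinarith
      nlinarith
    have h2 := Real.log_le_log (by positivity) h1'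
    rw [Real.log_pow] at h2
    push_cast at h2
    linarith
  have hvar : 2 * (K : ℝ) * (N * √(4 * (1 + Real.log (2 * Q)) / H)) ≤ 16 * (N / x) := by
    have h1 : √(4 * (1 + Real.log (2 * Q)) / H) ≤ 4 / L ^ 2 := by
      rw [Real.sqrt_le_left (by positivity)]
      have hHpos : (0 : ℝ) < H := by exact_mod_cast hH1
      rw [div_le_iff₀ hHpos, div_pow]
      calc 4 * (1 + Real.log (2 * Q)) ≤ 12 * L := by linarith
        _ ≤ 4 ^ 2 / (L ^ 2) ^ 2 * L ^ 5 := by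
            rw [aux3 hL0]; linarith
        _ ≤ _ := mul_le_mul_of_nonneg_left hHge (by positivity)
    have h2 : (K : ℝ) ≤ 2 * L := by linarith
    calc 2 * (K : ℝ) * (N * √(4 * (1 + Real.log (2 * Q)) / H)) ≤ 2 * (2 * L) * (N * (4 / L ^ 2)) := by
          apply mul_le_mul (by linarith) (mul_le_mul_of_nonneg_left h1 (by linarith)) (by positivity) (by positivity)
      _ = 16 * (N / L) := aux1 hL0
      _ ≤ 16 * (N / x) := by
          have : (N : ℝ) / L ≤ N / x := div_le_div_of_nonneg_left (by linarith) hx0 hxL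
          linarith
  have hC1Q : 0 ≤ C₁ * (Q * √N) := by positivity
  have hC1N : 0 ≤ C₁ * (N / x) := by positivity
  have hQN0 : 0 ≤ Q * √(N : ℝ) := by positivity
  calc _ ≤ _ := hmain
    _ ≤ (2 * w + Q) + (2 * (H + Q) + 2 * (ε * (2 ^ J * N + Q * 2 ^ t) + 2 * (N + Q) / 2 ^ J) + 2 * (Q * √N))
        + 16 * (N / x) := by linarith
    _ ≤ C * (N / x + Q * √N) := by
        rw [hC]
        have e : ε * (2 ^ J * (N : ℝ) + Q * 2 ^ t) = ε * (2 ^ J * N) + ε * (Q * 2 ^ t) := by ring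
        have e2 : (1000000 + 1000 * C₁) * ((N : ℝ) / x + Q * √N) = 1000000 * (N / x) + 1000000 * (Q * √N) +
          1000 * (C₁ * (N / x)) + 1000 * (C₁ * (Q * √N)) := by ring
        rw [e, e2]
        linarith

end Pool.Agent.T6.H47.BV
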