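import Pool.Agent.T6.H47.BV5
import Pool.Agent.TH237.RT.Dens

set_option autoImplicit false

/-! Invariant sets, and sums over all moduli up to a bound. -/

namespace Pool.Agent.T6.H47.BV

open Finset Filter Topology Pool.Agent.H499R2.CO Pool.Agent.H499R2.ND

open Classical in
/-- the indicator function of a set -/
noncomputable def ind (S : Set ℤ) (x : ℤ) : ℝ := if x ∈ S then 1 else 0

theorem ind_nonneg (S : Set ℤ) (x : ℤ) : 0 ≤ ind S x := by unfold ind; split_ifs <;> norm_num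

theorem ind_le_one (S : Set ℤ) (x : ℤ) : ind S x ≤ 1 := by unfold ind; split_ifs <;> norm_num

theorem ind_abs (S : Set ℤ) (x : ℤ) : |ind S x| ≤ 1 := by
  rw [abs_of_nonneg (ind_nonneg S x)]; exact ind_le_one S x

theorem Td_eq_Tz (d : ℤ) : Td d = Tz d := rfl

theorem ind_sync {S : Set ℤ} (h : Inv 1 S) : Sync (ind S) := by
  intro j x y hxy
  have h1 := inv_iter h j x
  have h2 := inv_iter h j y
  rw [Td_eq_Tz] at h1 h2
  rw [hxy] at h1
  have h3 : x ∈ S ↔ y ∈ S := h1.trans h2.symm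
  unfold ind
  by_cases hx : x ∈ S
  · rw [if_pos hx, if_pos (h3.1 hx)]
  · rw [if_neg hx, if_neg (fun hy => hx (h3.2 hy))]

theorem sum_ind_range (s : ℤ) (S : Set ℤ) (y : ℕ) :
    |∑ n ∈ range y, ind S (s * (n : ℕ)) - G {x | s * x ∈ S} y| ≤ 1 := by
  classical
  have e : G {x | s * x ∈ S} y = ∑ n ∈ Ico 1 y, ind S (s * (n : ℕ)) := by
    unfold G
    have h1 : (pos {x | s * x ∈ S} (y : ℝ)).card = ((Ico 1 y).filter (fun n : ℕ => s * (n : ℤ) ∈ S)).card := by
      symm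
      apply card_bij (fun (n : ℕ) _ => (n : ℤ))
      · intro n hn
        rw [mem_filter, mem_Ico] at hn
        rw [mem_pos]
        refine ⟨⟨by exact_mod_cast hn.1.1, by exact_mod_cast hn.1.2⟩, hn.2⟩
      · intro n _ m _ h
        exact_mod_cast h
      · intro x hx
        rw [mem_pos] at hx
        obtain ⟨⟨h1, h2⟩, h3⟩ := hx
        have hx0 : ((x.toNat : ℕ) : ℤ) = x := Int.toNat_of_nonneg (by omega)
        refine ⟨x.toNat, ?_, hx0⟩
        rw [mem_filter, mem_Ico]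
        have h4 : x < (y : ℤ) := by exact_mod_cast h2
        refine ⟨by omega, ?_⟩
        rw [hx0]; exact h3
    rw [h1, card_filter]
    push_cast
    apply sum_congr rfl
    intro n _
    unfold ind
    rfl
  rw [e]
  rcases Nat.eq_zero_or_pos y with rfl | hy
  · simp
  · have h2 : range y = insert 0 (Ico 1 y) := by
      ext n
      rw [mem_insert, mem_range, mem_Ico]
      omega
    rw [h2, sum_insert (by rw [mem_Ico]; omega), add_sub_cancel_right]
    exact ind_abs _ _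

theorem HD_side {s : ℤ} (hs : s = 1 ∨ s = -1) {S : Set ℤ} (h : Inv 1 S) : Inv s {x | s * x ∈ S} := by
  rcases hs with rfl | rfl
  · have : {x : ℤ | (1 : ℤ) * x ∈ S} = S := by ext x; simp
    rw [this]; exact h
  · have h1 := h.neg odd_one
    have : {x : ℤ | (-1 : ℤ) * x ∈ S} = {x | -x ∈ S} := by ext x; simp
    rw [this]; exact h1

theorem dens_range : ∃ C : ℝ, 0 < C ∧ ∀ s : ℤ, (s = 1 ∨ s = -1) → ∀ S : Set ℤ, Inv 1 S →
    ∃ δ : ℝ, 0 ≤ δ ∧ δ ≤ 1 ∧ HD s S δ ∧ ∀ N : ℕ, 2 ≤ N → ∀ y : ℕ, y ≤ N →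
      |∑ n ∈ range y, ind S (s * (n : ℕ)) - δ * y| ≤ C * (N / Real.log N ^ (1 / 30 : ℝ)) := by
  obtain ⟨C₁, hC₁, h₁⟩ := Pool.Agent.TH237.RT.density_rate (d := 1) (by decide) isCoprime_one_left
  obtain ⟨C₂, hC₂, h₂⟩ := Pool.Agent.TH237.RT.density_rate (d := -1) (by decide) (isCoprime_one_left.neg_left)
  set C₀ := C₁ + C₂ with hC₀
  have hC₀0 : 0 < C₀ := by positivity
  have key : ∀ s : ℤ, (s = 1 ∨ s = -1) → ∀ S : Set ℤ, Inv 1 S → ∃ δ : ℝ, 0 ≤ δ ∧ δ ≤ 1 ∧ HD s S δ ∧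
      ∀ X : ℝ, 2 ≤ X → |G {x | s * x ∈ S} X - δ * X| ≤ C₀ * X / (Real.log X) ^ (1 / 30 : ℝ) := by
    intro s hs S hS
    have hside := HD_side hs hS
    have hmono : ∀ (D X g : ℝ), 2 ≤ X → D ≤ C₀ → g ≤ D * X / (Real.log X) ^ (1 / 30 : ℝ) →
        g ≤ C₀ * X / (Real.log X) ^ (1 / 30 : ℝ) := by
      intro D X g hX hD hg
      refine hg.trans ?_
      have : 0 ≤ Real.log X := Real.log_nonneg (by linarith)
      gcongr
    rcases hs with rfl | rfl
    · obtain ⟨δ, h3, h4, h5, h6⟩ := h₁ _ hside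
      exact ⟨δ, h3, h4, h5, fun X hX => hmono C₁ X _ hX (by linarith) (h6 X hX)⟩
    · obtain ⟨δ, h3, h4, h5, h6⟩ := h₂ _ hside
      exact ⟨δ, h3, h4, h5, fun X hX => hmono C₂ X _ hX (by linarith) (h6 X hX)⟩
  refine ⟨2 * C₀ + 60, by positivity, fun s hs S hS => ?_⟩
  obtain ⟨δ, hδ0, hδ1, hHD, hrate⟩ := key s hs S hS
  refine ⟨δ, hδ0, hδ1, hHD, fun N hN y hy => ?_⟩
  have hNr : (2 : ℝ) ≤ N := by exact_mod_cast hN
  have hyr : (y : ℝ) ≤ N := by exact_mod_cast hy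
  have hL0 : 0 < Real.log N := Real.log_pos (by linarith)
  set L := Real.log N with hL
  set x := L ^ (1 / 30 : ℝ) with hx
  have hx0 : 0 < x := Real.rpow_pos_of_pos hL0 _
  have hsN1 : 1 ≤ √(N : ℝ) := Real.one_le_sqrt.2 (by linarith)
  have hsN2 : √(N : ℝ) ^ 2 = N := Real.sq_sqrt (by linarith)
  -- `√N ≤ 30 N / x`
  have hLs : L ≤ 2 * √N := by
    have h1 := Real.log_le_rpow_div (x := N) (by linarith) (ε := 1 / 2) (by norm_num)
    rw [← Real.sqrt_eq_rpow] at h1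
    linarith
  have hxs : x ≤ 2 * √N := by
    rcases le_or_gt 1 L with h1 | h1
    · calc x ≤ L ^ (1 : ℝ) := Real.rpow_le_rpow_of_exponent_le h1 (by norm_num)
        _ = L := Real.rpow_one L
        _ ≤ _ := hLs
    · have : x ≤ 1 := Real.rpow_le_one hL0.le h1.le (by norm_num)
      linarith
  have hsx : √(N : ℝ) ≤ 2 * (N / x) := by
    rw [mul_div_assoc', le_div_iff₀ hx0]
    nlinarith
  have h1 := sum_ind_range s S y
  have h1x : (1 : ℝ) ≤ 2 * (N / x) := hsN1.trans hsx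
  have hNx : 0 ≤ (N : ℝ) / x := by positivity
  rcases lt_or_ge (y : ℝ) (√N + 2) with hsm | hlg
  · have h2 : |∑ n ∈ range y, ind S (s * (n : ℕ)) - δ * y| ≤ y := by
      have a1 : 0 ≤ ∑ n ∈ range y, ind S (s * (n : ℕ)) := sum_nonneg fun n _ => ind_nonneg _ _
      have a2 : ∑ n ∈ range y, ind S (s * (n : ℕ)) ≤ y := by
        calc _ ≤ ∑ n ∈ range y, (1 : ℝ) := sum_le_sum fun n _ => ind_le_one _ _
          _ = _ := by rw [sum_const, card_range, nsmul_eq_mul, mul_one]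
      have a3 : 0 ≤ δ * y := by positivity
      have a4 : δ * y ≤ y := mul_le_of_le_one_left (Nat.cast_nonneg _) hδ1
      rw [abs_le]
      constructor <;> linarith
    nlinarith
  · have hy2 : (2 : ℝ) ≤ y := by linarith
    have hyp : (0 : ℝ) < y := by linarith
    have h2 := hrate y hy2
    have hly : L / 2 ≤ Real.log y := by
      have h3 : (N : ℝ) ≤ (y : ℝ) ^ 2 := by nlinarith
      have h4 := Real.log_le_log (by linarith) h3
      rw [Real.log_pow] at h4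
      push_cast at h4
      linarith
    have h3 : x ≤ 2 * (Real.log y) ^ (1 / 30 : ℝ) := by
      have h4 : L ≤ 2 * Real.log y := by linarith
      calc x ≤ (2 * Real.log y) ^ (1 / 30 : ℝ) := Real.rpow_le_rpow hL0.le h4 (by norm_num)
        _ = 2 ^ (1 / 30 : ℝ) * (Real.log y) ^ (1 / 30 : ℝ) :=
            Real.mul_rpow (by norm_num) (by linarith)
        _ ≤ 2 * (Real.log y) ^ (1 / 30 : ℝ) := by
            apply mul_le_mul_of_nonneg_right _ (Real.rpow_nonneg (by linarith) _)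
            calc (2 : ℝ) ^ (1 / 30 : ℝ) ≤ 2 ^ (1 : ℝ) :=
                  Real.rpow_le_rpow_of_exponent_le (by norm_num) (by norm_num)
              _ = 2 := Real.rpow_one 2
    have hly0 : 0 < Real.log y := by linarith
    have h5 : C₀ * y / (Real.log y) ^ (1 / 30 : ℝ) ≤ 2 * C₀ * (N / x) := by
      have h6 : 0 < (Real.log y) ^ (1 / 30 : ℝ) := Real.rpow_pos_of_pos hly0 _
      rw [mul_div_assoc', div_le_div_iff₀ h6 hx0]
      have h7 : C₀ * y * x ≤ C₀ * N * (2 * (Real.log y) ^ (1 / 30 : ℝ)) := by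
        apply mul_le_mul _ h3 hx0.le (by positivity)
        exact mul_le_mul_of_nonneg_left hyr hC₀0.le
      linarith
    have h8 : |∑ n ∈ range y, ind S (s * (n : ℕ)) - δ * y| ≤ 1 + C₀ * y / (Real.log y) ^ (1 / 30 : ℝ) := by
      have e : ∑ n ∈ range y, ind S (s * (n : ℕ)) - δ * y =
          (∑ n ∈ range y, ind S (s * (n : ℕ)) - G {x | s * x ∈ S} y) + (G {x | s * x ∈ S} y - δ * y) := by ring
      rw [e]
      refine (abs_add_le _ _).trans ?_
      linarith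
    nlinarith

/-- from dyadic intervals to all moduli -/
theorem all_of_dyadic {D : ℕ → ℝ} {A B : ℝ} (hA : 0 ≤ A) (hB : 0 ≤ B) (h1 : D 1 ≤ 0) (h0 : ∀ q, 1 ≤ q → 0 ≤ D q)
    (h : ∀ Q : ℕ, 1 ≤ Q → ∑ q ∈ Ioc Q (2 * Q), D q ≤ A + Q * B) (R : ℕ) :
    ∑ q ∈ Icc 1 R, D q ≤ (Nat.clog 2 R : ℝ) * A + 2 * R * B := by
  have key : ∀ k : ℕ, ∑ q ∈ Icc 1 (2 ^ k), D q ≤ k * A + 2 ^ k * B := by
    intro k
    induction k with
    | zero => simp; linarith
    | succ k ih =>
      have e : Icc 1 (2 ^ (k + 1)) = Icc 1 (2 ^ k) ∪ Ioc (2 ^ k) (2 * 2 ^ k) := by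
        ext q
        rw [mem_union, mem_Icc, mem_Icc, mem_Ioc, pow_succ]
        have : 1 ≤ 2 ^ k := Nat.one_le_two_pow
        omega
      have hd : Disjoint (Icc 1 (2 ^ k)) (Ioc (2 ^ k) (2 * 2 ^ k)) := by
        rw [disjoint_left]
        intro q hq hq'
        rw [mem_Icc] at hq
        rw [mem_Ioc] at hq'
        omega
      rw [e, sum_union hd]
      have h2 := h (2 ^ k) Nat.one_le_two_pow
      push_cast at h2 ⊢
      rw [pow_succ]
      linarith
  have hR : R ≤ 2 ^ (Nat.clog 2 R) := Nat.le_pow_clog (by norm_num) R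
  rcases Nat.eq_zero_or_pos R with rfl | hRpos
  · simp
  have h2 : ∑ q ∈ Icc 1 R, D q ≤ ∑ q ∈ Icc 1 (2 ^ (Nat.clog 2 R)), D q := by
    apply sum_le_sum_of_subset_of_nonneg
    · intro q hq
      rw [mem_Icc] at hq ⊢
      omega
    · intro q hq _
      exact h0 q (mem_Icc.1 hq).1
  have h3 : ((2 : ℝ)) ^ (Nat.clog 2 R) ≤ 2 * R := by
    rcases Nat.eq_zero_or_pos (Nat.clog 2 R) with h4 | h4
    · rw [h4, pow_zero]
      have : (1 : ℝ) ≤ R := by exact_mod_cast hRpos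
      linarith
    · have h5 : 2 ^ (Nat.clog 2 R - 1) < R := Nat.pow_pred_clog_lt_self (b := 2) (by norm_num) (by
        by_contra hcon
        push Not at hcon
        rw [Nat.clog_of_right_le_one hcon] at h4
        omega)
      have h6 : (2 : ℝ) ^ (Nat.clog 2 R - 1) ≤ R := by exact_mod_cast h5.le
      have h7 : (2 : ℝ) ^ (Nat.clog 2 R) = 2 * 2 ^ (Nat.clog 2 R - 1) := by
        rw [← pow_succ', Nat.sub_add_cancel h4]
      rw [h7]; linarith
  have h4 := key (Nat.clog 2 R)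
  have h5 : (2 : ℝ) ^ (Nat.clog 2 R) * B ≤ 2 * R * B := mul_le_mul_of_nonneg_right h3 hB
  linarith

theorem clog_le_log {R N : ℕ} (hN : 2 ≤ N) (hR : R ≤ N) : (Nat.clog 2 R : ℝ) ≤ 4 * Real.log N := by
  have hNr : (2 : ℝ) ≤ N := by exact_mod_cast hN
  have l2 := Real.log_two_gt_d9
  have h0 : Real.log 2 ≤ Real.log N := Real.log_le_log (by norm_num) hNr
  rcases Nat.eq_zero_or_pos (Nat.clog 2 R) with h4 | h4
  · rw [h4]; push_cast; linarith
  · have h5 : 2 ^ (Nat.clog 2 R - 1) < R := Nat.pow_pred_clog_lt_self (b := 2) (by norm_num) (by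
      by_contra hcon
      push Not at hcon
      rw [Nat.clog_of_right_le_one hcon] at h4
      omega)
    have h6 : (2 : ℝ) ^ (Nat.clog 2 R - 1) ≤ N := by exact_mod_cast (h5.le.trans hR)
    have h7 := Real.log_le_log (by positivity) h6
    rw [Real.log_pow] at h7
    have h8 : ((Nat.clog 2 R - 1 : ℕ) : ℝ) = (Nat.clog 2 R : ℝ) - 1 := by
      rw [Nat.cast_sub h4]; norm_num
    rw [h8] at h7
    have h9 : (1 : ℝ) ≤ Nat.clog 2 R := by exact_mod_cast h4
    nlinarith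

end Pool.Agent.T6.H47.BV
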