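import Pool.Agent.T6.H47.BV6

set_option autoImplicit false

/-! The divisor function in shifted invariant sets. -/

namespace Pool.Agent.T6.H47.BV

open Finset Filter Topology Pool.Agent.H499R2.CO Pool.Agent.H499R2.ND

theorem sum_shift (F : ℕ → ℝ) (b M : ℕ) :
    ∑ n ∈ Icc 1 M, F (n + b) = ∑ m ∈ range (M + b + 1), F m - ∑ m ∈ range (b + 1), F m := by
  induction M with
  | zero => simp
  | succ M ih =>
    rw [sum_Icc_succ_top (by omega), ih, show M + 1 + b + 1 = (M + b + 1) + 1 by ring,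
      sum_range_succ F (M + b + 1), show M + 1 + b = M + b + 1 by ring]
    ring

/-- sum over the multiples of `u` up to `M` of the shifted function -/
noncomputable def AA (g : ℕ → ℝ) (b u M : ℕ) : ℝ := ∑ n ∈ Icc 1 M, (if u ∣ n then g (n + b) else 0)

theorem AA_eq (g : ℕ → ℝ) (b u M : ℕ) :
    AA g b u M = (1 / (u : ℝ)) * ∑ n ∈ Icc 1 M, g (n + b) + disc g (M + b + 1) b u - disc g (b + 1) b u := by
  have e1 : AA g b u M = ∑ n ∈ Icc 1 M, (fun m : ℕ => g m * ci u b m) (n + b) := by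
    unfold AA
    apply sum_congr rfl
    intro n _
    unfold ci
    have h : ((u : ℤ) ∣ ((n + b : ℕ) : ℤ) - b) ↔ u ∣ n := by
      push_cast
      rw [add_sub_cancel_right]
      exact Int.natCast_dvd_natCast
    beta_reduce
    by_cases hu : u ∣ n
    · rw [if_pos hu, if_pos (h.2 hu), mul_one]
    · rw [if_neg hu, if_neg (fun h' => hu (h.1 h')), mul_zero]
  rw [e1, sum_shift (fun m : ℕ => g m * ci u b m), sum_shift g]
  unfold disc
  ring

/-- the hyperbola identity for one integer -/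
theorem card_divisors_eq {N n : ℕ} (hn : 1 ≤ n) (hnN : n ≤ N) :
    (n.divisors.card : ℝ) = 2 * ∑ u ∈ Icc 1 (Nat.sqrt N), (if u ∣ n then (1 : ℝ) else 0) -
      ∑ u ∈ Icc 1 (Nat.sqrt N), (if u ∣ n ∧ n ≤ u * Nat.sqrt N then (1 : ℝ) else 0) := by
  set U := Nat.sqrt N with hU
  have hNU : N < (U + 1) * (U + 1) := Nat.lt_succ_sqrt N
  set D1 := n.divisors.filter (fun u => u ≤ U) with hD1
  set D2 := n.divisors.filter (fun u => n / u ≤ U) with hD2
  have hun : D1 ∪ D2 = n.divisors := by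
    rw [hD1, hD2, ← filter_or]
    apply filter_true_of_mem
    intro u hu
    rw [Nat.mem_divisors] at hu
    by_contra hcon
    push Not at hcon
    have h1 : u * (n / u) = n := Nat.mul_div_cancel' hu.1
    have h2 : (U + 1) * (U + 1) ≤ u * (n / u) := Nat.mul_le_mul hcon.1 hcon.2
    omega
  have hcard : D2.card = D1.card := by
    apply card_bij (fun u _ => n / u)
    · intro u hu
      rw [hD2, mem_filter, Nat.mem_divisors] at hu
      rw [hD1, mem_filter, Nat.mem_divisors]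
      exact ⟨⟨Nat.div_dvd_of_dvd hu.1.1, hu.1.2⟩, hu.2⟩
    · intro u hu v hv h
      rw [hD2, mem_filter, Nat.mem_divisors] at hu hv
      have h1 : u * (n / u) = n := Nat.mul_div_cancel' hu.1.1
      have h2 : v * (n / v) = n := Nat.mul_div_cancel' hv.1.1
      have h3 : 0 < n / u := by
        rcases Nat.eq_zero_or_pos (n / u) with h4 | h4
        · rw [h4, mul_zero] at h1; omega
        · exact h4
      rw [h] at h1 h3
      exact Nat.eq_of_mul_eq_mul_right h3 (h1.trans h2.symm)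
    · intro v hv
      rw [hD1, mem_filter, Nat.mem_divisors] at hv
      refine ⟨n / v, ?_, ?_⟩
      · rw [hD2, mem_filter, Nat.mem_divisors]
        refine ⟨⟨Nat.div_dvd_of_dvd hv.1.1, hv.1.2⟩, ?_⟩
        rw [Nat.div_div_self hv.1.1 hv.1.2]
        exact hv.2
      · exact Nat.div_div_self hv.1.1 hv.1.2
  have h1 : n.divisors.card + (D1 ∩ D2).card = 2 * D1.card := by
    rw [← hun, card_union_add_card_inter, hcard]
    ring
  have h2 : (D1.card : ℝ) = ∑ u ∈ Icc 1 U, (if u ∣ n then (1 : ℝ) else 0) := by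
    rw [← sum_filter, sum_const, nsmul_eq_mul, mul_one]
    congr 2
    ext u
    rw [hD1, mem_filter, Nat.mem_divisors, mem_filter, mem_Icc]
    constructor
    · rintro ⟨⟨h1, h2⟩, h3⟩
      exact ⟨⟨Nat.pos_of_dvd_of_pos h1 (by omega), h3⟩, h1⟩
    · rintro ⟨⟨h1, h2⟩, h3⟩
      exact ⟨⟨h3, by omega⟩, h2⟩
  have h3 : ((D1 ∩ D2).card : ℝ) = ∑ u ∈ Icc 1 U, (if u ∣ n ∧ n ≤ u * U then (1 : ℝ) else 0) := by
    rw [← sum_filter, sum_const, nsmul_eq_mul, mul_one]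
    congr 2
    ext u
    rw [mem_inter, hD1, hD2, mem_filter, mem_filter, Nat.mem_divisors, mem_filter, mem_Icc]
    constructor
    · rintro ⟨⟨⟨h1, h2⟩, h3⟩, -, h4⟩
      have hu : 0 < u := Nat.pos_of_dvd_of_pos h1 (by omega)
      refine ⟨⟨hu, h3⟩, h1, ?_⟩
      have h5 : u * (n / u) = n := Nat.mul_div_cancel' h1
      calc n = u * (n / u) := h5.symm
        _ ≤ u * U := Nat.mul_le_mul_left u h4
    · rintro ⟨⟨h1, h2⟩, h3, h4⟩
      refine ⟨⟨⟨h3, by omega⟩, h2⟩, ⟨h3, by omega⟩, ?_⟩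
      exact Nat.div_le_of_le_mul h4
  have h4 : (n.divisors.card : ℝ) + (D1 ∩ D2).card = 2 * D1.card := by exact_mod_cast h1
  rw [← h2, ← h3]
  linarith

theorem divisor_sum (g : ℕ → ℝ) (b N : ℕ) :
    ∑ n ∈ Icc 1 N, (n.divisors.card : ℝ) * g (n + b) =
      2 * ∑ u ∈ Icc 1 (Nat.sqrt N), AA g b u N - ∑ u ∈ Icc 1 (Nat.sqrt N), AA g b u (u * Nat.sqrt N) := by
  set U := Nat.sqrt N with hU
  have hUN : U * U ≤ N := Nat.sqrt_le N
  have e1 : ∀ n ∈ Icc 1 N, (n.divisors.card : ℝ) * g (n + b) =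
      2 * ∑ u ∈ Icc 1 U, (if u ∣ n then g (n + b) else 0) -
      ∑ u ∈ Icc 1 U, (if u ∣ n ∧ n ≤ u * U then g (n + b) else 0) := by
    intro n hn
    rw [mem_Icc] at hn
    rw [card_divisors_eq hn.1 hn.2, sub_mul, mul_assoc, sum_mul, sum_mul]
    congr 1
    · congr 1
      apply sum_congr rfl
      intro u _
      split_ifs <;> simp
    · apply sum_congr rfl
      intro u _
      split_ifs <;> simp
  rw [sum_congr rfl e1, sum_sub_distrib, ← mul_sum, sum_comm, sum_comm (s := Icc 1 N) (t := Icc 1 U)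
    (f := fun n u => if u ∣ n ∧ n ≤ u * U then g (n + b) else 0)]
  congr 1
  apply sum_congr rfl
  intro u hu
  rw [mem_Icc] at hu
  unfold AA
  have hsub : Icc 1 (u * U) ⊆ Icc 1 N := by
    apply Icc_subset_Icc le_rfl
    exact (Nat.mul_le_mul_right U hu.2).trans hUN
  rw [← sum_subset hsub (f := fun n => if u ∣ n ∧ n ≤ u * U then g (n + b) else 0)]
  · apply sum_congr rfl
    intro n hn
    rw [mem_Icc] at hn
    by_cases h : u ∣ n
    · rw [if_pos h, if_pos ⟨h, hn.2⟩]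
    · rw [if_neg h, if_neg (fun h' => h h'.1)]
  · intro n hn hn'
    rw [mem_Icc] at hn hn'
    rw [if_neg]
    rintro ⟨-, h⟩
    exact hn' ⟨hn.1, h⟩

theorem bv_sync_all : ∃ C : ℝ, 0 < C ∧ ∀ s : ℤ, (s = 1 ∨ s = -1) → ∀ F : ℤ → ℝ, (∀ x, |F x| ≤ 1) → Sync F →
    ∀ N : ℕ, 2 ≤ N → ∀ (a : ℕ → ℤ) (y : ℕ → ℕ), (∀ q, y q ≤ N) → ∀ R : ℕ, R ≤ N →
    ∑ q ∈ Icc 1 R, |disc (fun n : ℕ => F (s * n)) (y q) (a q) q| ≤
      C * (N * Real.log N ^ (4 / 5 : ℝ) + R * √N) := by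
  obtain ⟨C, hC, h⟩ := bv_sync
  refine ⟨4 * C, by positivity, fun s hs F hF hS N hN a y hy R hR => ?_⟩
  have hNr : (2 : ℝ) ≤ N := by exact_mod_cast hN
  have hL0 : 0 < Real.log N := Real.log_pos (by linarith)
  set L := Real.log N with hL
  have h1 := all_of_dyadic (D := fun q => |disc (fun n : ℕ => F (s * n)) (y q) (a q) q|)
    (A := C * (N / L ^ (1 / 5 : ℝ))) (B := C * √N) (by positivity) (by positivity) (by
      have : disc (fun n : ℕ => F (s * n)) (y 1) (a 1) 1 = 0 := by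
        unfold disc ci
        simp
      simp only [this, abs_zero, le_refl]) (fun q _ => abs_nonneg _) (fun Q hQ => by
      refine (h s hs F hF hS N hN Q hQ a y hy).trans (le_of_eq ?_)
      ring) R
  refine h1.trans ?_
  have h2 := clog_le_log hN hR
  rw [← hL] at h2
  have h3 : (Nat.clog 2 R : ℝ) * (C * (N / L ^ (1 / 5 : ℝ))) ≤ (4 * L) * (C * (N / L ^ (1 / 5 : ℝ))) :=
    mul_le_mul_of_nonneg_right h2 (by positivity)
  have h4 : (4 * L) * (C * (N / L ^ (1 / 5 : ℝ))) = 4 * C * (N * L ^ (4 / 5 : ℝ)) := by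
    have e : L = L ^ (1 / 5 : ℝ) * L ^ (4 / 5 : ℝ) := by
      rw [← Real.rpow_add hL0]; norm_num
    have hx : 0 < L ^ (1 / 5 : ℝ) := Real.rpow_pos_of_pos hL0 _
    nth_rewrite 1 [e]
    field_simp
  have h5 : 0 ≤ C * (R * √(N : ℝ)) := by positivity
  linarith

/-- **the divisor function and synchronous functions** -/
theorem divisor_sync : ∃ C : ℝ, 0 < C ∧ ∀ s : ℤ, (s = 1 ∨ s = -1) → ∀ F : ℤ → ℝ, (∀ x, |F x| ≤ 1) → Sync F →
    ∀ N : ℕ, 2 ≤ N → ∀ b : ℕ, b ≤ N →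
    |∑ n ∈ Icc 1 N, (n.divisors.card : ℝ) * F (s * ((n + b : ℕ) : ℤ)) -
      Real.log N * ∑ n ∈ Icc 1 N, F (s * ((n + b : ℕ) : ℤ))| ≤ C * (N * Real.log N ^ (4 / 5 : ℝ)) := by
  obtain ⟨C, hC, h⟩ := bv_sync_all
  refine ⟨1000 * C + 100, by positivity, fun s hs F hF hS N hN b hb => ?_⟩
  have hNr : (2 : ℝ) ≤ N := by exact_mod_cast hN
  have hL0 : 0 < Real.log N := Real.log_pos (by linarith)
  have hL69 : 0.69 < Real.log N := by
    have := Real.log_le_log (by norm_num) hNr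
    have := Real.log_two_gt_d9
    linarith
  set L := Real.log N with hL
  set g : ℕ → ℝ := fun n : ℕ => F (s * n) with hg
  have hgb : ∀ n, |g n| ≤ 1 := fun n => hF _
  set U := Nat.sqrt N with hU
  have hUN : U * U ≤ N := Nat.sqrt_le N
  have hNU : N < (U + 1) * (U + 1) := Nat.lt_succ_sqrt N
  have hU1 : 1 ≤ U := by
    by_contra hcon
    have : U = 0 := by omega
    rw [this] at hNU
    omega
  have hUleN : U ≤ N := Nat.sqrt_le_self N
  have hUr : (1 : ℝ) ≤ U := by exact_mod_cast hU1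
  have hUU : (U : ℝ) * U ≤ N := by exact_mod_cast hUN
  have hUs : (U : ℝ) ≤ √N := by
    apply Real.le_sqrt_of_sq_le
    rw [pow_two]; exact hUU
  set X := ∑ n ∈ Icc 1 N, g (n + b) with hX
  have hXabs : |X| ≤ N := by
    calc |X| ≤ ∑ n ∈ Icc 1 N, |g (n + b)| := abs_sum_le_sum_abs _ _
      _ ≤ ∑ n ∈ Icc 1 N, (1 : ℝ) := sum_le_sum fun n _ => hgb _
      _ = N := by rw [sum_const, Nat.card_Icc, nsmul_eq_mul]; simp
  -- the discrepancies
  set Δ : ℕ → ℕ → ℝ := fun M u => disc g M b u with hΔ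
  have hD : ∀ y : ℕ → ℕ, (∀ q, y q ≤ 3 * N) → ∑ u ∈ Icc 1 U, |Δ (y u) u| ≤ 12 * C * (N * L ^ (4 / 5 : ℝ)) + 2 * C * N := by
    intro y hy
    have h1 := h s hs F hF hS (3 * N) (by omega) (fun _ => b) y hy U (by omega)
    refine h1.trans ?_
    have h2 : Real.log ((3 * N : ℕ) : ℝ) ≤ 4 * L := by
      push_cast
      rw [Real.log_mul (by norm_num) (by linarith)]
      have h3 : Real.log 3 ≤ 2 * Real.log 2 := by
        rw [← Real.log_rpow (by norm_num)]
        apply Real.log_le_log (by norm_num)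
        norm_num
      have h4 : Real.log 2 ≤ L := Real.log_le_log (by norm_num) hNr
      linarith
    have h3 : Real.log ((3 * N : ℕ) : ℝ) ^ (4 / 5 : ℝ) ≤ 4 * L ^ (4 / 5 : ℝ) := by
      have h0 : 0 ≤ Real.log ((3 * N : ℕ) : ℝ) := by
        apply Real.log_nonneg
        push_cast; linarith
      calc _ ≤ (4 * L) ^ (4 / 5 : ℝ) := Real.rpow_le_rpow h0 h2 (by norm_num)
        _ = 4 ^ (4 / 5 : ℝ) * L ^ (4 / 5 : ℝ) := Real.mul_rpow (by norm_num) hL0.le
        _ ≤ 4 * L ^ (4 / 5 : ℝ) := by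
            apply mul_le_mul_of_nonneg_right _ (Real.rpow_nonneg hL0.le _)
            calc (4 : ℝ) ^ (4 / 5 : ℝ) ≤ 4 ^ (1 : ℝ) :=
                  Real.rpow_le_rpow_of_exponent_le (by norm_num) (by norm_num)
              _ = 4 := Real.rpow_one 4
    have h4 : √((3 * N : ℕ) : ℝ) ≤ 2 * √N := by
      rw [Real.sqrt_le_left (by positivity)]
      rw [mul_pow, Real.sq_sqrt (by linarith)]
      push_cast
      linarith
    have h5 : (U : ℝ) * √((3 * N : ℕ) : ℝ) ≤ 2 * N := by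
      have hsN2 : √(N : ℝ) * √N = N := Real.mul_self_sqrt (by linarith)
      calc (U : ℝ) * √((3 * N : ℕ) : ℝ) ≤ √N * (2 * √N) :=
            mul_le_mul hUs h4 (Real.sqrt_nonneg _) (Real.sqrt_nonneg _)
        _ = 2 * N := by rw [mul_left_comm, hsN2]
    have h6 : ((3 * N : ℕ) : ℝ) * Real.log ((3 * N : ℕ) : ℝ) ^ (4 / 5 : ℝ) ≤ 12 * (N * L ^ (4 / 5 : ℝ)) := by
      calc _ ≤ ((3 * N : ℕ) : ℝ) * (4 * L ^ (4 / 5 : ℝ)) := mul_le_mul_of_nonneg_left h3 (Nat.cast_nonneg _)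
        _ = _ := by push_cast; ring
    have h7 := mul_le_mul_of_nonneg_left (add_le_add h6 h5) hC.le
    linarith
  -- the formula
  set h₀ := ∑ u ∈ Icc 1 U, (1 / (u : ℝ)) with hh₀
  have hform : ∑ n ∈ Icc 1 N, (n.divisors.card : ℝ) * g (n + b) = 2 * h₀ * X +
      2 * ∑ u ∈ Icc 1 U, (Δ (N + b + 1) u - Δ (b + 1) u) -
      ∑ u ∈ Icc 1 U, (1 / (u : ℝ)) * ∑ n ∈ Icc 1 (u * U), g (n + b) -
      ∑ u ∈ Icc 1 U, (Δ (u * U + b + 1) u - Δ (b + 1) u) := by
    rw [divisor_sum]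
    simp only [AA_eq]
    rw [hh₀, mul_assoc, sum_mul, ← mul_add, ← sum_add_distrib, sub_sub, ← sum_add_distrib]
    congr 1
    · congr 1
      apply sum_congr rfl
      intro u _
      rw [hX, hΔ]
      ring
    · apply sum_congr rfl
      intro u _
      rw [hΔ]
      ring
  have hb1 : |∑ u ∈ Icc 1 U, (Δ (N + b + 1) u - Δ (b + 1) u)| ≤ 24 * C * (N * L ^ (4 / 5 : ℝ)) + 4 * C * N := by
    have h1 := hD (fun _ => N + b + 1) (fun _ => by omega)
    have h2 := hD (fun _ => b + 1) (fun _ => by omega)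
    calc _ ≤ ∑ u ∈ Icc 1 U, |Δ (N + b + 1) u - Δ (b + 1) u| := abs_sum_le_sum_abs _ _
      _ ≤ ∑ u ∈ Icc 1 U, (|Δ (N + b + 1) u| + |Δ (b + 1) u|) := sum_le_sum fun u _ => abs_sub _ _
      _ = ∑ u ∈ Icc 1 U, |Δ (N + b + 1) u| + ∑ u ∈ Icc 1 U, |Δ (b + 1) u| := sum_add_distrib
      _ ≤ _ := by linarith
  have hb2 : |∑ u ∈ Icc 1 U, (Δ (u * U + b + 1) u - Δ (b + 1) u)| ≤ 24 * C * (N * L ^ (4 / 5 : ℝ)) + 4 * C * N := by
    have h1 := hD (fun u => min u U * U + b + 1) (fun u => by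
      have : min u U * U ≤ U * U := Nat.mul_le_mul_right U (min_le_right _ _)
      omega)
    have h1' : ∑ u ∈ Icc 1 U, |Δ (min u U * U + b + 1) u| = ∑ u ∈ Icc 1 U, |Δ (u * U + b + 1) u| := by
      apply sum_congr rfl
      intro u hu
      rw [mem_Icc] at hu
      rw [min_eq_left hu.2]
    rw [h1'] at h1
    have h2 := hD (fun _ => b + 1) (fun _ => by omega)
    calc _ ≤ ∑ u ∈ Icc 1 U, |Δ (u * U + b + 1) u - Δ (b + 1) u| := abs_sum_le_sum_abs _ _
      _ ≤ ∑ u ∈ Icc 1 U, (|Δ (u * U + b + 1) u| + |Δ (b + 1) u|) := sum_le_sum fun u _ => abs_sub _ _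
      _ = ∑ u ∈ Icc 1 U, |Δ (u * U + b + 1) u| + ∑ u ∈ Icc 1 U, |Δ (b + 1) u| := sum_add_distrib
      _ ≤ _ := by linarith
  have hb3 : |∑ u ∈ Icc 1 U, (1 / (u : ℝ)) * ∑ n ∈ Icc 1 (u * U), g (n + b)| ≤ N := by
    calc _ ≤ ∑ u ∈ Icc 1 U, |(1 / (u : ℝ)) * ∑ n ∈ Icc 1 (u * U), g (n + b)| := abs_sum_le_sum_abs _ _
      _ ≤ ∑ u ∈ Icc 1 U, (U : ℝ) := by
          apply sum_le_sum
          intro u hu
          rw [mem_Icc] at hu
          have hur : (0 : ℝ) < u := by exact_mod_cast hu.1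
          have h1 : |∑ n ∈ Icc 1 (u * U), g (n + b)| ≤ u * U := by
            calc _ ≤ ∑ n ∈ Icc 1 (u * U), |g (n + b)| := abs_sum_le_sum_abs _ _
              _ ≤ ∑ n ∈ Icc 1 (u * U), (1 : ℝ) := sum_le_sum fun n _ => hgb _
              _ = _ := by rw [sum_const, Nat.card_Icc, nsmul_eq_mul]; simp
          rw [abs_mul, abs_of_pos (by positivity : (0 : ℝ) < 1 / u)]
          calc _ ≤ (1 / (u : ℝ)) * (u * U) := mul_le_mul_of_nonneg_left h1 (by positivity)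
            _ = U := by field_simp
      _ = (U : ℝ) * U := by rw [sum_const, Nat.card_Icc, nsmul_eq_mul]; simp
      _ ≤ N := hUU
  have hh : |2 * h₀ - L| ≤ 2 := by
    have h1 := harmonic_le_one_add_log U
    have h2 := log_add_one_le_harmonic U
    rw [harmonic_eq_sum_Icc] at h1 h2
    push_cast at h1 h2
    have e : h₀ = ∑ x ∈ Icc 1 U, ((x : ℝ))⁻¹ := by
      rw [hh₀]
      simp only [one_div]
    rw [← e] at h1 h2
    have h3 : 2 * Real.log U ≤ L := by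
      have h4 : (U : ℝ) ^ 2 ≤ N := by rw [pow_two]; exact hUU
      have h5 := Real.log_le_log (by positivity) h4
      rw [Real.log_pow] at h5
      push_cast at h5
      exact h5
    have h4 : L ≤ 2 * Real.log ((U : ℝ) + 1) := by
      have h5 : (N : ℝ) ≤ ((U : ℝ) + 1) ^ 2 := by
        have : (N : ℝ) ≤ (((U + 1) * (U + 1) : ℕ) : ℝ) := by exact_mod_cast hNU.le
        push_cast at this
        rw [pow_two]; exact this
      have h6 := Real.log_le_log (by linarith) h5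
      rw [Real.log_pow] at h6
      push_cast at h6
      exact h6
    rw [abs_le]
    constructor <;> linarith
  have hfin : |∑ n ∈ Icc 1 N, (n.divisors.card : ℝ) * g (n + b) - L * X| ≤
      3 * N + 3 * (24 * C * (N * L ^ (4 / 5 : ℝ)) + 4 * C * N) := by
    rw [hform]
    have e : 2 * h₀ * X + 2 * ∑ u ∈ Icc 1 U, (Δ (N + b + 1) u - Δ (b + 1) u) -
      ∑ u ∈ Icc 1 U, (1 / (u : ℝ)) * ∑ n ∈ Icc 1 (u * U), g (n + b) -
      ∑ u ∈ Icc 1 U, (Δ (u * U + b + 1) u - Δ (b + 1) u) - L * X = (2 * h₀ - L) * X +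
      2 * ∑ u ∈ Icc 1 U, (Δ (N + b + 1) u - Δ (b + 1) u) -
      ∑ u ∈ Icc 1 U, (1 / (u : ℝ)) * ∑ n ∈ Icc 1 (u * U), g (n + b) -
      ∑ u ∈ Icc 1 U, (Δ (u * U + b + 1) u - Δ (b + 1) u) := by ring
    rw [e]
    have h1 : |(2 * h₀ - L) * X| ≤ 2 * N := by
      rw [abs_mul]
      exact mul_le_mul hh hXabs (abs_nonneg _) (by norm_num)
    rw [abs_le] at h1 hb1 hb2 hb3 ⊢
    constructor <;> linarith [h1.1, h1.2, hb1.1, hb1.2, hb2.1, hb2.2, hb3.1, hb3.2]
  have hx : 0.5 ≤ L ^ (4 / 5 : ℝ) := by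
    rcases le_or_gt 1 L with h1 | h1
    · have := Real.one_le_rpow h1 (show (0 : ℝ) ≤ 4 / 5 by norm_num)
      linarith
    · calc (0.5 : ℝ) ≤ L := by linarith
        _ = L ^ (1 : ℝ) := (Real.rpow_one L).symm
        _ ≤ L ^ (4 / 5 : ℝ) := Real.rpow_le_rpow_of_exponent_ge hL0 h1.le (by norm_num)
  have hNx : (N : ℝ) ≤ 2 * (N * L ^ (4 / 5 : ℝ)) := by nlinarith
  have hCN : C * (N : ℝ) ≤ 2 * (C * (N * L ^ (4 / 5 : ℝ))) := by nlinarith
  calc _ ≤ _ := hfin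
    _ ≤ _ := by
        have h0 : 0 ≤ C * (N * L ^ (4 / 5 : ℝ)) := by positivity
        linarith

end Pool.Agent.T6.H47.BV
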