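import Pool.Agent.T6.H47.BV7

set_option autoImplicit false

/-! Mean squares over all classes (theorem of Barban-Davenport-Halberstam type). -/

namespace Pool.Agent.T6.H47.BV

open Finset Filter Topology Pool.Agent.H499R2.CO Pool.Agent.H499R2.ND

/-- sum over a class -/
noncomputable def WW (f : ℕ → ℝ) (q : ℕ) (a : ℤ) (y : ℕ) : ℝ := ∑ n ∈ Icc 1 y, f n * ci q a n

theorem Icc_eq_range (F : ℕ → ℝ) (N : ℕ) : ∑ n ∈ Icc 1 N, F n = ∑ n ∈ range N, F (n + 1) := by
  induction N with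
  | zero => simp
  | succ N ih => rw [sum_Icc_succ_top (by omega), ih, sum_range_succ]

theorem Icc_eq_range' (F : ℕ → ℝ) (N : ℕ) : ∑ n ∈ Icc 1 N, F n = ∑ n ∈ range N, F n + (F N - F 0) := by
  induction N with
  | zero => simp
  | succ N ih => rw [sum_Icc_succ_top (by omega), ih, sum_range_succ]; ring

theorem ci_Icc {q : ℕ} (hq : 1 ≤ q) (a : ℤ) (N : ℕ) : |∑ n ∈ Icc 1 N, ci q a n - (N : ℝ) / q| ≤ 1 := by
  have e : ∑ n ∈ Icc 1 N, ci q a n = ∑ n ∈ range N, ci q (a - 1) n := by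
    rw [Icc_eq_range (fun n : ℕ => ci q a n)]
    apply sum_congr rfl
    intro n _
    push_cast
    rw [ci_add]
  rw [e]
  exact ci_count hq _ N

theorem ci_Icc_le {q : ℕ} (hq : 1 ≤ q) (a : ℤ) (N : ℕ) : ∑ n ∈ Icc 1 N, ci q a n ≤ (N : ℝ) / q + 1 := by
  have := (abs_le.1 (ci_Icc hq a N)).2
  linarith

theorem ci_symm (q : ℕ) (x y : ℤ) : ci q x y = ci q y x := by
  unfold ci
  have : ((q : ℤ) ∣ y - x) ↔ ((q : ℤ) ∣ x - y) := by
    rw [← dvd_neg, neg_sub]
  simp only [this]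

/-- sum over all classes of a product of indicators -/
theorem sum_ci_ci {q : ℕ} (hq : 1 ≤ q) (x y : ℤ) : ∑ a ∈ range q, ci q a x * ci q a y = ci q x y := by
  have hq0 : (0 : ℤ) < q := by exact_mod_cast hq
  set v := (x % q).toNat with hv
  have hv' : ((v : ℕ) : ℤ) = x % q := Int.toNat_of_nonneg (Int.emod_nonneg _ hq0.ne')
  have hvq : v < q := by
    have := Int.emod_lt_of_pos x hq0
    rw [← hv'] at this
    exact_mod_cast this
  have hdv : (q : ℤ) ∣ x - v := by rw [hv']; exact Int.dvd_self_sub_emod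
  rw [sum_eq_single v]
  · have h1 : ci q v x = 1 := by unfold ci; rw [if_pos hdv]
    rw [h1, one_mul]
    unfold ci
    have : ((q : ℤ) ∣ y - v) ↔ ((q : ℤ) ∣ y - x) := by
      constructor
      · intro h
        have := dvd_sub h hdv
        rwa [show y - (v : ℤ) - (x - v) = y - x by ring] at this
      · intro h
        have := dvd_add h hdv
        rwa [show y - x + (x - (v : ℤ)) = y - v by ring] at this
    simp only [this]
  · intro a ha hne
    rw [mem_range] at ha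
    have : ci q a x = 0 := by
      unfold ci
      rw [if_neg]
      intro hd
      apply hne
      have h1 : (q : ℤ) ∣ (a : ℤ) - v := by
        have := dvd_sub hdv hd
        rwa [show x - (v : ℤ) - (x - a) = a - v by ring] at this
      have h2 : (a : ℤ) - v = 0 := by
        apply Int.eq_zero_of_abs_lt_dvd h1
        rw [abs_lt]
        constructor <;> omega
      omega
    rw [this, zero_mul]
  · intro h
    exact absurd (mem_range.2 hvq) h

theorem sum_ci_one {q : ℕ} (hq : 1 ≤ q) (x : ℤ) : ∑ a ∈ range q, ci q a x = 1 := by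
  have h := sum_ci_ci hq x x
  have e : ∀ a ∈ range q, ci q a x * ci q a x = ci q a x := by
    intro a _
    unfold ci
    split_ifs <;> norm_num
  rw [sum_congr rfl e] at h
  rw [h]
  unfold ci
  simp

theorem WW_abs_le {f : ℕ → ℝ} (hf : ∀ n, |f n| ≤ 1) {q : ℕ} (a : ℤ) (N : ℕ) :
    |WW f q a N| ≤ ∑ n ∈ Icc 1 N, ci q a n := by
  unfold WW
  refine (abs_sum_le_sum_abs _ _).trans ?_
  apply sum_le_sum
  intro n _
  rw [abs_mul, abs_of_nonneg (ci_nonneg _ _ _)]
  calc _ ≤ 1 * ci q a n := mul_le_mul_of_nonneg_right (hf n) (ci_nonneg _ _ _)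
    _ = _ := one_mul _

theorem sum_WW_abs {f : ℕ → ℝ} (hf : ∀ n, |f n| ≤ 1) {q : ℕ} (hq : 1 ≤ q) (N : ℕ) :
    ∑ a ∈ range q, |WW f q a N| ≤ N := by
  calc _ ≤ ∑ a ∈ range q, ∑ n ∈ Icc 1 N, ci q a n := sum_le_sum fun a _ => WW_abs_le hf a N
    _ = ∑ n ∈ Icc 1 N, (1 : ℝ) := by
        rw [sum_comm]
        apply sum_congr rfl
        intro n _
        exact sum_ci_one hq n
    _ = N := by rw [sum_const, Nat.card_Icc, nsmul_eq_mul]; simp

/-- the sum of the squares is at most the maximum times the sum -/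
theorem sq_le_max {f : ℕ → ℝ} (hf : ∀ n, |f n| ≤ 1) {q : ℕ} (hq : 1 ≤ q) (N : ℕ) {B : ℝ} (hB : ∀ a ∈ range q, |WW f q a N| ≤ B) :
    ∑ a ∈ range q, WW f q a N ^ 2 ≤ B * N := by
  have hB0 : 0 ≤ B := (abs_nonneg _).trans (hB 0 (mem_range.2 (by omega)))
  calc _ ≤ ∑ a ∈ range q, B * |WW f q a N| := by
        apply sum_le_sum
        intro a ha
        rw [← sq_abs, pow_two]
        exact mul_le_mul_of_nonneg_right (hB a ha) (abs_nonneg _)
    _ = B * ∑ a ∈ range q, |WW f q a N| := by rw [mul_sum]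
    _ ≤ B * N := mul_le_mul_of_nonneg_left (sum_WW_abs hf hq N) hB0

/-- switching the divisor -/
theorem switch {R Q N k : ℕ} (hR : 1 ≤ R) (hk : 1 ≤ k) (hkN : k ≤ N) :
    ∑ q ∈ Ioc R Q, (if q ∣ k then (1 : ℝ) else 0) =
      ∑ m ∈ Icc 1 (N / R), (if m ∣ k ∧ R * m < k ∧ k ≤ Q * m then (1 : ℝ) else 0) := by
  rw [← sum_filter, ← sum_filter, sum_const, sum_const]
  congr 1
  apply card_bij (fun q _ => k / q)
  · intro q hq
    rw [mem_filter, mem_Ioc] at hq
    obtain ⟨⟨h1, h2⟩, h3⟩ := hq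
    have e : q * (k / q) = k := Nat.mul_div_cancel' h3
    have hpos : 0 < k / q := by
      rcases Nat.eq_zero_or_pos (k / q) with h | h
      · rw [h, mul_zero] at e; omega
      · exact h
    rw [mem_filter, mem_Icc]
    have h4 : R * (k / q) < k := by
      calc R * (k / q) < q * (k / q) := Nat.mul_lt_mul_of_pos_right h1 hpos
        _ = k := e
    have h5 : k ≤ Q * (k / q) := by
      calc k = q * (k / q) := e.symm
        _ ≤ Q * (k / q) := Nat.mul_le_mul_right _ h2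
    refine ⟨⟨hpos, ?_⟩, Nat.div_dvd_of_dvd h3, h4, h5⟩
    rw [Nat.le_div_iff_mul_le (by omega), mul_comm]
    omega
  · intro q hq r hr h
    rw [mem_filter, mem_Ioc] at hq hr
    have e1 : q * (k / q) = k := Nat.mul_div_cancel' hq.2
    have e2 : r * (k / r) = k := Nat.mul_div_cancel' hr.2
    have hpos : 0 < k / q := by
      rcases Nat.eq_zero_or_pos (k / q) with h' | h'
      · rw [h', mul_zero] at e1; omega
      · exact h'
    rw [← h] at e2
    exact Nat.eq_of_mul_eq_mul_right hpos (e1.trans e2.symm)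
  · intro m hm
    rw [mem_filter, mem_Icc] at hm
    obtain ⟨⟨h1, h2⟩, h3, h4, h5⟩ := hm
    have e : m * (k / m) = k := Nat.mul_div_cancel' h3
    refine ⟨k / m, ?_, Nat.div_div_self h3 (by omega)⟩
    rw [mem_filter, mem_Ioc]
    refine ⟨⟨?_, ?_⟩, Nat.div_dvd_of_dvd h3⟩
    · rw [← e, mul_comm m] at h4
      exact lt_of_mul_lt_mul_right h4 (Nat.zero_le _)
    · rw [← e, mul_comm m] at h5
      exact le_of_mul_le_mul_right h5 h1

/-- the mean square over the classes as a sum over pairs -/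
theorem sq_pairs (f : ℕ → ℝ) {q : ℕ} (hq : 1 ≤ q) (N : ℕ) :
    ∑ a ∈ range q, WW f q a N ^ 2 = ∑ n ∈ Icc 1 N, ∑ n' ∈ Icc 1 N, f n * f n' * ci q n n' := by
  have e : ∀ a ∈ range q, WW f q a N ^ 2 = ∑ n ∈ Icc 1 N, ∑ n' ∈ Icc 1 N, f n * f n' * (ci q a n * ci q a n') := by
    intro a _
    unfold WW
    rw [pow_two, sum_mul_sum]
    apply sum_congr rfl; intro n _
    apply sum_congr rfl; intro n' _
    ring
  rw [sum_congr rfl e, sum_comm]
  apply sum_congr rfl; intro n _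
  rw [sum_comm]
  apply sum_congr rfl; intro n' _
  rw [← mul_sum, sum_ci_ci hq]

theorem sym_sum (G : ℕ → ℕ → ℝ) (hG : ∀ x y, G x y = G y x) (N : ℕ) :
    ∑ n ∈ Icc 1 N, ∑ n' ∈ Icc 1 N, G n n' = ∑ n ∈ Icc 1 N, G n n + 2 * ∑ n ∈ Icc 1 N, ∑ n' ∈ Ioc n N, G n n' := by
  induction N with
  | zero => simp
  | succ N ih =>
    have e1 : ∀ n ∈ Icc 1 N, ∑ n' ∈ Icc 1 (N + 1), G n n' = ∑ n' ∈ Icc 1 N, G n n' + G n (N + 1) := by
      intro n _
      rw [sum_Icc_succ_top (by omega)]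
    have e2 : ∀ n ∈ Icc 1 N, ∑ n' ∈ Ioc n (N + 1), G n n' = ∑ n' ∈ Ioc n N, G n n' + G n (N + 1) := by
      intro n hn
      rw [mem_Icc] at hn
      rw [sum_Ioc_succ_top (by omega)]
    rw [sum_Icc_succ_top (by omega), sum_Icc_succ_top (by omega) (fun n => G n n),
      sum_Icc_succ_top (by omega) (fun n => ∑ n' ∈ Ioc n (N + 1), G n n'), sum_congr rfl e1, sum_congr rfl e2,
      sum_add_distrib, sum_add_distrib, ih, sum_Icc_succ_top (by omega) (fun n' => G (N + 1) n')]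
    have e3 : ∑ n' ∈ Icc 1 N, G (N + 1) n' = ∑ n ∈ Icc 1 N, G n (N + 1) := sum_congr rfl fun n _ => hG _ _
    rw [e3, Ioc_self, sum_empty]
    ring

/-- large moduli, by switching the divisors -/
theorem large_moduli {f : ℕ → ℝ} (hf : ∀ n, |f n| ≤ 1) {N R Q : ℕ} (hR : 1 ≤ R) {E : ℝ}
    (hE : ∀ (a : ℕ → ℤ) (y : ℕ → ℕ), (∀ q, y q ≤ N) → ∑ m ∈ Icc 1 (N / R), |WW f m (a m) (y m)| ≤ E) :
    ∑ q ∈ Ioc R Q, ∑ a ∈ range q, WW f q a N ^ 2 ≤ Q * N + 4 * N * E := by
  have hE0 : 0 ≤ E := (sum_nonneg fun _ _ => abs_nonneg _).trans (hE (fun _ => 0) (fun _ => 0) (fun _ => Nat.zero_le _))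
  -- the diagonal
  have h1 : ∀ q ∈ Ioc R Q, ∑ a ∈ range q, WW f q a N ^ 2 =
      ∑ n ∈ Icc 1 N, f n ^ 2 + 2 * ∑ n ∈ Icc 1 N, ∑ n' ∈ Ioc n N, f n * f n' * ci q n n' := by
    intro q hq
    rw [mem_Ioc] at hq
    rw [sq_pairs f (by omega), sym_sum (fun n n' => f n * f n' * ci q n n') (by
      intro x y
      rw [ci_symm q x y]; ring)]
    congr 1
    apply sum_congr rfl
    intro n _
    have : ci q n n = 1 := by unfold ci; simp
    rw [this]; ring
  rw [sum_congr rfl h1, sum_add_distrib, ← mul_sum]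
  have h2 : ∑ q ∈ Ioc R Q, ∑ n ∈ Icc 1 N, f n ^ 2 ≤ Q * N := by
    have h3 : ∑ n ∈ Icc 1 N, f n ^ 2 ≤ N := by
      calc _ ≤ ∑ n ∈ Icc 1 N, (1 : ℝ) := by
            apply sum_le_sum
            intro n _
            rw [← sq_abs]
            exact pow_le_one₀ (abs_nonneg _) (hf n)
        _ = N := by rw [sum_const, Nat.card_Icc, nsmul_eq_mul]; simp
    rw [sum_const, nsmul_eq_mul, Nat.card_Ioc]
    have h4 : (((Q - R : ℕ)) : ℝ) ≤ Q := by exact_mod_cast Nat.sub_le _ _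
    have h5 : 0 ≤ ∑ n ∈ Icc 1 N, f n ^ 2 := sum_nonneg fun _ _ => sq_nonneg _
    exact mul_le_mul h4 h3 h5 (Nat.cast_nonneg _)
  -- the rest
  have h3 : ∑ q ∈ Ioc R Q, ∑ n ∈ Icc 1 N, ∑ n' ∈ Ioc n N, f n * f n' * ci q n n' =
      ∑ n ∈ Icc 1 N, f n * ∑ m ∈ Icc 1 (N / R),
        (WW f m n (min N (n + Q * m)) - WW f m n (min (min N (n + Q * m)) (n + R * m))) := by
    rw [sum_comm]
    apply sum_congr rfl
    intro n hn
    rw [mem_Icc] at hn
    rw [sum_comm]
    have e1 : ∀ n' ∈ Ioc n N, ∑ q ∈ Ioc R Q, f n * f n' * ci q n n' =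
        f n * ∑ m ∈ Icc 1 (N / R), f n' * (if m ∣ (n' - n) ∧ R * m < n' - n ∧ n' - n ≤ Q * m then (1 : ℝ) else 0) := by
      intro n' hn'
      rw [mem_Ioc] at hn'
      rw [← mul_sum, ← mul_sum, mul_assoc, ← switch hR (by omega) (by omega)]
      congr 2
      apply sum_congr rfl
      intro q _
      unfold ci
      have : ((q : ℤ) ∣ (n' : ℤ) - n) ↔ q ∣ n' - n := by
        rw [← Int.natCast_dvd_natCast, Nat.cast_sub hn'.1.le]
      simp only [this]
    rw [sum_congr rfl e1, ← mul_sum, sum_comm]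
    congr 1
    apply sum_congr rfl
    intro m hm
    rw [mem_Icc] at hm
    set y2 := min N (n + Q * m) with hy2
    set y1 := min y2 (n + R * m) with hy1
    have hy12 : y1 ≤ y2 := min_le_left _ _
    have e2 : WW f m n y2 - WW f m n y1 = ∑ n' ∈ Ioc y1 y2, f n' * ci m n n' := by
      unfold WW
      have h5 : Icc 1 y2 = Icc 1 y1 ∪ Ioc y1 y2 := by
        ext j
        rw [mem_union, mem_Icc, mem_Icc, mem_Ioc]
        omega
      have h6 : Disjoint (Icc 1 y1) (Ioc y1 y2) := by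
        rw [disjoint_left]
        intro j hj hj'
        rw [mem_Icc] at hj
        rw [mem_Ioc] at hj'
        omega
      rw [h5, sum_union h6]
      ring
    rw [e2]
    have e3 : ∑ n' ∈ Ioc n N, f n' * (if m ∣ (n' - n) ∧ R * m < n' - n ∧ n' - n ≤ Q * m then (1 : ℝ) else 0) =
        ∑ n' ∈ (Ioc n N).filter (fun n' => R * m < n' - n ∧ n' - n ≤ Q * m), f n' * ci m n n' := by
      rw [sum_filter]
      apply sum_congr rfl
      intro n' hn'
      rw [mem_Ioc] at hn'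
      unfold ci
      have h7 : ((m : ℤ) ∣ (n' : ℤ) - n) ↔ m ∣ n' - n := by
        rw [← Int.natCast_dvd_natCast, Nat.cast_sub hn'.1.le]
      by_cases c1 : m ∣ n' - n
      · by_cases c2 : R * m < n' - n ∧ n' - n ≤ Q * m
        · rw [if_pos ⟨c1, c2⟩, if_pos c2, if_pos (h7.2 c1)]
        · rw [if_neg (fun h => c2 h.2), if_neg c2, mul_zero]
      · rw [if_neg (fun h => c1 h.1), if_neg (fun h => c1 (h7.1 h)), mul_zero]
        split_ifs <;> rfl
    rw [e3]
    have e4 : (Ioc n N).filter (fun n' => R * m < n' - n ∧ n' - n ≤ Q * m) = Ioc y1 y2 := by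
      ext j
      rw [mem_filter, mem_Ioc, mem_Ioc]
      have hRm : 1 ≤ R * m := Nat.mul_pos (by omega) (by omega)
      omega
    rw [e4]
  have h4 : |∑ q ∈ Ioc R Q, ∑ n ∈ Icc 1 N, ∑ n' ∈ Ioc n N, f n * f n' * ci q n n'| ≤ N * (2 * E) := by
    rw [h3]
    have h5 : ∀ n ∈ Icc 1 N, |f n * ∑ m ∈ Icc 1 (N / R),
        (WW f m n (min N (n + Q * m)) - WW f m n (min (min N (n + Q * m)) (n + R * m)))| ≤ 2 * E := by
      intro n _
      rw [abs_mul]
      have h6 : |∑ m ∈ Icc 1 (N / R),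
        (WW f m n (min N (n + Q * m)) - WW f m n (min (min N (n + Q * m)) (n + R * m)))| ≤ 2 * E := by
        have a1 := hE (fun _ => n) (fun m => min N (n + Q * m)) (fun m => min_le_left _ _)
        have a2 := hE (fun _ => n) (fun m => min (min N (n + Q * m)) (n + R * m))
          (fun m => (min_le_left _ _).trans (min_le_left _ _))
        calc _ ≤ ∑ m ∈ Icc 1 (N / R),
              |WW f m n (min N (n + Q * m)) - WW f m n (min (min N (n + Q * m)) (n + R * m))| :=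
              abs_sum_le_sum_abs _ _
          _ ≤ ∑ m ∈ Icc 1 (N / R),
              (|WW f m n (min N (n + Q * m))| + |WW f m n (min (min N (n + Q * m)) (n + R * m))|) :=
              sum_le_sum fun _ _ => abs_sub _ _
          _ ≤ 2 * E := by rw [sum_add_distrib]; linarith
      calc _ ≤ 1 * (2 * E) := mul_le_mul (hf n) h6 (abs_nonneg _) (by norm_num)
        _ = _ := one_mul _
    calc _ ≤ ∑ n ∈ Icc 1 N, |f n * ∑ m ∈ Icc 1 (N / R),
        (WW f m n (min N (n + Q * m)) - WW f m n (min (min N (n + Q * m)) (n + R * m)))| := abs_sum_le_sum_abs _ _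
      _ ≤ ∑ n ∈ Icc 1 N, 2 * E := sum_le_sum h5
      _ = N * (2 * E) := by rw [sum_const, Nat.card_Icc, nsmul_eq_mul]; simp
  have h5 := (abs_le.1 h4).2
  linarith

/-- small moduli, by the maximum -/
theorem small_moduli {f : ℕ → ℝ} (hf : ∀ n, |f n| ≤ 1) {N R : ℕ} {E : ℝ}
    (hE : ∀ (a : ℕ → ℤ) (y : ℕ → ℕ), (∀ q, y q ≤ N) → ∑ m ∈ Icc 1 R, |WW f m (a m) (y m)| ≤ E) :
    ∑ q ∈ Icc 1 R, ∑ a ∈ range q, WW f q a N ^ 2 ≤ E * N := by
  have hex : ∀ q : ℕ, ∃ a : ℤ, 1 ≤ q → ∀ b ∈ range q, |WW f q b N| ≤ |WW f q a N| := by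
    intro q
    rcases Nat.eq_zero_or_pos q with rfl | hq
    · exact ⟨0, fun h => absurd h (by omega)⟩
    · obtain ⟨a, _, ha⟩ := exists_max_image (range q) (fun b : ℕ => |WW f q b N|) ⟨0, mem_range.2 hq⟩
      exact ⟨a, fun _ => ha⟩
  choose a ha using hex
  have h1 : ∑ q ∈ Icc 1 R, ∑ a ∈ range q, WW f q a N ^ 2 ≤ ∑ q ∈ Icc 1 R, |WW f q (a q) N| * N := by
    apply sum_le_sum
    intro q hq
    rw [mem_Icc] at hq
    exact sq_le_max hf hq.1 N (ha q hq.1)
  refine h1.trans ?_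
  rw [← sum_mul]
  exact mul_le_mul_of_nonneg_right (hE a (fun _ => N) (fun _ => le_rfl)) (Nat.cast_nonneg _)

/-- medium moduli, trivially -/
theorem medium_moduli {f : ℕ → ℝ} (hf : ∀ n, |f n| ≤ 1) (N R R' : ℕ) :
    ∑ q ∈ Ioc R R', ∑ a ∈ range q, WW f q a N ^ 2 ≤ N ^ 2 * ∑ q ∈ Ioc R R', 1 / (q : ℝ) + R' * N := by
  have h1 : ∀ q ∈ Ioc R R', ∑ a ∈ range q, WW f q a N ^ 2 ≤ N ^ 2 * (1 / (q : ℝ)) + N := by
    intro q hq
    rw [mem_Ioc] at hq
    have h2 := sq_le_max hf (show 1 ≤ q by omega) N (B := (N : ℝ) / q + 1)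
      (fun a _ => (WW_abs_le hf a N).trans (ci_Icc_le (by omega) a N))
    refine h2.trans (le_of_eq ?_)
    ring
  refine (sum_le_sum h1).trans ?_
  rw [sum_add_distrib, ← mul_sum, sum_const, nsmul_eq_mul, Nat.card_Ioc]
  have h3 : (((R' - R : ℕ)) : ℝ) ≤ R' := by exact_mod_cast Nat.sub_le _ _
  have h4 : (((R' - R : ℕ)) : ℝ) * N ≤ R' * N := mul_le_mul_of_nonneg_right h3 (Nat.cast_nonneg _)
  linarith

end Pool.Agent.T6.H47.BV
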