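import Pool.Agent.T6.H47.BV8

set_option autoImplicit false

/-! Invariant sets: all classes, all moduli, mean squares, and sufficiency. -/

namespace Pool.Agent.T6.H47.BV

open Finset Filter Topology Pool.Agent.H499R2.CO Pool.Agent.H499R2.ND

theorem WW_disc (g : ℕ → ℝ) (hg : ∀ n, |g n| ≤ 1) {q : ℕ} (hq : 1 ≤ q) (a : ℤ) (y : ℕ) {δ : ℝ} (hδ0 : 0 ≤ δ)
    (hδ1 : δ ≤ 1) : |WW (fun n => g n - δ) q a y| ≤ |disc g y a q| + (1 / (q : ℝ)) * |∑ n ∈ range y, g n - δ * y| + 5 := by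
  have e : WW (fun n => g n - δ) q a y = disc g y a q + (1 / (q : ℝ)) * (∑ n ∈ range y, g n - δ * y) +
      δ * ((y : ℝ) / q - ∑ n ∈ range y, ci q a n) +
      ((g y - δ) * ci q a y - (g 0 - δ) * ci q a ((0 : ℕ) : ℤ)) := by
    unfold WW disc
    rw [Icc_eq_range' (fun n : ℕ => (g n - δ) * ci q a n)]
    have e1 : ∑ n ∈ range y, (g n - δ) * ci q a n = ∑ n ∈ range y, g n * ci q a n - δ * ∑ n ∈ range y, ci q a n := by
      rw [mul_sum, ← sum_sub_distrib]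
      apply sum_congr rfl
      intro n _
      ring
    rw [e1]
    ring
  rw [e]
  have h1 : |δ * ((y : ℝ) / q - ∑ n ∈ range y, ci q a n)| ≤ 1 := by
    rw [abs_mul, abs_of_nonneg hδ0, abs_sub_comm]
    exact mul_le_one₀ hδ1 (abs_nonneg _) (ci_count hq a y)
  have h2 : ∀ n : ℕ, |(g n - δ) * ci q a n| ≤ 2 := by
    intro n
    rw [abs_mul, abs_of_nonneg (ci_nonneg _ _ _)]
    have h3 : |g n - δ| ≤ 2 := by
      have := abs_sub (g n) δ
      have := hg n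
      rw [abs_of_nonneg hδ0] at *
      linarith
    calc _ ≤ 2 * 1 := mul_le_mul h3 (ci_le_one _ _ _) (ci_nonneg _ _ _) (by norm_num)
      _ = 2 := by norm_num
  have h3 := h2 y
  have h4 := h2 0
  have h5 : |(1 / (q : ℝ)) * (∑ n ∈ range y, g n - δ * y)| = (1 / (q : ℝ)) * |∑ n ∈ range y, g n - δ * y| := by
    rw [abs_mul, abs_of_nonneg (by positivity : (0 : ℝ) ≤ 1 / q)]
  have h6 := abs_add_le (disc g y a q + (1 / (q : ℝ)) * (∑ n ∈ range y, g n - δ * y) +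
      δ * ((y : ℝ) / q - ∑ n ∈ range y, ci q a n)) ((g y - δ) * ci q a y - (g 0 - δ) * ci q a ((0 : ℕ) : ℤ))
  have h7 := abs_add_le (disc g y a q + (1 / (q : ℝ)) * (∑ n ∈ range y, g n - δ * y))
      (δ * ((y : ℝ) / q - ∑ n ∈ range y, ci q a n))
  have h8 := abs_add_le (disc g y a q) ((1 / (q : ℝ)) * (∑ n ∈ range y, g n - δ * y))
  have h9 := abs_sub ((g y - δ) * ci q a y) ((g 0 - δ) * ci q a ((0 : ℕ) : ℤ))
  rw [h5] at h8
  calc _ ≤ _ := h6
    _ ≤ (|disc g y a q| + 1 / (q : ℝ) * |∑ n ∈ range y, g n - δ * y| + 1) + (2 + 2) :=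
        add_le_add (h7.trans (add_le_add h8 h1)) (h9.trans (add_le_add h3 h4))
    _ = _ := by ring

theorem dens_dyadic : ∃ C : ℝ, 0 < C ∧ ∀ s : ℤ, (s = 1 ∨ s = -1) → ∀ S : Set ℤ, Inv 1 S →
    ∃ δ : ℝ, 0 ≤ δ ∧ δ ≤ 1 ∧ HD s S δ ∧ 
      (∀ N : ℕ, 2 ≤ N → ∀ y : ℕ, y ≤ N →
        |∑ n ∈ Icc 1 y, ind S (s * (n : ℕ)) - δ * y| ≤ C * (N / Real.log N ^ (1 / 30 : ℝ))) ∧
      ∀ N : ℕ, 2 ≤ N → ∀ Q : ℕ, 1 ≤ Q → ∀ (a : ℕ → ℤ) (y : ℕ → ℕ),
      (∀ q, y q ≤ N) → ∑ q ∈ Ioc Q (2 * Q), |WW (fun n : ℕ => ind S (s * n) - δ) q (a q) (y q)| ≤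
        C * (N / Real.log N ^ (1 / 30 : ℝ) + Q * √N) := by
  obtain ⟨C₁, hC₁, h₁⟩ := bv_sync
  obtain ⟨C₂, hC₂, h₂⟩ := dens_range
  refine ⟨2 * C₁ + C₂ + 6, by positivity, fun s hs S hS => ?_⟩
  obtain ⟨δ, hδ0, hδ1, hHD, hrate⟩ := h₂ s hs S hS
  have hmain : ∀ N : ℕ, 2 ≤ N → 1 ≤ 2 * ((N : ℝ) / Real.log N ^ (1 / 30 : ℝ)) := by
    intro N hN
    have hNr : (2 : ℝ) ≤ N := by exact_mod_cast hN
    have hL0 : 0 < Real.log N := Real.log_pos (by linarith)
    have hx0 : 0 < Real.log N ^ (1 / 30 : ℝ) := Real.rpow_pos_of_pos hL0 _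
    have hLN : Real.log N ≤ N := by
      have := Real.log_le_sub_one_of_pos (x := N) (by linarith)
      linarith
    rw [mul_div_assoc', le_div_iff₀ hx0, one_mul]
    rcases le_or_gt 1 (Real.log N) with h1 | h1
    · calc _ ≤ Real.log N ^ (1 : ℝ) := Real.rpow_le_rpow_of_exponent_le h1 (by norm_num)
        _ = Real.log N := Real.rpow_one _
        _ ≤ 2 * N := by linarith
    · have := Real.rpow_le_one hL0.le h1.le (show (0 : ℝ) ≤ 1 / 30 by norm_num)
      linarith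
  refine ⟨δ, hδ0, hδ1, hHD, fun N hN y hy => ?_, fun N hN Q hQ a y hy => ?_⟩
  · have h1 := hrate N hN y hy
    have h2 := hmain N hN
    rw [Icc_eq_range' (fun n : ℕ => ind S (s * (n : ℕ)))]
    have h3 := ind_abs S (s * (y : ℕ))
    have h4 := ind_abs S (s * ((0 : ℕ) : ℤ))
    have hpos : 0 ≤ (N : ℝ) / Real.log N ^ (1 / 30 : ℝ) := by
      have : (2 : ℝ) ≤ N := by exact_mod_cast hN
      have : 0 ≤ Real.log N := Real.log_nonneg (by linarith)
      positivity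
    have h6 : |ind S (s * (y : ℕ)) - ind S (s * ((0 : ℕ) : ℤ))| ≤ 2 := by
      refine (abs_sub _ _).trans ?_
      linarith
    have e : ∑ n ∈ range y, ind S (s * (n : ℕ)) + (ind S (s * (y : ℕ)) - ind S (s * ((0 : ℕ) : ℤ))) - δ * y =
      (∑ n ∈ range y, ind S (s * (n : ℕ)) - δ * y) + (ind S (s * (y : ℕ)) - ind S (s * ((0 : ℕ) : ℤ))) := by ring
    rw [e]
    refine (abs_add_le _ _).trans ?_
    have h7 := mul_nonneg hC₁.le hpos
    generalize (N : ℝ) / Real.log N ^ (1 / 30 : ℝ) = X at *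
    linarith
  · have hNr : (2 : ℝ) ≤ N := by exact_mod_cast hN
    have hQr : (1 : ℝ) ≤ Q := by exact_mod_cast hQ
    have hL0 : 0 < Real.log N := Real.log_pos (by linarith)
    have hsN1 : 1 ≤ √(N : ℝ) := Real.one_le_sqrt.2 (by linarith)
    have hgb : ∀ n : ℕ, |(fun n : ℕ => ind S (s * n)) n| ≤ 1 := fun n => ind_abs _ _
    have h1 := h₁ s hs (ind S) (ind_abs S) (ind_sync hS) N hN Q hQ a y hy
    have h2 : ∀ q ∈ Ioc Q (2 * Q), |WW (fun n : ℕ => ind S (s * n) - δ) q (a q) (y q)| ≤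
        |disc (fun n : ℕ => ind S (s * n)) (y q) (a q) q| +
          (C₂ * (N / Real.log N ^ (1 / 30 : ℝ))) * (1 / (q : ℝ)) + 5 := by
      intro q hq
      rw [mem_Ioc] at hq
      have h3 := WW_disc _ hgb (show 1 ≤ q by omega) (a q) (y q) hδ0 hδ1
      have h4 := hrate N hN (y q) (hy q)
      have h5 : (1 / (q : ℝ)) * |∑ n ∈ range (y q), ind S (s * (n : ℕ)) - δ * (y q)| ≤
          (1 / (q : ℝ)) * (C₂ * (N / Real.log N ^ (1 / 30 : ℝ))) := mul_le_mul_of_nonneg_left h4 (by positivity)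
      linarith
    refine (sum_le_sum h2).trans ?_
    rw [sum_add_distrib, sum_add_distrib, ← mul_sum, sum_const, Nat.card_Ioc, show 2 * Q - Q = Q by omega,
      nsmul_eq_mul]
    have h3 := sum_inv_le_one hQ
    have hx : 0 ≤ C₂ * (N / Real.log N ^ (1 / 30 : ℝ)) := by positivity
    have h4 : (C₂ * (N / Real.log N ^ (1 / 30 : ℝ))) * ∑ q ∈ Ioc Q (2 * Q), 1 / (q : ℝ) ≤
        (C₂ * (N / Real.log N ^ (1 / 30 : ℝ))) * 1 := mul_le_mul_of_nonneg_left h3 hx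
    have h5 : (N : ℝ) / Real.log N ^ (1 / 5 : ℝ) ≤ 2 * (N / Real.log N ^ (1 / 30 : ℝ)) := by
      have hx5 : 0 < Real.log N ^ (1 / 5 : ℝ) := Real.rpow_pos_of_pos hL0 _
      have hx30 : 0 < Real.log N ^ (1 / 30 : ℝ) := Real.rpow_pos_of_pos hL0 _
      rw [mul_div_assoc', div_le_div_iff₀ hx5 hx30]
      have h6 : Real.log N ^ (1 / 30 : ℝ) ≤ 2 * Real.log N ^ (1 / 5 : ℝ) := by
        rcases le_or_gt 1 (Real.log N) with h7 | h7
        · have := Real.rpow_le_rpow_of_exponent_le h7 (show (1 / 30 : ℝ) ≤ 1 / 5 by norm_num)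
          linarith
        · have h8 := Real.rpow_le_one hL0.le h7.le (show (0 : ℝ) ≤ 1 / 30 by norm_num)
          have h9 : 0.5 ≤ Real.log N ^ (1 / 5 : ℝ) := by
            have h10 : 0.69 < Real.log N := by
              have := Real.log_le_log (by norm_num) hNr
              have := Real.log_two_gt_d9
              linarith
            calc (0.5 : ℝ) ≤ Real.log N := by linarith
              _ = Real.log N ^ (1 : ℝ) := (Real.rpow_one _).symm
              _ ≤ _ := Real.rpow_le_rpow_of_exponent_ge hL0 h7.le (by norm_num)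
          linarith
      nlinarith
    have h6 : (Q : ℝ) ≤ Q * √N := le_mul_of_one_le_right (by linarith) hsN1
    have h7 : 0 ≤ (N : ℝ) / Real.log N ^ (1 / 30 : ℝ) := by positivity
    have h8 := mul_le_mul_of_nonneg_left h5 hC₁.le
    have h9 : 0 ≤ C₂ * (Q * √(N : ℝ)) := by positivity
    have h10 : 0 ≤ C₁ * (Q * √(N : ℝ)) := by positivity
    nlinarith

/-- from dyadic intervals to all moduli -/
theorem all_of_dyadic' {D : ℕ → ℝ} {A B : ℝ} (hA : 0 ≤ A) (hB : 0 ≤ B) (h1 : D 1 ≤ A + B) (h0 : ∀ q, 1 ≤ q → 0 ≤ D q)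
    (h : ∀ Q : ℕ, 1 ≤ Q → ∑ q ∈ Ioc Q (2 * Q), D q ≤ A + Q * B) (R : ℕ) :
    ∑ q ∈ Icc 1 R, D q ≤ ((Nat.clog 2 R : ℝ) + 1) * A + (2 * R + 1) * B := by
  have hD1 : 0 ≤ D 1 := h0 1 le_rfl
  set D' : ℕ → ℝ := fun q => if q = 1 then 0 else D q with hD'
  have h2 := all_of_dyadic (D := D') hA hB (by rw [hD']; simp) (fun q hq => by
    rw [hD']; simp only
    split_ifs
    · exact le_rfl
    · exact h0 q hq) (fun Q hQ => by
    refine le_trans ?_ (h Q hQ)
    apply sum_le_sum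
    intro q hq
    rw [mem_Ioc] at hq
    rw [hD']; simp only
    rw [if_neg (by omega)]) R
  have h3 : ∑ q ∈ Icc 1 R, D q ≤ ∑ q ∈ Icc 1 R, D' q + D 1 := by
    rcases Nat.eq_zero_or_pos R with rfl | hR
    · simp; exact hD1
    · have h4 : ∀ q ∈ Icc 1 R, D q = D' q + (if q = 1 then D 1 else 0) := by
        intro q _
        rw [hD']; simp only
        split_ifs with h5
        · rw [h5]; ring
        · ring
      rw [sum_congr rfl h4, sum_add_distrib, sum_ite_eq' (Icc 1 R) 1 (fun _ => D 1),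
        if_pos (by rw [mem_Icc]; omega)]
  linarith

theorem dens_all : ∃ C : ℝ, 0 < C ∧ ∀ s : ℤ, (s = 1 ∨ s = -1) → ∀ S : Set ℤ, Inv 1 S → ∀ δ : ℝ, HD s S δ →
    ∀ N : ℕ, 2 ≤ N → ∀ (a : ℕ → ℤ) (y : ℕ → ℕ), (∀ q, y q ≤ N) → ∀ R : ℕ, R ≤ N →
      ∑ q ∈ Icc 1 R, |WW (fun n : ℕ => ind S (s * n) - δ) q (a q) (y q)| ≤
        C * (N * Real.log N ^ (29 / 30 : ℝ) + R * √N) := by
  obtain ⟨C, hC, h⟩ := dens_dyadic
  refine ⟨20 * C, by positivity, fun s hs S hS δ hδ N hN a y hy R hR => ?_⟩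
  obtain ⟨δ', hδ0, hδ1, hHD, hfirst, hdy⟩ := h s hs S hS
  have hδδ : δ = δ' := HD_unique hδ hHD
  subst hδδ
  have hNr : (2 : ℝ) ≤ N := by exact_mod_cast hN
  have hL0 : 0 < Real.log N := Real.log_pos (by linarith)
  have hL69 : 0.69 < Real.log N := by
    have := Real.log_le_log (by norm_num) hNr
    have := Real.log_two_gt_d9
    linarith
  set L := Real.log N with hL
  have hx : 0 < L ^ (1 / 30 : ℝ) := Real.rpow_pos_of_pos hL0 _
  have h1 := all_of_dyadic' (D := fun q => |WW (fun n : ℕ => ind S (s * n) - δ) q (a q) (y q)|)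
    (A := C * (N / L ^ (1 / 30 : ℝ))) (B := C * √N) (by positivity) (by positivity) (by
      have h2 := hfirst N hN (y 1) (hy 1)
      have e : WW (fun n : ℕ => ind S (s * n) - δ) 1 (a 1) (y 1) = ∑ n ∈ Icc 1 (y 1), ind S (s * (n : ℕ)) - δ * y 1 := by
        unfold WW ci
        simp only [Nat.cast_one, isUnit_one, IsUnit.dvd, if_true, mul_one, sum_sub_distrib, sum_const, Nat.card_Icc,
          add_tsub_cancel_right, nsmul_eq_mul]
        ring
      rw [e]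
      have : 0 ≤ C * √(N : ℝ) := by positivity
      linarith) (fun q _ => abs_nonneg _) (fun Q hQ => by
      refine (hdy N hN Q hQ a y hy).trans (le_of_eq ?_)
      ring) R
  refine h1.trans ?_
  have h2 := clog_le_log hN hR
  rw [← hL] at h2
  have h3 : ((Nat.clog 2 R : ℝ) + 1) * (C * (N / L ^ (1 / 30 : ℝ))) ≤ (6 * L) * (C * (N / L ^ (1 / 30 : ℝ))) :=
    mul_le_mul_of_nonneg_right (by linarith) (by positivity)
  have h4 : (6 * L) * (C * (N / L ^ (1 / 30 : ℝ))) = 6 * C * (N * L ^ (29 / 30 : ℝ)) := by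
    have e : L = L ^ (1 / 30 : ℝ) * L ^ (29 / 30 : ℝ) := by
      rw [← Real.rpow_add hL0]; norm_num
    nth_rewrite 1 [e]
    field_simp
  have h5 : √(N : ℝ) ≤ 2 * (N * L ^ (29 / 30 : ℝ)) := by
    have h6 : 0.5 ≤ L ^ (29 / 30 : ℝ) := by
      rcases le_or_gt 1 L with h1 | h1
      · have := Real.one_le_rpow h1 (show (0 : ℝ) ≤ 29 / 30 by norm_num)
        linarith
      · calc (0.5 : ℝ) ≤ L := by linarith
          _ = L ^ (1 : ℝ) := (Real.rpow_one L).symm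
          _ ≤ L ^ (29 / 30 : ℝ) := Real.rpow_le_rpow_of_exponent_ge hL0 h1.le (by norm_num)
    have h7 : √(N : ℝ) ≤ N := by
      rw [Real.sqrt_le_left (by linarith)]
      nlinarith
    nlinarith
  have h6 : 0 ≤ C * (R * √(N : ℝ)) := by positivity
  have h7 := mul_le_mul_of_nonneg_left h5 hC.le
  have h8 : 0 ≤ C * (N * L ^ (29 / 30 : ℝ)) := by positivity
  linarith

theorem harm_Ioc {R R' : ℕ} (hR' : 1 ≤ R') (h : R ≤ R') :
    ∑ q ∈ Ioc R R', 1 / (q : ℝ) ≤ 1 + Real.log R' - Real.log (R + 1) := by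
  have h1 := harmonic_le_one_add_log R'
  have h2 := log_add_one_le_harmonic R
  rw [harmonic_eq_sum_Icc] at h1 h2
  push_cast at h1 h2
  have e : ∑ q ∈ Icc 1 R', ((q : ℝ))⁻¹ = ∑ q ∈ Icc 1 R, ((q : ℝ))⁻¹ + ∑ q ∈ Ioc R R', ((q : ℝ))⁻¹ := by
    have h5 : Icc 1 R' = Icc 1 R ∪ Ioc R R' := by
      ext j
      rw [mem_union, mem_Icc, mem_Icc, mem_Ioc]
      omega
    have h6 : Disjoint (Icc 1 R) (Ioc R R') := by
      rw [disjoint_left]
      intro j hj hj'
      rw [mem_Icc] at hj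
      rw [mem_Ioc] at hj'
      omega
    rw [h5, sum_union h6]
  simp only [one_div]
  linarith

/-- **mean squares over all classes** -/
theorem bdh : ∃ C : ℝ, 0 < C ∧ ∀ s : ℤ, (s = 1 ∨ s = -1) → ∀ S : Set ℤ, Inv 1 S → ∀ δ : ℝ, HD s S δ →
    ∀ N : ℕ, 2 ≤ N → ∀ Q : ℕ, Q ≤ N →
      ∑ q ∈ Icc 1 Q, ∑ a ∈ range q, WW (fun n : ℕ => ind S (s * n) - δ) q a N ^ 2 ≤
        C * (N ^ 2 * Real.log N ^ (29 / 30 : ℝ) + Q * N) := by
  obtain ⟨C, hC, h⟩ := dens_all
  obtain ⟨C₀, _, h₀⟩ := dens_dyadic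
  refine ⟨100 + 20 * C, by positivity, fun s hs S hS δ hδ N hN Q hQ => ?_⟩
  obtain ⟨δ', hδ0, hδ1, hHD, -, -⟩ := h₀ s hs S hS
  have hδδ : δ = δ' := HD_unique hδ hHD
  subst hδδ
  set f : ℕ → ℝ := fun n : ℕ => ind S (s * n) - δ with hf
  have hfb : ∀ n, |f n| ≤ 1 := by
    intro n
    have h1 := ind_nonneg S (s * n)
    have h2 := ind_le_one S (s * n)
    rw [hf, abs_le]
    constructor <;> simp only <;> linarith
  have hNr : (2 : ℝ) ≤ N := by exact_mod_cast hN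
  have hL0 : 0 < Real.log N := Real.log_pos (by linarith)
  have hL69 : 0.69 < Real.log N := by
    have := Real.log_le_log (by norm_num) hNr
    have := Real.log_two_gt_d9
    linarith
  have hQr : (0 : ℝ) ≤ Q := Nat.cast_nonneg _
  have hQN : (Q : ℝ) ≤ N := by exact_mod_cast hQ
  set L := Real.log N with hL
  set z := L ^ (29 / 30 : ℝ) with hz
  have hz5 : 0.5 ≤ z := by
    rcases le_or_gt 1 L with h1 | h1
    · have := Real.one_le_rpow h1 (show (0 : ℝ) ≤ 29 / 30 by norm_num)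
      linarith
    · calc (0.5 : ℝ) ≤ L := by linarith
        _ = L ^ (1 : ℝ) := (Real.rpow_one L).symm
        _ ≤ L ^ (29 / 30 : ℝ) := Real.rpow_le_rpow_of_exponent_ge hL0 h1.le (by norm_num)
  have hN2z : (N : ℝ) ^ 2 ≤ 2 * (N ^ 2 * z) := by nlinarith [sq_nonneg (N : ℝ)]
  have hnn : ∀ q, 0 ≤ ∑ a ∈ range q, WW f q a N ^ 2 := fun q => sum_nonneg fun _ _ => sq_nonneg _
  have hQN0 : 0 ≤ (Q : ℝ) * N := by positivity
  rcases Nat.lt_or_ge N 16 with hsmall | hbig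
  · -- small `N`
    have h1 := medium_moduli hfb N 0 Q
    have e : Ioc 0 Q = Icc 1 Q := by ext j; rw [mem_Ioc, mem_Icc]; omega
    rw [e] at h1
    have h2 : ∑ q ∈ Icc 1 Q, 1 / (q : ℝ) ≤ 16 := by
      calc _ ≤ ∑ q ∈ Icc 1 Q, (1 : ℝ) := by
            apply sum_le_sum
            intro q hq
            rw [mem_Icc] at hq
            have : (1 : ℝ) ≤ q := by exact_mod_cast hq.1
            rw [div_le_one (by linarith)]; exact this
        _ = Q := by rw [sum_const, Nat.card_Icc, nsmul_eq_mul]; simp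
        _ ≤ 16 := by
            have : Q ≤ 16 := by omega
            exact_mod_cast this
    have h3 : (N : ℝ) ^ 2 * ∑ q ∈ Icc 1 Q, 1 / (q : ℝ) ≤ N ^ 2 * 16 := mul_le_mul_of_nonneg_left h2 (sq_nonneg _)
    have h4 : 0 ≤ C * (N ^ 2 * z + Q * N) := by positivity
    nlinarith
  have hNr16 : (16 : ℝ) ≤ N := by exact_mod_cast hbig
  have hL1 : 1 ≤ L := by
    have := Real.log_le_log (by norm_num) hNr16
    rw [show (16 : ℝ) = 2 ^ 4 by norm_num, Real.log_pow] at this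
    have := Real.log_two_gt_d9
    push_cast at *
    linarith
  have hsN1 : 1 ≤ √(N : ℝ) := Real.one_le_sqrt.2 (by linarith)
  have hss : √(N : ℝ) * √N = N := Real.mul_self_sqrt (by linarith)
  have hsN0 : 0 < √(N : ℝ) := by linarith
  -- the three ranges
  set R0 := ⌊√(N : ℝ) / L⌋₊ with hR0
  set R1 := ⌈√(N : ℝ) * L⌉₊ with hR1
  have hR0le : (R0 : ℝ) ≤ √N / L := Nat.floor_le (by positivity)
  have hR0ge : √(N : ℝ) / L ≤ R0 + 1 := (Nat.lt_floor_add_one _).le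
  have hR1ge : √(N : ℝ) * L ≤ R1 := Nat.le_ceil _
  have hR1le : (R1 : ℝ) ≤ √N * L + 1 := (Nat.ceil_lt_add_one (by positivity)).le
  have hsL : 1 ≤ √(N : ℝ) * L := by nlinarith
  have hR1' : (R1 : ℝ) ≤ 2 * (√N * L) := by linarith
  have hR11 : 1 ≤ R1 := by
    have : (1 : ℝ) ≤ R1 := hsL.trans hR1ge
    exact_mod_cast this
  have hR01 : R0 ≤ R1 := by
    have : (R0 : ℝ) ≤ R1 := by
      calc (R0 : ℝ) ≤ √N / L := hR0le
        _ ≤ √N := div_le_self hsN0.le hL1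
        _ ≤ √N * L := le_mul_of_one_le_right hsN0.le hL1
        _ ≤ R1 := hR1ge
    exact_mod_cast this
  have hR0N : R0 ≤ N := by
    have : (R0 : ℝ) ≤ N := by
      calc (R0 : ℝ) ≤ √N / L := hR0le
        _ ≤ √N := div_le_self hsN0.le hL1
        _ ≤ √N * √N := le_mul_of_one_le_right hsN0.le hsN1
        _ = N := hss
    exact_mod_cast this
  have hsplit : ∑ q ∈ Icc 1 Q, ∑ a ∈ range q, WW f q a N ^ 2 ≤
      ∑ q ∈ Icc 1 R0, ∑ a ∈ range q, WW f q a N ^ 2 + ∑ q ∈ Ioc R0 R1, ∑ a ∈ range q, WW f q a N ^ 2 +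
      ∑ q ∈ Ioc R1 Q, ∑ a ∈ range q, WW f q a N ^ 2 := by
    have hd1 : Disjoint (Icc 1 R0) (Ioc R0 R1) := by
      rw [disjoint_left]
      intro j hj hj'
      rw [mem_Icc] at hj
      rw [mem_Ioc] at hj'
      omega
    have hd2 : Disjoint (Icc 1 R0 ∪ Ioc R0 R1) (Ioc R1 Q) := by
      rw [disjoint_left]
      intro j hj hj'
      rw [mem_union, mem_Icc, mem_Ioc] at hj
      rw [mem_Ioc] at hj'
      omega
    rw [← sum_union hd1, ← sum_union hd2]
    apply sum_le_sum_of_subset_of_nonneg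
    · intro j hj
      rw [mem_Icc] at hj
      rw [mem_union, mem_union, mem_Icc, mem_Ioc, mem_Ioc]
      omega
    · intro q _ _
      exact hnn q
  have hsm := small_moduli hfb (N := N) (R := R0) (E := C * (N * z + R0 * √N))
    (fun a y hy => h s hs S hS δ hδ N hN a y hy R0 hR0N)
  have hmed := medium_moduli hfb N R0 R1
  have hlg := large_moduli hfb (N := N) (R := R1) (Q := Q) hR11 (E := C * (N * z + (N / R1 : ℕ) * √N))
    (fun a y hy => h s hs S hS δ hδ N hN a y hy (N / R1) (Nat.div_le_self _ _))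
  -- the estimates
  have a1 : (R0 : ℝ) * √N ≤ N := by
    calc (R0 : ℝ) * √N ≤ √N * √N := mul_le_mul_of_nonneg_right (hR0le.trans (div_le_self hsN0.le hL1)) hsN0.le
      _ = N := hss
  have a2 : ((N / R1 : ℕ) : ℝ) * √N ≤ N := by
    have h1 : ((N / R1 : ℕ) : ℝ) ≤ (N : ℝ) / R1 := Nat.cast_div_le
    have h2 : (N : ℝ) / R1 ≤ √N := by
      rw [div_le_iff₀ (by linarith)]
      calc (N : ℝ) = √N * √N := hss.symm
        _ ≤ √N * R1 := by
            apply mul_le_mul_of_nonneg_left _ hsN0.le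
            exact (le_mul_of_one_le_right hsN0.le hL1).trans hR1ge
    calc _ ≤ √N * √N := mul_le_mul_of_nonneg_right (h1.trans h2) hsN0.le
      _ = N := hss
  have a3 : ∑ q ∈ Ioc R0 R1, 1 / (q : ℝ) ≤ 2 + 3 * z := by
    have h1 := harm_Ioc hR11 hR01
    have h2 : Real.log R1 ≤ Real.log (2 * (√N * L)) := Real.log_le_log (by linarith) hR1'
    have h3 : Real.log (√N / L) ≤ Real.log (R0 + 1) := Real.log_le_log (by positivity) hR0ge
    rw [Real.log_mul (by norm_num) (by positivity), Real.log_mul (by positivity) (by positivity)] at h2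
    rw [Real.log_div (by positivity) (by positivity)] at h3
    have h4 : Real.log L ≤ (30 / 29) * z := by
      have := Real.log_le_rpow_div (x := L) hL0.le (ε := 29 / 30) (by norm_num)
      refine this.trans (le_of_eq ?_)
      rw [hz]; ring
    have h5 := Real.log_two_lt_d9
    linarith
  have a4 : (R1 : ℝ) * N ≤ 4 * N ^ 2 := by
    have h1 : L ≤ 2 * √N := by
      have h1 := Real.log_le_rpow_div (x := N) (by linarith) (ε := 1 / 2) (by norm_num)
      rw [← Real.sqrt_eq_rpow] at h1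
      linarith
    have h2 : (R1 : ℝ) ≤ 4 * N := by
      calc (R1 : ℝ) ≤ 2 * (√N * L) := hR1'
        _ ≤ 2 * (√N * (2 * √N)) := by
            apply mul_le_mul_of_nonneg_left _ (by norm_num)
            exact mul_le_mul_of_nonneg_left h1 hsN0.le
        _ = 4 * (√N * √N) := by ring
        _ = 4 * N := by rw [hss]
    nlinarith
  have b1 : C * (N * z + R0 * √N) * N ≤ 3 * C * (N ^ 2 * z) := by
    have h1 : C * (N * z + R0 * √N) * N ≤ C * (N * z + N) * N := by gcongr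
    have h2 : C * (N * z + N) * N = C * (N ^ 2 * z) + C * N ^ 2 := by ring
    have h3 := mul_le_mul_of_nonneg_left hN2z hC.le
    linarith
  have b2 : 4 * N * (C * (N * z + (N / R1 : ℕ) * √N)) ≤ 4 * (3 * C * (N ^ 2 * z)) := by
    have h1 : 4 * N * (C * (N * z + (N / R1 : ℕ) * √N)) ≤ 4 * N * (C * (N * z + N)) := by gcongr
    have h2 : 4 * N * (C * (N * z + N)) = 4 * (C * (N ^ 2 * z) + C * N ^ 2) := by ring
    have h3 := mul_le_mul_of_nonneg_left hN2z hC.le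
    linarith
  have b3 : (N : ℝ) ^ 2 * ∑ q ∈ Ioc R0 R1, 1 / (q : ℝ) ≤ 2 * N ^ 2 + 3 * (N ^ 2 * z) := by
    have := mul_le_mul_of_nonneg_left a3 (sq_nonneg (N : ℝ))
    linarith
  have hCz : 0 ≤ C * (N ^ 2 * z) := by positivity
  have hCQ : 0 ≤ C * ((Q : ℝ) * N) := by positivity
  have hfinal : ∑ q ∈ Icc 1 Q, ∑ a ∈ range q, WW f q a N ^ 2 ≤ 15 * (C * (N ^ 2 * z)) + 15 * (N ^ 2 * z) + Q * N := by
    linarith
  have e : (100 + 20 * C) * ((N : ℝ) ^ 2 * z + Q * N) = 100 * (N ^ 2 * z) + 100 * (Q * N) + 20 * (C * (N ^ 2 * z)) +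
    20 * (C * (Q * N)) := by ring
  have hNz : 0 ≤ (N : ℝ) ^ 2 * z := by positivity
  rw [e]
  linarith

end Pool.Agent.T6.H47.BV
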