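import Pool.Agent.H499R2.CO.R4

set_option autoImplicit false

/-! The chain of a pair `x`, `3 ^ i x + r`, killed when the level is zero, and the simple random walk. -/

namespace Pool.Agent.T6.H47.CL

open Finset Pool.Agent.H499R2.CO

/-- parity sign of `r` -/
noncomputable def Y (s : ℕ × ℤ) : ℝ := if s.2 % 2 = 0 then 1 else -1

theorem Y_even {i : ℕ} {r : ℤ} (h : r % 2 = 0) : Y (i, r) = 1 := by unfold Y; rw [if_pos h]

theorem Y_odd {i : ℕ} {r : ℤ} (h : r % 2 = 1) : Y (i, r) = -1 := by
  unfold Y; rw [if_neg (by simp only; omega)]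

theorem Y_sq (s : ℕ × ℤ) : Y s * Y s = 1 := by unfold Y; split_ifs <;> norm_num

theorem Y_abs (s : ℕ × ℤ) : |Y s| = 1 := by unfold Y; split_ifs <;> simp

/-- the probability that the level is positive up to time `t` -/
noncomputable def al : ℕ → ℕ × ℤ → ℝ
  | 0, s => if s.1 = 0 then 0 else 1
  | t + 1, s => if s.1 = 0 then 0 else (al t (step s false) + al t (step s true)) / 2

/-- the second moment of `a + Σ Y` over the times before the level zero -/
noncomputable def GG : ℕ → ℕ × ℤ → ℝ → ℝ
  | 0, _, a => a ^ 2
  | t + 1, s, a => if s.1 = 0 then a ^ 2 else (GG t (step s false) (a + Y s) + GG t (step s true) (a + Y s)) / 2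

/-- the probability that the simple random walk from `i` does not reach `0` in `k` steps -/
noncomputable def uu : ℕ → ℕ → ℝ
  | 0, i => if i = 0 then 0 else 1
  | k + 1, i => if i = 0 then 0 else (uu k (i + 1) + uu k (i - 1)) / 2

/-- the mean of the sum of `Y` -/
noncomputable def mm : ℕ → ℕ × ℤ → ℝ
  | 0, _ => 0
  | t + 1, s => if s.1 = 0 then 0 else Y s + (mm t (step s false) + mm t (step s true)) / 2

/-- the second moment of the sum of `Y` -/
noncomputable def vv : ℕ → ℕ × ℤ → ℝ
  | 0, _ => 0
  | t + 1, s => if s.1 = 0 then 0 else 1 + Y s * (mm t (step s false) + mm t (step s true)) +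
      (vv t (step s false) + vv t (step s true)) / 2

theorem al_zero_level (t : ℕ) (r : ℤ) : al t (0, r) = 0 := by cases t <;> simp [al]

theorem al_succ {i : ℕ} (hi : 1 ≤ i) (t : ℕ) (r : ℤ) :
    al (t + 1) (i, r) = (al t (step (i, r) false) + al t (step (i, r) true)) / 2 := by
  rw [al]; rw [if_neg (by simp only; omega)]

theorem al_zero {i : ℕ} (hi : 1 ≤ i) (r : ℤ) : al 0 (i, r) = 1 := by
  rw [al]; rw [if_neg (by simp only; omega)]

theorem al_nonneg : ∀ (t : ℕ) (s : ℕ × ℤ), 0 ≤ al t s := by
  intro t
  induction t with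
  | zero => intro s; rw [al]; split_ifs <;> norm_num
  | succ t ih =>
    intro s
    rw [al]
    split_ifs
    · exact le_rfl
    · have := ih (step s false); have := ih (step s true); linarith

theorem al_le_one : ∀ (t : ℕ) (s : ℕ × ℤ), al t s ≤ 1 := by
  intro t
  induction t with
  | zero => intro s; rw [al]; split_ifs <;> norm_num
  | succ t ih =>
    intro s
    rw [al]
    split_ifs
    · exact zero_le_one
    · have := ih (step s false); have := ih (step s true); linarith

theorem uu_zero_level (k : ℕ) : uu k 0 = 0 := by cases k <;> simp [uu]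

theorem uu_succ {i : ℕ} (hi : 1 ≤ i) (k : ℕ) : uu (k + 1) i = (uu k (i + 1) + uu k (i - 1)) / 2 := by
  rw [uu]; rw [if_neg (by omega)]

theorem uu_zero {i : ℕ} (hi : 1 ≤ i) : uu 0 i = 1 := by rw [uu]; rw [if_neg (by omega)]

theorem uu_nonneg : ∀ (k i : ℕ), 0 ≤ uu k i := by
  intro k
  induction k with
  | zero => intro i; rw [uu]; split_ifs <;> norm_num
  | succ k ih =>
    intro i
    rw [uu]
    split_ifs
    · exact le_rfl
    · have := ih (i + 1); have := ih (i - 1); linarith

theorem uu_le_one : ∀ (k i : ℕ), uu k i ≤ 1 := by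
  intro k
  induction k with
  | zero => intro i; rw [uu]; split_ifs <;> norm_num
  | succ k ih =>
    intro i
    rw [uu]
    split_ifs
    · exact zero_le_one
    · have := ih (i + 1); have := ih (i - 1); linarith

theorem GG_zero_level (t : ℕ) (r : ℤ) (a : ℝ) : GG t (0, r) a = a ^ 2 := by cases t <;> simp [GG]

theorem GG_succ {i : ℕ} (hi : 1 ≤ i) (t : ℕ) (r : ℤ) (a : ℝ) : GG (t + 1) (i, r) a =
    (GG t (step (i, r) false) (a + Y (i, r)) + GG t (step (i, r) true) (a + Y (i, r))) / 2 := by
  rw [GG]; rw [if_neg (by simp only; omega)]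

theorem GG_nonneg : ∀ (t : ℕ) (s : ℕ × ℤ) (a : ℝ), 0 ≤ GG t s a := by
  intro t
  induction t with
  | zero => intro s a; rw [GG]; positivity
  | succ t ih =>
    intro s a
    rw [GG]
    split_ifs
    · positivity
    · have := ih (step s false) (a + Y s); have := ih (step s true) (a + Y s); linarith

/-- the second moment in terms of `mm` and `vv` -/
theorem GG_eq : ∀ (t : ℕ) (s : ℕ × ℤ) (a : ℝ), GG t s a = a ^ 2 + 2 * a * mm t s + vv t s := by
  intro t
  induction t with
  | zero => intro s a; rw [GG, mm, vv]; ring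
  | succ t ih =>
    intro s a
    rw [GG, mm, vv]
    split_ifs
    · ring
    · rw [ih, ih]
      have h := Y_sq s
      linear_combination h

theorem GG_zero (t : ℕ) (s : ℕ × ℤ) : GG t s 0 = vv t s := by rw [GG_eq]; ring

theorem vv_nonneg (t : ℕ) (s : ℕ × ℤ) : 0 ≤ vv t s := by rw [← GG_zero]; exact GG_nonneg _ _ _

/-- the levels of the two successors when `r` is odd -/
theorem level_odd {i : ℕ} (hi : 1 ≤ i) {r : ℤ} (hr : r % 2 = 1) :
    (step (i, r) false).1 = i + 1 ∧ (step (i, r) true).1 = i - 1 := by
  obtain ⟨j, rfl⟩ : ∃ j, i = j + 1 := ⟨i - 1, by omega⟩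
  rw [step_sf hr, step_st hr]
  simp

theorem level_even {i : ℕ} {r : ℤ} (hr : r % 2 = 0) :
    (step (i, r) false).1 = i ∧ (step (i, r) true).1 = i := by
  rw [step_ef hr, step_et hr]
  simp

/-- **upper bound** -/
theorem al_le {c : ℝ} (hc : 0 < c) : ∀ (t k : ℕ) (s : ℕ × ℤ) (a : ℝ), c ≤ t - 2 * k + a →
    al t s ≤ uu k s.1 + GG t s a / c ^ 2 := by
  intro t
  induction t with
  | zero =>
    intro k ⟨i, r⟩ a h
    rcases Nat.eq_zero_or_pos i with rfl | hi
    · rw [al_zero_level]
      have h1 := uu_nonneg k 0
      have h2 := GG_nonneg 0 (0, r) a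
      positivity
    · rw [al_zero hi]
      rcases Nat.eq_zero_or_pos k with rfl | hk
      · simp only
        rw [uu_zero hi]
        have h2 := GG_nonneg 0 (i, r) a
        have : 0 ≤ GG 0 (i, r) a / c ^ 2 := by positivity
        linarith
      · have h1 := uu_nonneg k i
        have h2 : (1 : ℝ) ≤ k := by exact_mod_cast hk
        push_cast at h
        have h3 : c ≤ a := by linarith
        have h4 : 1 ≤ GG 0 (i, r) a / c ^ 2 := by
          rw [GG, le_div_iff₀ (by positivity), one_mul]
          exact pow_le_pow_left₀ hc.le h3 2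
        simp only
        linarith
  | succ t ih =>
    intro k ⟨i, r⟩ a h
    rcases Nat.eq_zero_or_pos i with rfl | hi
    · rw [al_zero_level]
      have h1 := uu_nonneg k 0
      have h2 := GG_nonneg (t + 1) (0, r) a
      positivity
    · rw [al_succ hi, GG_succ hi]
      simp only
      push_cast at h
      rcases Int.emod_two_eq_zero_or_one r with hr | hr
      · rw [Y_even hr]
        obtain ⟨e1, e2⟩ := level_even (i := i) hr
        have h1 := ih k (step (i, r) false) (a + 1) (by linarith)
        have h2 := ih k (step (i, r) true) (a + 1) (by linarith)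
        rw [e1] at h1
        rw [e2] at h2
        have e : (GG t (step (i, r) false) (a + 1) + GG t (step (i, r) true) (a + 1)) / 2 / c ^ 2 =
            (GG t (step (i, r) false) (a + 1) / c ^ 2 + GG t (step (i, r) true) (a + 1) / c ^ 2) / 2 := by ring
        rw [e]
        linarith
      · rw [Y_odd hr]
        obtain ⟨e1, e2⟩ := level_odd hi hr
        rcases Nat.eq_zero_or_pos k with rfl | hk
        · rw [uu_zero hi]
          have h1 := al_le_one t (step (i, r) false)
          have h2 := al_le_one t (step (i, r) true)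
          have h3 := GG_nonneg t (step (i, r) false) (a + -1)
          have h4 := GG_nonneg t (step (i, r) true) (a + -1)
          have h5 : 0 ≤ (GG t (step (i, r) false) (a + -1) + GG t (step (i, r) true) (a + -1)) / 2 / c ^ 2 := by
            positivity
          linarith
        · obtain ⟨k', rfl⟩ : ∃ k', k = k' + 1 := ⟨k - 1, by omega⟩
          push_cast at h
          have h1 := ih k' (step (i, r) false) (a + -1) (by linarith)
          have h2 := ih k' (step (i, r) true) (a + -1) (by linarith)
          rw [e1] at h1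
          rw [e2] at h2
          rw [uu_succ hi]
          have e : (GG t (step (i, r) false) (a + -1) + GG t (step (i, r) true) (a + -1)) / 2 / c ^ 2 =
            (GG t (step (i, r) false) (a + -1) / c ^ 2 + GG t (step (i, r) true) (a + -1) / c ^ 2) / 2 := by ring
          rw [e]
          linarith

theorem GG_big {c : ℝ} (hc : 0 < c) : ∀ (t : ℕ) (s : ℕ × ℤ) (a : ℝ), a + t ≤ -c → c ^ 2 ≤ GG t s a := by
  intro t
  induction t with
  | zero =>
    intro s a h
    rw [GG]
    push_cast at h
    nlinarith
  | succ t ih =>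
    intro s a h
    rw [GG]
    push_cast at h
    have ht : (0 : ℝ) ≤ t := Nat.cast_nonneg t
    split_ifs
    · nlinarith
    · have hY := abs_le.1 (Y_abs s).le
      have h1 := ih (step s false) (a + Y s) (by linarith)
      have h2 := ih (step s true) (a + Y s) (by linarith)
      linarith

/-- **lower bound** -/
theorem al_ge {c : ℝ} (hc : 0 < c) : ∀ (t k : ℕ) (s : ℕ × ℤ) (a : ℝ), c ≤ 2 * k - t - a →
    uu k s.1 ≤ al t s + GG t s a / c ^ 2 := by
  intro t
  induction t with
  | zero =>
    intro k ⟨i, r⟩ a h
    have h2 := GG_nonneg 0 (i, r) a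
    have h3 : 0 ≤ GG 0 (i, r) a / c ^ 2 := by positivity
    rcases Nat.eq_zero_or_pos i with rfl | hi
    · simp only
      rw [uu_zero_level, al_zero_level]
      linarith
    · rw [al_zero hi]
      have := uu_le_one k i
      simp only
      linarith
  | succ t ih =>
    intro k ⟨i, r⟩ a h
    rcases Nat.eq_zero_or_pos i with rfl | hi
    · have h2 := GG_nonneg (t + 1) (0, r) a
      have h3 : 0 ≤ GG (t + 1) (0, r) a / c ^ 2 := by positivity
      simp only
      rw [uu_zero_level, al_zero_level]
      linarith
    · rw [al_succ hi, GG_succ hi]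
      simp only
      push_cast at h
      rcases Int.emod_two_eq_zero_or_one r with hr | hr
      · rw [Y_even hr]
        obtain ⟨e1, e2⟩ := level_even (i := i) hr
        have h1 := ih k (step (i, r) false) (a + 1) (by linarith)
        have h2 := ih k (step (i, r) true) (a + 1) (by linarith)
        rw [e1] at h1
        rw [e2] at h2
        have e : (GG t (step (i, r) false) (a + 1) + GG t (step (i, r) true) (a + 1)) / 2 / c ^ 2 =
            (GG t (step (i, r) false) (a + 1) / c ^ 2 + GG t (step (i, r) true) (a + 1) / c ^ 2) / 2 := by ring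
        rw [e]
        linarith
      · obtain ⟨e1, e2⟩ := level_odd hi hr
        rcases Nat.eq_zero_or_pos k with rfl | hk
        · rw [uu_zero hi]
          push_cast at h
          have h1 := GG_big hc (t + 1) (i, r) a (by push_cast; linarith)
          rw [GG_succ hi] at h1
          have h2 : 1 ≤ (GG t (step (i, r) false) (a + Y (i, r)) + GG t (step (i, r) true) (a + Y (i, r))) / 2 / c ^ 2 := by
            rw [le_div_iff₀ (by positivity), one_mul]
            exact h1
          have h3 := al_nonneg t (step (i, r) false)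
          have h4 := al_nonneg t (step (i, r) true)
          linarith
        · rw [Y_odd hr]
          obtain ⟨k', rfl⟩ : ∃ k', k = k' + 1 := ⟨k - 1, by omega⟩
          push_cast at h
          have h1 := ih k' (step (i, r) false) (a + -1) (by linarith)
          have h2 := ih k' (step (i, r) true) (a + -1) (by linarith)
          rw [e1] at h1
          rw [e2] at h2
          rw [uu_succ hi]
          have e : (GG t (step (i, r) false) (a + -1) + GG t (step (i, r) true) (a + -1)) / 2 / c ^ 2 =
            (GG t (step (i, r) false) (a + -1) / c ^ 2 + GG t (step (i, r) true) (a + -1) / c ^ 2) / 2 := by ring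
          rw [e]
          linarith

/-- the level zero is not reached quickly -/
theorem al_early {i₀ : ℕ} (hi₀ : 1 ≤ i₀) : ∀ (k : ℕ) (s : ℕ × ℤ),
    1 - (((s.1 : ℝ) - i₀) ^ 2 + k) / (i₀ : ℝ) ^ 2 ≤ al k s := by
  have hi : (0 : ℝ) < i₀ := by exact_mod_cast hi₀
  intro k
  induction k with
  | zero =>
    intro ⟨i, r⟩
    rcases Nat.eq_zero_or_pos i with rfl | h
    · rw [al_zero_level]
      have : (1 : ℝ) ≤ (((0 : ℕ) : ℝ) - i₀) ^ 2 / (i₀ : ℝ) ^ 2 := by
        rw [le_div_iff₀ (by positivity)]; push_cast; nlinarith
      push_cast at this ⊢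
      simp only [add_zero]
      linarith
    · rw [al_zero h]
      have : 0 ≤ ((((i : ℕ) : ℝ) - i₀) ^ 2 + ((0 : ℕ) : ℝ)) / (i₀ : ℝ) ^ 2 := by positivity
      simp only
      linarith
  | succ k ih =>
    intro ⟨i, r⟩
    rcases Nat.eq_zero_or_pos i with rfl | h
    · rw [al_zero_level]
      have : (1 : ℝ) ≤ ((((0 : ℕ) : ℝ) - i₀) ^ 2 + ((k + 1 : ℕ) : ℝ)) / (i₀ : ℝ) ^ 2 := by
        rw [le_div_iff₀ (by positivity)]; push_cast; nlinarith [(Nat.cast_nonneg k : (0 : ℝ) ≤ k)]
      simp only
      linarith
    · rw [al_succ h]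
      have h1 := ih (step (i, r) false)
      have h2 := ih (step (i, r) true)
      rcases Int.emod_two_eq_zero_or_one r with hr | hr
      · obtain ⟨e1, e2⟩ := level_even (i := i) hr
        rw [e1] at h1
        rw [e2] at h2
        have h3 : (((i : ℝ) - i₀) ^ 2 + k) / (i₀ : ℝ) ^ 2 ≤ (((i : ℝ) - i₀) ^ 2 + ((k + 1 : ℕ) : ℝ)) / (i₀ : ℝ) ^ 2 := by
          apply div_le_div_of_nonneg_right _ (by positivity)
          push_cast; linarith
        simp only
        linarith
      · obtain ⟨e1, e2⟩ := level_odd h hr
        rw [e1] at h1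
        rw [e2] at h2
        have e3 : ((i - 1 : ℕ) : ℝ) = i - 1 := by rw [Nat.cast_sub h]; simp
        rw [e3] at h2
        push_cast at h1 ⊢
        have h3 : (((i : ℝ) - i₀) ^ 2 + (k + 1)) / (i₀ : ℝ) ^ 2 =
            (((((i : ℝ) + 1 - i₀) ^ 2 + k) / (i₀ : ℝ) ^ 2) + ((((i : ℝ) - 1 - i₀) ^ 2 + k) / (i₀ : ℝ) ^ 2)) / 2 := by
          field_simp
          ring
        rw [h3]
        linarith

theorem al_anti (t : ℕ) : ∀ s, al (t + 1) s ≤ al t s := by
  induction t with
  | zero =>
    intro ⟨i, r⟩
    rcases Nat.eq_zero_or_pos i with rfl | h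
    · rw [al_zero_level, al_zero_level]
    · rw [al_zero h]; exact al_le_one _ _
  | succ t ih =>
    intro ⟨i, r⟩
    rcases Nat.eq_zero_or_pos i with rfl | h
    · rw [al_zero_level, al_zero_level]
    · rw [al_succ h, al_succ h]
      have := ih (step (i, r) false); have := ih (step (i, r) true); linarith

/-- the pair does not coalesce before the level is zero -/
theorem al_le_q : ∀ (t : ℕ) (s : ℕ × ℤ), al t s ≤ q step (0, 0) t s := by
  intro t
  induction t with
  | zero =>
    intro ⟨i, r⟩
    rcases Nat.eq_zero_or_pos i with rfl | h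
    · rw [al_zero_level]; exact q_nonneg _ _ _ _
    · rw [al_zero h, q_zero_ne _ _ (by simp; omega)]
  | succ t ih =>
    intro ⟨i, r⟩
    rcases Nat.eq_zero_or_pos i with rfl | h
    · rw [al_zero_level]; exact q_nonneg _ _ _ _
    · rw [al_succ h, q_succ _ _ (by simp; omega)]
      have := ih (step (i, r) false); have := ih (step (i, r) true); linarith

/-- after the level zero the pair coalesces -/
theorem q_le_al {u : ℕ} {α R : ℝ} (hR : 0 < R) (hu : ∀ r : ℤ, q step (0, 0) u (0, r) ≤ α + pw (0, r) / R) (hα : 0 ≤ α) :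
    ∀ (t : ℕ) (s : ℕ × ℤ), q step (0, 0) (t + u) s ≤ al t s + α + (50 * pw s + 38 * t) / R := by
  have hzero : ∀ (t : ℕ) (r : ℤ), q step (0, 0) (t + u) (0, r) ≤ al t (0, r) + α + (50 * pw (0, r) + 38 * t) / R := by
    intro t r
    have h1 : q step (0, 0) (t + u) (0, r) ≤ q step (0, 0) u (0, r) := q_anti' (0, r) (by omega)
    have h2 := hu r
    rw [al_zero_level]
    have h3 : pw (0, r) / R ≤ (50 * pw (0, r) + 38 * t) / R := by
      apply div_le_div_of_nonneg_right _ hR.le
      have := pw_nonneg (0, r)
      have : (0 : ℝ) ≤ t := Nat.cast_nonneg t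
      linarith
    linarith
  intro t
  induction t with
  | zero =>
    intro ⟨i, r⟩
    rcases Nat.eq_zero_or_pos i with rfl | h
    · exact hzero 0 r
    · rw [al_zero h]
      have h1 := q_le_one step ((0 : ℕ), (0 : ℤ)) (0 + u) (i, r)
      have h2 := pw_nonneg (i, r)
      have h3 : 0 ≤ (50 * pw (i, r) + 38 * ((0 : ℕ) : ℝ)) / R := by positivity
      linarith
  | succ t ih =>
    intro ⟨i, r⟩
    rcases Nat.eq_zero_or_pos i with rfl | h
    · exact hzero (t + 1) r
    · rw [al_succ h, show t + 1 + u = (t + u) + 1 by ring]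
      have h1 := q_succ_le (t + u) (i, r)
      have h2 := ih (step (i, r) false)
      have h3 := ih (step (i, r) true)
      have h4 := P_pw (i, r)
      unfold P at h1 h4
      have h5 : ((50 * pw (step (i, r) false) + 38 * t) / R + (50 * pw (step (i, r) true) + 38 * t) / R) / 2 ≤
          (50 * pw (i, r) + 38 * ((t + 1 : ℕ) : ℝ)) / R := by
        rw [← add_div, div_div, div_le_div_iff₀ (by positivity) hR]
        have h6 := pw_nonneg (i, r)
        push_cast
        have : 50 * pw (step (i, r) false) + 38 * t + (50 * pw (step (i, r) true) + 38 * t) ≤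
            2 * (50 * pw (i, r) + 38 * (t + 1)) := by linarith
        nlinarith
      linarith

theorem P_iter_al (t : ℕ) : ∀ (k : ℕ) (s : ℕ × ℤ), (P^[k] (al t)) s ≤ al (k + t) s + 1 - al k s := by
  intro k
  induction k with
  | zero =>
    intro s
    rw [Function.iterate_zero, id, zero_add]
    have := al_le_one 0 s
    linarith
  | succ k ih =>
    intro ⟨i, r⟩
    rw [Function.iterate_succ_apply']
    have h1 := P_mono ih (i, r)
    refine h1.trans ?_
    rcases Nat.eq_zero_or_pos i with rfl | h
    · rw [al_zero_level, al_zero_level]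
      unfold P
      have a1 := al_le_one (k + t) (step (0, r) false)
      have a2 := al_le_one (k + t) (step (0, r) true)
      have a3 : al (k + t) (step (0, r) false) ≤ al k (step (0, r) false) := by
        have : Antitone (fun k => al k (step (0, r) false)) := antitone_nat_of_succ_le fun n => al_anti n _
        exact this (by omega)
      have a4 : al (k + t) (step (0, r) true) ≤ al k (step (0, r) true) := by
        have : Antitone (fun k => al k (step (0, r) true)) := antitone_nat_of_succ_le fun n => al_anti n _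
        exact this (by omega)
      linarith
    · rw [show k + 1 + t = (k + t) + 1 by ring, al_succ h, al_succ h]
      unfold P
      linarith

end Pool.Agent.T6.H47.CL
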