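import Pool.Agent.T6.H47.CL9

set_option autoImplicit false

/-! The law of the coalescence time. -/

namespace Pool.Agent.T6.H47.CL

open Finset Filter Topology Pool.Agent.H499R2.CO

theorem P_iter_pw : ∀ (k : ℕ) (F : ℕ × ℤ → ℝ) (A c : ℝ), 0 ≤ c → ∀ s,
    (P^[k] (fun s => F s + (A + c * pw s))) s ≤ (P^[k] F) s + A + c * (0.98 ^ k * pw s + 37.5) := by
  intro k
  induction k with
  | zero =>
    intro F A c hc s
    simp only [Function.iterate_zero, id, pow_zero, one_mul]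
    nlinarith
  | succ k ih =>
    intro F A c hc s
    rw [Function.iterate_succ_apply, Function.iterate_succ_apply]
    have h1 : ∀ s, P (fun s => F s + (A + c * pw s)) s ≤ P F s + ((A + 0.75 * c) + (0.98 * c) * pw s) := by
      intro s
      have h2 := P_pw s
      have h3 := mul_le_mul_of_nonneg_left h2 hc
      rw [P_apply] at *
      rw [P_apply]
      nlinarith
    have h2 := P_iter_mono k h1 s
    have h3 := ih (P F) (A + 0.75 * c) (0.98 * c) (by positivity) s
    refine h2.trans (h3.trans (le_of_eq ?_))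
    rw [pow_succ]
    ring

/-- **the upper bound**, for all parameters -/
theorem q_upper : ∃ C : ℝ, 0 < C ∧ ∀ (k1 t u w : ℕ), 1 ≤ u → ∀ (i : ℕ), 1 ≤ i → ∀ r : ℤ,
    q step (0, 0) (k1 + (t + u)) (i, r) ≤ al (k1 + t) (i, r) + k1 / (i : ℝ) ^ 2 + C * √(1 + w) * rho u +
      (50 * (0.98 ^ k1 * √ |(r : ℝ)| + 37.5) + 38 * t) / 2 ^ w := by
  obtain ⟨C, hC, hrate⟩ := q_rate
  refine ⟨C, hC, fun k1 t u w hu i hi r => ?_⟩
  set α : ℝ := C * √(1 + w) * rho u with hα
  have hα0 : 0 ≤ α := by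
    have := rho_nonneg u
    positivity
  have h2w : (0 : ℝ) < 2 ^ w := by positivity
  have hu' : ∀ r : ℤ, q step (0, 0) u (0, r) ≤ α + pw (0, r) / 2 ^ w := by
    intro r
    have hp := pw_nonneg (0, r)
    by_cases h : |(r : ℝ)| ≤ 4 ^ w
    · have h1 := hrate u hu 0 w r h
      have e : (1 + ((0 : ℕ) : ℝ) ^ 2 + w) = 1 + w := by norm_num
      rw [e] at h1
      have : 0 ≤ pw (0, r) / 2 ^ w := by positivity
      linarith
    · push Not at h
      have h1 := q_le_one step ((0 : ℕ), (0 : ℤ)) u (0, r)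
      have h2 : (2 : ℝ) ^ w ≤ pw (0, r) := by
        unfold pw Pool.Agent.H499R2.CO.w
        simp only [pow_zero, one_mul]
        apply Real.le_sqrt_of_sq_le
        rw [← pow_mul, mul_comm, pow_mul]
        norm_num
        exact h.le
      have h3 : 1 ≤ pw (0, r) / 2 ^ w := by rw [le_div_iff₀ h2w, one_mul]; exact h2
      linarith
  have h1 := q_le_al h2w hu' hα0 t
  have h2 := q_add_le (t + u) k1 (i, r)
  have h3 := P_iter_mono k1 (F := fun s => q step (0, 0) (t + u) s)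
    (G := fun s => al t s + ((α + 38 * t / 2 ^ w) + 50 / 2 ^ w * pw s)) (by
      intro s
      refine (h1 s).trans (le_of_eq ?_)
      ring) (i, r)
  have h4 := P_iter_pw k1 (al t) (α + 38 * t / 2 ^ w) (50 / 2 ^ w) (by positivity) (i, r)
  have h5 := P_iter_al t k1 (i, r)
  have h6 := al_early hi k1 (i, r)
  simp only at h6
  rw [sub_self] at h6
  have e6 : ((0 : ℝ) ^ 2 + (k1 : ℝ)) / (i : ℝ) ^ 2 = k1 / (i : ℝ) ^ 2 := by norm_num
  rw [e6] at h6
  have h7 : pw (i, r) ≤ √ |(r : ℝ)| := by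
    unfold pw
    have h8 : (11 / 20 : ℝ) ^ i ≤ 1 := pow_le_one₀ (by norm_num) (by norm_num)
    calc (11 / 20 : ℝ) ^ i * Pool.Agent.H499R2.CO.w r ≤ 1 * Pool.Agent.H499R2.CO.w r :=
          mul_le_mul_of_nonneg_right h8 (w_nonneg r)
      _ = _ := one_mul _
  have h8 : 50 / (2 : ℝ) ^ w * (0.98 ^ k1 * pw (i, r) + 37.5) ≤ 50 / 2 ^ w * (0.98 ^ k1 * √ |(r : ℝ)| + 37.5) := by
    apply mul_le_mul_of_nonneg_left _ (by positivity)
    have := mul_le_mul_of_nonneg_left h7 (show (0 : ℝ) ≤ 0.98 ^ k1 by positivity)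
    linarith
  have e9 : (50 * (0.98 ^ k1 * √ |(r : ℝ)| + 37.5) + 38 * t) / (2 : ℝ) ^ w =
      38 * t / 2 ^ w + 50 / 2 ^ w * (0.98 ^ k1 * √ |(r : ℝ)| + 37.5) := by ring
  rw [e9]
  linarith

/-- the error terms tend to zero -/
theorem err_small {C κ ε : ℝ} (hC : 0 < C) (hκ : 0 < κ) (hε : 0 < ε) : ∃ T0 : ℕ, ∀ t ≥ T0, ∀ u : ℕ, κ * t / 2 ≤ u →
    u ≤ t → C * √(1 + ((2 * (Nat.log 2 t + 1) : ℕ) : ℝ)) * rho u ≤ ε ∧
      (50 * (1 + 37.5) + 38 * t) / (2 : ℝ) ^ (2 * (Nat.log 2 t + 1)) ≤ ε := by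
  have h1 : Tendsto (fun t : ℕ => C ^ 2 * (100 * (1 + Real.log (t + 1)) ^ 2 / (κ * t))) atTop (𝓝 0) := by
    have h2 : Tendsto (fun x : ℝ => (Real.log x) ^ 2 / (1 * x + 0)) atTop (𝓝 0) :=
      Real.tendsto_pow_log_div_mul_add_atTop 1 0 2 one_ne_zero
    have h2' : Tendsto (fun x : ℝ => (Real.log x) ^ 1 / (1 * x + 0)) atTop (𝓝 0) :=
      Real.tendsto_pow_log_div_mul_add_atTop 1 0 1 one_ne_zero
    have h3 : Tendsto (fun t : ℕ => ((t : ℝ) + 1)) atTop atTop :=
      tendsto_atTop_add_const_right _ _ tendsto_natCast_atTop_atTop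
    have h4 := h2.comp h3
    have h4' := h2'.comp h3
    have h5 : Tendsto (fun t : ℕ => 1 / ((t : ℝ) + 1)) atTop (𝓝 0) := tendsto_one_div_add_atTop_nhds_zero_nat
    have h6 := ((h5.add (h4'.const_mul 2)).add h4).const_mul (C ^ 2 * (200 / κ))
    simp only [mul_zero, add_zero] at h6
    refine squeeze_zero' ?_ ?_ h6
    · filter_upwards with t
      positivity
    · filter_upwards [eventually_ge_atTop 1] with t ht
      have htr : (1 : ℝ) ≤ t := by exact_mod_cast ht
      have ht0 : (0 : ℝ) < t := by linarith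
      simp only [Function.comp]
      have e : C ^ 2 * (200 / κ) * (1 / ((t : ℝ) + 1) + 2 * (Real.log (t + 1) ^ 1 / (1 * (t + 1))) +
          Real.log (t + 1) ^ 2 / (1 * (t + 1))) = C ^ 2 * (200 * (1 + Real.log (t + 1)) ^ 2 / (κ * (t + 1))) := by
        field_simp
        ring
      rw [e]
      apply mul_le_mul_of_nonneg_left _ (sq_nonneg _)
      rw [div_le_div_iff₀ (by positivity) (by positivity)]
      have h7 : (t : ℝ) + 1 ≤ 2 * t := by linarith
      have h8 : 0 ≤ (1 + Real.log ((t : ℝ) + 1)) ^ 2 * κ := by positivity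
      nlinarith
  have h2 : Tendsto (fun t : ℕ => (2000 : ℝ) / t) atTop (𝓝 0) :=
    tendsto_const_div_atTop_nhds_zero_nat 2000
  have hev := (h1.eventually (gt_mem_nhds (show (0 : ℝ) < ε ^ 2 by positivity))).and
    ((h2.eventually (gt_mem_nhds hε)).and (eventually_ge_atTop 1))
  obtain ⟨T0, hT0⟩ := eventually_atTop.1 hev
  refine ⟨T0, fun t ht u hu hut => ?_⟩
  obtain ⟨a1, a2, a3⟩ := hT0 t ht
  have htr : (1 : ℝ) ≤ t := by exact_mod_cast a3
  have ht0 : (0 : ℝ) < t := by linarith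
  have hu0 : (0 : ℝ) < u := lt_of_lt_of_le (by positivity) hu
  have hun : 1 ≤ u := by exact_mod_cast (by exact_mod_cast hu0 : 0 < u)
  set L := Real.log ((t : ℝ) + 1) with hL
  have hL0 : 0 ≤ L := Real.log_nonneg (by linarith)
  constructor
  · have h3 : (Nat.log 2 t : ℝ) ≤ 2 * L := by
      have h4 : 2 ^ Nat.log 2 t ≤ t := Nat.pow_log_le_self 2 (by omega)
      have h5 : (2 : ℝ) ^ Nat.log 2 t ≤ t := by exact_mod_cast h4
      have h6 := Real.log_le_log (by positivity) h5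
      rw [Real.log_pow] at h6
      have h7 := Real.log_two_gt_d9
      have h8 : Real.log t ≤ L := Real.log_le_log ht0 (by linarith)
      have h9 : (0 : ℝ) ≤ Nat.log 2 t := Nat.cast_nonneg _
      nlinarith
    have h4 : 1 + ((2 * (Nat.log 2 t + 1) : ℕ) : ℝ) ≤ 4 * (1 + L) := by push_cast; linarith
    have h5 : Real.log ((u : ℝ) + 1) ≤ L := by
      apply Real.log_le_log (by positivity)
      have : (u : ℝ) ≤ t := by exact_mod_cast hut
      linarith
    have h6 : (C * √(1 + ((2 * (Nat.log 2 t + 1) : ℕ) : ℝ)) * rho u) ^ 2 ≤ ε ^ 2 := by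
      rw [mul_pow, mul_pow, Real.sq_sqrt (by positivity), rho_sq hun]
      refine le_trans ?_ a1.le
      rw [mul_assoc]
      apply mul_le_mul_of_nonneg_left _ (sq_nonneg _)
      calc (1 + ((2 * (Nat.log 2 t + 1) : ℕ) : ℝ)) * (Real.log ((u : ℝ) + 1) / u) ≤
            (4 * (1 + L)) * (L / (κ * t / 2)) := by
              apply mul_le_mul h4 _ (by
                have : 0 ≤ Real.log ((u : ℝ) + 1) := Real.log_nonneg (by linarith)
                positivity) (by positivity)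
              apply div_le_div₀ hL0 h5 (by positivity) hu
        _ ≤ 100 * (1 + L) ^ 2 / (κ * t) := by
              have e : (4 * (1 + L)) * (L / (κ * t / 2)) = 8 * (1 + L) * L / (κ * t) := by field_simp; ring
              rw [e]
              apply div_le_div_of_nonneg_right _ (by positivity)
              nlinarith
    exact le_of_sq_le_sq h6 hε.le
  · have h3 : t < 2 ^ (Nat.log 2 t + 1) := Nat.lt_pow_succ_log_self (by norm_num) t
    have h4 : (t : ℝ) ≤ 2 ^ (Nat.log 2 t + 1) := by exact_mod_cast h3.le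
    have h5 : (t : ℝ) ^ 2 ≤ 2 ^ (2 * (Nat.log 2 t + 1)) := by
      rw [mul_comm 2, pow_mul]
      exact pow_le_pow_left₀ ht0.le h4 2
    calc (50 * (1 + 37.5) + 38 * t) / (2 : ℝ) ^ (2 * (Nat.log 2 t + 1)) ≤ (2000 * t) / (t : ℝ) ^ 2 :=
          div_le_div₀ (by positivity) (by linarith) (by positivity) h5
      _ = 2000 / t := by field_simp
      _ ≤ ε := a2.le

end Pool.Agent.T6.H47.CL
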