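import Pool.Agent.T6.H47.CL10

set_option autoImplicit false

/-! The law of the coalescence time: the theorem. -/

namespace Pool.Agent.T6.H47.CL

open Finset Filter Topology Pool.Agent.H499R2.CO

theorem pow_098_exp {k : ℕ} {x η : ℝ} (h : η * x ≤ 0.04 * k) {r : ℤ} (hr : |(r : ℝ)| ≤ Real.exp (η * x)) :
    (0.98 : ℝ) ^ k * √ |(r : ℝ)| ≤ 1 := by
  have h1 : (0.98 : ℝ) ^ k ≤ Real.exp (-0.02 * k) := by
    have h2 : (0.98 : ℝ) ≤ Real.exp (-0.02) := by
      have := Real.add_one_le_exp (-0.02 : ℝ)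
      linarith
    calc (0.98 : ℝ) ^ k ≤ Real.exp (-0.02) ^ k := pow_le_pow_left₀ (by norm_num) h2 k
      _ = Real.exp (-0.02 * k) := by rw [← Real.exp_nat_mul]; congr 1; ring
  have h3 : √ |(r : ℝ)| ≤ Real.exp (η * x / 2) := by
    rw [Real.sqrt_le_left (Real.exp_nonneg _), ← Real.exp_nat_mul]
    refine hr.trans (le_of_eq ?_)
    congr 1
    push_cast
    ring
  calc (0.98 : ℝ) ^ k * √ |(r : ℝ)| ≤ Real.exp (-0.02 * k) * Real.exp (η * x / 2) :=
        mul_le_mul h1 h3 (Real.sqrt_nonneg _) (Real.exp_nonneg _)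
    _ = Real.exp (-0.02 * k + η * x / 2) := (Real.exp_add _ _).symm
    _ ≤ 1 := by rw [Real.exp_le_one_iff]; linarith

/-- the middle range -/
theorem middle_law {ε δ : ℝ} (hε : 0 < ε) (hδ : 0 < δ) (hδ1 : δ ≤ 1) : ∃ η : ℝ, 0 < η ∧ ∃ T0 : ℕ, ∀ t ≥ T0,
    ∀ i : ℕ, 1 ≤ i → ∀ r : ℤ, (i : ℝ) ^ 2 ≤ t / δ → δ * t ≤ (i : ℝ) ^ 2 → |(r : ℝ)| ≤ Real.exp (η * (i : ℝ) ^ 2) →
      |q step (0, 0) t (i, r) - Er (√2 * i / √t)| ≤ ε := by
  obtain ⟨C, hC, hup⟩ := q_upper
  set κ : ℝ := min (1 / 4) (ε * δ / 64) with hκ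
  have hκ0 : 0 < κ := by rw [hκ]; apply lt_min <;> positivity
  have hκ1 : κ ≤ 1 / 4 := min_le_left _ _
  have hκ2 : κ ≤ ε * δ / 64 := min_le_right _ _
  obtain ⟨T1, hT1⟩ := alive_law hε hδ hδ1
  obtain ⟨T2, hT2⟩ := alive_law (show 0 < ε / 8 by positivity) (show 0 < δ / 2 by positivity) (by linarith)
  obtain ⟨T3, hT3⟩ := err_small hC hκ0 (show 0 < ε / 8 by positivity)
  obtain ⟨T4, hT4⟩ := exists_nat_ge (2 / κ)
  refine ⟨0.02 * κ * δ, by positivity, max (max T1 (2 * T2)) (max T3 (max T4 1)), fun t ht i hi r hit hti hr => ?_⟩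
  have ht1 : T1 ≤ t := (le_max_left _ _).trans ((le_max_left _ _).trans ht)
  have ht2 : 2 * T2 ≤ t := (le_max_right _ _).trans ((le_max_left _ _).trans ht)
  have ht3 : T3 ≤ t := (le_max_left _ _).trans ((le_max_right _ _).trans ht)
  have ht4 : T4 ≤ t := (le_max_left _ _).trans ((le_max_right _ _).trans ((le_max_right _ _).trans ht))
  have ht5 : 1 ≤ t := (le_max_right _ _).trans ((le_max_right _ _).trans ((le_max_right _ _).trans ht))
  have htr : (1 : ℝ) ≤ t := by exact_mod_cast ht5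
  have htp : (0 : ℝ) < t := by linarith
  have hir : (1 : ℝ) ≤ i := by exact_mod_cast hi
  have hκt : 2 ≤ κ * t := by
    have h1 : 2 / κ ≤ t := hT4.trans (by exact_mod_cast ht4)
    rw [div_le_iff₀ hκ0] at h1
    linarith
  have hlow := abs_le.1 (hT1 t ht1 i r hit)
  have hal := al_le_q t (i, r)
  set u := ⌊κ * t⌋₊ with hu
  have hu1 : (u : ℝ) ≤ κ * t := Nat.floor_le (by positivity)
  have hu2 : κ * t < u + 1 := Nat.lt_floor_add_one _
  have hu3 : κ * t / 2 ≤ u := by linarith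
  have hu4 : 1 ≤ u := by
    have : (0 : ℝ) < u := by linarith
    exact_mod_cast this
  have hut : 4 * u ≤ t := by
    have : (4 : ℝ) * u ≤ t := by nlinarith
    exact_mod_cast this
  set t'' := t - u - u with ht''
  have hsum : u + (t'' + u) = t := by omega
  set w := 2 * (Nat.log 2 t + 1) with hw
  have hmain := hup u t'' u w hu4 i hi r
  rw [hsum] at hmain
  have hut' : u + t'' = t - u := by omega
  rw [hut'] at hmain
  have htu : ((t - u : ℕ) : ℝ) = t - u := by rw [Nat.cast_sub (by omega)]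
  obtain ⟨e1, e2⟩ := hT3 t ht3 u hu3 (by omega)
  have hdec : (0.98 : ℝ) ^ u * √ |(r : ℝ)| ≤ 1 := by
    apply pow_098_exp (η := 0.02 * κ * δ) (x := (i : ℝ) ^ 2) _ hr
    have h1 : (i : ℝ) ^ 2 * δ ≤ t := by rwa [le_div_iff₀ hδ] at hit
    nlinarith
  have e3 : (50 * ((0.98 : ℝ) ^ u * √ |(r : ℝ)| + 37.5) + 38 * t'') / (2 : ℝ) ^ w ≤ ε / 8 := by
    refine le_trans ?_ e2
    apply div_le_div_of_nonneg_right _ (by positivity)
    have : (t'' : ℝ) ≤ t := by
      have : t'' ≤ t := by omega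
      exact_mod_cast this
    linarith
  have e4 : (u : ℝ) / (i : ℝ) ^ 2 ≤ ε / 8 := by
    rw [div_le_iff₀ (by positivity)]
    have h1 : κ * t ≤ (ε / 64) * (δ * t) := by
      calc κ * t ≤ (ε * δ / 64) * t := mul_le_mul_of_nonneg_right hκ2 htp.le
        _ = _ := by ring
    have h2 : (ε / 64) * (δ * t) ≤ (ε / 64) * (i : ℝ) ^ 2 := mul_le_mul_of_nonneg_left hti (by positivity)
    have h3 : 0 ≤ ε * (i : ℝ) ^ 2 := by positivity
    linarith
  have h5 := abs_le.1 (hT2 (t - u) (by omega) i r (by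
    rw [htu]
    have hu5 : (u : ℝ) ≤ t / 4 := by
      have : (4 : ℝ) * u ≤ t := by exact_mod_cast hut
      linarith
    calc (i : ℝ) ^ 2 ≤ t / δ := hit
      _ ≤ (t - u) / (δ / 2) := by
        rw [div_le_div_iff₀ hδ (by positivity)]
        have h9 : 0 ≤ δ * (t / 4 - u) := mul_nonneg hδ.le (by linarith)
        have h10 : 0 ≤ δ * t := by positivity
        linarith))
  rw [htu] at h5
  have h6 := abs_le.1 (Er_close hδ hδ1 (κ := κ) hκ0.le (by linarith) (Nat.cast_nonneg i) (x := t - u) (y := t)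
    (by nlinarith) htp (by nlinarith) (by nlinarith) hit)
  have h7 : 8 * κ / δ ≤ ε / 8 := by
    rw [div_le_iff₀ hδ]; linarith
  rw [abs_le]
  constructor
  · linarith [hlow.1]
  · linarith [h5.2, h6.2]

theorem Er_nonneg {x : ℝ} (hx : 0 ≤ x) : 0 ≤ Er x := by
  have := Er_mono hx
  rw [Er_zero] at this
  exact this

/-- **THE LAW OF THE COALESCENCE TIME** -/
theorem main_law {ε : ℝ} (hε : 0 < ε) : ∃ η : ℝ, 0 < η ∧ ∃ I : ℕ, ∀ i ≥ I, ∀ r : ℤ,
    |(r : ℝ)| ≤ Real.exp (η * (i : ℝ) ^ 2) → ∀ t : ℕ, 1 ≤ t →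
      |q step (0, 0) t (i, r) - Er (√2 * i / √t)| ≤ ε := by
  obtain ⟨X0, hX0⟩ := (Er_top.eventually (lt_mem_nhds (show 1 - ε / 4 < 1 by linarith))).exists_forall_of_atTop
  set X := max X0 1 with hX
  have hX1 : 1 ≤ X := le_max_right _ _
  set δ : ℝ := min (min (1 / 4) (ε / 4)) (min (ε ^ 2 / 256) (2 / X ^ 2)) with hδ
  have hδ0 : 0 < δ := by rw [hδ]; apply lt_min <;> apply lt_min <;> positivity
  have hδ1 : δ ≤ 1 / 4 := (min_le_left _ _).trans (min_le_left _ _)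
  have hδ2 : δ ≤ ε / 4 := (min_le_left _ _).trans (min_le_right _ _)
  have hδ3 : δ ≤ ε ^ 2 / 256 := (min_le_right _ _).trans (min_le_left _ _)
  have hδ4 : δ ≤ 2 / X ^ 2 := (min_le_right _ _).trans (min_le_right _ _)
  obtain ⟨η, hη, T0, hT0⟩ := middle_law (show 0 < ε / 4 by positivity) hδ0 (by linarith)
  obtain ⟨I, hI⟩ := exists_nat_ge ((T0 + 2) / δ)
  refine ⟨η, hη, max I 1, fun i hi r hr t ht => ?_⟩
  have hi1 : 1 ≤ i := (le_max_right _ _).trans hi
  have hir : (1 : ℝ) ≤ i := by exact_mod_cast hi1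
  have hii : (i : ℝ) ≤ (i : ℝ) ^ 2 := by nlinarith
  have hiT : (T0 + 2 : ℝ) ≤ δ * (i : ℝ) ^ 2 := by
    have h1 : ((T0 : ℝ) + 2) / δ ≤ i := hI.trans (by exact_mod_cast (le_max_left _ _).trans hi)
    rw [div_le_iff₀ hδ0] at h1
    nlinarith
  have htr : (1 : ℝ) ≤ t := by exact_mod_cast ht
  have htp : (0 : ℝ) < t := by linarith
  have hst : 0 < √(t : ℝ) := Real.sqrt_pos.2 htp
  have hq1 := q_le_one step ((0 : ℕ), (0 : ℤ)) t (i, r)
  have hq0 := q_nonneg step ((0 : ℕ), (0 : ℤ)) t (i, r)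
  have hE1 := Er_le_one (√2 * i / √t)
  have hE0 := Er_nonneg (show 0 ≤ √2 * i / √t by positivity)
  rcases le_or_gt (t : ℝ) (δ * (i : ℝ) ^ 2) with h1 | h1
  · -- short times
    have h2 := al_early hi1 t (i, r)
    simp only at h2
    rw [sub_self] at h2
    have e6 : ((0 : ℝ) ^ 2 + (t : ℝ)) / (i : ℝ) ^ 2 = t / (i : ℝ) ^ 2 := by norm_num
    rw [e6] at h2
    have h3 : (t : ℝ) / (i : ℝ) ^ 2 ≤ δ := by rw [div_le_iff₀ (by positivity)]; exact h1
    have h4 := al_le_q t (i, r)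
    have h5 : X ≤ √2 * i / √t := by
      rw [le_div_iff₀ hst]
      have h6 : (X * √t) ^ 2 ≤ (√2 * i) ^ 2 := by
        rw [mul_pow, mul_pow, Real.sq_sqrt htp.le, Real.sq_sqrt (show (0 : ℝ) ≤ 2 by norm_num)]
        have h7 : X ^ 2 * δ ≤ 2 := by
          rw [le_div_iff₀ (by positivity)] at hδ4
          linarith
        calc X ^ 2 * (t : ℝ) ≤ X ^ 2 * (δ * (i : ℝ) ^ 2) := mul_le_mul_of_nonneg_left h1 (sq_nonneg _)
          _ = (X ^ 2 * δ) * (i : ℝ) ^ 2 := by ring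
          _ ≤ 2 * (i : ℝ) ^ 2 := mul_le_mul_of_nonneg_right h7 (sq_nonneg _)
      exact le_of_sq_le_sq h6 (by positivity)
    have h6 := hX0 _ ((le_max_left _ _).trans h5)
    rw [abs_le]
    constructor <;> linarith
  · rcases le_or_gt (δ * t) ((i : ℝ) ^ 2) with h2 | h2
    · have h3 : T0 ≤ t := by
        have : (T0 : ℝ) ≤ t := by linarith
        exact_mod_cast this
      refine (hT0 t h3 i hi1 r ?_ h2 hr).trans (by linarith)
      rw [le_div_iff₀ hδ0]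
      linarith
    · -- long times
      set t0 := ⌊(i : ℝ) ^ 2 / δ⌋₊ with ht0
      have a1 : (t0 : ℝ) ≤ (i : ℝ) ^ 2 / δ := Nat.floor_le (by positivity)
      have a2 : (i : ℝ) ^ 2 / δ < t0 + 1 := Nat.lt_floor_add_one _
      have a3 : (i : ℝ) ^ 2 / δ ≤ t := by rw [div_le_iff₀ hδ0]; linarith
      have a4 : t0 ≤ t := by
        have : (t0 : ℝ) ≤ t := a1.trans a3
        exact_mod_cast this
      have a5 : 4 * (i : ℝ) ^ 2 ≤ (i : ℝ) ^ 2 / δ := by
        rw [le_div_iff₀ hδ0]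
        nlinarith [sq_nonneg (i : ℝ)]
      have a6 : (i : ℝ) ^ 2 / (2 * δ) ≤ t0 := by
        have e : (i : ℝ) ^ 2 / (2 * δ) = ((i : ℝ) ^ 2 / δ) / 2 := by field_simp
        rw [e]
        nlinarith
      have a7 : (T0 : ℝ) ≤ t0 := by nlinarith [sq_nonneg (i : ℝ)]
      have a8 : δ * t0 ≤ (i : ℝ) ^ 2 := by
        rw [le_div_iff₀ hδ0] at a1
        linarith
      have a9 : (i : ℝ) ^ 2 ≤ t0 / δ := by
        rw [le_div_iff₀ hδ0]
        nlinarith [sq_nonneg (i : ℝ)]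
      have b1 := abs_le.1 (hT0 t0 (by exact_mod_cast a7) i hi1 r a9 a8 hr)
      have b2 : q step (0, 0) t (i, r) ≤ q step (0, 0) t0 (i, r) := q_anti' (i, r) a4
      have ht0p : (0 : ℝ) < t0 := lt_of_lt_of_le (by positivity) a6
      have hst0 : 0 < √(t0 : ℝ) := Real.sqrt_pos.2 ht0p
      have b3 : √2 * i / √t0 ≤ 2 * √δ := by
        rw [div_le_iff₀ hst0]
        have h6 : (√2 * i) ^ 2 ≤ (2 * √δ * √t0) ^ 2 := by
          rw [mul_pow, mul_pow, mul_pow, Real.sq_sqrt ht0p.le, Real.sq_sqrt hδ0.le,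
            Real.sq_sqrt (show (0 : ℝ) ≤ 2 by norm_num)]
          rw [div_le_iff₀ (by positivity)] at a6
          linarith
        exact le_of_sq_le_sq h6 (by positivity)
      have b4 : √δ ≤ ε / 16 := by
        rw [Real.sqrt_le_left (by positivity)]
        calc δ ≤ ε ^ 2 / 256 := hδ3
          _ = (ε / 16) ^ 2 := by ring
      have b5 : Er (√2 * i / √t0) ≤ ε / 4 := by
        have c1 := Er_lip (show 0 ≤ √2 * i / √t0 by positivity)
        rw [Er_zero] at c1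
        linarith
      have b6 : Er (√2 * i / √t) ≤ Er (√2 * i / √t0) := by
        apply Er_mono
        apply div_le_div_of_nonneg_left (by positivity) hst0
        exact Real.sqrt_le_sqrt (by exact_mod_cast a4)
      rw [abs_le]
      constructor <;> linarith [b1.2]

end Pool.Agent.T6.H47.CL
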