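import Pool.Agent.T6.H47.CL11

set_option autoImplicit false

/-! From the chain to natural densities. -/

namespace Pool.Agent.T6.H47.CL

open Finset Filter Topology Pool.Agent.H499R2.CO

theorem nx_add {d : ℤ} (hd : d % 2 = 1) (s : ℕ × ℤ) (k : ℕ) (x m : ℤ) :
    ∃ m' : ℤ, (m ≠ 0 → m' ≠ 0) ∧ nx d s (x + m * 2 ^ (k + 1)) = nx d s x + m' * 2 ^ k := by
  have h2 : m * (2 : ℤ) ^ (k + 1) = 2 * (m * 2 ^ k) := by rw [pow_succ]; ring
  have hpar : (x + m * 2 ^ (k + 1)) % 2 = x % 2 := by omega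
  unfold nx
  rw [hpar]
  split_ifs with h
  · refine ⟨m, fun h => h, ?_⟩
    have h3 : (d * s.2) % 2 = 1 := odd_mul hd h.2.1
    omega
  · unfold Tz
    rcases Int.emod_two_eq_zero_or_one x with h | h
    · refine ⟨m, fun h => h, ?_⟩
      rw [if_pos h, if_pos (by omega)]; omega
    · refine ⟨3 * m, fun h => by omega, ?_⟩
      rw [if_neg (by omega), if_neg (by omega)]
      have h3 : 3 * m * (2 : ℤ) ^ k = 3 * (m * 2 ^ k) := by ring
      rw [h3]; omega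

/-- the orbits of the pair agree after `k` steps -/
def Eqk (d : ℤ) (k : ℕ) (s : ℕ × ℤ) (x : ℤ) : Prop := (Tz d)^[k] x = (Tz d)^[k] (3 ^ s.1 * x + d * s.2)

theorem Eqk_succ {d : ℤ} (hd : d % 2 = 1) (k : ℕ) (s : ℕ × ℤ) (x : ℤ) :
    Eqk d (k + 1) s x ↔ Eqk d k (step s (decide (x % 2 = 1))) (nx d s x) := by
  obtain ⟨i, r⟩ := s
  unfold Eqk
  rcases pair_step hd i r x with ⟨e1, e2, _⟩ | ⟨e1, e2, _⟩
  · rw [e1, e2, Function.iterate_succ_apply, Function.iterate_succ_apply]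
  · rw [e1, e2, Function.iterate_succ_apply, Function.iterate_succ_apply]
    exact eq_comm

/-- In a class modulo `2 ^ k` in which the pair survives, the orbits agree for at most one number. -/
theorem surv_eq_unique {d : ℤ} (hd : d % 2 = 1) : ∀ (k : ℕ) (s : ℕ × ℤ) (x m : ℤ), m ≠ 0 → surv d k s x →
    Eqk d k s x → Eqk d k s (x + m * 2 ^ k) → False := by
  have hd0 : d ≠ 0 := by omega
  intro k
  induction k with
  | zero =>
    intro s x m hm hs h1 h2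
    obtain ⟨i, r⟩ := s
    simp only [Eqk, Function.iterate_zero, id, pow_zero, mul_one] at h1 h2
    have h3 : ((3 : ℤ) ^ i - 1) * m = 0 := by linarith
    rcases mul_eq_zero.1 h3 with h4 | h4
    · have hi : i = 0 := by
        by_contra hne
        have h5 : (1 : ℤ) < 3 ^ i := one_lt_pow₀ (by norm_num) hne
        omega
      subst hi
      have h6 : d * r = 0 := by simp at h1; linarith
      rcases mul_eq_zero.1 h6 with h7 | h7
      · exact hd0 h7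
      · exact hs (by rw [h7])
    · exact hm h4
  | succ k ih =>
    intro s x m hm hs h1 h2
    have h2' : m * (2 : ℤ) ^ (k + 1) = 2 * (m * 2 ^ k) := by rw [pow_succ]; ring
    have hpar : (x + m * 2 ^ (k + 1)) % 2 = x % 2 := by omega
    rw [Eqk_succ hd] at h1 h2
    rw [hpar] at h2
    obtain ⟨m', hm', hn⟩ := nx_add hd s k x m
    rw [hn] at h2
    exact ih _ _ m' (hm' hm) hs.2 h1 h2

open Classical in
theorem exc_card {d : ℤ} (hd : d % 2 = 1) (k : ℕ) (s : ℕ × ℤ) (N : ℕ) :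
    #{n ∈ Icc 1 N | surv d k s ((n : ℕ) : ℤ) ∧ Eqk d k s ((n : ℕ) : ℤ)} ≤ 2 ^ k := by
  have h := card_le_card_of_injOn (s := {n ∈ Icc 1 N | surv d k s ((n : ℕ) : ℤ) ∧ Eqk d k s ((n : ℕ) : ℤ)})
    (t := range (2 ^ k)) (fun n => n % 2 ^ k)
    (fun n _ => by simp only [coe_range, Set.mem_Iio]; exact Nat.mod_lt _ (by positivity))
    (by
      intro a ha b hb hab
      simp only [coe_filter, Set.mem_setOf_eq] at ha hb
      simp only at hab
      by_contra hne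
      have h1 : ((2 ^ k : ℕ) : ℤ) ∣ (b : ℤ) - a := (Nat.modEq_iff_dvd).1 hab
      obtain ⟨m, hm⟩ := h1
      have hm0 : m ≠ 0 := by
        rintro rfl
        apply hne
        have : (b : ℤ) = a := by linarith
        exact_mod_cast this.symm
      have e : (b : ℤ) = a + m * 2 ^ k := by push_cast at hm; linarith
      have h2 := hb.2.2
      rw [e] at h2
      exact surv_eq_unique hd k s a m hm0 ha.2.1 ha.2.2 h2)
  rwa [card_range] at h

open Classical in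
theorem surv_card {d : ℤ} (hd : d % 2 = 1) (k : ℕ) (s : ℕ × ℤ) (N : ℕ) :
    |(#{n ∈ Icc 1 N | surv d k s ((n : ℕ) : ℤ)} : ℝ) - q step (0, 0) k s * N| ≤ 2 ^ k := by
  have hq := q_nonneg step ((0 : ℕ), (0 : ℤ)) k s
  have hq1 := q_le_one step ((0 : ℕ), (0 : ℤ)) k s
  have h2 : 0 < 2 ^ k := by positivity
  have h2r : (0 : ℝ) < 2 ^ k := by positivity
  set M := N / 2 ^ k with hM
  have hNM : N < M * 2 ^ k + 2 ^ k := by
    have := Nat.lt_div_mul_add (a := N) h2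
    rw [hM]; exact this
  have hMN : M * 2 ^ k ≤ N := Nat.div_mul_le_self N _
  set f : ℕ → ℝ := fun x => if surv d k s (x : ℕ) then (1 : ℝ) else 0 with hf
  have hf0 : ∀ x, 0 ≤ f x := fun x => by rw [hf]; simp only; split_ifs <;> norm_num
  have hper : f (M * 2 ^ k) = f 0 := by
    rw [hf]
    simp only
    have e : ((M * 2 ^ k : ℕ) : ℤ) = ((0 : ℕ) : ℤ) + (M : ℤ) * 2 ^ k := by push_cast; ring
    rw [e]
    simp only [surv_periodic hd]
  have hshift : ∑ x ∈ Icc 1 (M * 2 ^ k), f x = ∑ x ∈ range (M * 2 ^ k), f x := by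
    have e1 : ∑ x ∈ range (M * 2 ^ k + 1), f x = ∑ x ∈ range (M * 2 ^ k), f x + f (M * 2 ^ k) :=
      sum_range_succ _ _
    have e2 : ∑ x ∈ range (M * 2 ^ k + 1), f x = ∑ x ∈ range (M * 2 ^ k), f (x + 1) + f 0 :=
      sum_range_succ' _ _
    have e3 : ∑ x ∈ Icc 1 (M * 2 ^ k), f x = ∑ x ∈ range (M * 2 ^ k), f (x + 1) := by
      rw [range_eq_Ico, sum_Ico_add' f 0 (M * 2 ^ k) 1]
      rfl
    linarith
  have hcard : (#{n ∈ Icc 1 N | surv d k s ((n : ℕ) : ℤ)} : ℝ) = ∑ x ∈ Icc 1 N, f x := by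
    rw [card_filter]; push_cast; rfl
  have hb := count_blocks hd k s M
  have hb1 := count_blocks hd k s (M + 1)
  have hlow : (M : ℝ) * (2 ^ k * q step (0, 0) k s) ≤ ∑ x ∈ Icc 1 N, f x := by
    rw [← hb]
    calc ∑ x ∈ range (M * 2 ^ k), f x = ∑ x ∈ Icc 1 (M * 2 ^ k), f x := hshift.symm
      _ ≤ ∑ x ∈ Icc 1 N, f x := sum_le_sum_of_subset_of_nonneg (Icc_subset_Icc_right hMN) (fun x _ _ => hf0 x)
  have hup : ∑ x ∈ Icc 1 N, f x ≤ ((M + 1 : ℕ) : ℝ) * (2 ^ k * q step (0, 0) k s) := by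
    rw [← hb1]
    apply sum_le_sum_of_subset_of_nonneg _ (fun x _ _ => hf0 x)
    intro n hn
    rw [mem_Icc] at hn
    rw [mem_range, add_mul, one_mul]; omega
  have c1 : ((M : ℝ)) * 2 ^ k ≤ N := by exact_mod_cast hMN
  have c2 : (N : ℝ) ≤ M * 2 ^ k + 2 ^ k := by exact_mod_cast hNM.le
  have c3 : (M : ℝ) * 2 ^ k * q step (0, 0) k s ≤ N * q step (0, 0) k s := mul_le_mul_of_nonneg_right c1 hq
  have c4 : (N : ℝ) * q step (0, 0) k s ≤ (M * 2 ^ k + 2 ^ k) * q step (0, 0) k s := mul_le_mul_of_nonneg_right c2 hq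
  have c5 : (2 : ℝ) ^ k * q step (0, 0) k s ≤ 2 ^ k := by
    calc (2 : ℝ) ^ k * q step (0, 0) k s ≤ 2 ^ k * 1 := mul_le_mul_of_nonneg_left hq1 h2r.le
      _ = 2 ^ k := mul_one _
  rw [hcard, abs_le]
  push_cast at hup
  constructor <;> linarith

open Classical in
/-- the number of `n ≤ N` whose pair is not equal at time `k` -/
theorem apart_card {d : ℤ} (hd : d % 2 = 1) (k i : ℕ) (r : ℤ) (N : ℕ) :
    |(#{n ∈ Icc 1 N | (Tz d)^[k] ((n : ℕ) : ℤ) ≠ (Tz d)^[k] (3 ^ i * ((n : ℕ) : ℤ) + d * r)} : ℝ)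
      - q step (0, 0) k (i, r) * N| ≤ 2 ^ (k + 1) := by
  have h1 := abs_le.1 (surv_card hd k (i, r) N)
  have h2 := exc_card hd k (i, r) N
  have h3 : #{n ∈ Icc 1 N | (Tz d)^[k] ((n : ℕ) : ℤ) ≠ (Tz d)^[k] (3 ^ i * ((n : ℕ) : ℤ) + d * r)} ≤
      #{n ∈ Icc 1 N | surv d k (i, r) ((n : ℕ) : ℤ)} := by
    apply card_le_card
    intro n hn
    rw [mem_filter] at hn ⊢
    refine ⟨hn.1, ?_⟩
    by_contra hs
    obtain ⟨t, ht, hh⟩ := coal hd k i r n hs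
    exact hn.2 (iter_persist hh ht)
  have h4 : #{n ∈ Icc 1 N | surv d k (i, r) ((n : ℕ) : ℤ)} ≤
      #{n ∈ Icc 1 N | (Tz d)^[k] ((n : ℕ) : ℤ) ≠ (Tz d)^[k] (3 ^ i * ((n : ℕ) : ℤ) + d * r)} +
      #{n ∈ Icc 1 N | surv d k (i, r) ((n : ℕ) : ℤ) ∧ Eqk d k (i, r) ((n : ℕ) : ℤ)} := by
    rw [← card_filter_add_card_filter_not (s := {n ∈ Icc 1 N | surv d k (i, r) ((n : ℕ) : ℤ)})
      (fun n => Eqk d k (i, r) ((n : ℕ) : ℤ)), add_comm]
    apply Nat.add_le_add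
    · apply card_le_card
      intro n hn
      rw [mem_filter, mem_filter] at hn
      rw [mem_filter]
      exact ⟨hn.1.1, hn.2⟩
    · apply card_le_card
      intro n hn
      rw [mem_filter, mem_filter] at hn
      rw [mem_filter]
      exact ⟨hn.1.1, hn.1.2, hn.2⟩
  have h3' : (#{n ∈ Icc 1 N | (Tz d)^[k] ((n : ℕ) : ℤ) ≠ (Tz d)^[k] (3 ^ i * ((n : ℕ) : ℤ) + d * r)} : ℝ) ≤
      #{n ∈ Icc 1 N | surv d k (i, r) ((n : ℕ) : ℤ)} := by exact_mod_cast h3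
  have h4' : (#{n ∈ Icc 1 N | surv d k (i, r) ((n : ℕ) : ℤ)} : ℝ) ≤
      #{n ∈ Icc 1 N | (Tz d)^[k] ((n : ℕ) : ℤ) ≠ (Tz d)^[k] (3 ^ i * ((n : ℕ) : ℤ) + d * r)} +
      #{n ∈ Icc 1 N | surv d k (i, r) ((n : ℕ) : ℤ) ∧ Eqk d k (i, r) ((n : ℕ) : ℤ)} := by exact_mod_cast h4
  have h2' : (#{n ∈ Icc 1 N | surv d k (i, r) ((n : ℕ) : ℤ) ∧ Eqk d k (i, r) ((n : ℕ) : ℤ)} : ℝ) ≤ 2 ^ k := by
    exact_mod_cast h2
  have e : (2 : ℝ) ^ (k + 1) = 2 * 2 ^ k := by rw [pow_succ]; ring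
  have hp : (0 : ℝ) < 2 ^ k := by positivity
  rw [e, abs_le]
  constructor <;> linarith [h1.1, h1.2]

open Classical in
/-- the same with both signs, for the map `T` -/
theorem apart_card_sign {s : ℤ} (hs : s = 1 ∨ s = -1) (k i : ℕ) (r : ℤ) (N : ℕ) :
    |(#{n ∈ Icc 1 N | (Tz 1)^[k] (s * ((n : ℕ) : ℤ)) ≠ (Tz 1)^[k] (3 ^ i * (s * ((n : ℕ) : ℤ)) + r)} : ℝ)
      - q step (0, 0) k (i, r) * N| ≤ 2 ^ (k + 1) := by
  have hsodd : s % 2 = 1 := by rcases hs with rfl | rfl <;> norm_num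
  have h := apart_card hsodd k i r N
  have e : ∀ n : ℕ, ((Tz s)^[k] ((n : ℕ) : ℤ) ≠ (Tz s)^[k] (3 ^ i * ((n : ℕ) : ℤ) + s * r)) ↔
      ((Tz 1)^[k] (s * ((n : ℕ) : ℤ)) ≠ (Tz 1)^[k] (3 ^ i * (s * ((n : ℕ) : ℤ)) + r)) := by
    intro n
    have hs0 : s ≠ 0 := by omega
    have h1 : (3 : ℤ) ^ i * (s * ((n : ℕ) : ℤ)) + r = s * (3 ^ i * ((n : ℕ) : ℤ) + s * r) := by
      rcases hs with rfl | rfl <;> ring
    rw [h1, ← Tz_sign_iter hs, ← Tz_sign_iter hs, ne_eq, ne_eq, mul_right_inj' hs0]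
  simp only [e] at h
  exact h

end Pool.Agent.T6.H47.CL
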