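import Pool.Agent.T6.H47.CL12

set_option autoImplicit false

/-! The error function, and invariant sets. -/

namespace Pool.Agent.T6.H47.CL

open Finset MeasureTheory ProbabilityTheory Filter Topology Pool.Agent.H499R2.CO

theorem Er_eq (x : ℝ) : Er (√2 * x) = 2 / √Real.pi * ∫ y in (0 : ℝ)..x, Real.exp (-y ^ 2) := by
  have h2 : (0 : ℝ) < √2 := by positivity
  have hp : (0 : ℝ) < √Real.pi := Real.sqrt_pos.2 Real.pi_pos
  have hc : Continuous (fun y : ℝ => Real.exp (-y ^ 2)) := by fun_prop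
  unfold Er
  rw [Nd_sub]
  have h3 : ∫ y in (-x)..x, gaussianPDFReal 0 1 (√2 * y) = (√2)⁻¹ • ∫ t in (√2 * (-x))..(√2 * x), gaussianPDFReal 0 1 t :=
    intervalIntegral.integral_comp_mul_left _ h2.ne'
  have h4 : ∀ y : ℝ, gaussianPDFReal 0 1 (√2 * y) = (√(2 * Real.pi))⁻¹ * Real.exp (-y ^ 2) := by
    intro y
    rw [pdf_eq]
    congr 2
    rw [mul_pow, Real.sq_sqrt (by norm_num)]
    ring
  simp only [h4] at h3
  rw [intervalIntegral.integral_const_mul, smul_eq_mul] at h3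
  have h5 : ∫ y in (-x)..x, Real.exp (-y ^ 2) = 2 * ∫ y in (0 : ℝ)..x, Real.exp (-y ^ 2) := by
    rw [← intervalIntegral.integral_add_adjacent_intervals (a := -x) (b := 0) (c := x)
      (hc.intervalIntegrable _ _) (hc.intervalIntegrable _ _)]
    have h6 : ∫ y in (-x)..0, Real.exp (-y ^ 2) = ∫ y in (0 : ℝ)..x, Real.exp (-y ^ 2) := by
      have := intervalIntegral.integral_comp_neg (f := fun y : ℝ => Real.exp (-y ^ 2)) (a := (0 : ℝ)) (b := x)
      rw [neg_zero] at this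
      rw [← this]
      congr 1
      ext y
      ring_nf
    rw [h6]; ring
  rw [h5] at h3
  have h7 : √(2 * Real.pi) = √2 * √Real.pi := Real.sqrt_mul (by norm_num) _
  rw [h7] at h3
  have e : -(√2 * x) = √2 * (-x) := by ring
  rw [e]
  have h8 : ∫ t in (√2 * (-x))..(√2 * x), gaussianPDFReal 0 1 t =
      √2 * ((√2 * √Real.pi)⁻¹ * (2 * ∫ y in (0 : ℝ)..x, Real.exp (-y ^ 2))) := by
    rw [h3]; field_simp
  rw [h8]
  field_simp

/-- comparison of two close times -/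
theorem Er_late {ε : ℝ} (hε : 0 < ε) (K : ℕ) : ∃ I : ℕ, ∀ i ≥ I, (∀ t : ℕ, 1 ≤ t → ∀ y : ℝ, (t : ℝ) ≤ y →
    y ≤ t + K → Er (√2 * i / √t) ≤ Er (√2 * i / √y) + ε) ∧ (∀ y : ℝ, 0 < y → y ≤ K → 1 - ε ≤ Er (√2 * i / √y)) := by
  obtain ⟨X0, hX0⟩ := (Er_top.eventually (lt_mem_nhds (show 1 - ε < 1 by linarith))).exists_forall_of_atTop
  set X := max X0 1 with hX
  have hX1 : 1 ≤ X := le_max_right _ _
  have hX0' : X0 ≤ X := le_max_left _ _
  obtain ⟨I, hI⟩ := exists_nat_ge (X ^ 2 * (2 * X * K / ε + K + 1))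
  refine ⟨max I 1, fun i hi => ?_⟩
  have hi1 : 1 ≤ i := (le_max_right _ _).trans hi
  have hir : (1 : ℝ) ≤ i := by exact_mod_cast hi1
  have hi2 : X ^ 2 * (2 * X * K / ε + K + 1) ≤ (i : ℝ) ^ 2 := by
    have h1 : X ^ 2 * (2 * X * K / ε + K + 1) ≤ (i : ℝ) := hI.trans (by exact_mod_cast (le_max_left _ _).trans hi)
    nlinarith
  have hXK : (K : ℝ) ≤ 2 * X * K / ε + K + 1 := by
    have : 0 ≤ 2 * X * K / ε := by positivity
    linarith
  have hXsq : (1 : ℝ) ≤ X ^ 2 := by nlinarith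
  constructor
  · intro t ht y hty hyt
    have htr : (1 : ℝ) ≤ t := by exact_mod_cast ht
    have htp : (0 : ℝ) < t := by linarith
    have hyp : (0 : ℝ) < y := by linarith
    have hst : 0 < √(t : ℝ) := Real.sqrt_pos.2 htp
    have hsy : 0 < √y := Real.sqrt_pos.2 hyp
    rcases le_or_gt X (√2 * i / √y) with h | h
    · have h1 := hX0 _ (hX0'.trans h)
      have h2 := Er_le_one (√2 * i / √t)
      linarith
    · have h1 : 2 * (i : ℝ) ^ 2 ≤ X ^ 2 * y := by
        have h2 : √2 * i ≤ X * √y := by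
          rw [div_lt_iff₀ hsy] at h
          exact h.le
        have h3 : (√2 * i) ^ 2 ≤ (X * √y) ^ 2 := pow_le_pow_left₀ (by positivity) h2 2
        rw [mul_pow, mul_pow, Real.sq_sqrt hyp.le, Real.sq_sqrt (show (0 : ℝ) ≤ 2 by norm_num)] at h3
        exact h3
      have h2 : 2 * X * K / ε + K + 1 ≤ y := by
        have h3 : X ^ 2 * (2 * X * K / ε + K + 1) ≤ X ^ 2 * y := by
          have := sq_nonneg (i : ℝ)
          linarith
        exact le_of_mul_le_mul_left h3 (by positivity)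
      have h3 : 2 * X * K / ε ≤ t := by linarith
      have h4 : 2 * X * K ≤ ε * t := by
        rw [div_le_iff₀ hε] at h3
        linarith
      have h5 := Er_lip (show √2 * i / √y ≤ √2 * i / √t from
        div_le_div_of_nonneg_left (by positivity) hst (Real.sqrt_le_sqrt hty))
      have h6 : √2 * i / √t = (√2 * i / √y) * √(y / t) := by
        rw [Real.sqrt_div hyp.le]
        field_simp
      have h7 : √(y / t) ≤ 1 + K / t := by
        rw [Real.sqrt_le_left (by positivity)]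
        have h8 : y / t ≤ 1 + K / t := by
          rw [div_le_iff₀ htp, add_mul, one_mul, div_mul_cancel₀ _ htp.ne']
          exact hyt
        have h9 : 0 ≤ (K : ℝ) / t := by positivity
        nlinarith
      have h8 : √2 * i / √t - √2 * i / √y ≤ X * (K / t) := by
        rw [h6]
        have h9 : 0 ≤ √2 * i / √y := by positivity
        have h10 : 0 ≤ (K : ℝ) / t := by positivity
        calc √2 * i / √y * √(y / t) - √2 * i / √y = √2 * i / √y * (√(y / t) - 1) := by ring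
          _ ≤ √2 * i / √y * (K / t) := mul_le_mul_of_nonneg_left (by linarith) h9
          _ ≤ X * (K / t) := mul_le_mul_of_nonneg_right h.le h10
      have h9 : 2 * (X * (K / t)) ≤ ε := by
        have e : 2 * (X * (K / (t : ℝ))) = (2 * X * K) / t := by ring
        rw [e, div_le_iff₀ htp]
        exact h4
      linarith
  · intro y hy hyK
    have hsy : 0 < √y := Real.sqrt_pos.2 hy
    have h1 : X ≤ √2 * i / √y := by
      rw [le_div_iff₀ hsy]
      have h6 : (X * √y) ^ 2 ≤ (√2 * i) ^ 2 := by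
        rw [mul_pow, mul_pow, Real.sq_sqrt hy.le, Real.sq_sqrt (show (0 : ℝ) ≤ 2 by norm_num)]
        have h7 : X ^ 2 * y ≤ X ^ 2 * (2 * X * K / ε + K + 1) :=
          mul_le_mul_of_nonneg_left (hyK.trans hXK) (sq_nonneg _)
        have := sq_nonneg (i : ℝ)
        linarith
      exact le_of_sq_le_sq h6 (by positivity)
    exact (hX0 _ (hX0'.trans h1)).le

theorem inv_iter {S : Set ℤ} (hS : ∀ x, Tz 1 x ∈ S ↔ x ∈ S) (k : ℕ) : ∀ x, (Tz 1)^[k] x ∈ S ↔ x ∈ S := by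
  induction k with
  | zero => intro x; exact Iff.rfl
  | succ k ih =>
    intro x
    rw [Function.iterate_succ_apply, ih, hS]

open Classical in
/-- **the law, and invariant sets** -/
theorem law_all {ε : ℝ} (hε : 0 < ε) : ∃ η : ℝ, 0 < η ∧ ∃ I : ℕ, ∀ i ≥ I, ∀ r : ℤ,
    |(r : ℝ)| ≤ Real.exp (η * (i : ℝ) ^ 2) →
      (∀ t : ℕ, 1 ≤ t → ∃ D : ℝ, |D - Er (√2 * (i / √t))| ≤ ε ∧ ∀ s : ℤ, s = 1 ∨ s = -1 → ∀ N : ℕ,
        |(#{n ∈ Icc 1 N | (Tz 1)^[t] (s * ((n : ℕ) : ℤ)) ≠ (Tz 1)^[t] (3 ^ i * (s * ((n : ℕ) : ℤ)) + r)} : ℝ)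
          - D * N| ≤ 2 ^ (t + 1)) ∧
      (∀ S : Set ℤ, (∀ x, Tz 1 x ∈ S ↔ x ∈ S) → ∀ s : ℤ, s = 1 ∨ s = -1 → ∀ N : ℕ, 2 ≤ N →
        (#{n ∈ Icc 1 N | ¬ (s * ((n : ℕ) : ℤ) ∈ S ↔ 3 ^ i * (s * ((n : ℕ) : ℤ)) + r ∈ S)} : ℝ) ≤
          (Er (√2 * (i / √(Real.logb 2 N))) + ε) * N) := by
  set ε' := min ε 1 / 4 with hε'
  have hε0 : 0 < ε' := by rw [hε']; have : 0 < min ε 1 := lt_min hε one_pos; positivity
  have hε1 : 4 * ε' ≤ ε := by rw [hε']; have : min ε 1 ≤ ε := min_le_left _ _; linarith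
  obtain ⟨η, hη, I1, hI1⟩ := main_law hε0
  obtain ⟨K, hK⟩ := exists_pow_lt_of_lt_one (show 0 < ε' / 2 by positivity) (show (1 / 2 : ℝ) < 1 by norm_num)
  obtain ⟨I2, hI2⟩ := Er_late hε0 (K + 1)
  refine ⟨η, hη, max I1 I2, fun i hi r hr => ?_⟩
  have hi1 : I1 ≤ i := (le_max_left _ _).trans hi
  have hi2 : I2 ≤ i := (le_max_right _ _).trans hi
  have hmain := hI1 i hi1 r hr
  obtain ⟨hl1, hl2⟩ := hI2 i hi2
  refine ⟨fun t ht => ⟨q step (0, 0) t (i, r), ?_, fun s hs N => apart_card_sign hs t i r N⟩, fun S hS s hs N hN => ?_⟩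
  · have := hmain t ht
    rw [mul_div_assoc] at this
    linarith
  · have hNr : (2 : ℝ) ≤ N := by exact_mod_cast hN
    have hNp : (0 : ℝ) < N := by linarith
    set L := Nat.log 2 N with hL
    have hL1 : 2 ^ L ≤ N := Nat.pow_log_le_self 2 (by omega)
    have hL2 : N < 2 ^ (L + 1) := Nat.lt_pow_succ_log_self (by norm_num) N
    have hL1r : (2 : ℝ) ^ L ≤ N := by exact_mod_cast hL1
    have hL2r : (N : ℝ) ≤ 2 ^ (L + 1) := by exact_mod_cast hL2.le
    set y := Real.logb 2 N with hy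
    have hyL : (L : ℝ) ≤ y := by
      rw [hy, Real.le_logb_iff_rpow_le (by norm_num) hNp, Real.rpow_natCast]
      exact hL1r
    have hyL2 : y ≤ L + 1 := by
      rw [hy, Real.logb_le_iff_le_rpow (by norm_num) hNp]
      have : ((L : ℝ) + 1) = ((L + 1 : ℕ) : ℝ) := by push_cast; ring
      rw [this, Real.rpow_natCast]
      exact hL2r
    have hLpos : 1 ≤ L := by
      rw [hL]
      exact Nat.log_pos (by norm_num) hN
    have hLposr : (1 : ℝ) ≤ L := by exact_mod_cast hLpos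
    have hcardN : (#{n ∈ Icc 1 N | ¬ (s * ((n : ℕ) : ℤ) ∈ S ↔ 3 ^ i * (s * ((n : ℕ) : ℤ)) + r ∈ S)} : ℝ) ≤ N := by
      have := card_filter_le (Icc 1 N) (fun n => ¬ (s * ((n : ℕ) : ℤ) ∈ S ↔ 3 ^ i * (s * ((n : ℕ) : ℤ)) + r ∈ S))
      rw [Nat.card_Icc, Nat.add_sub_cancel] at this
      exact_mod_cast this
    rw [← mul_div_assoc]
    rcases le_or_gt L K with hLK | hLK
    · have h1 := hl2 y (by linarith) (by
        push_cast
        have : (L : ℝ) ≤ K := by exact_mod_cast hLK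
        linarith)
      refine hcardN.trans ?_
      have h2 : (1 : ℝ) ≤ Er (√2 * i / √y) + ε := by linarith
      calc (N : ℝ) = 1 * N := (one_mul _).symm
        _ ≤ (Er (√2 * i / √y) + ε) * N := mul_le_mul_of_nonneg_right h2 hNp.le
    · set t := L - K with ht
      have ht1 : 1 ≤ t := by omega
      have htL : t + K = L := by omega
      have htLr : (t : ℝ) + K = L := by exact_mod_cast htL
      have h1 := hl1 t ht1 y (by
        have : (0 : ℝ) ≤ K := by positivity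
        linarith) (by push_cast; linarith)
      have h2 := (abs_le.1 (hmain t ht1)).2
      have h3 := (abs_le.1 (apart_card_sign hs t i r N)).2
      have h4 : (#{n ∈ Icc 1 N | ¬ (s * ((n : ℕ) : ℤ) ∈ S ↔ 3 ^ i * (s * ((n : ℕ) : ℤ)) + r ∈ S)} : ℝ) ≤
          #{n ∈ Icc 1 N | (Tz 1)^[t] (s * ((n : ℕ) : ℤ)) ≠ (Tz 1)^[t] (3 ^ i * (s * ((n : ℕ) : ℤ)) + r)} := by
        have : #{n ∈ Icc 1 N | ¬ (s * ((n : ℕ) : ℤ) ∈ S ↔ 3 ^ i * (s * ((n : ℕ) : ℤ)) + r ∈ S)} ≤
          #{n ∈ Icc 1 N | (Tz 1)^[t] (s * ((n : ℕ) : ℤ)) ≠ (Tz 1)^[t] (3 ^ i * (s * ((n : ℕ) : ℤ)) + r)} := by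
          apply card_le_card
          intro n hn
          rw [mem_filter] at hn ⊢
          refine ⟨hn.1, fun heq => hn.2 ?_⟩
          rw [← inv_iter hS t, heq, inv_iter hS t]
        exact_mod_cast this
      have h5 : (2 : ℝ) ^ (t + 1) ≤ ε' * N := by
        have h6 : (2 : ℝ) ^ (t + 1) = 2 * (2 ^ L * (1 / 2) ^ K) := by
          have this : (2 : ℝ) ^ K * (1 / 2) ^ K = 1 := by rw [← mul_pow]; norm_num
          rw [← htL]
          calc (2 : ℝ) ^ (t + 1) = 2 * (2 ^ t * 1) := by rw [pow_succ]; ring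
            _ = 2 * (2 ^ t * ((2 : ℝ) ^ K * (1 / 2) ^ K)) := by rw [this]
            _ = 2 * (2 ^ (t + K) * (1 / 2) ^ K) := by rw [pow_add]; ring
        rw [h6]
        have h7 : (2 : ℝ) ^ L * (1 / 2) ^ K ≤ N * (ε' / 2) :=
          mul_le_mul hL1r hK.le (by positivity) hNp.le
        linarith
      have h6 : q step (0, 0) t (i, r) ≤ Er (√2 * i / √y) + 2 * ε' := by linarith
      have h7 : q step (0, 0) t (i, r) * N ≤ (Er (√2 * i / √y) + 2 * ε') * N := mul_le_mul_of_nonneg_right h6 hNp.le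
      have h8 : (4 * ε') * N ≤ ε * N := mul_le_mul_of_nonneg_right hε1 hNp.le
      have h9 : 0 ≤ ε' * N := by positivity
      linarith

end Pool.Agent.T6.H47.CL
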