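import Pool.Agent.T6.H47.CL1

set_option autoImplicit false

/-! The second moment of the difference between the numbers of the even and of the odd `r`. -/

namespace Pool.Agent.T6.H47.CL

open Finset Pool.Agent.H499R2.CO

/-- the mean of `Y` at time `j`, killed at level zero -/
noncomputable def yy : ℕ → ℕ × ℤ → ℝ
  | 0, s => if s.1 = 0 then 0 else Y s
  | j + 1, s => if s.1 = 0 then 0 else (yy j (step s false) + yy j (step s true)) / 2

/-- the mean of `β` at time `j`, killed at level zero -/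
noncomputable def kb (β : ℕ → ℝ) : ℕ → ℕ × ℤ → ℝ
  | 0, s => if s.1 = 0 then 0 else β s.1
  | j + 1, s => if s.1 = 0 then 0 else (kb β j (step s false) + kb β j (step s true)) / 2

/-- the potential -/
noncomputable def Ph (β φ : ℕ → ℝ) (s : ℕ × ℤ) : ℝ := φ s.1 + β s.1 * (1 + H s.1 s.2)

theorem mm_zero_level (t : ℕ) (r : ℤ) : mm t (0, r) = 0 := by cases t <;> simp [mm]

theorem yy_zero_level (t : ℕ) (r : ℤ) : yy t (0, r) = 0 := by cases t <;> simp [yy]

theorem kb_zero_level (β : ℕ → ℝ) (t : ℕ) (r : ℤ) : kb β t (0, r) = 0 := by cases t <;> simp [kb]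

theorem vv_zero_level (t : ℕ) (r : ℤ) : vv t (0, r) = 0 := by cases t <;> simp [vv]

theorem mm_succ {i : ℕ} (hi : 1 ≤ i) (t : ℕ) (r : ℤ) :
    mm (t + 1) (i, r) = Y (i, r) + (mm t (step (i, r) false) + mm t (step (i, r) true)) / 2 := by
  rw [mm]; rw [if_neg (by simp only; omega)]

theorem vv_succ {i : ℕ} (hi : 1 ≤ i) (t : ℕ) (r : ℤ) :
    vv (t + 1) (i, r) = 1 + Y (i, r) * (mm t (step (i, r) false) + mm t (step (i, r) true)) +
      (vv t (step (i, r) false) + vv t (step (i, r) true)) / 2 := by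
  rw [vv]; rw [if_neg (by simp only; omega)]

theorem yy_succ {i : ℕ} (hi : 1 ≤ i) (t : ℕ) (r : ℤ) :
    yy (t + 1) (i, r) = (yy t (step (i, r) false) + yy t (step (i, r) true)) / 2 := by
  rw [yy]; rw [if_neg (by simp only; omega)]

theorem yy_zero {i : ℕ} (hi : 1 ≤ i) (r : ℤ) : yy 0 (i, r) = Y (i, r) := by
  rw [yy]; rw [if_neg (by simp only; omega)]

theorem kb_succ (β : ℕ → ℝ) {i : ℕ} (hi : 1 ≤ i) (t : ℕ) (r : ℤ) :
    kb β (t + 1) (i, r) = (kb β t (step (i, r) false) + kb β t (step (i, r) true)) / 2 := by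
  rw [kb]; rw [if_neg (by simp only; omega)]

theorem kb_zero (β : ℕ → ℝ) {i : ℕ} (hi : 1 ≤ i) (r : ℤ) : kb β 0 (i, r) = β i := by
  rw [kb]; rw [if_neg (by simp only; omega)]

theorem mm_sum : ∀ (t : ℕ) (s : ℕ × ℤ), mm t s = ∑ j ∈ range t, yy j s := by
  intro t
  induction t with
  | zero => intro s; rw [mm]; simp
  | succ t ih =>
    intro ⟨i, r⟩
    rcases Nat.eq_zero_or_pos i with rfl | h
    · rw [mm_zero_level]
      symm
      apply sum_eq_zero
      intro j _
      exact yy_zero_level j r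
    · rw [mm_succ h, ih, ih, sum_range_succ', yy_zero h]
      have e : ∑ k ∈ range t, yy (k + 1) (i, r) =
          ∑ k ∈ range t, (yy k (step (i, r) false) + yy k (step (i, r) true)) / 2 :=
        sum_congr rfl fun k _ => yy_succ h k r
      rw [e, ← sum_div, sum_add_distrib]
      ring

theorem yy_abs : ∀ (t : ℕ) (s : ℕ × ℤ), |yy t s| ≤ 1 := by
  intro t
  induction t with
  | zero =>
    intro s; rw [yy]; split_ifs
    · simp
    · rw [Y_abs]
  | succ t ih =>
    intro s
    rw [yy]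
    split_ifs
    · simp
    · have h1 := abs_le.1 (ih (step s false)); have h2 := abs_le.1 (ih (step s true))
      rw [abs_le]; constructor <;> linarith [h1.1, h1.2, h2.1, h2.2]

theorem P_apply (F : ℕ × ℤ → ℝ) (s : ℕ × ℤ) : P F s = (F (step s false) + F (step s true)) / 2 := rfl

theorem PY_abs (n : ℕ) : ∀ s : ℕ × ℤ, |(P^[n] Y) s| ≤ 1 := by
  induction n with
  | zero => intro s; rw [Function.iterate_zero, id, Y_abs]
  | succ n ih =>
    intro s
    rw [Function.iterate_succ_apply', P_apply]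
    have h1 := abs_le.1 (ih (step s false)); have h2 := abs_le.1 (ih (step s true))
    rw [abs_le]; constructor <;> linarith [h1.1, h1.2, h2.1, h2.2]

/-- killing changes little -/
theorem PY_yy (n : ℕ) : ∀ s : ℕ × ℤ, |(P^[n] Y) s - yy n s| ≤ 1 - al n s := by
  induction n with
  | zero =>
    intro ⟨i, r⟩
    rw [Function.iterate_zero, id]
    rcases Nat.eq_zero_or_pos i with rfl | h
    · rw [yy_zero_level, al_zero_level, sub_zero, Y_abs, sub_zero]
    · rw [yy_zero h, al_zero h]; simp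
  | succ n ih =>
    intro ⟨i, r⟩
    rcases Nat.eq_zero_or_pos i with rfl | h
    · rw [yy_zero_level, al_zero_level, sub_zero, sub_zero]
      exact PY_abs _ _
    · rw [yy_succ h, al_succ h, Function.iterate_succ_apply', P_apply]
      have h1 := abs_le.1 (ih (step (i, r) false)); have h2 := abs_le.1 (ih (step (i, r) true))
      rw [abs_le]; constructor <;> linarith [h1.1, h1.2, h2.1, h2.2]

variable {n : ℕ} {β φ : ℕ → ℝ} {m : ℝ}

theorem yy_le (hβ : ∀ i : ℕ, 1 ≤ i → ∀ r : ℤ, |(P^[n] Y) (i, r)| ≤ β i) : ∀ (j : ℕ) (s : ℕ × ℤ),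
    |yy (n + j) s| ≤ kb β j s + (al j s - al (j + n) s) := by
  intro j
  induction j with
  | zero =>
    intro ⟨i, r⟩
    rcases Nat.eq_zero_or_pos i with rfl | h
    · rw [yy_zero_level, kb_zero_level, al_zero_level, al_zero_level]; simp
    · rw [kb_zero β h, al_zero h, zero_add, add_zero]
      have h1 := hβ i h r
      have h2 := PY_yy n (i, r)
      have h3 : |yy n (i, r)| ≤ |(P^[n] Y) (i, r)| + |(P^[n] Y) (i, r) - yy n (i, r)| := by
        have h4 := abs_sub ((P^[n] Y) (i, r)) ((P^[n] Y) (i, r) - yy n (i, r))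
        rw [sub_sub_cancel] at h4
        exact h4
      linarith
  | succ j ih =>
    intro ⟨i, r⟩
    rcases Nat.eq_zero_or_pos i with rfl | h
    · rw [yy_zero_level, kb_zero_level, al_zero_level, al_zero_level]; simp
    · rw [show n + (j + 1) = (n + j) + 1 by ring, yy_succ h, kb_succ β h, al_succ h,
        show j + 1 + n = (j + n) + 1 by ring, al_succ h]
      have h1 := abs_le.1 (ih (step (i, r) false)); have h2 := abs_le.1 (ih (step (i, r) true))
      rw [abs_le]; constructor <;> linarith [h1.1, h1.2, h2.1, h2.2]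

theorem al_sum (s : ℕ × ℤ) (t : ℕ) : ∀ n : ℕ, ∑ j ∈ range t, (al j s - al (j + n) s) ≤ n := by
  intro n
  induction n with
  | zero => simp
  | succ n ih =>
    have e : ∑ j ∈ range t, (al j s - al (j + (n + 1)) s) = ∑ j ∈ range t, (al j s - al (j + n) s) +
        ∑ j ∈ range t, (al (j + n) s - al (j + 1 + n) s) := by
      rw [← sum_add_distrib]
      apply sum_congr rfl
      intro j _
      rw [show j + (n + 1) = j + 1 + n by ring]
      ring
    have e2 : ∑ j ∈ range t, (al (j + n) s - al (j + 1 + n) s) = al n s - al (t + n) s := by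
      have h := sum_range_sub' (fun j => al (j + n) s) t
      rw [zero_add] at h
      exact h
    have h1 := al_le_one n s
    have h2 := al_nonneg (t + n) s
    rw [e, e2]
    push_cast
    linarith

theorem Ph_nonneg (hβ0 : ∀ i, 0 ≤ β i) (hφ : ∀ i, 0 ≤ φ i) (s : ℕ × ℤ) : 0 ≤ Ph β φ s := by
  unfold Ph
  have h1 := hβ0 s.1
  have h2 := hφ s.1
  positivity

/-- the drift of the potential -/
theorem Ph_drift (hβ0 : ∀ i, 0 ≤ β i) (hm : 0 ≤ m)
    (hΦ : ∀ i : ℕ, 1 ≤ i → φ (i + 1) + φ (i - 1) - 2 * φ i + β (i + 1) * (v (i + 1) + 2) +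
      β (i - 1) * (v (i - 1) + 2) ≤ 2 * m) {i : ℕ} (hi : 1 ≤ i) (r : ℤ) :
    (Ph β φ (step (i, r) false) + Ph β φ (step (i, r) true)) / 2 ≤ Ph β φ (i, r) - β i + m := by
  rcases Int.emod_two_eq_zero_or_one r with hr | hr
  · have h1 := H_even hi hr
    have h2 : (H i (r / 2) : ℝ) + H i ((3 * r + 1 - 3 ^ i) / 2) + 2 ≤ 2 * H i r := by exact_mod_cast h1
    rw [step_ef hr, step_et hr]
    unfold Ph
    simp only
    have h3 := mul_le_mul_of_nonneg_left h2 (hβ0 i)
    nlinarith [hβ0 i]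
  · obtain ⟨e1, e2⟩ := level_odd hi hr
    have h1 := hΦ i hi
    unfold Ph
    rw [e1, e2]
    have h2 : (H (i + 1) (step (i, r) false).2 : ℝ) ≤ v (i + 1) + 1 := by exact_mod_cast H_le_v _ _
    have h3 : (H (i - 1) (step (i, r) true).2 : ℝ) ≤ v (i - 1) + 1 := by exact_mod_cast H_le_v _ _
    have h4 := mul_le_mul_of_nonneg_left (show (1 : ℝ) + H (i + 1) (step (i, r) false).2 ≤ v (i + 1) + 2 by linarith)
      (hβ0 (i + 1))
    have h5 := mul_le_mul_of_nonneg_left (show (1 : ℝ) + H (i - 1) (step (i, r) true).2 ≤ v (i - 1) + 2 by linarith)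
      (hβ0 (i - 1))
    have h6 : β i ≤ β i * (1 + H i r) := by
      have : (0 : ℝ) ≤ H i r := Nat.cast_nonneg _
      nlinarith [hβ0 i]
    simp only
    linarith

theorem kb_sum (hβ0 : ∀ i, 0 ≤ β i) (hφ : ∀ i, 0 ≤ φ i) (hm : 0 ≤ m)
    (hΦ : ∀ i : ℕ, 1 ≤ i → φ (i + 1) + φ (i - 1) - 2 * φ i + β (i + 1) * (v (i + 1) + 2) +
      β (i - 1) * (v (i - 1) + 2) ≤ 2 * m) : ∀ (t : ℕ) (s : ℕ × ℤ),
    ∑ j ∈ range t, kb β j s ≤ Ph β φ s + m * t := by
  intro t
  induction t with
  | zero => intro s; simp; exact Ph_nonneg hβ0 hφ s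
  | succ t ih =>
    intro ⟨i, r⟩
    rcases Nat.eq_zero_or_pos i with rfl | h
    · have e : ∑ j ∈ range (t + 1), kb β j (0, r) = 0 := by
        apply sum_eq_zero
        intro j _
        exact kb_zero_level β j r
      rw [e]
      have := Ph_nonneg hβ0 hφ (0, r)
      positivity
    · rw [sum_range_succ', kb_zero β h]
      have e : ∑ k ∈ range t, kb β (k + 1) (i, r) =
          ∑ k ∈ range t, (kb β k (step (i, r) false) + kb β k (step (i, r) true)) / 2 :=
        sum_congr rfl fun k _ => kb_succ β h k r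
      rw [e, ← sum_div, sum_add_distrib]
      have h1 := ih (step (i, r) false)
      have h2 := ih (step (i, r) true)
      have h3 := Ph_drift hβ0 hm hΦ h r
      push_cast
      linarith

theorem mm_le (hβ : ∀ i : ℕ, 1 ≤ i → ∀ r : ℤ, |(P^[n] Y) (i, r)| ≤ β i) (hβ0 : ∀ i, 0 ≤ β i)
    (hφ : ∀ i, 0 ≤ φ i) (hm : 0 ≤ m)
    (hΦ : ∀ i : ℕ, 1 ≤ i → φ (i + 1) + φ (i - 1) - 2 * φ i + β (i + 1) * (v (i + 1) + 2) +
      β (i - 1) * (v (i - 1) + 2) ≤ 2 * m) (t : ℕ) (s : ℕ × ℤ) :
    |mm t s| ≤ 2 * n + Ph β φ s + m * t := by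
  rw [mm_sum]
  refine (abs_sum_le_sum_abs _ _).trans ?_
  have h1 : ∑ j ∈ range t, |yy j s| ≤ ∑ j ∈ range (n + t), |yy j s| := by
    apply sum_le_sum_of_subset_of_nonneg
    · intro j hj
      rw [mem_range] at hj ⊢
      omega
    · intro _ _ _
      exact abs_nonneg _
  refine h1.trans ?_
  rw [sum_range_add]
  have h2 : ∑ j ∈ range n, |yy j s| ≤ n := by
    calc _ ≤ ∑ j ∈ range n, (1 : ℝ) := sum_le_sum fun j _ => yy_abs j s
      _ = n := by simp
  have h3 : ∑ j ∈ range t, |yy (n + j) s| ≤ ∑ j ∈ range t, (kb β j s + (al j s - al (j + n) s)) :=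
    sum_le_sum fun j _ => yy_le hβ j s
  rw [sum_add_distrib] at h3
  have h4 := kb_sum hβ0 hφ hm hΦ t s
  have h5 := al_sum s t n
  linarith

/-- **the second moment** -/
theorem vv_le (hβ : ∀ i : ℕ, 1 ≤ i → ∀ r : ℤ, |(P^[n] Y) (i, r)| ≤ β i) (hβ0 : ∀ i, 0 ≤ β i)
    (hφ : ∀ i, 0 ≤ φ i) (hm : 0 ≤ m)
    (hΦ : ∀ i : ℕ, 1 ≤ i → φ (i + 1) + φ (i - 1) - 2 * φ i + β (i + 1) * (v (i + 1) + 2) +
      β (i - 1) * (v (i - 1) + 2) ≤ 2 * m) : ∀ (t : ℕ) (s : ℕ × ℤ),
    vv t s ≤ t * (1 + 4 * n + 2 * Ph β φ s + 4 * m * t) := by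
  intro t
  induction t with
  | zero => intro s; rw [vv]; simp
  | succ t ih =>
    intro ⟨i, r⟩
    rcases Nat.eq_zero_or_pos i with rfl | h
    · rw [vv_zero_level]
      have := Ph_nonneg hβ0 hφ (0, r)
      positivity
    · rw [vv_succ h]
      have h1 := ih (step (i, r) false)
      have h2 := ih (step (i, r) true)
      have h3 := Ph_drift hβ0 hm hΦ h r
      have h4 := mm_le hβ hβ0 hφ hm hΦ t (step (i, r) false)
      have h5 := mm_le hβ hβ0 hφ hm hΦ t (step (i, r) true)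
      have hb := hβ0 i
      have ht : (0 : ℝ) ≤ t := Nat.cast_nonneg t
      have h6 : Y (i, r) * (mm t (step (i, r) false) + mm t (step (i, r) true)) ≤
          |mm t (step (i, r) false)| + |mm t (step (i, r) true)| := by
        refine (le_abs_self _).trans ?_
        rw [abs_mul, Y_abs, one_mul]
        exact abs_add_le _ _
      set A := Ph β φ (step (i, r) false)
      set B := Ph β φ (step (i, r) true)
      set D := Ph β φ (i, r)
      have h7 : (A + B) / 2 ≤ D + m := by linarith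
      have h8 : (t : ℝ) * (A + B) ≤ t * (2 * (D + m)) := mul_le_mul_of_nonneg_left (by linarith) ht
      push_cast
      nlinarith

end Pool.Agent.T6.H47.CL
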