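import Pool.Agent.T6.H47.CL2

set_option autoImplicit false

/-! The solution of the Poisson equation. -/

namespace Pool.Agent.T6.H47.CL

open Finset Pool.Agent.H499R2.CO

/-- `(7/4)` to the power of the exponent of two -/
noncomputable def fv (j : ℕ) : ℝ := (7 / 4 : ℝ) ^ padicValNat 2 j

theorem fv_nonneg (j : ℕ) : 0 ≤ fv j := by unfold fv; positivity

theorem fv_two (u : ℕ) : fv (2 * u) ≤ 7 / 4 * fv u := by
  unfold fv
  rcases Nat.eq_zero_or_pos u with rfl | hu
  · simp; norm_num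
  · rw [padicValNat.mul (by norm_num) (by omega), padicValNat.self (by norm_num), pow_add, pow_one]

theorem fv_odd (u : ℕ) : fv (2 * u + 1) = 1 := by
  unfold fv
  rw [padicValNat.eq_zero_of_not_dvd (by omega), pow_zero]

theorem fv_le {n : ℕ} (hn : 1 ≤ n) : fv n ≤ n := by
  unfold fv
  have h1 : 2 ^ padicValNat 2 n ≤ n := Nat.le_of_dvd (by omega) pow_padicValNat_dvd
  have h2 : ((2 : ℝ)) ^ padicValNat 2 n ≤ n := by exact_mod_cast h1
  exact (pow_le_pow_left₀ (by norm_num) (by norm_num) _).trans h2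

theorem sum_fv : ∀ k : ℕ, ∑ j ∈ range k, fv j ≤ 12 * k := by
  intro k
  induction k using Nat.strong_induction_on with
  | _ k ih =>
    have hev : ∀ n : ℕ, n < k → ∑ j ∈ range (2 * n), fv j ≤ 22 * n := by
      intro n hn
      rw [sum_two]
      have h1 : ∑ u ∈ range n, fv (2 * u) ≤ 7 / 4 * ∑ u ∈ range n, fv u := by
        rw [mul_sum]; exact sum_le_sum fun u _ => fv_two u
      have h2 : ∑ u ∈ range n, fv (2 * u + 1) = n := by
        rw [sum_congr rfl fun u _ => fv_odd u]; simp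
      have h3 := ih n hn
      rw [h2]
      linarith
    rcases Nat.eq_zero_or_pos k with rfl | hk
    · simp
    · rcases Nat.even_or_odd' k with ⟨n, rfl | rfl⟩
      · have h1 := hev n (by omega)
        push_cast
        have : (0 : ℝ) ≤ n := Nat.cast_nonneg n
        linarith
      · rw [sum_range_succ]
        rcases Nat.eq_zero_or_pos n with rfl | hn
        · simp [fv]
        · have h1 := hev n (by omega)
          have h2 := fv_le (show 1 ≤ 2 * n by omega)
          push_cast at h2 ⊢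
          linarith

theorem sq_le_pow (a : ℕ) : (4 + (a : ℝ)) ^ 2 ≤ 16 * (7 / 4 : ℝ) ^ a := by
  induction a with
  | zero => norm_num
  | succ a ih =>
    push_cast
    rw [pow_succ (7 / 4 : ℝ) a]
    have ha : (0 : ℝ) ≤ a := Nat.cast_nonneg a
    nlinarith

theorem sum_w_sq (k : ℕ) : ∑ j ∈ range k, ((v j : ℝ) + 2) ^ 2 ≤ (192 * k : ℝ) := by
  have h1 : ∀ j ∈ range k, ((v j : ℝ) + 2) ^ 2 ≤ 16 * fv j := by
    intro j _
    rcases Nat.eq_zero_or_pos j with rfl | hj
    · simp [v, fv]; norm_num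
    · have h2 : (v j : ℝ) ≤ 2 + padicValNat 2 j := by exact_mod_cast v_le_two_add hj
      have h3 := sq_le_pow (padicValNat 2 j)
      have h4 : (0 : ℝ) ≤ v j := Nat.cast_nonneg _
      unfold fv
      nlinarith
  refine (sum_le_sum h1).trans ?_
  rw [← mul_sum]
  have := sum_fv k
  linarith

/-- **the solution of the Poisson equation** -/
theorem exists_phi {β : ℕ → ℝ} (hβ0 : ∀ i, 0 ≤ β i) (hβ1 : ∀ i, β i ≤ 1) {b E : ℝ} (hb : 0 ≤ b) (hE : 0 ≤ E)
    (hsum : ∀ k : ℕ, ∑ j ∈ range k, β j ≤ b * k + E) {l : ℝ} (hl : 0 < l) :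
    ∃ φ : ℕ → ℝ, (∀ i, 0 ≤ φ i) ∧
      (∀ i : ℕ, 1 ≤ i → φ (i + 1) + φ (i - 1) - 2 * φ i + β (i + 1) * (v (i + 1) + 2) +
        β (i - 1) * (v (i - 1) + 2) ≤ 2 * (l * b + 192 / l)) ∧
      ∃ E' : ℝ, 0 ≤ E' ∧ ∀ i : ℕ, φ i ≤ E' * i + 2 * (l * b + 192 / l) * i ^ 2 := by
  set m : ℝ := l * b + 192 / l with hm
  have hm0 : 0 ≤ m := by positivity
  set c : ℕ → ℝ := fun j => β j * (v j + 2) with hc
  have hc0 : ∀ j, 0 ≤ c j := fun j => mul_nonneg (hβ0 j) (by positivity)
  have hcs : ∀ k : ℕ, ∑ j ∈ range k, c j ≤ m * k + l * E := by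
    intro k
    have h1 : ∀ j ∈ range k, c j ≤ l * β j + 1 / l * ((v j : ℝ) + 2) ^ 2 := by
      intro j _
      have h2 : 0 ≤ (l * β j - ((v j : ℝ) + 2)) ^ 2 := sq_nonneg _
      have h3 : β j * β j ≤ β j := by nlinarith [hβ0 j, hβ1 j]
      have h4 : l * c j ≤ l * (l * β j + 1 / l * ((v j : ℝ) + 2) ^ 2) := by
        have e : l * (l * β j + 1 / l * ((v j : ℝ) + 2) ^ 2) = l ^ 2 * β j + ((v j : ℝ) + 2) ^ 2 := by field_simp
        rw [e, hc]
        simp only
        have h5 : l ^ 2 * (β j * β j) ≤ l ^ 2 * β j := mul_le_mul_of_nonneg_left h3 (by positivity)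
        have h6 : 0 ≤ l * (β j * (v j + 2)) := mul_nonneg hl.le (hc0 j)
        nlinarith
      exact le_of_mul_le_mul_left h4 hl
    refine (sum_le_sum h1).trans ?_
    rw [sum_add_distrib, ← mul_sum, ← mul_sum]
    have h2 := mul_le_mul_of_nonneg_left (hsum k) hl.le
    have h3 := mul_le_mul_of_nonneg_left (sum_w_sq k) (show 0 ≤ 1 / l by positivity)
    have e : m * k + l * E = l * (b * k + E) + 1 / l * (192 * k) := by rw [hm]; ring
    rw [e]
    linarith
  set D : ℕ → ℝ := fun i => ∑ j ∈ range i, (c (j + 2) + c j) with hD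
  have hDle : ∀ i : ℕ, D i ≤ 2 * (m * (i + 2) + l * E) := by
    intro i
    rw [hD]
    simp only
    rw [sum_add_distrib]
    have h1 : ∑ j ∈ range i, c (j + 2) ≤ ∑ j ∈ range (i + 2), c j := by
      rw [sum_range_succ' c (i + 1), sum_range_succ' (fun k => c (k + 1)) i]
      have := hc0 (0 + 1)
      have := hc0 0
      linarith
    have h2 : ∑ j ∈ range i, c j ≤ ∑ j ∈ range (i + 2), c j := by
      apply sum_le_sum_of_subset_of_nonneg
      · intro j hj; rw [mem_range] at hj ⊢; omega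
      · intro _ _ _; exact hc0 _
    have h3 := hcs (i + 2)
    push_cast at h3
    linarith
  have hD0 : ∀ i : ℕ, 0 ≤ D i := fun i => sum_nonneg fun j _ => add_nonneg (hc0 _) (hc0 _)
  set E' : ℝ := 4 * m + 2 * (l * E) with hE'
  set f' : ℕ → ℝ := fun i => E' + 2 * m * i - D i with hf'
  have hf0 : ∀ i, 0 ≤ f' i := by
    intro i
    have := hDle i
    rw [hf']
    simp only
    rw [hE']
    linarith
  refine ⟨fun i => ∑ j ∈ range i, f' j, fun i => sum_nonneg fun j _ => hf0 j, fun i hi => ?_, E', by positivity,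
    fun i => ?_⟩
  · obtain ⟨k, rfl⟩ : ∃ k, i = k + 1 := ⟨i - 1, by omega⟩
    simp only [Nat.add_sub_cancel]
    rw [sum_range_succ f' (k + 1), sum_range_succ f' k]
    have e : f' (k + 1) - f' k = 2 * m - (c (k + 2) + c k) := by
      rw [hf', hD]
      simp only
      rw [sum_range_succ]
      push_cast
      ring
    have e2 : β (k + 1 + 1) * (v (k + 1 + 1) + 2) = c (k + 2) := rfl
    have e3 : β k * (v k + 2) = c k := rfl
    rw [e2, e3]
    linarith
  · have h1 : ∀ j ∈ range i, f' j ≤ E' + 2 * m * i := by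
      intro j hj
      rw [mem_range] at hj
      have h2 : (j : ℝ) ≤ i := by exact_mod_cast hj.le
      have h3 := hD0 j
      rw [hf']
      simp only
      nlinarith
    refine (sum_le_sum h1).trans (le_of_eq ?_)
    rw [sum_const, card_range, nsmul_eq_mul]
    ring

end Pool.Agent.T6.H47.CL
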