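import Pool.Agent.T6.H47.CL3

set_option autoImplicit false

/-! Correlations of the parities of the trajectories of `x` and `3 ^ i x + r`. -/

namespace Pool.Agent.T6.H47.CL

open Finset Pool.Agent.H499R2.CO

/-- sign of the parity of the `n`-th iterate -/
noncomputable def Fn (n : ℕ) (x : ℤ) : ℝ := if ((Tz 1)^[n] x) % 2 = 0 then 1 else -1

theorem Fn_abs (n : ℕ) (x : ℤ) : |Fn n x| = 1 := by unfold Fn; split_ifs <;> simp

theorem Fn_succ (n : ℕ) (x : ℤ) : Fn (n + 1) x = Fn n (Tz 1 x) := by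
  unfold Fn; rw [Function.iterate_succ_apply]

theorem T_shift (n : ℕ) : ∀ x m : ℤ, ∃ c : ℤ, c % 2 = 1 ∧ (Tz 1)^[n] (x + m * 2 ^ n) = (Tz 1)^[n] x + c * m := by
  induction n with
  | zero => intro x m; exact ⟨1, by norm_num, by simp⟩
  | succ n ih =>
    intro x m
    have h2 : m * (2 : ℤ) ^ (n + 1) = 2 * (m * 2 ^ n) := by rw [pow_succ]; ring
    rcases Int.emod_two_eq_zero_or_one x with h | h
    · obtain ⟨c, hc, e⟩ := ih (Tz 1 x) m
      refine ⟨c, hc, ?_⟩
      rw [Function.iterate_succ_apply, Function.iterate_succ_apply, ← e]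
      congr 1
      unfold Tz
      rw [if_pos h, if_pos (by omega)]; omega
    · obtain ⟨c, hc, e⟩ := ih (Tz 1 x) (3 * m)
      refine ⟨c * 3, by omega, ?_⟩
      rw [Function.iterate_succ_apply, Function.iterate_succ_apply, show c * 3 * m = c * (3 * m) by ring, ← e]
      congr 1
      unfold Tz
      rw [if_neg (by omega), if_neg (by omega)]
      have h3 : 3 * m * (2 : ℤ) ^ n = 3 * (m * 2 ^ n) := by ring
      rw [h3]; omega

theorem Fn_odd (n : ℕ) (x : ℤ) {m : ℤ} (hm : m % 2 = 1) : Fn n (x + m * 2 ^ n) = - Fn n x := by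
  obtain ⟨c, hc, e⟩ := T_shift n x m
  unfold Fn
  rw [e]
  have h1 : (c * m) % 2 = 1 := odd_mul hc hm
  rcases Int.emod_two_eq_zero_or_one ((Tz 1)^[n] x) with h | h
  · rw [if_pos h, if_neg (by omega)]
  · rw [if_neg (by omega : ¬ ((Tz 1)^[n] x) % 2 = 0), if_pos (by omega)]; norm_num

theorem Fn_per (n : ℕ) (x m : ℤ) : Fn n (x + m * 2 ^ (n + 1)) = Fn n x := by
  obtain ⟨c, hc, e⟩ := T_shift n x (2 * m)
  have e1 : m * (2 : ℤ) ^ (n + 1) = 2 * m * 2 ^ n := by rw [pow_succ]; ring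
  unfold Fn
  rw [e1, e]
  have h1 : (c * (2 * m)) % 2 = 0 := by rw [show c * (2 * m) = 2 * (c * m) by ring]; omega
  rcases Int.emod_two_eq_zero_or_one ((Tz 1)^[n] x) with h | h
  · rw [if_pos h, if_pos (by omega)]
  · rw [if_neg (by omega : ¬ ((Tz 1)^[n] x) % 2 = 0), if_neg (by omega)]

theorem Fn_per' (n : ℕ) {x y : ℤ} (h : (2 : ℤ) ^ (n + 1) ∣ y - x) : Fn n y = Fn n x := by
  obtain ⟨m, hm⟩ := h
  have : y = x + m * 2 ^ (n + 1) := by linarith
  rw [this, Fn_per]

/-- one step of the pair, for a product -/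
theorem prod_step (n : ℕ) (i : ℕ) (r x : ℤ) :
    Fn (n + 1) x * Fn (n + 1) (3 ^ i * x + r) =
      Fn n (nx 1 (i, r) x) * Fn n (3 ^ (step (i, r) (decide (x % 2 = 1))).1 * (nx 1 (i, r) x) +
        (step (i, r) (decide (x % 2 = 1))).2) := by
  rw [Fn_succ, Fn_succ]
  rcases pair_step (d := 1) (by norm_num) i r x with ⟨e1, e2, _⟩ | ⟨e1, e2, _⟩
  · rw [one_mul, one_mul] at e2
    rw [e1, e2]
  · rw [one_mul, one_mul] at e2
    rw [one_mul] at e1
    rw [e1, e2, mul_comm]

theorem prod_per (n i : ℕ) (r x m : ℤ) :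
    Fn n (x + m * 2 ^ (n + 1)) * Fn n (3 ^ i * (x + m * 2 ^ (n + 1)) + r) = Fn n x * Fn n (3 ^ i * x + r) := by
  rw [Fn_per]
  congr 1
  apply Fn_per'
  exact ⟨3 ^ i * m, by ring⟩

theorem pair_avg (n : ℕ) : ∀ (i : ℕ) (r : ℤ),
    ∑ x ∈ range (2 ^ (n + 1)), Fn n x * Fn n (3 ^ i * x + r) = 2 ^ (n + 1) * (P^[n] Y) (i, r) := by
  induction n with
  | zero =>
    intro i r
    have h3 := odd3 i
    rw [show 2 ^ (0 + 1) = 2 by norm_num, sum_range_succ, sum_range_one, Function.iterate_zero, id]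
    unfold Fn Y
    simp only [Function.iterate_zero, id]
    push_cast
    rw [mul_zero, zero_add, mul_one, one_mul]
    rcases Int.emod_two_eq_zero_or_one r with h | h
    · have h1 : ¬ ((3 ^ i + r) % 2 = 0) := by omega
      simp only [h, h1, if_true, if_false]; norm_num
    · have h1 : (3 ^ i + r) % 2 = 0 := by omega
      have h2 : ¬ (r % 2 = 0) := by omega
      simp only [h1, h2, if_true, if_false]; norm_num
  | succ n ih =>
    intro i r
    rw [show 2 ^ (n + 1 + 1) = 2 * 2 ^ (n + 1) by rw [pow_succ]; ring, sum_two]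
    have h1 : ∑ u ∈ range (2 ^ (n + 1)), Fn (n + 1) ((2 * u : ℕ) : ℤ) * Fn (n + 1) (3 ^ i * ((2 * u : ℕ) : ℤ) + r) =
        2 ^ (n + 1) * (P^[n] Y) (step (i, r) false) := by
      rw [show step (i, r) false = ((step (i, r) false).1, (step (i, r) false).2) from rfl, ← ih]
      apply sum_congr rfl
      intro u _
      rw [prod_step]
      have hx : ((2 * u : ℕ) : ℤ) % 2 = 0 := by push_cast; omega
      have hn : nx 1 (i, r) ((2 * u : ℕ) : ℤ) = u := by
        unfold nx
        rw [if_neg (by omega)]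
        unfold Tz
        rw [if_pos hx]; push_cast; omega
      have hdec : decide (((2 * u : ℕ) : ℤ) % 2 = 1) = false := by rw [hx]; rfl
      rw [hdec, hn]
    have h2 : ∑ u ∈ range (2 ^ (n + 1)), Fn (n + 1) ((2 * u + 1 : ℕ) : ℤ) * Fn (n + 1) (3 ^ i * ((2 * u + 1 : ℕ) : ℤ) + r) =
        2 ^ (n + 1) * (P^[n] Y) (step (i, r) true) := by
      rw [show step (i, r) true = ((step (i, r) true).1, (step (i, r) true).2) from rfl, ← ih]
      have hpar : ∀ u : ℕ, ((2 * u + 1 : ℕ) : ℤ) % 2 = 1 := by intro u; push_cast; omega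
      by_cases hsw : i = 0 ∧ r % 2 = 1
      · refine Eq.trans ?_ (sum_affine (n + 1) (fun x : ℤ => Fn n x * Fn n (3 ^ (step (i, r) true).1 * x +
          (step (i, r) true).2)) (fun x m => prod_per n _ _ x m) (a := 1) (by norm_num) ((1 + r) / 2))
        apply sum_congr rfl
        intro u _
        rw [prod_step]
        have hn : nx 1 (i, r) ((2 * u + 1 : ℕ) : ℤ) = 1 * u + (1 + r) / 2 := by
          unfold nx
          rw [if_pos ⟨hsw.1, hsw.2, hpar u⟩]; push_cast; omega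
        have hdec : decide (((2 * u + 1 : ℕ) : ℤ) % 2 = 1) = true := by rw [hpar]; rfl
        rw [hdec, hn]
      · refine Eq.trans ?_ (sum_affine (n + 1) (fun x : ℤ => Fn n x * Fn n (3 ^ (step (i, r) true).1 * x +
          (step (i, r) true).2)) (fun x m => prod_per n _ _ x m) (a := 3) (by norm_num) 2)
        apply sum_congr rfl
        intro u _
        rw [prod_step]
        have hn : nx 1 (i, r) ((2 * u + 1 : ℕ) : ℤ) = 3 * u + 2 := by
          unfold nx
          rw [if_neg (fun h' => hsw ⟨h'.1, h'.2.1⟩)]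
          unfold Tz
          rw [if_neg (by rw [hpar]; norm_num)]; push_cast; omega
        have hdec : decide (((2 * u + 1 : ℕ) : ℤ) % 2 = 1) = true := by rw [hpar]; rfl
        rw [hdec, hn]
    rw [h1, h2, Function.iterate_succ_apply', P_apply]
    ring

/-- the cost of a shift -/
theorem shift_cost (n : ℕ) (h : ℤ) :
    ∑ x ∈ range (2 ^ (n + 1)), |Fn n (x + h) - Fn n x| ≤ 2 ^ (n + 1) * (2 * q step (0, 0) n (0, h)) := by
  classical
  have h1 := count_blocks (d := 1) (by norm_num) n (0, h) 2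
  have h2 : ∀ x ∈ range (2 ^ (n + 1)), |Fn n (x + h) - Fn n x| ≤
      2 * (if surv 1 n (0, h) x then (1 : ℝ) else 0) := by
    intro x _
    by_cases hs : surv 1 n (0, h) (x : ℤ)
    · rw [if_pos hs, mul_one]
      have := abs_sub (Fn n (x + h)) (Fn n x)
      rw [Fn_abs, Fn_abs] at this
      linarith
    · obtain ⟨k, hk, hh⟩ := coal (by norm_num) n 0 h x hs
      rw [pow_zero, one_mul, one_mul] at hh
      have h3 := iter_persist hh hk
      have e : Fn n (x + h) = Fn n x := by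
        unfold Fn
        rw [h3]
      rw [e, if_neg hs]; simp
  refine (sum_le_sum h2).trans ?_
  rw [← mul_sum, show 2 ^ (n + 1) = 2 * 2 ^ n by rw [pow_succ]; ring, h1]
  push_cast
  rw [pow_succ]
  nlinarith

/-- the cost of a shift, in an affine image -/
theorem shift_cost' (n : ℕ) {a : ℤ} (ha : a % 2 = 1) (c h : ℤ) :
    ∑ x ∈ range (2 ^ (n + 1)), |Fn n (a * x + c + h) - Fn n (a * x + c)| ≤ 2 ^ (n + 1) * (2 * q step (0, 0) n (0, h)) := by
  refine le_trans (le_of_eq ?_) (shift_cost n h)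
  exact sum_affine (n + 1) (fun x : ℤ => |Fn n (x + h) - Fn n x|) (fun x m => by
    rw [Fn_per, show x + m * 2 ^ (n + 1) + h = x + h + m * 2 ^ (n + 1) by ring, Fn_per]) ha c

/-- changing `r` by `3 ^ i h + h'` -/
theorem change_r (n i : ℕ) (r h h' : ℤ) :
    |∑ x ∈ range (2 ^ (n + 1)), Fn n x * Fn n (3 ^ i * x + r) -
      ∑ x ∈ range (2 ^ (n + 1)), Fn n x * Fn n (3 ^ i * x + r + (3 ^ i * h + h'))| ≤
      2 ^ (n + 1) * (2 * q step (0, 0) n (0, h) + 2 * q step (0, 0) n (0, h')) := by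
  have h3 := odd3 i
  have e1 : ∑ x ∈ range (2 ^ (n + 1)), Fn n x * Fn n (3 ^ i * x + r) =
      ∑ x ∈ range (2 ^ (n + 1)), Fn n (x + h) * Fn n (3 ^ i * x + (r + 3 ^ i * h)) := by
    have := sum_affine (n + 1) (fun x : ℤ => Fn n x * Fn n (3 ^ i * x + r)) (fun x m => prod_per n i r x m)
      (a := 1) (by norm_num) h
    rw [← this]
    apply sum_congr rfl
    intro x _
    rw [one_mul]
    congr 2
    ring
  rw [e1, ← sum_sub_distrib]
  refine (abs_sum_le_sum_abs _ _).trans ?_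
  have h1 : ∀ x ∈ range (2 ^ (n + 1)), |Fn n (x + h) * Fn n (3 ^ i * x + (r + 3 ^ i * h)) -
      Fn n x * Fn n (3 ^ i * x + r + (3 ^ i * h + h'))| ≤
      |Fn n (x + h) - Fn n x| + |Fn n (3 ^ i * x + (r + 3 ^ i * h) + h') - Fn n (3 ^ i * x + (r + 3 ^ i * h))| := by
    intro x _
    have e : 3 ^ i * (x : ℤ) + r + (3 ^ i * h + h') = 3 ^ i * x + (r + 3 ^ i * h) + h' := by ring
    rw [e]
    have e2 : Fn n (x + h) * Fn n (3 ^ i * x + (r + 3 ^ i * h)) - Fn n x * Fn n (3 ^ i * x + (r + 3 ^ i * h) + h') =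
        (Fn n (x + h) - Fn n x) * Fn n (3 ^ i * x + (r + 3 ^ i * h)) -
          Fn n x * (Fn n (3 ^ i * x + (r + 3 ^ i * h) + h') - Fn n (3 ^ i * x + (r + 3 ^ i * h))) := by ring
    rw [e2]
    refine (abs_sub _ _).trans ?_
    rw [abs_mul, abs_mul, Fn_abs, Fn_abs, mul_one, one_mul]
  refine (sum_le_sum h1).trans ?_
  rw [sum_add_distrib]
  have h4 := shift_cost n h
  have h5 := shift_cost' n h3 (r + 3 ^ i * h) h'
  linarith

end Pool.Agent.T6.H47.CL
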