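import Pool.Agent.T6.H47.CL4

set_option autoImplicit false

/-! The correlations are small for most levels. -/

namespace Pool.Agent.T6.H47.CL

open Finset Pool.Agent.H499R2.CO

theorem sum_anti {g : ℕ → ℝ} {c : ℕ} (hg : ∀ i, g (i + c) = - g i) (M : ℕ) : ∑ i ∈ range (2 * c * M), g i = 0 := by
  induction M with
  | zero => simp
  | succ M ih =>
    rw [show 2 * c * (M + 1) = 2 * c * M + (c + c) by ring, sum_range_add, ih, zero_add, sum_range_add]
    have e : ∀ x ∈ range c, g (2 * c * M + (c + x)) = - g (2 * c * M + x) := by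
      intro x _
      rw [← hg]
      congr 1
      ring
    rw [sum_congr rfl e, sum_neg_distrib]
    ring

theorem three_pow_two : ∀ e : ℕ, 1 ≤ e → ∃ d : ℤ, d % 2 = 1 ∧ (3 : ℤ) ^ (2 ^ e) = 1 + d * 2 ^ (e + 2) := by
  intro e he
  induction e, he using Nat.le_induction with
  | base => exact ⟨1, by norm_num, by norm_num⟩
  | succ e he ih =>
    obtain ⟨d, hd, hh⟩ := ih
    refine ⟨d + d ^ 2 * 2 ^ (e + 1), ?_, ?_⟩
    · have : d ^ 2 * (2 : ℤ) ^ (e + 1) = 2 * (d ^ 2 * 2 ^ e) := by rw [pow_succ]; ring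
      rw [this]; omega
    · rw [pow_succ 2 e, pow_mul, hh]
      ring

theorem inner_zero {n : ℕ} (hn : 3 ≤ n) {Δ : ℤ} (h0 : Δ ≠ 0) (hΔ : |Δ| < 2 ^ (n - 2)) (z : ℤ) :
    ∑ i ∈ range (2 ^ (n - 1)), Fn n (z + 3 ^ i * Δ) = 0 := by
  obtain ⟨a, m, hm, e⟩ := Nat.exists_eq_two_pow_mul_odd (Int.natAbs_ne_zero.2 h0)
  have ha : a < n - 2 := by
    have h1 : 2 ^ a ≤ Δ.natAbs := by
      rw [e]; exact Nat.le_mul_of_pos_right _ hm.pos
    have h2 : ((Δ.natAbs : ℕ) : ℤ) < 2 ^ (n - 2) := by rw [Int.natCast_natAbs]; exact hΔ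
    have h3 : Δ.natAbs < 2 ^ (n - 2) := by exact_mod_cast h2
    exact (Nat.pow_lt_pow_iff_right (by norm_num)).1 (lt_of_le_of_lt h1 h3)
  obtain ⟨δ, hδ, hΔδ⟩ : ∃ δ : ℤ, δ % 2 = 1 ∧ Δ = 2 ^ a * δ := by
    have hm' : ((m : ℕ) : ℤ) % 2 = 1 := by
      obtain ⟨k, hk⟩ := hm
      rw [hk]; push_cast; omega
    rcases Int.natAbs_eq Δ with h | h
    · exact ⟨m, hm', by rw [h, e]; push_cast; ring⟩
    · exact ⟨-m, by omega, by rw [h, e]; push_cast; ring⟩
  obtain ⟨d, hd, h3⟩ := three_pow_two (n - a - 2) (by omega)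
  have hc : 2 ^ (n - 1) = 2 * 2 ^ (n - a - 2) * 2 ^ a := by
    rw [← pow_succ', ← pow_add]
    congr 1
    omega
  rw [hc]
  apply sum_anti
  intro i
  have hodd : (3 ^ i * d * δ) % 2 = 1 := odd_mul (odd_mul (odd3 i) hd) hδ
  have e1 : z + 3 ^ (i + 2 ^ (n - a - 2)) * Δ = z + 3 ^ i * Δ + (3 ^ i * d * δ) * 2 ^ n := by
    rw [pow_add, h3, hΔδ]
    have e2 : (2 : ℤ) ^ n = 2 ^ (n - a - 2 + 2) * 2 ^ a := by
      rw [← pow_add]; congr 1; omega
    rw [e2]
    ring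
  rw [e1, Fn_odd n _ hodd]

/-- the sum over the shifts -/
noncomputable def SA (n M i : ℕ) (y : ℤ) : ℝ := ∑ h ∈ range M, ∑ h' ∈ range M, Fn n (y + (3 ^ i * (h : ℤ) + h'))

/-- its mean square -/
noncomputable def VV (n M i : ℕ) : ℝ := (∑ y ∈ range (2 ^ (n + 1)), SA n M i y ^ 2) / 2 ^ (n + 1)

theorem VV_nonneg (n M i : ℕ) : 0 ≤ VV n M i := by
  unfold VV
  apply div_nonneg (sum_nonneg fun _ _ => sq_nonneg _) (by positivity)

theorem SA_per (n M i : ℕ) (y m : ℤ) : SA n M i (y + m * 2 ^ (n + 1)) = SA n M i y := by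
  unfold SA
  apply sum_congr rfl; intro h _
  apply sum_congr rfl; intro h' _
  rw [show y + m * 2 ^ (n + 1) + (3 ^ i * (h : ℤ) + h') = y + (3 ^ i * (h : ℤ) + h') + m * 2 ^ (n + 1) by ring, Fn_per]

theorem VV_per {n : ℕ} (hn : 3 ≤ n) (M i : ℕ) : VV n M (i + 2 ^ (n - 1)) = VV n M i := by
  unfold VV
  congr 1
  apply sum_congr rfl
  intro y _
  congr 1
  unfold SA
  apply sum_congr rfl; intro h _
  apply sum_congr rfl; intro h' _
  apply Fn_per'
  obtain ⟨d, hd, h3⟩ := three_pow_two (n - 1) (by omega)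
  refine ⟨3 ^ i * d * h, ?_⟩
  rw [pow_add, h3, show n - 1 + 2 = n + 1 by omega]
  ring

theorem corr_zero {n M : ℕ} (hn : 3 ≤ n) (hM : M ≤ 2 ^ (n - 2)) {h k : ℕ} (hh : h < M) (hk : k < M) (hne : h ≠ k)
    (h' k' : ℤ) : ∑ i ∈ range (2 ^ (n - 1)), ∑ y ∈ range (2 ^ (n + 1)),
      Fn n ((y : ℤ) + (3 ^ i * (h : ℤ) + h')) * Fn n ((y : ℤ) + (3 ^ i * (k : ℤ) + k')) = 0 := by
  have e1 : ∀ i ∈ range (2 ^ (n - 1)), ∑ y ∈ range (2 ^ (n + 1)),
      Fn n ((y : ℤ) + (3 ^ i * (h : ℤ) + h')) * Fn n ((y : ℤ) + (3 ^ i * (k : ℤ) + k')) =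
      ∑ y ∈ range (2 ^ (n + 1)), Fn n (y : ℤ) * Fn n (((y : ℤ) + (k' - h')) + 3 ^ i * ((k : ℤ) - h)) := by
    intro i _
    have := sum_affine (n + 1) (fun y : ℤ => Fn n y * Fn n ((y + (k' - h')) + 3 ^ i * ((k : ℤ) - h))) (fun y m => by
      rw [Fn_per, show y + m * 2 ^ (n + 1) + (k' - h') + 3 ^ i * ((k : ℤ) - h) =
        (y + (k' - h') + 3 ^ i * ((k : ℤ) - h)) + m * 2 ^ (n + 1) by ring, Fn_per])
      (a := 1) (by norm_num) (3 ^ i * (h : ℤ) + h')
    rw [← this]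
    apply sum_congr rfl
    intro y _
    rw [one_mul]
    congr 2
    ring
  rw [sum_congr rfl e1, sum_comm]
  apply sum_eq_zero
  intro y _
  rw [← mul_sum, inner_zero hn (by
    intro h0
    have : (k : ℤ) = h := by linarith
    exact hne (by exact_mod_cast this.symm)) (by
    have h1 : ((M : ℕ) : ℤ) ≤ 2 ^ (n - 2) := by exact_mod_cast hM
    rw [abs_lt]
    constructor <;> omega), mul_zero]

theorem VV_sum {n M : ℕ} (hn : 3 ≤ n) (hM : M ≤ 2 ^ (n - 2)) :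
    ∑ i ∈ range (2 ^ (n - 1)), VV n M i ≤ 2 ^ (n - 1) * (M : ℝ) ^ 3 := by
  set a : ℕ → ℕ → ℤ → ℝ := fun i h y => ∑ h' ∈ range M, Fn n (y + (3 ^ i * (h : ℤ) + h')) with ha
  have hab : ∀ i h y, |a i h y| ≤ M := by
    intro i h y
    rw [ha]
    refine (abs_sum_le_sum_abs _ _).trans ?_
    rw [sum_congr rfl fun h' _ => Fn_abs n _]
    simp
  have e1 : ∀ i y, SA n M i y ^ 2 = ∑ h ∈ range M, ∑ k ∈ range M, a i h y * a i k y := by
    intro i y
    rw [pow_two]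
    unfold SA
    rw [sum_mul_sum]
  have e2 : ∑ i ∈ range (2 ^ (n - 1)), ∑ y ∈ range (2 ^ (n + 1)), SA n M i y ^ 2 =
      ∑ h ∈ range M, ∑ k ∈ range M, ∑ i ∈ range (2 ^ (n - 1)), ∑ y ∈ range (2 ^ (n + 1)), a i h y * a i k y := by
    have h1 : ∀ i ∈ range (2 ^ (n - 1)), ∑ y ∈ range (2 ^ (n + 1)), SA n M i y ^ 2 =
        ∑ h ∈ range M, ∑ k ∈ range M, ∑ y ∈ range (2 ^ (n + 1)), a i h y * a i k y := by
      intro i _
      have h0 : ∑ y ∈ range (2 ^ (n + 1)), SA n M i y ^ 2 =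
          ∑ y ∈ range (2 ^ (n + 1)), ∑ h ∈ range M, ∑ k ∈ range M, a i h y * a i k y :=
        sum_congr rfl fun y _ => e1 i y
      rw [h0, sum_comm]
      apply sum_congr rfl
      intro h _
      rw [sum_comm]
    rw [sum_congr rfl h1, sum_comm]
    apply sum_congr rfl
    intro h _
    rw [sum_comm]
  have h3 : ∀ h ∈ range M, ∀ k ∈ range M, ∑ i ∈ range (2 ^ (n - 1)), ∑ y ∈ range (2 ^ (n + 1)), a i h y * a i k y ≤
      if h = k then 2 ^ (n - 1) * (2 ^ (n + 1) * (M : ℝ) ^ 2) else 0 := by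
    intro h hh k hk
    rw [mem_range] at hh hk
    split_ifs with heq
    · rw [← heq]
      calc _ ≤ ∑ i ∈ range (2 ^ (n - 1)), ∑ y ∈ range (2 ^ (n + 1)), (M : ℝ) ^ 2 := by
            apply sum_le_sum; intro i _
            apply sum_le_sum; intro y _
            rw [← pow_two, ← sq_abs]
            exact pow_le_pow_left₀ (abs_nonneg _) (hab i h y) 2
        _ = _ := by rw [sum_const, sum_const, card_range, card_range, nsmul_eq_mul, nsmul_eq_mul]; push_cast; ring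
    · apply le_of_eq
      have h4 : ∀ i ∈ range (2 ^ (n - 1)), ∑ y ∈ range (2 ^ (n + 1)), a i h y * a i k y =
          ∑ h' ∈ range M, ∑ k' ∈ range M, ∑ y ∈ range (2 ^ (n + 1)),
            Fn n ((y : ℤ) + (3 ^ i * (h : ℤ) + (h' : ℕ))) * Fn n ((y : ℤ) + (3 ^ i * (k : ℤ) + (k' : ℕ))) := by
        intro i _
        have h5 : ∀ y ∈ range (2 ^ (n + 1)), a i h (y : ℕ) * a i k (y : ℕ) = ∑ h' ∈ range M, ∑ k' ∈ range M,
            Fn n ((y : ℤ) + (3 ^ i * (h : ℤ) + (h' : ℕ))) * Fn n ((y : ℤ) + (3 ^ i * (k : ℤ) + (k' : ℕ))) := by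
          intro y _
          rw [ha]
          simp only
          rw [sum_mul_sum]
        rw [sum_congr rfl h5, sum_comm]
        apply sum_congr rfl
        intro h' _
        rw [sum_comm]
      rw [sum_congr rfl h4, sum_comm]
      apply sum_eq_zero
      intro h' _
      rw [sum_comm]
      apply sum_eq_zero
      intro k' _
      exact corr_zero hn hM hh hk heq _ _
  unfold VV
  rw [← sum_div, e2, div_le_iff₀ (by positivity)]
  calc _ ≤ ∑ h ∈ range M, ∑ k ∈ range M, (if h = k then 2 ^ (n - 1) * (2 ^ (n + 1) * (M : ℝ) ^ 2) else 0) :=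
        sum_le_sum fun h hh => sum_le_sum fun k hk => h3 h hh k hk
    _ = ∑ h ∈ range M, 2 ^ (n - 1) * (2 ^ (n + 1) * (M : ℝ) ^ 2) := by
        apply sum_congr rfl
        intro h hh
        rw [sum_ite_eq, if_pos hh]
    _ = _ := by rw [sum_const, card_range, nsmul_eq_mul]; ring

theorem VV_sum_all {n M : ℕ} (hn : 3 ≤ n) (hM : M ≤ 2 ^ (n - 2)) (k : ℕ) :
    ∑ i ∈ range k, VV n M i ≤ (M : ℝ) ^ 3 * (k + 2 ^ (n - 1)) := by
  set p := 2 ^ (n - 1) with hp
  have hp0 : 0 < p := by positivity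
  have hper : ∀ j i : ℕ, VV n M (i + p * j) = VV n M i := by
    intro j
    induction j with
    | zero => intro i; simp
    | succ j ih =>
      intro i
      rw [show i + p * (j + 1) = (i + p * j) + p by ring, VV_per hn, ih]
  have hblock : ∀ j : ℕ, ∑ i ∈ range (p * j), VV n M i ≤ j * (p * (M : ℝ) ^ 3) := by
    intro j
    induction j with
    | zero => simp
    | succ j ih =>
      rw [show p * (j + 1) = p * j + p by ring, sum_range_add]
      have e : ∑ x ∈ range p, VV n M (p * j + x) = ∑ x ∈ range p, VV n M x := by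
        apply sum_congr rfl
        intro x _
        rw [add_comm, hper]
      have h1 := VV_sum hn hM
      rw [← hp] at h1
      rw [e]
      push_cast at h1 ih ⊢
      rw [show ((p : ℕ) : ℝ) = (2 : ℝ) ^ (n - 1) by rw [hp]; push_cast; rfl] at *
      linarith
  have h1 : k ≤ p * (k / p + 1) := by
    have := Nat.div_add_mod k p
    have := Nat.mod_lt k hp0
    rw [mul_add, mul_one]
    omega
  calc ∑ i ∈ range k, VV n M i ≤ ∑ i ∈ range (p * (k / p + 1)), VV n M i := by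
        apply sum_le_sum_of_subset_of_nonneg
        · intro j hj; rw [mem_range] at hj ⊢; omega
        · intro _ _ _; exact VV_nonneg _ _ _
    _ ≤ ((k / p + 1 : ℕ) : ℝ) * (p * (M : ℝ) ^ 3) := hblock _
    _ ≤ (M : ℝ) ^ 3 * (k + 2 ^ (n - 1)) := by
        have h2 : ((k / p : ℕ) : ℝ) * p ≤ k := by exact_mod_cast Nat.div_mul_le_self k p
        have h3 : (0 : ℝ) ≤ (M : ℝ) ^ 3 := by positivity
        have h4 : ((p : ℕ) : ℝ) = (2 : ℝ) ^ (n - 1) := by rw [hp]; push_cast; rfl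
        rw [← h4]
        push_cast
        nlinarith

/-- the correlation at the level `i` -/
theorem corr_le (n : ℕ) {M : ℕ} (hM : 1 ≤ M) {μ : ℝ} (hμ : 0 < μ) (i : ℕ) (r : ℤ) :
    |(P^[n] Y) (i, r)| ≤ (1 / (M : ℝ) ^ 2) * ((μ * VV n M i + 1 / μ) / 2) +
      4 / M * ∑ h ∈ range M, q step (0, 0) n (0, (h : ℤ)) := by
  have hMr : (0 : ℝ) < M := by exact_mod_cast hM
  set N : ℝ := 2 ^ (n + 1) with hN
  have hN0 : 0 < N := by positivity
  set B := ∑ x ∈ range (2 ^ (n + 1)), Fn n x * Fn n (3 ^ i * x + r) with hB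
  have hBP : B = N * (P^[n] Y) (i, r) := pair_avg n i r
  set Qs := ∑ h ∈ range M, q step (0, 0) n (0, (h : ℤ)) with hQs
  have h1 : (M : ℝ) ^ 2 * |B| ≤ |∑ x ∈ range (2 ^ (n + 1)), Fn n x * SA n M i (3 ^ i * x + r)| + N * (4 * M * Qs) := by
    have e1 : (M : ℝ) ^ 2 * B = ∑ h ∈ range M, ∑ h' ∈ range M, B := by
      rw [sum_const, sum_const, card_range, nsmul_eq_mul, nsmul_eq_mul]; ring
    have e2 : ∑ x ∈ range (2 ^ (n + 1)), Fn n x * SA n M i (3 ^ i * x + r) = ∑ h ∈ range M, ∑ h' ∈ range M,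
        ∑ x ∈ range (2 ^ (n + 1)), Fn n x * Fn n (3 ^ i * x + r + (3 ^ i * (h : ℤ) + (h' : ℤ))) := by
      unfold SA
      have h5 : ∀ x ∈ range (2 ^ (n + 1)), Fn n x * ∑ h ∈ range M, ∑ h' ∈ range M,
          Fn n (3 ^ i * x + r + (3 ^ i * (h : ℤ) + (h' : ℤ))) = ∑ h ∈ range M, ∑ h' ∈ range M,
          Fn n x * Fn n (3 ^ i * x + r + (3 ^ i * (h : ℤ) + (h' : ℤ))) := by
        intro x _
        rw [mul_sum]
        apply sum_congr rfl
        intro h _
        rw [mul_sum]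
      rw [sum_congr rfl h5, sum_comm]
      apply sum_congr rfl
      intro h _
      rw [sum_comm]
    have e3 : (M : ℝ) ^ 2 * |B| = |(M : ℝ) ^ 2 * B| := by
      rw [abs_mul, abs_of_nonneg (show (0 : ℝ) ≤ (M : ℝ) ^ 2 by positivity)]
    rw [e3, e1, e2]
    have h6 : |∑ h ∈ range M, ∑ h' ∈ range M, B - ∑ h ∈ range M, ∑ h' ∈ range M,
        ∑ x ∈ range (2 ^ (n + 1)), Fn n x * Fn n (3 ^ i * x + r + (3 ^ i * (h : ℤ) + (h' : ℤ)))| ≤ N * (4 * M * Qs) := by
      rw [← sum_sub_distrib]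
      refine (abs_sum_le_sum_abs _ _).trans ?_
      calc _ ≤ ∑ h ∈ range M, ∑ h' ∈ range M, N * (2 * q step (0, 0) n (0, (h : ℤ)) + 2 * q step (0, 0) n (0, (h' : ℤ))) := by
            apply sum_le_sum
            intro h _
            rw [← sum_sub_distrib]
            refine (abs_sum_le_sum_abs _ _).trans ?_
            apply sum_le_sum
            intro h' _
            exact change_r n i r h h'
        _ = N * (4 * M * Qs) := by
            have e4 : ∀ h ∈ range M, ∑ h' ∈ range M, N * (2 * q step (0, 0) n (0, (h : ℤ)) +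
                2 * q step (0, 0) n (0, (h' : ℤ))) = N * (2 * M * q step (0, 0) n (0, (h : ℤ))) + N * (2 * Qs) := by
              intro h _
              rw [← mul_sum, sum_add_distrib, sum_const, card_range, nsmul_eq_mul, ← mul_sum, ← hQs]
              ring
            rw [sum_congr rfl e4, sum_add_distrib, ← mul_sum, ← mul_sum, ← hQs, sum_const, card_range, nsmul_eq_mul]
            ring
    have h7 := abs_sub_abs_le_abs_sub (∑ h ∈ range M, ∑ h' ∈ range M, B) (∑ h ∈ range M, ∑ h' ∈ range M,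
        ∑ x ∈ range (2 ^ (n + 1)), Fn n x * Fn n (3 ^ i * x + r + (3 ^ i * (h : ℤ) + (h' : ℤ))))
    linarith
  have h2 : |∑ x ∈ range (2 ^ (n + 1)), Fn n x * SA n M i (3 ^ i * x + r)| ≤ N * ((μ * VV n M i + 1 / μ) / 2) := by
    calc _ ≤ ∑ x ∈ range (2 ^ (n + 1)), (μ * SA n M i (3 ^ i * x + r) ^ 2 + 1 / μ) / 2 := by
          refine (abs_sum_le_sum_abs _ _).trans ?_
          apply sum_le_sum
          intro x _
          rw [abs_mul, Fn_abs, one_mul]
          set z := SA n M i (3 ^ i * x + r)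
          have h3 : 0 ≤ (μ * |z| - 1) ^ 2 := sq_nonneg _
          have h4 : μ * (2 * |z|) ≤ μ * (μ * z ^ 2 + 1 / μ) := by
            have e : μ * (μ * z ^ 2 + 1 / μ) = μ ^ 2 * |z| ^ 2 + 1 := by rw [sq_abs]; field_simp
            rw [e]; nlinarith
          have h5 := le_of_mul_le_mul_left h4 hμ
          linarith
      _ = ∑ x ∈ range (2 ^ (n + 1)), (μ * SA n M i x ^ 2 + 1 / μ) / 2 :=
          sum_affine (n + 1) (fun y : ℤ => (μ * SA n M i y ^ 2 + 1 / μ) / 2) (fun y m => by rw [SA_per]) (odd3 i) r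
      _ = N * ((μ * VV n M i + 1 / μ) / 2) := by
          rw [← sum_div, sum_add_distrib, ← mul_sum, sum_const, card_range, nsmul_eq_mul]
          unfold VV
          rw [← hN]
          push_cast
          rw [← hN]
          field_simp
  have h3 : (M : ℝ) ^ 2 * (N * |(P^[n] Y) (i, r)|) ≤ N * ((μ * VV n M i + 1 / μ) / 2) + N * (4 * M * Qs) := by
    have e : |B| = N * |(P^[n] Y) (i, r)| := by rw [hBP, abs_mul, abs_of_pos hN0]
    rw [e] at h1
    linarith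
  have h4 : (M : ℝ) ^ 2 * N * |(P^[n] Y) (i, r)| ≤ (M : ℝ) ^ 2 * N *
      ((1 / (M : ℝ) ^ 2) * ((μ * VV n M i + 1 / μ) / 2) + 4 / M * Qs) := by
    have e : (M : ℝ) ^ 2 * N * ((1 / (M : ℝ) ^ 2) * ((μ * VV n M i + 1 / μ) / 2) + 4 / M * Qs) =
        N * ((μ * VV n M i + 1 / μ) / 2) + N * (4 * M * Qs) := by field_simp
    rw [e]
    linarith
  exact le_of_mul_le_mul_left h4 (by positivity)

/-- **the correlations are small at most levels** -/
theorem exists_beta {ε : ℝ} (hε : 0 < ε) : ∃ (n : ℕ) (β : ℕ → ℝ) (E : ℝ), 0 ≤ E ∧ (∀ i, 0 ≤ β i) ∧ (∀ i, β i ≤ 1) ∧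
    (∀ i r, |(P^[n] Y) (i, r)| ≤ β i) ∧ ∀ k : ℕ, ∑ j ∈ range k, β j ≤ ε * k + E := by
  obtain ⟨K, hK⟩ := exists_nat_gt (2 / ε)
  have hK0 : (0 : ℝ) < K := lt_trans (by positivity) hK
  have hK1 : 1 / (K : ℝ) ≤ ε / 2 := by
    rw [div_lt_iff₀ hε] at hK
    rw [div_le_div_iff₀ hK0 (by norm_num)]
    linarith
  set M := K ^ 2 with hM
  have hKn : 1 ≤ K := by exact_mod_cast (show (0 : ℝ) < K from hK0)
  have hM1 : 1 ≤ M := Nat.one_le_pow _ _ hKn
  have hMr : ((M : ℕ) : ℝ) = (K : ℝ) ^ 2 := by rw [hM]; push_cast; rfl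
  have hev : ∀ᶠ n in Filter.atTop, ∀ h ∈ range M, q step (0, 0) n (0, (h : ℤ)) ≤ ε / 8 := by
    rw [Filter.eventually_all_finset]
    intro h _
    filter_upwards [(q_lim (0, (h : ℤ))).eventually (gt_mem_nhds (show (0 : ℝ) < ε / 8 by positivity))] with k hk
    exact hk.le
  obtain ⟨n0, hn0⟩ := Filter.eventually_atTop.1 hev
  set n := max n0 (M + 3) with hn
  have hn3 : 3 ≤ n := by have := le_max_right n0 (M + 3); omega
  have hMn : M ≤ 2 ^ (n - 2) := by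
    have h1 : M < 2 ^ M := Nat.lt_two_pow_self
    have h2 : 2 ^ M ≤ 2 ^ (n - 2) := Nat.pow_le_pow_right (by norm_num) (by have := le_max_right n0 (M + 3); omega)
    omega
  have hq : ∑ h ∈ range M, q step (0, 0) n (0, (h : ℤ)) ≤ M * (ε / 8) := by
    calc _ ≤ ∑ h ∈ range M, ε / 8 := sum_le_sum fun h hh => hn0 n (le_max_left _ _) h hh
      _ = _ := by rw [sum_const, card_range, nsmul_eq_mul]
  set μ : ℝ := 1 / (K : ℝ) ^ 3 with hμ
  have hμ0 : 0 < μ := by positivity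
  set b : ℕ → ℝ := fun i => (1 / (M : ℝ) ^ 2) * ((μ * VV n M i + 1 / μ) / 2) +
      4 / M * ∑ h ∈ range M, q step (0, 0) n (0, (h : ℤ)) with hb
  have hb0 : ∀ i, 0 ≤ b i := fun i => (abs_nonneg _).trans (corr_le n hM1 hμ0 i 0)
  refine ⟨n, fun i => min 1 (b i), 2 ^ (n - 1), by positivity, fun i => le_min zero_le_one (hb0 i),
    fun i => min_le_left _ _, fun i r => le_min (PY_abs n _) (corr_le n hM1 hμ0 i r), fun k => ?_⟩
  have h1 : ∑ j ∈ range k, min 1 (b j) ≤ ∑ j ∈ range k, b j := sum_le_sum fun j _ => min_le_right _ _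
  refine h1.trans ?_
  rw [hb]
  simp only
  rw [sum_add_distrib, ← mul_sum, ← sum_div, sum_add_distrib, ← mul_sum, sum_const, sum_const, card_range,
    nsmul_eq_mul, nsmul_eq_mul]
  have h2 := VV_sum_all hn3 hMn k
  have h3 : 4 / (M : ℝ) * ∑ h ∈ range M, q step (0, 0) n (0, (h : ℤ)) ≤ ε / 2 := by
    have hMp : (0 : ℝ) < M := by exact_mod_cast hM1
    calc _ ≤ 4 / (M : ℝ) * (M * (ε / 8)) := mul_le_mul_of_nonneg_left hq (by positivity)
      _ = ε / 2 := by field_simp; norm_num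
  have h4 : (1 / (M : ℝ) ^ 2) * ((μ * ∑ i ∈ range k, VV n M i + k * (1 / μ)) / 2) ≤
      (1 / (M : ℝ) ^ 2) * ((μ * ((M : ℝ) ^ 3 * (k + 2 ^ (n - 1))) + k * (1 / μ)) / 2) := by
    apply mul_le_mul_of_nonneg_left _ (by positivity)
    have := mul_le_mul_of_nonneg_left h2 hμ0.le
    linarith
  have h5 : (1 / (M : ℝ) ^ 2) * ((μ * ((M : ℝ) ^ 3 * (k + 2 ^ (n - 1))) + k * (1 / μ)) / 2) =
      1 / K * k + 1 / (2 * K) * 2 ^ (n - 1) := by
    rw [hMr, hμ]
    field_simp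
    ring
  have hk : (0 : ℝ) ≤ k := Nat.cast_nonneg k
  have h6 : 1 / (2 * (K : ℝ)) * 2 ^ (n - 1) ≤ 2 ^ (n - 1) := by
    have h7 : 1 / (2 * (K : ℝ)) ≤ 1 := by
      rw [div_le_one (by positivity)]
      have : (1 : ℝ) ≤ K := by exact_mod_cast hKn
      linarith
    have h8 : (0 : ℝ) ≤ 2 ^ (n - 1) := by positivity
    nlinarith
  have h7 := mul_le_mul_of_nonneg_right hK1 hk
  have h8 := mul_le_mul_of_nonneg_left h3 hk
  rw [h5] at h4
  linarith

end Pool.Agent.T6.H47.CL
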