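import Pool.Agent.T6.H47.CL5

set_option autoImplicit false

/-! The law of large numbers for the parities of `r`. -/

namespace Pool.Agent.T6.H47.CL

open Finset Pool.Agent.H499R2.CO

theorem vv_small {ε : ℝ} (hε : 0 < ε) : ∃ A : ℝ, 0 ≤ A ∧ ∀ (t i : ℕ) (r : ℤ),
    vv t (i, r) ≤ t * (A * (1 + i) + ε * (t + (i : ℝ) ^ 2)) := by
  set l : ℝ := 192 * 16 / ε with hl
  have hl0 : 0 < l := by positivity
  set ε' : ℝ := ε / (16 * l) with hε'
  have hε'0 : 0 < ε' := by positivity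
  have hm : l * ε' + 192 / l = ε / 8 := by
    rw [hε', hl]
    field_simp
    norm_num
  obtain ⟨n, β, E, hE, hβ0, hβ1, hβ, hsum⟩ := exists_beta hε'0
  obtain ⟨φ, hφ, hΦ, E', hE', hφle⟩ := exists_phi hβ0 hβ1 hε'0.le hE hsum hl0
  rw [hm] at hΦ hφle
  refine ⟨5 + 4 * n + 2 * E' + 4, by positivity, fun t i r => ?_⟩
  have h1 := vv_le (n := n) (m := ε / 8) (fun i _ r => hβ i r) hβ0 hφ (by positivity) hΦ t (i, r)
  refine h1.trans ?_
  have ht : (0 : ℝ) ≤ t := Nat.cast_nonneg t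
  have hi : (0 : ℝ) ≤ i := Nat.cast_nonneg i
  apply mul_le_mul_of_nonneg_left _ ht
  have h2 : Ph β φ (i, r) ≤ E' * i + 2 * (ε / 8) * i ^ 2 + (2 + 2 * i) := by
    unfold Ph
    have h3 := hφle i
    have h4 : (H i r : ℝ) ≤ 2 * i + 1 := by exact_mod_cast H_le i r
    have h5 : β i * (1 + H i r) ≤ 1 * (2 + 2 * i) := mul_le_mul (hβ1 i) (by linarith) (by positivity) (by norm_num)
    simp only
    linarith
  have hn : (0 : ℝ) ≤ n := Nat.cast_nonneg n
  have h6 : 0 ≤ ε * (i : ℝ) ^ 2 := by positivity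
  have h7 : 0 ≤ ε * t := by positivity
  nlinarith [mul_nonneg hn hi, mul_nonneg hE' hi]

end Pool.Agent.T6.H47.CL
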