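import Pool.Agent.T6.H47.CL6

set_option autoImplicit false

/-! The distribution of the simple random walk. -/

namespace Pool.Agent.T6.H47.CL

open Finset MeasureTheory ProbabilityTheory Filter Topology

/-- the distribution function of the simple random walk -/
noncomputable def Gk (k : ℕ) (a : ℤ) : ℝ :=
  ∑ j ∈ range (k + 1), (k.choose j : ℝ) * (if 2 * (j : ℤ) - k ≤ a then 1 / 2 ^ k else 0)

theorem Gk_succ (k : ℕ) (a : ℤ) : Gk (k + 1) a = (Gk k (a - 1) + Gk k (a + 1)) / 2 := by
  unfold Gk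
  have h := sum_choose_succ_mul (R := ℝ) (fun i _ => if 2 * (i : ℤ) - (k + 1 : ℕ) ≤ a then (1 : ℝ) / 2 ^ (k + 1) else 0) k
  rw [h]
  have e1 : ∀ j ∈ range (k + 1), (k.choose j : ℝ) * (if 2 * (j : ℤ) - (k + 1 : ℕ) ≤ a then (1 : ℝ) / 2 ^ (k + 1) else 0) =
      ((k.choose j : ℝ) * (if 2 * (j : ℤ) - k ≤ a + 1 then 1 / 2 ^ k else 0)) / 2 := by
    intro j _
    by_cases h1 : 2 * (j : ℤ) - k ≤ a + 1
    · rw [if_pos h1, if_pos (by push_cast; omega), pow_succ]; field_simp
    · rw [if_neg h1, if_neg (by push_cast; omega)]; ring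
  have e2 : ∀ j ∈ range (k + 1), (k.choose j : ℝ) * (if 2 * ((j + 1 : ℕ) : ℤ) - (k + 1 : ℕ) ≤ a then (1 : ℝ) / 2 ^ (k + 1) else 0) =
      ((k.choose j : ℝ) * (if 2 * (j : ℤ) - k ≤ a - 1 then 1 / 2 ^ k else 0)) / 2 := by
    intro j _
    by_cases h1 : 2 * (j : ℤ) - k ≤ a - 1
    · rw [if_pos h1, if_pos (by push_cast; omega), pow_succ]; field_simp
    · rw [if_neg h1, if_neg (by push_cast; omega)]; ring
  rw [sum_congr rfl e1, sum_congr rfl e2, ← sum_div, ← sum_div]
  ring

/-- **the reflection principle** -/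
theorem uu_eq : ∀ (k i : ℕ), uu k i = Gk k i - Gk k (-i) := by
  intro k
  induction k with
  | zero =>
    intro i
    unfold uu Gk
    rcases Nat.eq_zero_or_pos i with rfl | h
    · simp
    · rw [if_neg (by omega), zero_add, sum_range_one, sum_range_one, if_pos (by push_cast; omega),
        if_neg (by push_cast; omega)]
      simp
  | succ k ih =>
    intro i
    rcases Nat.eq_zero_or_pos i with rfl | h
    · rw [uu_zero_level]; simp
    · rw [uu_succ h, ih, ih, Gk_succ, Gk_succ]
      have e : ((i - 1 : ℕ) : ℤ) = i - 1 := by omega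
      rw [e]
      push_cast
      rw [show -((i : ℤ) + 1) = -i - 1 by ring, show -((i : ℤ) - 1) = -i + 1 by ring]
      ring

/-- the law of the normalised walk -/
noncomputable def mu (k : ℕ) : Measure ℝ :=
  ∑ j ∈ range (k + 1), ENNReal.ofReal ((k.choose j : ℝ) / 2 ^ k) • Measure.dirac ((2 * (j : ℝ) - k) / √k)

instance mu_prob (k : ℕ) : IsProbabilityMeasure (mu k) := by
  constructor
  unfold mu
  rw [Measure.finsetSum_apply]
  have e : ∀ j ∈ range (k + 1), (ENNReal.ofReal ((k.choose j : ℝ) / 2 ^ k) • Measure.dirac ((2 * (j : ℝ) - k) / √k)) Set.univ =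
      ENNReal.ofReal ((k.choose j : ℝ) / 2 ^ k) := by
    intro j _
    rw [Measure.smul_apply, measure_univ]
    simp
  rw [sum_congr rfl e, ← ENNReal.ofReal_sum_of_nonneg (fun j _ => by positivity), ← sum_div]
  have h : (∑ j ∈ range (k + 1), (k.choose j : ℝ)) = 2 ^ k := by exact_mod_cast Nat.sum_range_choose k
  rw [h, div_self (by positivity)]
  simp

theorem mu_integral (k : ℕ) (f : ℝ → ℂ) : ∫ x, f x ∂(mu k) =
    ∑ j ∈ range (k + 1), ((k.choose j : ℂ) / 2 ^ k) * f ((2 * (j : ℝ) - k) / √k) := by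
  unfold mu
  rw [integral_finsetSum_measure]
  · apply sum_congr rfl
    intro j _
    rw [integral_smul_measure, integral_dirac, ENNReal.toReal_ofReal (by positivity)]
    rw [Complex.real_smul]
    push_cast
    rfl
  · intro j _
    apply Integrable.smul_measure _ ENNReal.ofReal_ne_top
    exact integrable_dirac (by simp)

theorem mu_charFun (k : ℕ) (t : ℝ) : charFun (mu k) t = (Complex.cos (((√k)⁻¹ * t : ℝ) : ℂ)) ^ k := by
  rw [charFun_apply_real, mu_integral]
  set θ : ℂ := (((√k)⁻¹ * t : ℝ) : ℂ) with hθ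
  have h1 : Complex.cos θ = (Complex.exp (θ * Complex.I) + Complex.exp (-θ * Complex.I)) / 2 := rfl
  rw [h1, div_pow, add_pow, sum_div]
  apply sum_congr rfl
  intro j hj
  rw [mem_range] at hj
  rw [← Complex.exp_nat_mul, ← Complex.exp_nat_mul, ← Complex.exp_add]
  have e : (t : ℂ) * (((2 * (j : ℝ) - k) / √k : ℝ) : ℂ) * Complex.I =
      (j : ℂ) * (θ * Complex.I) + ((k - j : ℕ) : ℂ) * (-θ * Complex.I) := by
    rw [Nat.cast_sub (by omega), hθ]
    push_cast
    ring
  rw [e]
  ring

/-- the law as a probability measure -/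
noncomputable def muP (k : ℕ) : ProbabilityMeasure ℝ := ⟨mu k, mu_prob k⟩

/-- the normal law as a probability measure -/
noncomputable def gaP : ProbabilityMeasure ℝ := ⟨gaussianReal 0 1, inferInstance⟩

theorem mu_integral_real (k : ℕ) (f : ℝ → ℝ) : ∫ x, f x ∂(mu k) =
    ∑ j ∈ range (k + 1), ((k.choose j : ℝ) / 2 ^ k) * f ((2 * (j : ℝ) - k) / √k) := by
  unfold mu
  rw [integral_finsetSum_measure]
  · apply sum_congr rfl
    intro j _
    rw [integral_smul_measure, integral_dirac, ENNReal.toReal_ofReal (by positivity), smul_eq_mul]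
  · intro j _
    apply Integrable.smul_measure _ ENNReal.ofReal_ne_top
    exact integrable_dirac (by simp)

theorem mu_tendsto : Tendsto muP atTop (𝓝 gaP) := by
  rw [ProbabilityMeasure.tendsto_iff_tendsto_charFun]
  intro t
  have h := tendsto_charFun_inv_sqrt_mul_pow (P := mu 1) (X := fun x => x) (by fun_prop) (by
    rw [mu_integral_real, sum_range_succ, sum_range_one]; norm_num) (by
    have : ∫ x, ((fun x : ℝ => x) ^ 2) x ∂(mu 1) = ∫ x, (fun x : ℝ => x ^ 2) x ∂(mu 1) := rfl
    rw [this, mu_integral_real, sum_range_succ, sum_range_one]; norm_num) t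
  have e0 : charFun (gaP : Measure ℝ) t = Complex.exp (-(t : ℂ) ^ 2 / 2) := by
    change charFun (gaussianReal 0 1) t = _
    rw [charFun_gaussianReal]
    congr 1
    push_cast
    ring
  rw [e0]
  have e : ∀ n : ℕ, charFun (muP n : Measure ℝ) t = charFun ((mu 1).map (fun x => x)) ((√n)⁻¹ * t) ^ n := by
    intro n
    change charFun (mu n) t = _
    rw [show (fun x : ℝ => x) = id from rfl, Measure.map_id, mu_charFun, mu_charFun]
    simp
  simp only [e]
  exact h

theorem mu_Iic {k : ℕ} (hk : 1 ≤ k) (a : ℤ) : (mu k).real (Set.Iic ((a : ℝ) / √k)) = Gk k a := by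
  unfold mu Gk
  rw [measureReal_def, Measure.finsetSum_apply, ENNReal.toReal_sum]
  · apply sum_congr rfl
    intro j _
    rw [Measure.smul_apply, Measure.dirac_apply' _ measurableSet_Iic, smul_eq_mul, ENNReal.toReal_mul,
      ENNReal.toReal_ofReal (by positivity)]
    have hsk : 0 < √(k : ℝ) := Real.sqrt_pos.2 (by exact_mod_cast hk)
    have h1 : ((2 * (j : ℝ) - k) / √k ∈ Set.Iic ((a : ℝ) / √k)) ↔ 2 * (j : ℤ) - k ≤ a := by
      rw [Set.mem_Iic, div_le_div_iff_of_pos_right hsk]
      constructor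
      · intro h; exact_mod_cast h
      · intro h; exact_mod_cast h
    by_cases h : 2 * (j : ℤ) - k ≤ a
    · rw [if_pos h, Set.indicator_of_mem (h1.2 h)]
      simp
      ring
    · rw [if_neg h, Set.indicator_of_notMem (fun h' => h (h1.1 h'))]
      simp
  · intro j _
    rw [Measure.smul_apply]
    exact ENNReal.mul_ne_top ENNReal.ofReal_ne_top (measure_ne_top _ _)

/-- the distribution function of the normal law -/
noncomputable def Nd (x : ℝ) : ℝ := (gaussianReal 0 1).real (Set.Iic x)

theorem Nd_mono : Monotone Nd := by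
  intro x y h
  unfold Nd
  exact measureReal_mono (Set.Iic_subset_Iic.2 h) (measure_ne_top _ _)

theorem mu_lim (x : ℝ) : Tendsto (fun k => (mu k).real (Set.Iic x)) atTop (𝓝 (Nd x)) := by
  have h0 : (gaussianReal 0 1) (frontier (Set.Iic x)) = 0 := by
    rw [frontier_Iic]
    have : NullSingletonClass (gaussianReal 0 1) :=
      nullSingletonClass_gaussianReal (μ := 0) (v := 1) one_ne_zero
    exact measure_singleton x
  have h1 : Tendsto (fun k => (muP k : Measure ℝ) (Set.Iic x)) atTop (𝓝 ((gaP : Measure ℝ) (Set.Iic x))) :=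
    ProbabilityMeasure.tendsto_measure_of_null_frontier_of_tendsto' mu_tendsto (E := Set.Iic x) h0
  exact (ENNReal.tendsto_toReal (measure_ne_top (gaussianReal 0 1) (Set.Iic x))).comp h1

end Pool.Agent.T6.H47.CL
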