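import Pool.Agent.T6.H47.CL7

set_option autoImplicit false

/-! Uniform convergence of the distribution functions. -/

namespace Pool.Agent.T6.H47.CL

open Finset MeasureTheory ProbabilityTheory Filter Topology

theorem Nd_sub (x y : ℝ) : Nd y - Nd x = ∫ t in x..y, gaussianPDFReal 0 1 t := by
  have hfi : Integrable (gaussianPDFReal 0 1) := integrable_gaussianPDFReal 0 1
  have h1 : ∀ x, Nd x = ∫ t in Set.Iic x, gaussianPDFReal 0 1 t := by
    intro x
    unfold Nd
    rw [measureReal_def, gaussianReal_apply_eq_integral _ one_ne_zero, ENNReal.toReal_ofReal]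
    exact setIntegral_nonneg measurableSet_Iic (fun t _ => gaussianPDFReal_nonneg 0 1 t)
  rw [h1, h1, ← intervalIntegral.integral_Iic_sub_Iic hfi.integrableOn hfi.integrableOn]

theorem pdf_eq (t : ℝ) : gaussianPDFReal 0 1 t = (√(2 * Real.pi))⁻¹ * Real.exp (-t ^ 2 / 2) := by
  rw [gaussianPDFReal]
  simp

theorem pdf_le (t : ℝ) : gaussianPDFReal 0 1 t ≤ 1 := by
  rw [pdf_eq]
  have h1 : 1 ≤ √(2 * Real.pi) := by
    rw [Real.one_le_sqrt]
    have := Real.pi_gt_three
    linarith
  have h2 : (√(2 * Real.pi))⁻¹ ≤ 1 := inv_le_one_of_one_le₀ h1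
  have h3 : Real.exp (-t ^ 2 / 2) ≤ 1 := by
    rw [Real.exp_le_one_iff]
    have := sq_nonneg t
    linarith
  exact mul_le_one₀ h2 (Real.exp_nonneg _) h3

theorem Nd_lip {x y : ℝ} (h : x ≤ y) : Nd y - Nd x ≤ y - x := by
  rw [Nd_sub]
  have hc : Continuous (gaussianPDFReal 0 1) := by
    rw [gaussianPDFReal_def]
    fun_prop
  calc ∫ t in x..y, gaussianPDFReal 0 1 t ≤ ∫ _ in x..y, (1 : ℝ) := by
        apply intervalIntegral.integral_mono_on h (hc.intervalIntegrable _ _) (by simp)
        intro t _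
        exact pdf_le t
    _ = y - x := by simp

theorem Nd_nonneg (x : ℝ) : 0 ≤ Nd x := measureReal_nonneg

theorem Nd_le_one (x : ℝ) : Nd x ≤ 1 := measureReal_le_one

theorem Nd_top : Tendsto Nd atTop (𝓝 1) := by
  have h := tendsto_cdf_atTop (gaussianReal 0 1)
  refine h.congr ?_
  intro x
  rw [cdf_eq_real]
  rfl

theorem Nd_bot : Tendsto Nd atBot (𝓝 0) := by
  have h := tendsto_cdf_atBot (gaussianReal 0 1)
  refine h.congr ?_
  intro x
  rw [cdf_eq_real]
  rfl

/-- **uniform convergence** -/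
theorem polya {ε : ℝ} (hε : 0 < ε) : ∃ K0 : ℕ, ∀ k ≥ K0, ∀ x : ℝ, |(mu k).real (Set.Iic x) - Nd x| ≤ ε := by
  obtain ⟨A1, hA1⟩ := (Nd_top.eventually (lt_mem_nhds (show 1 - ε / 4 < 1 by linarith))).exists_forall_of_atTop
  obtain ⟨A2, hA2⟩ := (Nd_bot.eventually (gt_mem_nhds (show (0 : ℝ) < ε / 4 by positivity))).exists_forall_of_atBot
  set A := max A1 (max (-A2) 1) with hA
  have hA1' : A1 ≤ A := le_max_left _ _
  have hA2' : -A ≤ A2 := by
    have : -A2 ≤ A := (le_max_left _ _).trans (le_max_right _ _)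
    linarith
  have hA0 : 1 ≤ A := (le_max_right _ _).trans (le_max_right _ _)
  set d := ε / 4 with hd
  have hd0 : 0 < d := by positivity
  set m := ⌈2 * A / d⌉₊ with hm
  have hm1 : 2 * A / d ≤ m := Nat.le_ceil _
  have hm2 : 2 * A ≤ m * d := by rwa [div_le_iff₀ hd0] at hm1
  set X : ℕ → ℝ := fun j => -A + j * d with hX
  have hev : ∀ᶠ k in atTop, ∀ j ∈ range (m + 1), |(mu k).real (Set.Iic (X j)) - Nd (X j)| ≤ ε / 4 := by
    rw [Filter.eventually_all_finset]
    intro j _
    have h := (mu_lim (X j)).sub_const (Nd (X j))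
    rw [sub_self] at h
    have h2 := h.abs
    rw [abs_zero] at h2
    filter_upwards [h2.eventually (gt_mem_nhds (show (0 : ℝ) < ε / 4 by positivity))] with k hk
    exact hk.le
  obtain ⟨K0, hK0⟩ := eventually_atTop.1 hev
  refine ⟨K0, fun k hk x => ?_⟩
  have hgrid := hK0 k hk
  set F : ℝ → ℝ := fun x => (mu k).real (Set.Iic x) with hF
  have hFmono : Monotone F := fun x y h => measureReal_mono (Set.Iic_subset_Iic.2 h) (measure_ne_top _ _)
  have hF0 : ∀ x, 0 ≤ F x := fun x => measureReal_nonneg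
  have hF1 : ∀ x, F x ≤ 1 := fun x => measureReal_le_one
  change |F x - Nd x| ≤ ε
  rcases lt_or_ge x (-A) with hx | hx
  · have h1 := abs_le.1 (hgrid 0 (by simp))
    have e : X 0 = -A := by rw [hX]; simp
    rw [e] at h1
    have h2 := hA2 (-A) hA2'
    have h3 := hFmono hx.le
    have h4 := Nd_mono hx.le
    have h5 := hF0 x
    have h6 := Nd_nonneg x
    have h7 : F (-A) ≤ Nd (-A) + ε / 4 := by
      have := h1.2
      change F (-A) - Nd (-A) ≤ ε / 4 at this
      linarith
    rw [abs_le]
    constructor <;> linarith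
  · set j := ⌊(x + A) / d⌋₊ with hj
    have hxA : 0 ≤ (x + A) / d := div_nonneg (by linarith) hd0.le
    have h1 : (j : ℝ) ≤ (x + A) / d := Nat.floor_le hxA
    have h2 : (x + A) / d < j + 1 := Nat.lt_floor_add_one _
    have h1' : X j ≤ x := by
      rw [le_div_iff₀ hd0] at h1
      rw [hX]; simp only; linarith
    have h2' : x ≤ X (j + 1) := by
      rw [div_lt_iff₀ hd0] at h2
      rw [hX]; simp only; push_cast; linarith
    rcases Nat.lt_or_ge j m with hjm | hjm
    · have g1 := abs_le.1 (hgrid j (by rw [mem_range]; omega))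
      have g2 := abs_le.1 (hgrid (j + 1) (by rw [mem_range]; omega))
      have g1' : Nd (X j) - ε / 4 ≤ F (X j) := by
        have := g1.1
        change -(ε / 4) ≤ F (X j) - Nd (X j) at this
        linarith
      have g2' : F (X (j + 1)) ≤ Nd (X (j + 1)) + ε / 4 := by
        have := g2.2
        change F (X (j + 1)) - Nd (X (j + 1)) ≤ ε / 4 at this
        linarith
      have e : X (j + 1) - X j = d := by rw [hX]; simp only; push_cast; ring
      have g3 := Nd_lip (show X j ≤ X (j + 1) by linarith)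
      have g4 := hFmono h1'
      have g5 := hFmono h2'
      have g6 := Nd_mono h1'
      have g7 := Nd_mono h2'
      rw [e, hd] at g3
      rw [abs_le]
      constructor <;> linarith
    · have g1 := abs_le.1 (hgrid m (by rw [mem_range]; omega))
      have g1' : Nd (X m) - ε / 4 ≤ F (X m) := by
        have := g1.1
        change -(ε / 4) ≤ F (X m) - Nd (X m) at this
        linarith
      have hXm : A ≤ X m := by rw [hX]; simp only; linarith
      have hXmj : X m ≤ x := by
        have : (m : ℝ) ≤ j := by exact_mod_cast hjm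
        have : (m : ℝ) * d ≤ j * d := mul_le_mul_of_nonneg_right this hd0.le
        rw [hX] at h1' ⊢
        simp only at h1' ⊢
        linarith
      have g2 := hA1 (X m) (by linarith)
      have g3 := hFmono hXmj
      have g4 := Nd_mono hXmj
      have g5 := hF1 x
      have g6 := Nd_le_one x
      rw [abs_le]
      constructor <;> linarith

/-- the probability that a normal variable is at most `x` in absolute value -/
noncomputable def Er (x : ℝ) : ℝ := Nd x - Nd (-x)

theorem Er_mono : Monotone Er := by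
  intro x y h
  unfold Er
  have := Nd_mono h
  have := Nd_mono (neg_le_neg h)
  linarith

theorem Er_lip {x y : ℝ} (h : x ≤ y) : Er y - Er x ≤ 2 * (y - x) := by
  unfold Er
  have := Nd_lip h
  have := Nd_lip (neg_le_neg h)
  linarith

theorem Er_zero : Er 0 = 0 := by unfold Er; simp

theorem Er_top : Tendsto Er atTop (𝓝 1) := by
  have h := Nd_top.sub (Nd_bot.comp tendsto_neg_atTop_atBot)
  rw [sub_zero] at h
  exact h

theorem Er_le_one (x : ℝ) : Er x ≤ 1 := by
  unfold Er
  have := Nd_le_one x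
  have := Nd_nonneg (-x)
  linarith

/-- **the limit of the distribution of the hitting time of zero** -/
theorem uu_lim {ε : ℝ} (hε : 0 < ε) : ∃ K0 : ℕ, ∀ k ≥ K0, ∀ i : ℕ, |uu k i - Er (i / √k)| ≤ ε := by
  obtain ⟨K0, hK0⟩ := polya (show 0 < ε / 2 by positivity)
  refine ⟨max K0 1, fun k hk i => ?_⟩
  have hk1 : 1 ≤ k := (le_max_right _ _).trans hk
  have hk0 : K0 ≤ k := (le_max_left _ _).trans hk
  rw [uu_eq, ← mu_Iic hk1, ← mu_Iic hk1]
  unfold Er
  have h1 := abs_le.1 (hK0 k hk0 ((i : ℝ) / √k))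
  have h2 := abs_le.1 (hK0 k hk0 (-((i : ℝ) / √k)))
  push_cast
  rw [neg_div]
  rw [abs_le]
  constructor <;> linarith [h1.1, h1.2, h2.1, h2.2]

end Pool.Agent.T6.H47.CL
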