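import Pool.Agent.T6.H47.CL8

set_option autoImplicit false

/-! The law of the hitting time of the level zero. -/

namespace Pool.Agent.T6.H47.CL

open Finset Filter Topology Pool.Agent.H499R2.CO

theorem abs_sqrt_sub_one {a : ℝ} (ha : 0 ≤ a) : |√a - 1| ≤ |a - 1| := by
  have h1 : a - 1 = (√a - 1) * (√a + 1) := by
    have := Real.mul_self_sqrt ha
    linarith
  rw [h1, abs_mul]
  have h2 : 1 ≤ |√a + 1| := by
    rw [abs_of_nonneg (by positivity)]
    have := Real.sqrt_nonneg a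
    linarith
  exact le_mul_of_one_le_right (abs_nonneg _) h2

/-- continuity in the time -/
theorem Er_close {δ κ : ℝ} (hδ : 0 < δ) (hδ1 : δ ≤ 1) (hκ : 0 ≤ κ) (hκ1 : κ ≤ 1 / 2) {i x y : ℝ} (hi : 0 ≤ i)
    (hx : 0 < x) (hy : 0 < y) (h1 : (1 - κ) * y ≤ x) (h2 : x ≤ (1 + κ) * y) (hiy : i ^ 2 ≤ y / δ) :
    |Er (√2 * i / √x) - Er (√2 * i / √y)| ≤ 8 * κ / δ := by
  have hsx : 0 < √x := Real.sqrt_pos.2 hx
  have hsy : 0 < √y := Real.sqrt_pos.2 hy
  have e1 : √2 * i / √x = (√2 * i / √y) * √(y / x) := by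
    rw [Real.sqrt_div hy.le]
    field_simp
  have h3 : √2 * i / √y ≤ 2 / δ := by
    rw [div_le_div_iff₀ hsy hδ]
    have h4 : (√2 * i * δ) ^ 2 ≤ (2 * √y) ^ 2 := by
      rw [mul_pow, mul_pow, mul_pow, Real.sq_sqrt (by norm_num), Real.sq_sqrt hy.le]
      have h5 : i ^ 2 * δ ≤ y := by rwa [le_div_iff₀ hδ] at hiy
      have h6 : i ^ 2 * δ ^ 2 ≤ y := by
        calc i ^ 2 * δ ^ 2 = (i ^ 2 * δ) * δ := by ring
          _ ≤ y * 1 := mul_le_mul h5 hδ1 hδ.le hy.le
          _ = y := mul_one y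
      nlinarith
    exact le_of_sq_le_sq h4 (by positivity)
  have h3' : 0 ≤ √2 * i / √y := by positivity
  have h4 : |y / x - 1| ≤ 2 * κ := by
    rw [abs_le]
    constructor
    · have : y / x ≥ 1 / (1 + κ) := by
        rw [ge_iff_le, div_le_div_iff₀ (by linarith) hx]
        linarith
      have h5 : 1 / (1 + κ) ≥ 1 - κ := by
        rw [ge_iff_le, le_div_iff₀ (by linarith)]
        nlinarith
      linarith
    · have : y / x ≤ 1 / (1 - κ) := by
        rw [div_le_div_iff₀ hx (by linarith)]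
        linarith
      have h5 : 1 / (1 - κ) ≤ 1 + 2 * κ := by
        rw [div_le_iff₀ (by linarith)]
        nlinarith
      linarith
  have h5 : |√(y / x) - 1| ≤ 2 * κ := (abs_sqrt_sub_one (by positivity)).trans h4
  have h6 : |√2 * i / √x - √2 * i / √y| ≤ 4 * κ / δ := by
    rw [e1, show √2 * i / √y * √(y / x) - √2 * i / √y = (√2 * i / √y) * (√(y / x) - 1) by ring, abs_mul,
      abs_of_nonneg h3']
    calc _ ≤ 2 / δ * (2 * κ) := mul_le_mul h3 h5 (abs_nonneg _) (by positivity)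
      _ = 4 * κ / δ := by ring
  have h7 : |Er (√2 * i / √x) - Er (√2 * i / √y)| ≤ 2 * |√2 * i / √x - √2 * i / √y| := by
    rcases le_total (√2 * i / √x) (√2 * i / √y) with h | h
    · rw [abs_sub_comm, abs_of_nonneg (by have := Er_mono h; linarith), abs_sub_comm, abs_of_nonneg (by linarith)]
      exact Er_lip h
    · rw [abs_of_nonneg (by have := Er_mono h; linarith), abs_of_nonneg (by linarith)]
      exact Er_lip h
  calc _ ≤ 2 * (4 * κ / δ) := h7.trans (by linarith)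
    _ = _ := by ring

theorem Er_scale (i k : ℝ) (hk : 0 < k) : Er (i / √k) = Er (√2 * i / √(2 * k)) := by
  congr 1
  rw [Real.sqrt_mul (by norm_num)]
  have h1 : 0 < √k := Real.sqrt_pos.2 hk
  have h2 : 0 < √(2 : ℝ) := Real.sqrt_pos.2 (by norm_num)
  field_simp

/-- **the law of the hitting time of the level zero** -/
theorem alive_law {ε δ : ℝ} (hε : 0 < ε) (hδ : 0 < δ) (hδ1 : δ ≤ 1) : ∃ T0 : ℕ, ∀ t ≥ T0, ∀ (i : ℕ) (r : ℤ),
    (i : ℝ) ^ 2 ≤ t / δ → |al t (i, r) - Er (√2 * i / √t)| ≤ ε := by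
  set θ : ℝ := min (1 / 8) (ε * δ / 128) with hθ
  have hθ0 : 0 < θ := by rw [hθ]; apply lt_min <;> positivity
  have hθ1 : θ ≤ 1 / 8 := min_le_left _ _
  have hθ2 : θ ≤ ε * δ / 128 := min_le_right _ _
  set ε₁ : ℝ := ε * δ * θ ^ 2 / 16 with hε₁
  have hε₁0 : 0 < ε₁ := by positivity
  obtain ⟨A, hA, hvv⟩ := vv_small hε₁0
  obtain ⟨K0, hK0⟩ := uu_lim (show 0 < ε / 4 by positivity)
  set l : ℝ := ε * θ ^ 2 * δ / (16 * (A + 1)) with hl
  have hl0 : 0 < l := by positivity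
  obtain ⟨T1, hT1⟩ := exists_nat_ge (16 * (A + 1) * (1 + 1 / l) / (ε * θ ^ 2))
  obtain ⟨T2, hT2⟩ := exists_nat_ge (2 / θ)
  refine ⟨max (max T1 T2) (4 * K0 + 8), fun t ht i r hit => ?_⟩
  have ht1 : T1 ≤ t := (le_max_left _ _).trans ((le_max_left _ _).trans ht)
  have ht2 : T2 ≤ t := (le_max_right _ _).trans ((le_max_left _ _).trans ht)
  have ht3 : 4 * K0 + 8 ≤ t := (le_max_right _ _).trans ht
  have htr1 : 16 * (A + 1) * (1 + 1 / l) / (ε * θ ^ 2) ≤ t := hT1.trans (by exact_mod_cast ht1)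
  have htr2 : 2 / θ ≤ t := hT2.trans (by exact_mod_cast ht2)
  have htr3 : (4 * K0 + 8 : ℝ) ≤ t := by exact_mod_cast ht3
  have htpos : (0 : ℝ) < t := lt_of_lt_of_le (by positivity) htr3
  have hi0 : (0 : ℝ) ≤ i := Nat.cast_nonneg i
  have htθ : 2 ≤ θ * t := by rw [div_le_iff₀ hθ0] at htr2; linarith
  set c : ℝ := θ * t with hc
  have hc0 : 0 < c := by positivity
  -- the second moment
  have hmom : GG t (i, r) 0 / c ^ 2 ≤ ε / 4 := by
    rw [GG_zero, div_le_iff₀ (by positivity)]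
    refine (hvv t i r).trans ?_
    have h1 : A * (1 + i) ≤ ε * θ ^ 2 * t / 8 := by
      have h2 : (i : ℝ) ≤ l * (t / δ) + 1 / l := by
        have h3 : (i : ℝ) ≤ l * i ^ 2 + 1 / l := by
          have h4 : 0 ≤ (l * i - 1) ^ 2 := sq_nonneg _
          have h5 : l * i ≤ l * (l * i ^ 2 + 1 / l) := by
            have e : l * (l * (i : ℝ) ^ 2 + 1 / l) = l ^ 2 * i ^ 2 + 1 := by field_simp
            rw [e]; nlinarith [mul_nonneg hl0.le hi0]
          exact le_of_mul_le_mul_left h5 hl0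
        have := mul_le_mul_of_nonneg_left hit hl0.le
        linarith
      have h3 : (A + 1) * (l * (t / δ)) = ε * θ ^ 2 * t / 16 := by
        rw [hl]; field_simp
      have h4 : (A + 1) * (1 + 1 / l) ≤ ε * θ ^ 2 * t / 16 := by
        rw [div_le_iff₀ (by positivity)] at htr1
        linarith
      calc A * (1 + i) ≤ (A + 1) * (1 + i) := by nlinarith
        _ ≤ (A + 1) * (1 + (l * (t / δ) + 1 / l)) := mul_le_mul_of_nonneg_left (by linarith) (by linarith)
        _ = (A + 1) * (l * (t / δ)) + (A + 1) * (1 + 1 / l) := by ring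
        _ ≤ _ := by linarith
    have h2 : ε₁ * (t + (i : ℝ) ^ 2) ≤ ε * θ ^ 2 * t / 8 := by
      have h3 : (t : ℝ) ≤ t / δ := by rw [le_div_iff₀ hδ]; nlinarith
      have h4 : (t : ℝ) + (i : ℝ) ^ 2 ≤ 2 * (t / δ) := by linarith
      calc ε₁ * (t + (i : ℝ) ^ 2) ≤ ε₁ * (2 * (t / δ)) := mul_le_mul_of_nonneg_left h4 hε₁0.le
        _ = ε * θ ^ 2 * t / 8 := by rw [hε₁]; field_simp; norm_num
    calc (t : ℝ) * (A * (1 + i) + ε₁ * (t + (i : ℝ) ^ 2)) ≤ t * (ε * θ ^ 2 * t / 4) :=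
          mul_le_mul_of_nonneg_left (by linarith) htpos.le
      _ = ε / 4 * c ^ 2 := by rw [hc]; ring
  have hδ8 : 8 * (2 * θ) / δ ≤ ε / 8 := by
    rw [div_le_iff₀ hδ]; linarith
  -- the two numbers of moves
  rw [abs_le]
  constructor
  · -- lower bound
    set k := ⌈(1 + θ) * t / 2⌉₊ with hk
    have hk1 : (1 + θ) * t / 2 ≤ k := Nat.le_ceil _
    have hk2 : (k : ℝ) < (1 + θ) * t / 2 + 1 := Nat.ceil_lt_add_one (by positivity)
    have hkpos : (0 : ℝ) < k := lt_of_lt_of_le (by positivity) hk1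
    have hkK : K0 ≤ k := by
      have : (K0 : ℝ) ≤ k := by nlinarith
      exact_mod_cast this
    have h1 := al_ge hc0 t k (i, r) 0 (by rw [hc]; linarith)
    have h2 := abs_le.1 (hK0 k hkK i)
    rw [Er_scale _ _ hkpos] at h2
    have h3 := abs_le.1 (Er_close hδ hδ1 (κ := 2 * θ) (by positivity) (by linarith) hi0 (x := 2 * k) (y := t)
      (by positivity) htpos (by nlinarith) (by nlinarith) hit)
    simp only at h1
    linarith [h1, h2.1, h3.1]
  · -- upper bound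
    set k := ⌊(1 - θ) * t / 2⌋₊ with hk
    have hk1 : (k : ℝ) ≤ (1 - θ) * t / 2 := Nat.floor_le (by nlinarith)
    have hk2 : (1 - θ) * t / 2 < k + 1 := Nat.lt_floor_add_one _
    have hkpos : (0 : ℝ) < k := by nlinarith
    have hkK : K0 ≤ k := by
      have : (K0 : ℝ) ≤ k := by nlinarith
      exact_mod_cast this
    have h1 := al_le hc0 t k (i, r) 0 (by rw [hc]; linarith)
    have h2 := abs_le.1 (hK0 k hkK i)
    rw [Er_scale _ _ hkpos] at h2
    have h3 := abs_le.1 (Er_close hδ hδ1 (κ := 2 * θ) (by positivity) (by linarith) hi0 (x := 2 * k) (y := t)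
      (by positivity) htpos (by nlinarith) (by nlinarith) hit)
    simp only at h1
    linarith [h1, h2.2, h3.2]

end Pool.Agent.T6.H47.CL
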